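import Mathlib

/-!
# Plumbing forests and their SO(3) state sums

`Forest`: finite ordered forests of rooted trees with integer weights (framings).  `cons e c s` is the forest
whose first tree has a root of weight `e` with the trees of `c` hanging at it, followed by the trees of `s`.
A plumbing tree is a pair `(e, F)`: a root of weight `e` with the trees of `F` hanging at it.
-/

set_option autoImplicit false

namespace Pool.Agent.Lib.MP_f2058c_gt

/-- Finite ordered forests of weighted rooted trees. -/
inductive Forest : Type
  | nil : Forest
  | cons (e : ℤ) (c s : Forest) : Forest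

namespace Forest

/-- Number of trees. -/
def len : Forest → ℕ
  | nil => 0
  | cons _ _ s => len s + 1

/-- Number of vertices. -/
def card : Forest → ℕ
  | nil => 0
  | cons _ c s => card c + card s + 1

/-- Sum of the weights. -/
def tr : Forest → ℤ
  | nil => 0
  | cons e c s => e + tr c + tr s

/-- `(P, Q)`: `P` = product of the determinants of the trees, `Q` = sum over the trees of (product of the
determinants of the branches at its root) times (product of the determinants of the other trees). -/
def PQ : Forest → ℤ × ℤ
  | nil => (1, 0)
  | cons e c s =>
      ((e * (PQ c).1 - (PQ c).2) * (PQ s).1,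
        (PQ c).1 * (PQ s).1 + (e * (PQ c).1 - (PQ c).2) * (PQ s).2)

/-- Determinant of the linking matrix (weights on the diagonal, `1` for each edge) of the tree `(e, F)`. -/
def det (e : ℤ) (F : Forest) : ℤ := e * (PQ F).1 - (PQ F).2

/-- The tree `(e, F)` is a chain: every vertex has at most one child. -/
def IsChain : Forest → Prop
  | nil => True
  | cons _ c nil => IsChain c
  | cons _ _ (cons _ _ _) => False

/-- Every tree of the forest which is a chain has determinant different from `0, 1, -1`. -/
def LeavesOK : Forest → Prop
  | nil => True
  | cons e c s => (IsChain c → 2 ≤ |det e c|) ∧ LeavesOK s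

/-- Reduced: at every vertex with at least two children the branches which are chains have determinant
different from `0, 1, -1`. -/
def Red : Forest → Prop
  | nil => True
  | cons _ c s => (2 ≤ len c → LeavesOK c) ∧ Red c ∧ Red s

end Forest

open Forest

noncomputable section

/-- The quantum integer `[n] = (q^(n/2) - q^(-n/2)) / (q^(1/2) - q^(-1/2))` at `q = exp (2 π i / r)`. -/
def qint (r n : ℕ) : ℂ := ((Real.sin (Real.pi * n / r) / Real.sin (Real.pi / r) : ℝ) : ℂ)

/-- Framing factor `q^(e (n^2 - 1) / 4)` at `q = exp (2 π i / r)`. -/
def twist (r : ℕ) (e : ℤ) (n : ℕ) : ℂ :=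
  Complex.exp (2 * Real.pi * Complex.I / r * (e * ((n : ℂ) ^ 2 - 1) / 4))

/-- The colours: odd `n` with `0 < n < r`. -/
def colours (r : ℕ) : Finset ℕ := (Finset.range r).filter fun n => Odd n

/-- State sum of a forest whose roots are all joined to a vertex of colour `a`: the sum over all colourings of the
vertices of the product of `[n_v]^(2 - deg v) q^(e_v (n_v^2 - 1)/4)` over the vertices and `[n_v n_w]` over the edges
(`deg` counts the edges to the children and the edge to the parent). -/
def branches (r : ℕ) : Forest → ℕ → ℂ
  | nil, _ => 1
  | cons e c s, a =>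
      (∑ n ∈ colours r, twist r e n * qint r n ^ (1 - (len c : ℤ)) * branches r c n * qint r (n * a)) *
        branches r s a

/-- State sum of the plumbing tree `(e, F)`. -/
def stateSum (r : ℕ) (e : ℤ) (F : Forest) : ℂ :=
  ∑ n ∈ colours r, twist r e n * qint r n ^ (2 - (len F : ℤ)) * branches r F n

/-- The state sum of the unknot with framing `ε`. -/
def unknot (r : ℕ) (ε : ℤ) : ℂ := ∑ n ∈ colours r, twist r ε n * qint r n ^ 2

/-- The quantum `SO(3)` invariant of the connected sum of the plumbed manifolds of the trees in `L`; `bp`, `bm` are the
numbers of positive and negative eigenvalues of the linking matrix. -/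
def tau (r : ℕ) (L : List (ℤ × Forest)) (bp bm : ℕ) : ℂ :=
  (L.map fun T => stateSum r T.1 T.2).prod / (unknot r 1 ^ bp * unknot r (-1) ^ bm)

end

end Pool.Agent.Lib.MP_f2058c_gt
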