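import Mathlib
import Pool.Agent.Lib.MP_f2058c_gt.Defs

/-!
# Base definitions for the proof

All analytic objects live on `ZMod p`, `p` a prime.

* `chi p b = exp (2 π i (b/2) / p)` (a character of `ZMod p`), `DD p u = chi u - chi (-u)`, `xx p = chi 1 - 1`.
* `gg p d`: Gauss sum.
* `OO p`: the ring of complex numbers that are `p`-integral.
* `WW p k`: the filtration of functions on `ZMod p` (`xx` has weight 2 and `chi u - 1` has weight 1).
* `TT p d`, `T2 p β K`: the two Gaussian transforms.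
* `yy`, `hh`: truncated logarithms; `E5 p P`: the exponential of `A h + B y^2 + C h^2 + D h y^2 + E y^4` up to weight 5.
* `BF`: the state sums of forests as functions on `ZMod p`.
* `fd`, `rt`: the rational data of a forest and of a rooted tree.
* `RepA`, `RepB`, `TreeReg`, `TreeZero`, `RootRep`: the representations proved by induction.
-/

set_option autoImplicit false

namespace Pool.Agent.Lib.MP_f2058c_gt

open Forest Finset

noncomputable section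

/-! ## Parameters and rational data (no prime) -/

/-- Parameters `A B C D E`. -/
@[ext] structure Par where
  A : ℚ
  B : ℚ
  C : ℚ
  D : ℚ
  E : ℚ

instance : Add Par := ⟨fun P R => ⟨P.A + R.A, P.B + R.B, P.C + R.C, P.D + R.D, P.E + R.E⟩⟩

@[simp] theorem Par.add_A (P R : Par) : (P + R).A = P.A + R.A := rfl
@[simp] theorem Par.add_B (P R : Par) : (P + R).B = P.B + R.B := rfl
@[simp] theorem Par.add_C (P R : Par) : (P + R).C = P.C + R.C := rfl
@[simp] theorem Par.add_D (P R : Par) : (P + R).D = P.D + R.D := rfl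
@[simp] theorem Par.add_E (P R : Par) : (P + R).E = P.E + R.E := rfl

/-- The parameters of `DD`. -/
def PD : Par := ⟨0, 1 / 24, 0, 0, -1 / 2880⟩

/-- Subtract `PD`. -/
def Par.hat (P : Par) : Par := ⟨P.A, P.B - 1 / 24, P.C, P.D, P.E + 1 / 2880⟩

/-- Transformation of the parameters, case A. -/
def transA (s : ℚ) (P : Par) : Par :=
  ⟨P.A + 6 * P.B * s, P.B * s ^ 2, P.C + 6 * s * P.D + 60 * s ^ 2 * P.E + 12 * P.B ^ 2 * s ^ 2,
    P.D * s ^ 2 + 20 * P.E * s ^ 3 + 4 * P.B ^ 2 * s ^ 3, P.E * s ^ 4⟩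

/-- Transformation of the parameters, case B. -/
def transB (β : ℚ) (P R : Par) : Par :=
  ⟨P.A + R.A + 6 * P.B * β, P.B,
    P.C + R.C + 6 * P.D * β + 60 * P.E * β ^ 2 + 12 * P.B ^ 2 * β ^ 2 + 24 * R.B * P.B,
    P.D + 20 * P.E * β + 4 * P.B ^ 2 * β, P.E⟩

/-- Data of a forest: `σ`, the leading constant `c`, the parameters and the number `e2`. -/
structure Dat where
  σ : ℚ
  c : ℚ
  P : Par
  e2 : ℚ

/-- `e1`. -/
def e1 (P : Par) : ℚ := -24 * P.B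

/-- Add a tree to a forest. -/
def addTree (r : Dat) (s c : ℚ) (T : Par) : Dat := ⟨r.σ + s, r.c * c, r.P + T, r.e2 + e1 T * e1 r.P⟩

/-- Data of a forest: the data of the trees with determinant different from zero, and the data of the forest below
the root of the tree with determinant zero (if there is such a tree). -/
def fd : Forest → Dat × Option Dat
  | .nil => (⟨0, 1, ⟨0, 0, 0, 0, 0⟩, 0⟩, none)
  | .cons e c s =>
    match (fd c).2 with
    | none =>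
      if (e : ℚ) + (fd c).1.σ = 0 then ((fd s).1, some (fd c).1)
      else
        (addTree (fd s).1 (-1 / ((e : ℚ) + (fd c).1.σ)) ((fd c).1.c * (-1 / ((e : ℚ) + (fd c).1.σ)))
          (transA (-1 / ((e : ℚ) + (fd c).1.σ)) ((fd c).1.P + PD)).hat, (fd s).2)
    | some w =>
      (addTree (fd s).1 0 (-(w.c * (fd c).1.c)) (transB ((e : ℚ) + (fd c).1.σ) (w.P + PD) (fd c).1.P).hat,
        (fd s).2)

/-- Root data, case A (`s = -1/d`). -/
def rtA (s : ℚ) (a : Dat) : ℚ × ℚ × ℚ :=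
  (2 * s * a.c, (a.P + PD + PD).A + 6 * (a.P + PD + PD).B * s,
    (a.P + PD + PD).C + 6 * s * (a.P + PD + PD).D + 60 * s ^ 2 * (a.P + PD + PD).E +
      12 * (a.P + PD + PD).B ^ 2 * s ^ 2)

/-- Root data, case B. -/
def rtB (β : ℚ) (w a : Dat) : ℚ × ℚ × ℚ :=
  (-2 * w.c * a.c, (w.P + PD).A + (a.P + PD).A + 6 * (w.P + PD).B * β,
    (w.P + PD).C + (a.P + PD).C + 6 * (w.P + PD).D * β + 60 * (w.P + PD).E * β ^ 2 +
      12 * (w.P + PD).B ^ 2 * β ^ 2 + 24 * (w.P + PD).B * (a.P + PD).B)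

/-- Root data. -/
def rt (e : ℤ) (F : Forest) : ℚ × ℚ × ℚ :=
  match (fd F).2 with
  | none => rtA (-1 / ((e : ℚ) + (fd F).1.σ)) (fd F).1
  | some w => rtB ((e : ℚ) + (fd F).1.σ) w (fd F).1

/-- The two numbers `PQ F` are coprime. -/
def Cop (F : Forest) : Prop := IsCoprime (PQ F).1 (PQ F).2

/-- The quadratic form of the positivity argument. -/
def Xi (w : Dat) (z : ℚ) : ℚ :=
  48 * w.P.C + 288 * w.P.D * z + ((e1 w.P) ^ 2 - 2 * w.e2 - 2 * e1 w.P + 2880 * w.P.E) * z ^ 2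

/-! ## Characters -/

variable (p : ℕ) [Fact p.Prime]

/-- `chi b = exp (2 π i (b/2) / p)`. -/
def chi (b : ZMod p) : ℂ := ZMod.stdAddChar (b / 2)

/-- `chi u - chi (-u)`. -/
def DD (u : ZMod p) : ℂ := chi p u - chi p (-u)

/-- `chi 1 - 1`. -/
def xx : ℂ := chi p 1 - 1

/-- Gauss sum. -/
def gg (d : ZMod p) : ℂ := ∑ u : ZMod p, chi p (d * u ^ 2 / 2)

/-- The ring of `p`-integral complex numbers. -/
def OO : Subring ℂ where
  carrier := {z | ∃ m : ℕ, ¬ p ∣ m ∧ IsIntegral ℤ ((m : ℂ) * z)}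
  mul_mem' := by
    rintro a b ⟨m, hm, ha⟩ ⟨n, hn, hb⟩
    refine ⟨m * n, ?_, ?_⟩
    · rw [(Fact.out : p.Prime).dvd_mul]; tauto
    · have h := ha.mul hb
      have e : ((m * n : ℕ) : ℂ) * (a * b) = (m : ℂ) * a * ((n : ℂ) * b) := by push_cast; ring
      rw [e]; exact h
  one_mem' := ⟨1, by simpa using (Fact.out : p.Prime).one_lt.ne', by simpa using isIntegral_one⟩
  add_mem' := by
    rintro a b ⟨m, hm, ha⟩ ⟨n, hn, hb⟩
    refine ⟨m * n, ?_, ?_⟩
    · rw [(Fact.out : p.Prime).dvd_mul]; tauto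
    · have h1 : IsIntegral ℤ ((n : ℂ) * ((m : ℂ) * a)) := IsIntegral.mul (isIntegral_algebraMap (R := ℤ) (x := (n : ℤ)) |> fun h => by simpa using h) ha
      have h2 : IsIntegral ℤ ((m : ℂ) * ((n : ℂ) * b)) := IsIntegral.mul (isIntegral_algebraMap (R := ℤ) (x := (m : ℤ)) |> fun h => by simpa using h) hb
      have e : ((m * n : ℕ) : ℂ) * (a + b) = (n : ℂ) * ((m : ℂ) * a) + (m : ℂ) * ((n : ℂ) * b) := by
        push_cast; ring
      rw [e]; exact h1.add h2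
  zero_mem' := ⟨1, by simpa using (Fact.out : p.Prime).one_lt.ne', by simpa using isIntegral_zero⟩
  neg_mem' := by
    rintro a ⟨m, hm, ha⟩
    refine ⟨m, hm, ?_⟩
    have e : (m : ℂ) * (-a) = -((m : ℂ) * a) := by ring
    rw [e]; exact ha.neg

/-- Generators of the filtration. -/
def gen (c : ℂ) (m n : ℕ) (b : ZMod p) : ZMod p → ℂ :=
  fun u => c * xx p ^ m * (chi p u - 1) ^ n * chi p (b * u)

/-- The filtration. -/
def WW (k : ℕ) : AddSubgroup (ZMod p → ℂ) :=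
  AddSubgroup.closure {f | ∃ c ∈ OO p, ∃ (m n : ℕ) (b : ZMod p), k ≤ 2 * m + n ∧ f = gen p c m n b}

/-- The Gaussian transform. -/
def TT (d : ZMod p) : (ZMod p → ℂ) →ₗ[ℂ] (ZMod p → ℂ) where
  toFun f := fun w => (gg p d)⁻¹ * chi p (w ^ 2 / (2 * d)) * ∑ u, chi p (d * u ^ 2 / 2 + u * w) * f u
  map_add' f g := by funext w; simp only [Pi.add_apply, mul_add, sum_add_distrib]
  map_smul' c f := by
    funext w
    simp only [Pi.smul_apply, smul_eq_mul, RingHom.id_apply, mul_left_comm _ c, ← mul_sum]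

/-- The degenerate transform, linear in `G`. -/
def T2 (β : ZMod p) (K : ZMod p → ℂ) : (ZMod p → ℂ) →ₗ[ℂ] (ZMod p → ℂ) where
  toFun G := fun a => (p : ℂ)⁻¹ * ∑ u, ∑ w, chi p (w * u + β * u ^ 2 / 2 + u * a) * K u * G w
  map_add' f g := by funext w; simp only [Pi.add_apply, mul_add, sum_add_distrib]
  map_smul' c f := by
    funext w
    simp only [Pi.smul_apply, smul_eq_mul, RingHom.id_apply, mul_left_comm _ c, ← mul_sum]

/-- `2 log (chi u)`, truncated. -/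
def yy : ZMod p → ℂ := fun u =>
  2 * ((chi p u - 1) - (chi p u - 1) ^ 2 / 2 + (chi p u - 1) ^ 3 / 3 - (chi p u - 1) ^ 4 / 4 +
    (chi p u - 1) ^ 5 / 5 - (chi p u - 1) ^ 6 / 6)

/-- `2 log (chi 1)`, truncated. -/
def hh : ℂ := 2 * (xx p - xx p ^ 2 / 2 + xx p ^ 3 / 3)

/-- The exponential of `A h + B y^2 + C h^2 + D h y^2 + E y^4` up to weight 5. -/
def E5 (P : Par) : ZMod p → ℂ := fun u =>
  1 + (P.A : ℂ) * hh p + (P.B : ℂ) * yy p u ^ 2 + ((P.C : ℂ) + (P.A : ℂ) ^ 2 / 2) * hh p ^ 2 +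
    ((P.D : ℂ) + (P.A : ℂ) * (P.B : ℂ)) * hh p * yy p u ^ 2 + ((P.E : ℂ) + (P.B : ℂ) ^ 2 / 2) * yy p u ^ 4

/-- All parameters are `p`-integral. -/
def ParOK (P : Par) : Prop :=
  (P.A : ℂ) ∈ OO p ∧ (P.B : ℂ) ∈ OO p ∧ (P.C : ℂ) ∈ OO p ∧ (P.D : ℂ) ∈ OO p ∧ (P.E : ℂ) ∈ OO p

/-- The rational number `r` is `p`-integral with residue class `m`. -/
def Cg (r : ℚ) (m : ZMod p) : Prop :=
  ∃ a b : ℤ, (b : ZMod p) ≠ 0 ∧ r * b = a ∧ (a : ZMod p) = m * b

/-- State sums of forests as functions on `ZMod p`. -/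
def BF : Forest → ZMod p → ℂ
  | .nil, _ => 1
  | .cons e c s, a =>
      (chi p (-(e : ZMod p) / 2) * DD p 1 ^ ((len c : ℤ) - 2) *
        ∑ u ∈ univ.erase 0, chi p ((e : ZMod p) * u ^ 2 / 2 + u * a) * DD p u ^ (1 - (len c : ℤ)) * BF c u) *
        BF s a

/-- State sum of one tree as a function on `ZMod p`. -/
def treeval (e : ℤ) (c : Forest) (a : ZMod p) : ℂ :=
  chi p (-(e : ZMod p) / 2) * DD p 1 ^ ((len c : ℤ) - 2) *
    ∑ u ∈ univ.erase 0, chi p ((e : ZMod p) * u ^ 2 / 2 + u * a) * DD p u ^ (1 - (len c : ℤ)) * BF p c u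

/-- `K` is even, in `WW 0`, and `K = c E5(P)` modulo `WW 6`. -/
structure KK (K : ZMod p → ℂ) (c : ℚ) (P : Par) : Prop where
  mem : K ∈ WW p 0
  even : ∀ u, K (-u) = K u
  congr : K - (c : ℂ) • E5 p P ∈ WW p 6
  hc : (c : ℂ) ∈ OO p
  hP : ParOK p P

/-- `G` is odd, in `WW 1`, and `G = c y E5(P)` modulo `WW 7`. -/
structure GK (G : ZMod p → ℂ) (c : ℚ) (P : Par) : Prop where
  mem : G ∈ WW p 1
  odd : ∀ u, G (-u) = -G u
  congr : G - (c : ℂ) • (yy p * E5 p P) ∈ WW p 7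
  hc : (c : ℂ) ∈ OO p
  hP : ParOK p P

/-- Representation of a forest without a tree of determinant zero. -/
def RepA (F : Forest) (a : Dat) : Prop :=
  ∃ (K : ZMod p → ℂ) (σ : ZMod p) (ε : ℂ), (ε = 1 ∨ ε = -1) ∧ Cg p a.σ σ ∧ KK p K a.c a.P ∧
    ∀ u : ZMod p, u ≠ 0 → BF p F u = ε * chi p (-(tr F : ZMod p) / 2) *
      DD p 1 ^ (-((card F : ℤ) + len F)) * gg p 1 ^ (card F : ℤ) * chi p (σ * u ^ 2 / 2) *
      DD p u ^ (len F : ℤ) * K u

/-- Representation of a forest with one tree of determinant zero. -/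
def RepB (F : Forest) (w a : Dat) : Prop :=
  ∃ (K G : ZMod p → ℂ) (σ : ZMod p) (ε : ℂ), (ε = 1 ∨ ε = -1) ∧ Cg p a.σ σ ∧ KK p K a.c a.P ∧
    GK p G w.c (w.P + PD) ∧
    ∀ u : ZMod p, u ≠ 0 → BF p F u = ε * chi p (-(tr F : ZMod p) / 2) *
      DD p 1 ^ (-((card F : ℤ) + len F)) * gg p 1 ^ ((card F : ℤ) - 1) * chi p (σ * u ^ 2 / 2) *
      DD p u ^ ((len F : ℤ) - 1) * K u * ∑ w, chi p (w * u) * G w

/-- Representation of a tree with determinant different from zero. -/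
def TreeReg (e : ℤ) (c : Forest) (s κ : ℚ) (P : Par) : Prop :=
  ∃ (K : ZMod p → ℂ) (σ : ZMod p) (ε : ℂ), (ε = 1 ∨ ε = -1) ∧ Cg p s σ ∧ KK p K κ P ∧
    ∀ a : ZMod p, treeval p e c a = ε * chi p (-((e : ZMod p) + (tr c : ZMod p)) / 2) *
      DD p 1 ^ (-((card c : ℤ) + 2)) * gg p 1 ^ ((card c : ℤ) + 1) * chi p (σ * a ^ 2 / 2) * DD p a * K a

/-- Representation of a tree with determinant zero. -/
def TreeZero (e : ℤ) (c : Forest) (w : Dat) : Prop :=
  ∃ (G : ZMod p → ℂ) (ε : ℂ), (ε = 1 ∨ ε = -1) ∧ GK p G w.c (w.P + PD) ∧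
    ∀ a : ZMod p, treeval p e c a = ε * chi p (-((e : ZMod p) + (tr c : ZMod p)) / 2) *
      DD p 1 ^ (-((card c : ℤ) + 2)) * gg p 1 ^ (card c : ℤ) * ∑ w, chi p (w * a) * G w

/-- Representation of the state sum of a rooted tree. -/
def RootRep (e : ℤ) (F : Forest) (r : ℚ × ℚ × ℚ) : Prop :=
  ∃ (I ε w : ℂ), (ε = 1 ∨ ε = -1) ∧ w ∈ OO p ∧ (r.1 : ℂ) ∈ OO p ∧ (r.2.1 : ℂ) ∈ OO p ∧ (r.2.2 : ℂ) ∈ OO p ∧
    stateSum p e F = ε / 2 * chi p (-((e : ZMod p) + (tr F : ZMod p)) / 2) *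
      DD p 1 ^ (-((card F : ℤ) + 2)) * gg p 1 ^ ((card F : ℤ) + 1) * I ∧
    I = (r.1 : ℂ) * hh p * (1 + (r.2.1 : ℂ) * hh p + ((r.2.2 : ℂ) + (r.2.1 : ℂ) ^ 2 / 2) * hh p ^ 2) +
      xx p ^ 4 * w

end

end Pool.Agent.Lib.MP_f2058c_gt
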