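import Mathlib
import Pool.Agent.Lib.MP_f2058c_gt.Base

/-!
# Basic facts on `chi`, `DD`, `xx`
-/

set_option autoImplicit false

namespace Pool.Agent.Lib.MP_f2058c_gt

open Finset

noncomputable section

variable (p : ℕ) [Fact p.Prime]

theorem two_ne (hp : 2 < p) : (2 : ZMod p) ≠ 0 := by
  intro h
  have h2 : ((2 : ℕ) : ZMod p) = 0 := by exact_mod_cast h
  rw [ZMod.natCast_eq_zero_iff] at h2
  exact absurd (Nat.le_of_dvd (by norm_num) h2) (by omega)

@[simp] theorem chi_zero : chi p 0 = 1 := by simp [chi]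

theorem chi_add (a b : ZMod p) : chi p (a + b) = chi p a * chi p b := by
  rw [chi, chi, chi, add_div, AddChar.map_add_eq_mul]

theorem chi_neg_mul (a : ZMod p) : chi p (-a) * chi p a = 1 := by
  rw [← chi_add, neg_add_cancel, chi_zero]

theorem chi_ne_zero (a : ZMod p) : chi p a ≠ 0 := by
  intro h
  have := chi_neg_mul p a
  rw [h, mul_zero] at this
  exact zero_ne_one this

theorem chi_neg (a : ZMod p) : chi p (-a) = (chi p a)⁻¹ := by
  have := chi_neg_mul p a
  exact eq_inv_of_mul_eq_one_left this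

theorem chi_sub (a b : ZMod p) : chi p (a - b) = chi p a * chi p (-b) := by
  rw [sub_eq_add_neg, chi_add]

theorem chi_nat_mul (n : ℕ) (b : ZMod p) : chi p ((n : ZMod p) * b) = chi p b ^ n := by
  induction n with
  | zero => simp
  | succ n ih =>
    rw [pow_succ, ← ih, ← chi_add]
    congr 1
    push_cast
    ring

theorem chi_pow_p (b : ZMod p) : chi p b ^ p = 1 := by
  rw [← chi_nat_mul]; simp

theorem chi_eq_one_iff (hp : 2 < p) (b : ZMod p) : chi p b = 1 ↔ b = 0 := by
  constructor
  · intro h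
    have h1 : chi p b = chi p 0 := by rw [h, chi_zero]
    have h2 := ZMod.injective_stdAddChar (N := p) h1
    rw [zero_div] at h2
    have h3 := two_ne p hp
    rcases div_eq_zero_iff.mp h2 with h4 | h4
    · exact h4
    · exact absurd h4 h3
  · rintro rfl; simp

theorem chi_inj (hp : 2 < p) (a b : ZMod p) (h : chi p a = chi p b) : a = b := by
  have h1 : chi p (a - b) = 1 := by
    rw [chi_sub, h, mul_comm]; exact chi_neg_mul p b
  rw [chi_eq_one_iff p hp] at h1
  exact sub_eq_zero.mp h1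

@[simp] theorem DD_zero : DD p 0 = 0 := by simp [DD]

theorem DD_neg (u : ZMod p) : DD p (-u) = -DD p u := by simp [DD]

theorem DD_ne_zero (hp : 2 < p) (u : ZMod p) (hu : u ≠ 0) : DD p u ≠ 0 := by
  intro h
  have h1 : chi p u = chi p (-u) := sub_eq_zero.mp h
  have h2 := chi_inj p hp _ _ h1
  have h3 : (2 : ZMod p) * u = 0 := by linear_combination h2
  rcases mul_eq_zero.mp h3 with h4 | h4
  · exact two_ne p hp h4
  · exact hu h4

theorem xx_ne_zero (hp : 2 < p) : xx p ≠ 0 := by
  intro h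
  have h1 : chi p 1 = 1 := sub_eq_zero.mp h
  rw [chi_eq_one_iff p hp] at h1
  exact one_ne_zero h1

theorem sum_chi_mul (hp : 2 < p) (b : ZMod p) : ∑ u : ZMod p, chi p (b * u) = if b = 0 then (p : ℂ) else 0 := by
  have h := AddChar.sum_mulShift (R := ZMod p) (R' := ℂ) (ψ := ZMod.stdAddChar) (b / 2)
    (ZMod.isPrimitive_stdAddChar p)
  have e : ∀ u : ZMod p, chi p (b * u) = ZMod.stdAddChar (u * (b / 2)) := by
    intro u; rw [chi]; congr 1; ring
  simp only [e]
  rw [h]
  have h2 := two_ne p hp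
  by_cases hb : b = 0
  · simp [hb, ZMod.card]
  · rw [if_neg hb, if_neg]
    · simp
    · intro h0
      rcases div_eq_zero_iff.mp h0 with h4 | h4
      · exact hb h4
      · exact h2 h4

theorem chi_integral (b : ZMod p) : IsIntegral ℤ (chi p b) := by
  have hp0 : 0 < p := (Fact.out : p.Prime).pos
  refine ⟨Polynomial.X ^ p - 1, Polynomial.monic_X_pow_sub_C (1 : ℤ) hp0.ne', ?_⟩
  simp [chi_pow_p]

theorem OO_of_integral {z : ℂ} (h : IsIntegral ℤ z) : z ∈ OO p :=
  ⟨1, by simpa using (Fact.out : p.Prime).one_lt.ne', by simpa using h⟩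

theorem chi_mem (b : ZMod p) : chi p b ∈ OO p := OO_of_integral p (chi_integral p b)

theorem xx_mem : xx p ∈ OO p := (OO p).sub_mem (chi_mem p 1) (OO p).one_mem

theorem DD_mem (u : ZMod p) : DD p u ∈ OO p := (OO p).sub_mem (chi_mem p u) (chi_mem p _)

end

end Pool.Agent.Lib.MP_f2058c_gt
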