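import Mathlib
import Pool.Agent.Lib.MP_f2058c_gt.ChiB

/-!
# JOB OAx: the ring `OO p` of `p`-integral complex numbers and the prime element `xx p`

`OO p = {z | exists m, p does not divide m, m z is an algebraic integer}`.

Proofs.
* `OO_rat`: take `m = r.den`; `m r = r.num` is an integer.
* `OO_of_mul_int`: if `m (z b)` is integral, use `m' = m * b.natAbs` (`b.natAbs = b` or `-b`).
* `inv_two_mem` etc.: the rational number `1/2` has denominator 2 (or use `OO_of_mul_int` with `b = 2`).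
* `OO_smooth`: `z = (2^a 3^b 5^c z) * (1/2)^a (1/3)^b (1/5)^c`.
* `chi_sub_one_eq`: `b = (b.val : ZMod p) * 1`, so `chi b = (chi 1)^b.val` (`chi_nat_mul`) and
  `zeta^n - 1 = (zeta - 1) (1 + zeta + ... + zeta^(n-1))` (`mul_geom_sum` or `geom_sum_mul`), `w` = the sum.
* `xx_eq_mul`: `1 = ((b⁻¹).val : ZMod p) * b`, hence `chi 1 = (chi b)^n` with `n = (b⁻¹).val`, then as before.
* `p_eq`, `xpow_eq`: `zeta = chi 1` is a primitive `p`-th root of unity (`zeta^p = 1`, `zeta ≠ 1`, `p` prime: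
  `IsPrimitiveRoot.mk_of_lt` or `isPrimitiveRoot_of ...`; `zeta^k = chi k`, `chi_eq_one_iff`).
  `IsPrimitiveRoot.prod_one_sub_pow_eq_order : ∏ k ∈ range n, (1 - μ ^ (k + 1)) = n + 1` for `IsPrimitiveRoot μ (n+1)`
  (apply with `n = p - 1`).  Every factor is `1 - zeta^(k+1) = 1 - chi (k+1) = - xx * w_k` by `chi_sub_one_eq`, and
  `xx = (chi (k+1) - 1) w'_k` by `xx_eq_mul` as `k + 1 ≠ 0` in `ZMod p`.  Multiply over the `p - 1` values of `k`:
  `p = xx^(p-1) * ∏ (-w_k)`, and `xx^(p-1) = ∏ (-(1 - zeta^(k+1)) w'_k) = p * ∏ (- w'_k)`.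
* `rat_xx`: `r = xx w` gives `r^(p-1) = xx^(p-1) w^(p-1) = p w'` with `w' ∈ OO p` (by `xpow_eq`).  So for some `m` prime
  to `p` the rational number `m r^(p-1) / p` is an algebraic integer, hence an integer `k`
  (`IsIntegrallyClosed.isIntegral_iff` / `IsIntegral` of a rational number, as in
  `Rat.isInt`/`IsInteger`: e.g. `(IsIntegrallyClosed.isIntegral_iff (R := ℤ) (K := ℚ)).mp`, after transporting
  integrality from `ℂ` to `ℚ` with `isIntegral_algebraMap_iff`).  With `r = a / b` in lowest terms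
  `m a^(p-1) = p k b^(p-1)`, so `p ∣ m a^(p-1)`, so `p ∣ a`.
-/

set_option autoImplicit false

namespace Pool.Agent.Lib.MP_f2058c_gt

open Finset

noncomputable section

variable (p : ℕ) [Fact p.Prime]

theorem OO_rat (r : ℚ) (h : ¬ p ∣ r.den) : (r : ℂ) ∈ OO p := by
  refine ⟨r.den, h, ?_⟩
  have e : ((r.den : ℕ) : ℂ) * (r : ℂ) = ((r.num : ℤ) : ℂ) := by
    have h1 : r * (r.den : ℚ) = (r.num : ℚ) := r.mul_den_eq_num
    have h2 : ((r * (r.den : ℚ) : ℚ) : ℂ) = ((r.num : ℚ) : ℂ) := by rw [h1]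
    push_cast at h2
    rw [mul_comm]
    exact h2
  rw [e]
  exact isIntegral_algebraMap (R := ℤ) (A := ℂ) (x := r.num)

theorem OO_of_mul_int (z : ℂ) (b : ℤ) (hb : ¬ (p : ℤ) ∣ b) (h : z * b ∈ OO p) : z ∈ OO p := by
  obtain ⟨m, hm, hz⟩ := h
  refine ⟨m * b.natAbs, ?_, ?_⟩
  · rw [(Fact.out : p.Prime).dvd_mul]
    rintro (h1 | h1)
    · exact hm h1
    · exact hb (Int.natCast_dvd.2 h1)
  · rcases Int.natAbs_eq b with h1 | h1
    · have e : ((m * b.natAbs : ℕ) : ℂ) * z = (m : ℂ) * (z * (b : ℂ)) := by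
        have h2 : (b : ℂ) = ((b.natAbs : ℕ) : ℂ) := by
          have h3 := congrArg (fun t : ℤ => (t : ℂ)) h1
          simp only [Int.cast_natCast] at h3
          exact h3
        rw [h2]
        push_cast
        ring
      rw [e]
      exact hz
    · have e : ((m * b.natAbs : ℕ) : ℂ) * z = -((m : ℂ) * (z * (b : ℂ))) := by
        have h2 : (b : ℂ) = -((b.natAbs : ℕ) : ℂ) := by
          have h3 := congrArg (fun t : ℤ => (t : ℂ)) h1
          simp only [Int.cast_neg, Int.cast_natCast] at h3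
          exact h3
        rw [h2]
        push_cast
        ring
      rw [e]
      exact hz.neg

omit [Fact p.Prime] in
private theorem OAx_ndvd (h7 : 7 ≤ p) (n : ℕ) (h0 : 0 < n) (hn : n < 7) : ¬ (p : ℤ) ∣ ((n : ℕ) : ℤ) := by
  intro h
  have := Nat.le_of_dvd h0 (Int.natCast_dvd_natCast.1 h)
  omega

theorem inv_two_mem (h7 : 7 ≤ p) : (2 : ℂ)⁻¹ ∈ OO p := by
  refine OO_of_mul_int p _ ((2 : ℕ) : ℤ) (OAx_ndvd p h7 2 (by norm_num) (by norm_num)) ?_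
  have e : (2 : ℂ)⁻¹ * (((2 : ℕ) : ℤ) : ℂ) = 1 := by
    push_cast
    norm_num
  rw [e]
  exact (OO p).one_mem

theorem inv_three_mem (h7 : 7 ≤ p) : (3 : ℂ)⁻¹ ∈ OO p := by
  refine OO_of_mul_int p _ ((3 : ℕ) : ℤ) (OAx_ndvd p h7 3 (by norm_num) (by norm_num)) ?_
  have e : (3 : ℂ)⁻¹ * (((3 : ℕ) : ℤ) : ℂ) = 1 := by
    push_cast
    norm_num
  rw [e]
  exact (OO p).one_mem

theorem inv_five_mem (h7 : 7 ≤ p) : (5 : ℂ)⁻¹ ∈ OO p := by
  refine OO_of_mul_int p _ ((5 : ℕ) : ℤ) (OAx_ndvd p h7 5 (by norm_num) (by norm_num)) ?_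
  have e : (5 : ℂ)⁻¹ * (((5 : ℕ) : ℤ) : ℂ) = 1 := by
    push_cast
    norm_num
  rw [e]
  exact (OO p).one_mem

/-- To show `z ∈ OO p` it suffices that `2^a 3^b 5^c z ∈ OO p`. -/
theorem OO_smooth (h7 : 7 ≤ p) (a b c : ℕ) (z : ℂ) (h : 2 ^ a * 3 ^ b * 5 ^ c * z ∈ OO p) : z ∈ OO p := by
  have e : z = 2 ^ a * 3 ^ b * 5 ^ c * z * ((2 : ℂ)⁻¹ ^ a * (3 : ℂ)⁻¹ ^ b * (5 : ℂ)⁻¹ ^ c) := by
    have h2 : (2 : ℂ) ^ a ≠ 0 := pow_ne_zero _ (by norm_num)
    have h3 : (3 : ℂ) ^ b ≠ 0 := pow_ne_zero _ (by norm_num)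
    have h5 : (5 : ℂ) ^ c ≠ 0 := pow_ne_zero _ (by norm_num)
    rw [inv_pow, inv_pow, inv_pow]
    field_simp
  rw [e]
  exact (OO p).mul_mem h ((OO p).mul_mem ((OO p).mul_mem ((OO p).pow_mem (inv_two_mem p h7) a)
    ((OO p).pow_mem (inv_three_mem p h7) b)) ((OO p).pow_mem (inv_five_mem p h7) c))

theorem chi_sub_one_eq (b : ZMod p) : ∃ w ∈ OO p, chi p b - 1 = xx p * w := by
  refine ⟨∑ i ∈ range b.val, chi p 1 ^ i, (OO p).sum_mem (fun i _ => (OO p).pow_mem (chi_mem p 1) i), ?_⟩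
  have h1 : chi p b = chi p 1 ^ b.val := by
    rw [← chi_nat_mul, mul_one, ZMod.natCast_zmod_val]
  rw [xx, mul_geom_sum, h1]

theorem xx_eq_mul (b : ZMod p) (hb : b ≠ 0) : ∃ w ∈ OO p, xx p = (chi p b - 1) * w := by
  refine ⟨∑ i ∈ range (b⁻¹).val, chi p b ^ i, (OO p).sum_mem (fun i _ => (OO p).pow_mem (chi_mem p b) i), ?_⟩
  have h1 : chi p 1 = chi p b ^ (b⁻¹).val := by
    rw [← chi_nat_mul, ZMod.natCast_zmod_val, inv_mul_cancel₀ hb]
  rw [mul_geom_sum, ← h1, xx]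

private theorem OAx_prod (hp : 2 < p) : ∏ k ∈ range (p - 1), (1 - chi p 1 ^ (k + 1)) = (p : ℂ) := by
  have hp1 : p - 1 + 1 = p := by omega
  have hprim : IsPrimitiveRoot (chi p 1) p := by
    refine IsPrimitiveRoot.mk_of_lt _ (by omega) (chi_pow_p p 1) ?_
    intro l hl hlp h1
    rw [← chi_nat_mul, mul_one, chi_eq_one_iff p hp, ZMod.natCast_eq_zero_iff] at h1
    exact absurd (Nat.le_of_dvd hl h1) (by omega)
  have hprim' : IsPrimitiveRoot (chi p 1) (p - 1 + 1) := by rw [hp1]; exact hprim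
  have h := hprim'.prod_one_sub_pow_eq_order
  rw [h]
  have h2 : ((p - 1 : ℕ) : ℂ) + 1 = ((p - 1 + 1 : ℕ) : ℂ) := by push_cast; rfl
  rw [h2, hp1]

theorem p_eq (hp : 2 < p) : ∃ w ∈ OO p, (p : ℂ) = xx p ^ (p - 1) * w := by
  choose w hw hww using chi_sub_one_eq p
  refine ⟨∏ k ∈ range (p - 1), (-w ((k + 1 : ℕ) : ZMod p)), (OO p).prod_mem (fun k _ => (OO p).neg_mem (hw _)), ?_⟩
  rw [← OAx_prod p hp]
  have h : ∀ k ∈ range (p - 1), 1 - chi p 1 ^ (k + 1) = xx p * (-w ((k + 1 : ℕ) : ZMod p)) := by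
    intro k _
    have h1 := hww ((k + 1 : ℕ) : ZMod p)
    have h2 : chi p ((k + 1 : ℕ) : ZMod p) = chi p 1 ^ (k + 1) := by
      rw [← chi_nat_mul, mul_one]
    rw [h2] at h1
    linear_combination -h1
  rw [prod_congr rfl h, prod_mul_distrib, prod_const, card_range]

theorem xpow_eq (hp : 2 < p) : ∃ w ∈ OO p, xx p ^ (p - 1) = (p : ℂ) * w := by
  have hex : ∀ b : ZMod p, ∃ w ∈ OO p, b ≠ 0 → xx p = (chi p b - 1) * w := by
    intro b
    by_cases hb : b = 0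
    · exact ⟨1, (OO p).one_mem, fun h => absurd hb h⟩
    · obtain ⟨w, hw, h⟩ := xx_eq_mul p b hb
      exact ⟨w, hw, fun _ => h⟩
  choose w hw hww using hex
  refine ⟨∏ k ∈ range (p - 1), (-w ((k + 1 : ℕ) : ZMod p)), (OO p).prod_mem (fun k _ => (OO p).neg_mem (hw _)), ?_⟩
  rw [← OAx_prod p hp, ← prod_mul_distrib]
  have h : ∀ k ∈ range (p - 1), (1 - chi p 1 ^ (k + 1)) * (-w ((k + 1 : ℕ) : ZMod p)) = xx p := by
    intro k hk
    have hk' := mem_range.1 hk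
    have hne : ((k + 1 : ℕ) : ZMod p) ≠ 0 := by
      rw [Ne, ZMod.natCast_eq_zero_iff]
      intro h
      exact absurd (Nat.le_of_dvd (by omega) h) (by omega)
    have h1 := hww ((k + 1 : ℕ) : ZMod p) hne
    have h2 : chi p ((k + 1 : ℕ) : ZMod p) = chi p 1 ^ (k + 1) := by
      rw [← chi_nat_mul, mul_one]
    rw [h2] at h1
    linear_combination -h1
  rw [prod_congr rfl h, prod_const, card_range]

theorem rat_xx (hp : 2 < p) (r : ℚ) (w : ℂ) (hw : w ∈ OO p) (h : (r : ℂ) = xx p * w) : (p : ℤ) ∣ r.num := by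
  obtain ⟨w1, hw1, hx⟩ := xpow_eq p hp
  have hprime : p.Prime := Fact.out
  have hp0 : (p : ℚ) ≠ 0 := by exact_mod_cast hprime.ne_zero
  have hmem : w1 * w ^ (p - 1) ∈ OO p := (OO p).mul_mem hw1 ((OO p).pow_mem hw _)
  obtain ⟨m, hm, hint⟩ := hmem
  have hr : (r : ℂ) ^ (p - 1) = (p : ℂ) * (w1 * w ^ (p - 1)) := by
    rw [h, mul_pow, hx]
    ring
  have hp0c : (p : ℂ) ≠ 0 := by exact_mod_cast hprime.ne_zero
  have hq : ((m * r ^ (p - 1) / p : ℚ) : ℂ) = (m : ℂ) * (w1 * w ^ (p - 1)) := by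
    push_cast
    rw [hr]
    field_simp
  have hint2 : IsIntegral ℤ ((m * r ^ (p - 1) / p : ℚ)) := by
    have h1 : IsIntegral ℤ (algebraMap ℚ ℂ (m * r ^ (p - 1) / p : ℚ)) := by
      have h2 : algebraMap ℚ ℂ (m * r ^ (p - 1) / p : ℚ) = ((m * r ^ (p - 1) / p : ℚ) : ℂ) := rfl
      rw [h2, hq]
      exact hint
    exact (isIntegral_algebraMap_iff (algebraMap ℚ ℂ).injective).1 h1
  obtain ⟨k, hk⟩ := (IsIntegrallyClosed.isIntegral_iff (R := ℤ) (K := ℚ)).1 hint2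
  have hk' : (m : ℚ) * r ^ (p - 1) = p * k := by
    have h1 : (k : ℚ) = m * r ^ (p - 1) / p := by
      rw [← hk]
      rfl
    rw [h1]
    field_simp
  have hden : (r.den : ℚ) ≠ 0 := by exact_mod_cast r.den_ne_zero
  have hrn : r * (r.den : ℚ) = (r.num : ℚ) := r.mul_den_eq_num
  have hZ : (m : ℚ) * (r.num : ℚ) ^ (p - 1) = p * k * (r.den : ℚ) ^ (p - 1) := by
    rw [← hrn, mul_pow, ← mul_assoc, hk']
  have hZ' : (m : ℤ) * r.num ^ (p - 1) = p * (k * (r.den : ℤ) ^ (p - 1)) := by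
    have : ((m : ℤ) * r.num ^ (p - 1) : ℚ) = (p * (k * (r.den : ℤ) ^ (p - 1)) : ℚ) := by
      push_cast
      rw [hZ]
      ring
    exact_mod_cast this
  have hdvd : (p : ℤ) ∣ (m : ℤ) * r.num ^ (p - 1) := ⟨_, hZ'⟩
  have hpZ : Prime (p : ℤ) := Nat.prime_iff_prime_int.1 hprime
  rcases hpZ.dvd_or_dvd hdvd with h1 | h1
  · exact absurd (Int.natCast_dvd_natCast.1 h1) hm
  · exact hpZ.dvd_of_dvd_pow h1

end

end Pool.Agent.Lib.MP_f2058c_gt
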