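import Mathlib
import Pool.Agent.Lib.MP_f2058c_gt.OAx

/-!
# JOB CgL: rational numbers that are `p`-integral, and their residue classes

`Cg p r m` : there are integers `a, b` with `b ≠ 0` in `ZMod p`, `r b = a` (in `ℚ`) and `a = m b` in `ZMod p`.

Proofs.
* `Cg_int`: `a = n, b = 1`.  `Cg_add`: `a = a1 b2 + a2 b1`, `b = b1 b2`.  `Cg_neg`, `Cg_sub`, `Cg_mul` similarly.
* `Cg_inv`: from `r b = a`, `a = m b` in `ZMod p`, `m ≠ 0`: `a ≠ 0` in `ZMod p`, so `a ≠ 0`, `r ≠ 0` and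
  `r⁻¹ a = b`, `b = m⁻¹ a`.
* `Cg_mem`: `r * b = a` is an integer, use `OO_of_mul_int` (`(b : ZMod p) ≠ 0` iff not `(p : ℤ) ∣ b`,
  `ZMod.intCast_zmod_eq_zero_iff_dvd` / `ZMod.intCast_eq_zero_iff`...).
* `Cg_val`: `(r - m.val) b = a - m.val b` is an integer divisible by `p` (its class in `ZMod p` is `m b - m b = 0`), say
  `p k`; so `r - m.val = p * (k / b)` and `k / b ∈ OO p` by `OO_of_mul_int`.
* `Cg_unique`: `a b' = r b b' = a' b` in `ℤ`, so `m b b' = m' b b'` in `ZMod p`.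
* `Cg_zero`: `a = 0`, so `m b = 0`.
* `Cg_ne`: `N = r.num.natAbs + 1`.  If `m = 0` then `p ∣ a`; `r.num b = a r.den` (from `r b = a`), so
  `p ∣ r.num * b`, so `p ∣ r.num ≠ 0`, so `p ≤ |r.num|`, contradiction.
-/

set_option autoImplicit false

namespace Pool.Agent.Lib.MP_f2058c_gt

open Finset

noncomputable section

variable (p : ℕ) [Fact p.Prime]

theorem Cg_int (n : ℤ) : Cg p n n := by
  refine ⟨n, 1, ?_, ?_, ?_⟩
  · rw [Int.cast_one]; exact one_ne_zero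
  · rw [Int.cast_one, mul_one]
  · rw [Int.cast_one, mul_one]

theorem Cg_nat (n : ℕ) : Cg p n n := by
  have h := Cg_int p (n : ℤ)
  rwa [Int.cast_natCast, Int.cast_natCast] at h

theorem Cg_zero_zero : Cg p 0 0 := by
  have h := Cg_int p 0
  rwa [Int.cast_zero, Int.cast_zero] at h

theorem Cg_add {r r' : ℚ} {m m' : ZMod p} (h : Cg p r m) (h' : Cg p r' m') : Cg p (r + r') (m + m') := by
  obtain ⟨a, b, hb, h1, h2⟩ := h
  obtain ⟨a', b', hb', h1', h2'⟩ := h'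
  refine ⟨a * b' + a' * b, b * b', ?_, ?_, ?_⟩
  · rw [Int.cast_mul]; exact mul_ne_zero hb hb'
  · push_cast
    rw [← h1, ← h1']; ring
  · push_cast
    rw [h2, h2']; ring

theorem Cg_neg {r : ℚ} {m : ZMod p} (h : Cg p r m) : Cg p (-r) (-m) := by
  obtain ⟨a, b, hb, h1, h2⟩ := h
  refine ⟨-a, b, hb, ?_, ?_⟩
  · push_cast
    rw [← h1]; ring
  · push_cast
    rw [h2]; ring

theorem Cg_mul {r r' : ℚ} {m m' : ZMod p} (h : Cg p r m) (h' : Cg p r' m') : Cg p (r * r') (m * m') := by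
  obtain ⟨a, b, hb, h1, h2⟩ := h
  obtain ⟨a', b', hb', h1', h2'⟩ := h'
  refine ⟨a * a', b * b', ?_, ?_, ?_⟩
  · rw [Int.cast_mul]; exact mul_ne_zero hb hb'
  · push_cast
    rw [← h1, ← h1']; ring
  · push_cast
    rw [h2, h2']; ring

theorem Cg_inv {r : ℚ} {m : ZMod p} (h : Cg p r m) (hm : m ≠ 0) : Cg p r⁻¹ m⁻¹ := by
  obtain ⟨a, b, hb, h1, h2⟩ := h
  have ha : (a : ZMod p) ≠ 0 := by rw [h2]; exact mul_ne_zero hm hb
  have ha0 : a ≠ 0 := by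
    rintro rfl
    exact ha Int.cast_zero
  have hr : r ≠ 0 := by
    rintro rfl
    rw [zero_mul] at h1
    exact ha0 (by exact_mod_cast h1.symm)
  refine ⟨b, a, ha, ?_, ?_⟩
  · rw [← h1, ← mul_assoc, inv_mul_cancel₀ hr, one_mul]
  · rw [h2, ← mul_assoc, inv_mul_cancel₀ hm, one_mul]

/-- `-1/r`. -/
theorem Cg_neg_one_div {r : ℚ} {m : ZMod p} (h : Cg p r m) (hm : m ≠ 0) : Cg p (-1 / r) (-1 / m) := by
  have h1 := Cg_neg p (Cg_inv p h hm)
  rwa [neg_inv, neg_inv, show (-r)⁻¹ = -1 / r by rw [inv_neg, neg_div, one_div],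
    show (-m)⁻¹ = -1 / m by rw [inv_neg, neg_div, one_div]] at h1

/-- `r / 2`. -/
theorem Cg_half (hp : 2 < p) {r : ℚ} {m : ZMod p} (h : Cg p r m) : Cg p (r / 2) (m / 2) := by
  have h2 := Cg_int p 2
  have h3 : ((2 : ℤ) : ZMod p) ≠ 0 := by
    have := two_ne p hp
    exact_mod_cast this
  have h4 := Cg_mul p h (Cg_inv p h2 h3)
  have e1 : r / 2 = r * (((2 : ℤ) : ℚ))⁻¹ := by norm_num [div_eq_mul_inv]
  have e2 : m / 2 = m * (((2 : ℤ) : ZMod p))⁻¹ := by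
    rw [div_eq_mul_inv]
    norm_cast
  rw [e1, e2]
  exact h4

theorem CgL_dvd {b : ℤ} (hb : (b : ZMod p) ≠ 0) : ¬ (p : ℤ) ∣ b := by
  intro h
  exact hb ((ZMod.intCast_zmod_eq_zero_iff_dvd b p).mpr h)

theorem Cg_mem {r : ℚ} {m : ZMod p} (h : Cg p r m) : (r : ℂ) ∈ OO p := by
  obtain ⟨a, b, hb, h1, h2⟩ := h
  apply OO_of_mul_int p _ b (CgL_dvd p hb)
  have h3 : (r : ℂ) * (b : ℂ) = (a : ℂ) := by exact_mod_cast h1
  rw [h3]
  exact intCast_mem (OO p) a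

theorem Cg_val {r : ℚ} {m : ZMod p} (h : Cg p r m) : ∃ w ∈ OO p, (r : ℂ) = (m.val : ℂ) + (p : ℂ) * w := by
  obtain ⟨a, b, hb, h1, h2⟩ := h
  have hp0 : (p : ℂ) ≠ 0 := Nat.cast_ne_zero.mpr (Fact.out : p.Prime).ne_zero
  have h3 : ((a - (m.val : ℤ) * b : ℤ) : ZMod p) = 0 := by
    push_cast
    rw [h2, ZMod.natCast_val, ZMod.cast_id', id_eq, sub_self]
  obtain ⟨k, hk⟩ := (ZMod.intCast_zmod_eq_zero_iff_dvd _ p).mp h3
  have h4 : (r : ℂ) * (b : ℂ) = (a : ℂ) := by exact_mod_cast h1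
  have h5 : (a : ℂ) - (m.val : ℂ) * (b : ℂ) = (p : ℂ) * (k : ℂ) := by exact_mod_cast hk
  refine ⟨((r : ℂ) - (m.val : ℂ)) / (p : ℂ), ?_, ?_⟩
  · apply OO_of_mul_int p _ b (CgL_dvd p hb)
    have h6 : ((r : ℂ) - (m.val : ℂ)) / (p : ℂ) * (b : ℂ) = (k : ℂ) := by
      rw [div_mul_eq_mul_div, div_eq_iff hp0, sub_mul, h4, h5]
      ring
    rw [h6]
    exact intCast_mem (OO p) k
  · rw [mul_div_cancel₀ _ hp0]
    ring

theorem Cg_unique {r : ℚ} {m m' : ZMod p} (h : Cg p r m) (h' : Cg p r m') : m = m' := by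
  obtain ⟨a, b, hb, h1, h2⟩ := h
  obtain ⟨a', b', hb', h1', h2'⟩ := h'
  have h3 : (a : ℚ) * b' = a' * b := by rw [← h1, ← h1']; ring
  have h4 : a * b' = a' * b := by exact_mod_cast h3
  have h5 : (a : ZMod p) * b' = a' * b := by exact_mod_cast congrArg (fun z : ℤ => (z : ZMod p)) h4
  rw [h2, h2'] at h5
  have h6 : (m - m') * ((b : ZMod p) * b') = 0 := by linear_combination h5
  rcases mul_eq_zero.mp h6 with h7 | h7
  · exact sub_eq_zero.mp h7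
  · exact absurd h7 (mul_ne_zero hb hb')

theorem Cg_zero {m : ZMod p} (h : Cg p 0 m) : m = 0 := Cg_unique p h (Cg_zero_zero p)

omit [Fact p.Prime] p in
theorem Cg_ne (r : ℚ) (hr : r ≠ 0) :
    ∃ N : ℕ, ∀ (p : ℕ) [Fact p.Prime], N ≤ p → ∀ m : ZMod p, Cg p r m → m ≠ 0 := by
  refine ⟨r.num.natAbs + 1, ?_⟩
  intro p _ hN m h hm
  obtain ⟨a, b, hb, h1, h2⟩ := h
  rw [hm, zero_mul] at h2
  have hpa : (p : ℤ) ∣ a := (ZMod.intCast_zmod_eq_zero_iff_dvd a p).mp h2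
  have h3 : (r.num : ℚ) * b = a * r.den := by
    have hden : (r.den : ℚ) ≠ 0 := Nat.cast_ne_zero.mpr r.den_nz
    have hr' : (r.num : ℚ) = r * r.den := (Rat.mul_den_eq_num r).symm
    rw [hr', ← h1]
    ring
  have h4 : r.num * b = a * r.den := by exact_mod_cast h3
  have h5 : (p : ℤ) ∣ r.num * b := by
    rw [h4]
    exact Dvd.dvd.mul_right hpa _
  have hpp : Prime (p : ℤ) := Nat.prime_iff_prime_int.mp Fact.out
  rcases hpp.dvd_or_dvd h5 with h6 | h6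
  · have h7 : p ∣ r.num.natAbs := Int.natCast_dvd.mp h6
    have h8 : r.num.natAbs ≠ 0 := Int.natAbs_ne_zero.mpr (Rat.num_ne_zero.mpr hr)
    have h9 := Nat.le_of_dvd (Nat.pos_of_ne_zero h8) h7
    omega
  · exact CgL_dvd p hb h6

end

end Pool.Agent.Lib.MP_f2058c_gt
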