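import Mathlib
import Pool.Agent.Lib.MP_f2058c_gt.OAx

/-!
# JOB W1: the filtration `WW p k`

`WW p k` = additive subgroup of `ZMod p → ℂ` generated by the functions
`gen c m n b = (u ↦ c xx^m (chi u - 1)^n chi (b u))` with `c ∈ OO p` and `k ≤ 2 m + n`.

Proofs.  Use `AddSubgroup.closure_induction` (and `AddSubgroup.subset_closure` for generators).
* `WW_gen`: generators are in `WW`.
* `WW_anti`: every generator of `WW l` is one of `WW k`.
* `WW_smul`: `c • gen c' m n b = gen (c c') m n b`.  `WW_xsmul`: `xx^j • gen c m n b = gen c (m+j) n b`.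
* `WW_mul`: closure induction in both arguments;
  `gen c m n b * gen c' m' n' b' = gen (c c') (m+m') (n+n') (b+b')` (`chi ((b+b') u) = chi (b u) chi (b' u)`).
* `WW_pow`: induction on `n` with `WW_mul`; `f^0 = 1 = gen 1 0 0 0 ∈ WW 0`.
* `WW_const`: `gen c m 0 0`.  `WW_chi`: `gen 1 0 0 b`.  `WW_Y`: `gen 1 0 1 0`.
* `WW_chi_sub`: `chi (b u) = (chi u)^b.val` (`chi_nat_mul`), so `chi (b u) - 1 = (chi u - 1) ∑ i < b.val, (chi u)^i`
  and `(chi u)^i = chi (i u)`: a sum of generators `gen 1 0 1 i` (`sum_mem`).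
* `WW_eval`: for a generator: `f 0 = c xx^m 0^n chi 0`; if `n ≠ 0` it is `0`; if `n = 0` then `k ≤ 2 m`, so
  `(k+1)/2 ≤ m` and `f 0 = xx^((k+1)/2) * (c xx^(m - (k+1)/2))`.
* `WW_const_of` : a constant function `xx^m * w` with `w ∈ OO p` is in `WW (2 m)` (same as `WW_const`).
-/

set_option autoImplicit false

namespace Pool.Agent.Lib.MP_f2058c_gt

open Finset

noncomputable section

variable (p : ℕ) [Fact p.Prime]

/-- induction principle for `WW` -/
private theorem w1_ind {k : ℕ} {P : (ZMod p → ℂ) → Prop}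
    (hgen : ∀ c ∈ OO p, ∀ (m n : ℕ) (b : ZMod p), k ≤ 2 * m + n → P (gen p c m n b)) (hzero : P 0)
    (hadd : ∀ f g, P f → P g → P (f + g)) (hneg : ∀ f, P f → P (-f)) {f : ZMod p → ℂ} (hf : f ∈ WW p k) : P f := by
  refine AddSubgroup.closure_induction (p := fun f _ => P f) ?_ hzero (fun f g _ _ hf hg => hadd f g hf hg)
    (fun f _ hf => hneg f hf) hf
  rintro f ⟨c, hc, m, n, b, hk, rfl⟩
  exact hgen c hc m n b hk

theorem WW_gen {k : ℕ} {c : ℂ} (hc : c ∈ OO p) {m n : ℕ} {b : ZMod p} (h : k ≤ 2 * m + n) :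
    gen p c m n b ∈ WW p k := by
  exact AddSubgroup.subset_closure ⟨c, hc, m, n, b, h, rfl⟩

theorem WW_anti {k l : ℕ} (h : k ≤ l) : WW p l ≤ WW p k := by
  refine AddSubgroup.closure_mono ?_
  rintro f ⟨c, hc, m, n, b, hk, rfl⟩
  exact ⟨c, hc, m, n, b, h.trans hk, rfl⟩

theorem WW_smul {k : ℕ} {f : ZMod p → ℂ} (hf : f ∈ WW p k) {c : ℂ} (hc : c ∈ OO p) : c • f ∈ WW p k := by
  refine w1_ind p (P := fun f => c • f ∈ WW p k) ?_ ?_ ?_ ?_ hf
  · intro c' hc' m n b hk
    have e : c • gen p c' m n b = gen p (c * c') m n b := by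
      funext u
      simp only [Pi.smul_apply, smul_eq_mul, gen]
      ring
    rw [e]
    exact WW_gen p ((OO p).mul_mem hc hc') hk
  · rw [smul_zero]
    exact (WW p k).zero_mem
  · intro f g hf hg
    rw [smul_add]
    exact (WW p k).add_mem hf hg
  · intro f hf
    rw [smul_neg]
    exact (WW p k).neg_mem hf

theorem WW_xsmul {k : ℕ} {f : ZMod p → ℂ} (hf : f ∈ WW p k) (j : ℕ) : xx p ^ j • f ∈ WW p (k + 2 * j) := by
  refine w1_ind p (P := fun f => xx p ^ j • f ∈ WW p (k + 2 * j)) ?_ ?_ ?_ ?_ hf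
  · intro c hc m n b hk
    have e : xx p ^ j • gen p c m n b = gen p c (m + j) n b := by
      funext u
      simp only [Pi.smul_apply, smul_eq_mul, gen]
      ring
    rw [e]
    exact WW_gen p hc (by omega)
  · rw [smul_zero]
    exact (WW p _).zero_mem
  · intro f g hf hg
    rw [smul_add]
    exact (WW p _).add_mem hf hg
  · intro f hf
    rw [smul_neg]
    exact (WW p _).neg_mem hf

theorem WW_mul {i j : ℕ} {f g : ZMod p → ℂ} (hf : f ∈ WW p i) (hg : g ∈ WW p j) : f * g ∈ WW p (i + j) := by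
  refine w1_ind p (P := fun f => f * g ∈ WW p (i + j)) ?_ ?_ ?_ ?_ hf
  · intro c hc m n b hk
    refine w1_ind p (P := fun g => gen p c m n b * g ∈ WW p (i + j)) ?_ ?_ ?_ ?_ hg
    · intro c' hc' m' n' b' hk'
      have e : gen p c m n b * gen p c' m' n' b' = gen p (c * c') (m + m') (n + n') (b + b') := by
        funext u
        simp only [Pi.mul_apply, gen]
        rw [add_mul, chi_add]
        ring
      rw [e]
      exact WW_gen p ((OO p).mul_mem hc hc') (by omega)
    · rw [mul_zero]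
      exact (WW p _).zero_mem
    · intro f g hf hg
      rw [mul_add]
      exact (WW p _).add_mem hf hg
    · intro f hf
      rw [mul_neg]
      exact (WW p _).neg_mem hf
  · rw [zero_mul]
    exact (WW p _).zero_mem
  · intro f g' hf hg'
    rw [add_mul]
    exact (WW p _).add_mem hf hg'
  · intro f hf
    rw [neg_mul]
    exact (WW p _).neg_mem hf

theorem WW_one : (1 : ZMod p → ℂ) ∈ WW p 0 := by
  have e : (1 : ZMod p → ℂ) = gen p 1 0 0 0 := by
    funext u
    simp [gen]
  rw [e]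
  exact WW_gen p (OO p).one_mem (Nat.zero_le _)

theorem WW_pow {k : ℕ} {f : ZMod p → ℂ} (hf : f ∈ WW p k) (n : ℕ) : f ^ n ∈ WW p (k * n) := by
  induction n with
  | zero =>
    rw [pow_zero, mul_zero]
    exact WW_one p
  | succ n ih =>
    rw [pow_succ]
    have h := WW_mul p ih hf
    have e : k * n + k = k * (n + 1) := by ring
    rw [e] at h
    exact h

theorem WW_const {c : ℂ} (hc : c ∈ OO p) (m : ℕ) : (fun _ => xx p ^ m * c) ∈ WW p (2 * m) := by
  have e : (fun _ => xx p ^ m * c : ZMod p → ℂ) = gen p c m 0 0 := by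
    funext u
    simp [gen, mul_comm]
  rw [e]
  exact WW_gen p hc (by omega)

theorem WW_chi (b : ZMod p) : (fun u => chi p (b * u)) ∈ WW p 0 := by
  have e : (fun u => chi p (b * u)) = gen p 1 0 0 b := by
    funext u
    simp [gen]
  rw [e]
  exact WW_gen p (OO p).one_mem (Nat.zero_le _)

theorem WW_Y : (fun u => chi p u - 1) ∈ WW p 1 := by
  have e : (fun u => chi p u - 1) = gen p 1 0 1 0 := by
    funext u
    simp [gen]
  rw [e]
  exact WW_gen p (OO p).one_mem (by omega)

theorem WW_chi_sub (b : ZMod p) : (fun u => chi p (b * u) - 1) ∈ WW p 1 := by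
  have : NeZero p := ⟨(Fact.out : p.Prime).ne_zero⟩
  have e : (fun u => chi p (b * u) - 1) = ∑ i ∈ range b.val, gen p 1 0 1 (i : ZMod p) := by
    funext u
    rw [Finset.sum_apply]
    have h1 : chi p (b * u) = chi p u ^ b.val := by
      rw [← chi_nat_mul, ZMod.natCast_zmod_val]
    rw [h1, ← mul_geom_sum, Finset.mul_sum]
    refine Finset.sum_congr rfl fun i _ => ?_
    simp only [gen]
    rw [chi_nat_mul]
    ring
  rw [e]
  exact sum_mem fun i _ => WW_gen p (OO p).one_mem (by omega)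

theorem WW_eval {k : ℕ} {f : ZMod p → ℂ} (hf : f ∈ WW p k) : ∃ w ∈ OO p, f 0 = xx p ^ ((k + 1) / 2) * w := by
  refine w1_ind p (P := fun f => ∃ w ∈ OO p, f 0 = xx p ^ ((k + 1) / 2) * w) ?_ ?_ ?_ ?_ hf
  · intro c hc m n b hk
    rcases Nat.eq_zero_or_pos n with hn | hn
    · subst hn
      have hm : (k + 1) / 2 ≤ m := by omega
      refine ⟨c * xx p ^ (m - (k + 1) / 2), (OO p).mul_mem hc ((OO p).pow_mem (xx_mem p) _), ?_⟩
      have e : xx p ^ m = xx p ^ ((k + 1) / 2) * xx p ^ (m - (k + 1) / 2) := by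
        rw [← pow_add]
        congr 1
        omega
      simp only [gen, mul_zero, chi_zero, pow_zero, mul_one]
      rw [e]
      ring
    · refine ⟨0, (OO p).zero_mem, ?_⟩
      simp only [gen, mul_zero, chi_zero, sub_self, zero_pow hn.ne', zero_mul]
  · exact ⟨0, (OO p).zero_mem, by simp⟩
  · rintro f g ⟨w, hw, h1⟩ ⟨w', hw', h2⟩
    refine ⟨w + w', (OO p).add_mem hw hw', ?_⟩
    rw [Pi.add_apply, h1, h2]
    ring
  · rintro f ⟨w, hw, h1⟩
    refine ⟨-w, (OO p).neg_mem hw, ?_⟩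
    rw [Pi.neg_apply, h1]
    ring

end

end Pool.Agent.Lib.MP_f2058c_gt
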