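import Mathlib
import Pool.Agent.Lib.MP_f2058c_gt.W1

/-!
# JOB W2: shifts, division by `DD`, multiples of `p`

Proofs.  Closure induction over the generators `gen c m n b`; write `t = chi u`, `Y = t - 1`.
* `WW_shift_gen` idea: `chi (u+a) = chi a * chi u`, `chi (u + a) - 1 = (chi u - 1) + (chi a - 1) chi u` and
  `chi a - 1 = xx w` with `w ∈ OO p` (`chi_sub_one_eq`), so `A = (u ↦ chi (u+a) - 1)` satisfies
  `A ∈ WW 1` and `A - Y ∈ WW 2` (`Y = (u ↦ chi u - 1)`).
  Hence `A^n ∈ WW n` (`WW_pow`) and `A^n - Y^n ∈ WW (n+1)`: induction, `A^(n+1) - Y^(n+1) = A^n (A - Y) + (A^n - Y^n) Y`.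
  `chi (b (u+a)) = chi (b a) chi (b u)` and `chi (b a) - 1 = xx w'`.
  So the shifted generator `c xx^m A^n chi (b a) chi (b u)` is in `WW k`, and minus the generator it is
  `c xx^m [ (A^n - Y^n) chi(b a) chi(b u) + Y^n (chi (b a) - 1) chi (b u) ] ∈ WW (2 m + n + 1)`.
* `WW_eval'`: `WW_shift` and `WW_eval` (value of the shifted function at `0`).
* `WW_div`: statement proved by closure induction for the generators with `2 m + n ≥ k + 1`.
  Let `M = (p+1)/2`, `S u = ∑ j < M, chi ((2 j + 1) u)`.  Then `chi u - 1 = DD u * S u`: indeed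
  `DD u * chi ((2j+1) u) = chi ((2j+2) u) - chi ((2j) u)`, the sum telescopes to `chi ((2 M) u) - chi 0`, and
  `2 M = p + 1 = 1` in `ZMod p` (`p` odd).  `S ∈ WW 0` (`WW_chi`, `sum_mem`).
  (a) `n = n' + 1`: `gen c m n b u = DD u * g u` with `g = S * gen c m n' b ∈ WW (2 m + n') ⊆ WW k`; the value at 0 is 0.
  (b) `n = 0`, so `2 m ≥ k + 1`: `f u = c xx^m chi (b u) = c xx^m + c xx^m (chi (b u) - 1)`,
  `chi (b u) - 1 = (chi u - 1) ∑ i < b.val, chi (i u) = DD u * S u * ∑ ...`, so `g = c xx^m S ∑ ... ∈ WW (2m) ⊆ WW k`,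
  and `f 0 = c xx^m`.
  Sums and negatives: add / negate the functions `g`.
* `WW_p`: `p = xx^(p-1) w` (`p_eq`), `p - 1 ≥ 6`, so `p • f = xx^6 • (xx^(p-1-6) w) • f ∈ WW (0 + 12)`.
-/

set_option autoImplicit false

namespace Pool.Agent.Lib.MP_f2058c_gt

open Finset

noncomputable section

variable (p : ℕ) [Fact p.Prime]

private theorem W2_ind {k : ℕ} {P : (ZMod p → ℂ) → Prop}
    (hg : ∀ c ∈ OO p, ∀ (m n : ℕ) (b : ZMod p), k ≤ 2 * m + n → P (gen p c m n b)) (h0 : P 0)
    (ha : ∀ f g, P f → P g → P (f + g)) (hn : ∀ f, P f → P (-f)) {f : ZMod p → ℂ} (hf : f ∈ WW p k) : P f := by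
  refine AddSubgroup.closure_induction (p := fun f _ => P f) ?_ h0 (fun f g _ _ h1 h2 => ha f g h1 h2)
    (fun f _ h1 => hn f h1) hf
  rintro x ⟨c, hc, m, n, b, h, rfl⟩
  exact hg c hc m n b h

private theorem W2_A_sub (a : ZMod p) : (fun u => chi p (u + a) - 1) - (fun u => chi p u - 1) ∈ WW p 2 := by
  obtain ⟨w, hw, hwe⟩ := chi_sub_one_eq p a
  have h1 : (fun u => chi p (u + a) - 1) - (fun u => chi p u - 1) = gen p w 1 0 1 := by
    funext u
    simp only [Pi.sub_apply, gen, pow_one, pow_zero, mul_one, one_mul, chi_add]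
    linear_combination (chi p u) * hwe
  rw [h1]
  exact WW_gen p hw (by norm_num)

private theorem W2_A (a : ZMod p) : (fun u => chi p (u + a) - 1) ∈ WW p 1 := by
  have h1 := (WW p 1).add_mem (WW_anti p (by norm_num : 1 ≤ 2) (W2_A_sub p a)) (WW_Y p)
  rwa [sub_add_cancel] at h1

private theorem W2_A_pow (a : ZMod p) (n : ℕ) :
    (fun u => chi p (u + a) - 1) ^ n - (fun u => chi p u - 1) ^ n ∈ WW p (n + 1) := by
  induction n with
  | zero =>
    rw [pow_zero, pow_zero, sub_self]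
    exact (WW p _).zero_mem
  | succ n ih =>
    have h1 : (fun u => chi p (u + a) - 1) ^ (n + 1) - (fun u => chi p u - 1) ^ (n + 1) =
        (fun u => chi p (u + a) - 1) ^ n * ((fun u => chi p (u + a) - 1) - (fun u => chi p u - 1)) +
          ((fun u => chi p (u + a) - 1) ^ n - (fun u => chi p u - 1) ^ n) * (fun u => chi p u - 1) := by ring
    rw [h1]
    refine (WW p _).add_mem ?_ ?_
    · have h2 := WW_mul p (WW_pow p (W2_A p a) n) (W2_A_sub p a)
      have h3 : 1 * n + 2 = n + 1 + 1 := by omega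
      rwa [h3] at h2
    · exact WW_mul p ih (WW_Y p)

private theorem W2_B_sub (a b : ZMod p) :
    (fun u => chi p (b * (u + a))) - (fun u => chi p (b * u)) ∈ WW p 1 := by
  obtain ⟨w, hw, hwe⟩ := chi_sub_one_eq p (b * a)
  have h1 : (fun u => chi p (b * (u + a))) - (fun u => chi p (b * u)) = gen p w 1 0 b := by
    funext u
    simp only [Pi.sub_apply, gen, pow_one, pow_zero, mul_one, mul_add, chi_add]
    linear_combination (chi p (b * u)) * hwe
  rw [h1]
  exact WW_gen p hw (by norm_num)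

private theorem W2_B (a b : ZMod p) : (fun u => chi p (b * (u + a))) ∈ WW p 0 := by
  have h1 := (WW p 0).add_mem (WW_anti p (by norm_num : 0 ≤ 1) (W2_B_sub p a b)) (WW_chi p b)
  rwa [sub_add_cancel] at h1

private theorem W2_smul {j m n : ℕ} {f : ZMod p → ℂ} (hf : f ∈ WW p j) {c : ℂ} (hc : c ∈ OO p)
    (h : n ≤ j + 2 * m) : (c * xx p ^ m) • f ∈ WW p n := by
  rw [mul_smul]
  exact WW_anti p h (WW_smul p (WW_xsmul p hf m) hc)

theorem WW_shift {k : ℕ} {f : ZMod p → ℂ} (hf : f ∈ WW p k) (a : ZMod p) : (fun u => f (u + a)) ∈ WW p k := by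
  refine W2_ind p (P := fun f => (fun u => f (u + a)) ∈ WW p k) ?_ ?_ ?_ ?_ hf
  · intro c hc m n b h
    have h1 : (fun u => gen p c m n b (u + a)) =
        (c * xx p ^ m) • ((fun u => chi p (u + a) - 1) ^ n * (fun u => chi p (b * (u + a)))) := by
      funext u
      simp only [gen, Pi.smul_apply, Pi.mul_apply, Pi.pow_apply, smul_eq_mul]
      ring
    rw [h1]
    exact W2_smul p (WW_mul p (WW_pow p (W2_A p a) n) (W2_B p a b)) hc (by omega)
  · exact (WW p k).zero_mem
  · intro f g h1 h2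
    exact (WW p k).add_mem h1 h2
  · intro f h1
    exact (WW p k).neg_mem h1

theorem WW_shift_sub {k : ℕ} {f : ZMod p → ℂ} (hf : f ∈ WW p k) (a : ZMod p) :
    (fun u => f (u + a) - f u) ∈ WW p (k + 1) := by
  refine W2_ind p (P := fun f => (fun u => f (u + a) - f u) ∈ WW p (k + 1)) ?_ ?_ ?_ ?_ hf
  · intro c hc m n b h
    have h1 : (fun u => gen p c m n b (u + a) - gen p c m n b u) =
        (c * xx p ^ m) • (((fun u => chi p (u + a) - 1) ^ n - (fun u => chi p u - 1) ^ n) *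
          (fun u => chi p (b * (u + a))) + (fun u => chi p u - 1) ^ n *
            ((fun u => chi p (b * (u + a))) - (fun u => chi p (b * u)))) := by
      funext u
      simp only [gen, Pi.smul_apply, Pi.mul_apply, Pi.pow_apply, Pi.add_apply, Pi.sub_apply, smul_eq_mul]
      ring
    rw [h1]
    have h2 := WW_mul p (W2_A_pow p a n) (W2_B p a b)
    have h3 := WW_mul p (WW_pow p (WW_Y p) n) (W2_B_sub p a b)
    rw [one_mul] at h3
    exact W2_smul p ((WW p (n + 1)).add_mem h2 h3) hc (by omega)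
  · have h1 : (fun u : ZMod p => (0 : ZMod p → ℂ) (u + a) - (0 : ZMod p → ℂ) u) = 0 := by
      funext u
      simp
    rw [h1]
    exact (WW p _).zero_mem
  · intro f g h1 h2
    have h3 : (fun u => (f + g) (u + a) - (f + g) u) =
        (fun u => f (u + a) - f u) + (fun u => g (u + a) - g u) := by
      funext u
      simp only [Pi.add_apply]
      ring
    rw [h3]
    exact (WW p _).add_mem h1 h2
  · intro f h1
    have h3 : (fun u => (-f) (u + a) - (-f) u) = -(fun u => f (u + a) - f u) := by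
      funext u
      simp only [Pi.neg_apply]
      ring
    rw [h3]
    exact (WW p _).neg_mem h1

theorem WW_eval' {k : ℕ} {f : ZMod p → ℂ} (hf : f ∈ WW p k) (a : ZMod p) :
    ∃ w ∈ OO p, f a = xx p ^ ((k + 1) / 2) * w := by
  obtain ⟨w, hw, h⟩ := WW_eval p (WW_shift p hf a)
  rw [zero_add] at h
  exact ⟨w, hw, h⟩

private noncomputable def W2_S : ZMod p → ℂ :=
  ∑ j ∈ range ((p + 1) / 2), (fun u => chi p (((2 * j + 1 : ℕ) : ZMod p) * u))

private theorem W2_S_mem : W2_S p ∈ WW p 0 :=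
  sum_mem fun _ _ => WW_chi p _

private theorem W2_DD (hp : 2 < p) (u : ZMod p) : chi p u - 1 = DD p u * W2_S p u := by
  have hodd : 2 * ((p + 1) / 2) = p + 1 := by
    rcases (Fact.out : p.Prime).eq_two_or_odd with h | h
    · omega
    · omega
  have h1 := Finset.sum_range_sub (fun j : ℕ => chi p (((2 * j : ℕ) : ZMod p) * u)) ((p + 1) / 2)
  have h2 : ∀ j : ℕ, chi p (((2 * (j + 1) : ℕ) : ZMod p) * u) - chi p (((2 * j : ℕ) : ZMod p) * u) =
      DD p u * chi p (((2 * j + 1 : ℕ) : ZMod p) * u) := by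
    intro j
    have e1 : ((2 * (j + 1) : ℕ) : ZMod p) * u = u + ((2 * j + 1 : ℕ) : ZMod p) * u := by
      push_cast
      ring
    have e2 : ((2 * j : ℕ) : ZMod p) * u = -u + ((2 * j + 1 : ℕ) : ZMod p) * u := by
      push_cast
      ring
    rw [e1, e2, chi_add, chi_add, DD]
    ring
  rw [Finset.sum_congr rfl fun j _ => h2 j, ← Finset.mul_sum, hodd] at h1
  have h3 : ((p + 1 : ℕ) : ZMod p) * u = u := by
    push_cast
    rw [ZMod.natCast_self, zero_add, one_mul]
  have h4 : ((2 * 0 : ℕ) : ZMod p) * u = 0 := by simp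
  rw [h3, h4, chi_zero] at h1
  rw [← h1, W2_S, Finset.sum_apply]

private noncomputable def W2_R (b : ZMod p) : ZMod p → ℂ :=
  ∑ i ∈ range b.val, (fun u => chi p ((i : ZMod p) * u))

private theorem W2_R_mem (b : ZMod p) : W2_R p b ∈ WW p 0 :=
  sum_mem fun _ _ => WW_chi p _

private theorem W2_R_eq (b u : ZMod p) : chi p (b * u) - 1 = (chi p u - 1) * W2_R p b u := by
  have h1 : chi p (b * u) = chi p u ^ b.val := by
    rw [← chi_nat_mul, ZMod.natCast_val, ZMod.cast_id]
  have h2 : W2_R p b u = ∑ i ∈ range b.val, chi p u ^ i := by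
    rw [W2_R, Finset.sum_apply]
    exact Finset.sum_congr rfl fun i _ => chi_nat_mul p i u
  rw [h1, h2, mul_comm, geom_sum_mul]

theorem WW_div (hp : 2 < p) {k : ℕ} {f : ZMod p → ℂ} (hf : f ∈ WW p (k + 1)) :
    ∃ g ∈ WW p k, ∀ u, f u = f 0 + DD p u * g u := by
  refine W2_ind p (P := fun f => ∃ g ∈ WW p k, ∀ u, f u = f 0 + DD p u * g u) ?_ ?_ ?_ ?_ hf
  · intro c hc m n b h
    rcases n with _ | n
    · refine ⟨(c * xx p ^ m) • (W2_S p * W2_R p b),
        W2_smul p (WW_mul p (W2_S_mem p) (W2_R_mem p b)) hc (by omega), fun u => ?_⟩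
      have h1 := W2_R_eq p b u
      have h2 := W2_DD p hp u
      simp only [gen, pow_zero, mul_one, mul_zero, chi_zero, Pi.smul_apply, Pi.mul_apply, smul_eq_mul]
      linear_combination (c * xx p ^ m) * h1 + (c * xx p ^ m * W2_R p b u) * h2
    · refine ⟨W2_S p * gen p c m n b, ?_, fun u => ?_⟩
      · have h1 := WW_mul p (W2_S_mem p) (WW_gen p hc (by omega : k ≤ 2 * m + n) (b := b))
        rwa [zero_add] at h1
      · have h2 := W2_DD p hp u
        simp only [gen, Pi.mul_apply, chi_zero, sub_self, pow_succ, mul_zero, zero_mul, zero_add]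
        linear_combination (c * xx p ^ m * (chi p u - 1) ^ n * chi p (b * u)) * h2
  · exact ⟨0, (WW p k).zero_mem, fun u => by simp⟩
  · rintro f g ⟨g1, h1, e1⟩ ⟨g2, h2, e2⟩
    refine ⟨g1 + g2, (WW p k).add_mem h1 h2, fun u => ?_⟩
    simp only [Pi.add_apply]
    linear_combination e1 u + e2 u
  · rintro f ⟨g1, h1, e1⟩
    refine ⟨-g1, (WW p k).neg_mem h1, fun u => ?_⟩
    simp only [Pi.neg_apply]
    linear_combination -e1 u

theorem WW_p (h7 : 7 ≤ p) {f : ZMod p → ℂ} (hf : f ∈ WW p 0) : (p : ℂ) • f ∈ WW p 12 := by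
  obtain ⟨w, hw, h⟩ := p_eq p (by omega)
  have h1 : (p : ℂ) = xx p ^ 6 * (xx p ^ (p - 7) * w) := by
    rw [h, ← mul_assoc, ← pow_add]
    congr 2
    omega
  rw [h1, mul_smul]
  exact WW_xsmul p (WW_smul p hf ((OO p).mul_mem ((OO p).pow_mem (xx_mem p) _) hw)) 6

end

end Pool.Agent.Lib.MP_f2058c_gt
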