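import Mathlib
import Pool.Agent.Lib.MP_f2058c_gt.W2
import Pool.Agent.Lib.MP_f2058c_gt.CgL

/-!
# JOB Ex1: `chi (m u) = exp (m y / 2)` up to weight 6

`yy p = 2 L(Y)`, `Y = chi u - 1`, `L = Y - Y^2/2 + Y^3/3 - Y^4/4 + Y^5/5 - Y^6/6`, and `hh p` similarly with `xx p`.
Rational constants whose denominators have only the prime factors 2, 3, 5 are in `OO p` (`OO_smooth`).

Proofs.
* `WW_yy`: `Y ∈ WW 1` (`WW_Y`), `Y^n ∈ WW n ⊆ WW 1`, sums and multiples (`WW_smul`).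
* `hh_eq`: `hh = xx * (2 - xx + 2 xx^2/3)`.  `hh_const`: `hh^m = xx^m w^m`, `WW_const`.
* `exp_one`: `∑ n < 7, L^n / n! = 1 + Y` modulo `Y^7`.  With `T_1 = L` and
  `L T_1 = T_2 + Y^7 S_2`, `L T_2 = T_3 + Y^7 S_3`, `L T_3 = T_4 + Y^7 S_4`, `L T_4 = T_5 + Y^7 S_5`,
  `L T_5 = T_6 + Y^7 S_6`, where
  T_2 = Y^2 - Y^3 + (11/12) Y^4 - (5/6) Y^5 + (137/180) Y^6
  S_2 = -7/10 + (29/80) Y - (19/90) Y^2 + (37/300) Y^3 - (1/15) Y^4 + (1/36) Y^5
  T_3 = Y^3 - (3/2) Y^4 + (7/4) Y^5 - (15/8) Y^6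
  S_3 = 29/15 - (301/240) Y + (877/1080) Y^2 - (367/720) Y^3 + (131/450) Y^4 - (137/1080) Y^5
  T_4 = Y^4 - 2 Y^5 + (17/6) Y^6
  S_4 = -7/2 + (503/240) Y - (367/240) Y^2 + (171/160) Y^3 - (2/3) Y^4 + (5/16) Y^5
  T_5 = Y^5 - (5/2) Y^6
  S_5 = 25/6 - (7/3) Y + (74/45) Y^2 - (51/40) Y^3 + (9/10) Y^4 - (17/36) Y^5
  T_6 = Y^6
  S_6 = -3 + (19/12) Y - (13/12) Y^2 + (33/40) Y^3 - (2/3) Y^4 + (5/12) Y^5
  and `1 + L + T_2/2 + T_3/6 + T_4/24 + T_5/120 + T_6/720 = 1 + Y` exactly.  (All checked by computer; each line is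
  `ring`.)  So `L^n - T_n ∈ WW 7` by induction (`L^(n+1) - T_(n+1) = L (L^n - T_n) + Y^7 S_(n+1)`), hence the claim.
* `exp_nat`: put `Ef z = ∑ n < 7, (z^n/(2^n n!)) • yy^n`.  `Ef a * Ef 1 - Ef (a + 1) ∈ WW 7` for `a ∈ OO`: it is the sum
  over `i, j < 7` with `i + j ≥ 7` of `a^i / (2^(i+j) i! j!) • yy^(i+j)` (binomial theorem), each in `WW (i+j)`.
  (One way: `Ef a * Ef 1 - Ef (a+1) = yy^7 * Q` with an explicit polynomial `Q`; or `Finset.sum_product'`.)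
  Induction on `b : ℕ`: `chi (b u) = (chi u)^b`, `chi u = 1 + Y`.  `chi^0 = 1 = Ef 0`;
  `chi^(b+1) - Ef (b+1) = (chi^b - Ef b) chi + Ef b (chi - Ef 1) + (Ef b Ef 1 - Ef (b+1))`.
* `exp_y`: `chi (m u) = chi (m.val u)`, `exp_nat` with `b = m.val`, and `r = m.val + p w` (`Cg_val`), so
  `r^n - m.val^n = p w_n` with `w_n ∈ OO` (`sub_dvd_pow_sub_pow`-style, or `Commute.geom_sum`/induction), and
  `(p w_n/(2^n n!)) • yy^n = p • (...) ∈ WW 12 ⊆ WW 7` (`WW_p`).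
-/

set_option autoImplicit false

namespace Pool.Agent.Lib.MP_f2058c_gt

open Finset

noncomputable section

variable (p : ℕ) [Fact p.Prime]

/-- Truncated exponential. -/
def Ef (z : ℂ) : ZMod p → ℂ := ∑ n ∈ range 7, (z ^ n / (2 ^ n * (n.factorial : ℂ))) • yy p ^ n

theorem ex1_q (h7 : 7 ≤ p) (a b c : ℕ) (n : ℤ) (z : ℂ) (h : 2 ^ a * 3 ^ b * 5 ^ c * z = n) :
    z ∈ OO p := by
  refine OO_smooth p h7 a b c z ?_
  rw [h]
  exact intCast_mem (OO p) n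

theorem ex1_fac (h7 : 7 ≤ p) (n : ℕ) (hn : n < 7) : ((n.factorial : ℂ))⁻¹ ∈ OO p := by
  interval_cases n
  · exact ex1_q p h7 0 0 0 1 _ (by norm_num [Nat.factorial])
  · exact ex1_q p h7 0 0 0 1 _ (by norm_num [Nat.factorial])
  · exact ex1_q p h7 1 0 0 1 _ (by norm_num [Nat.factorial])
  · exact ex1_q p h7 1 1 0 1 _ (by norm_num [Nat.factorial])
  · exact ex1_q p h7 3 1 0 1 _ (by norm_num [Nat.factorial])
  · exact ex1_q p h7 3 1 1 1 _ (by norm_num [Nat.factorial])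
  · exact ex1_q p h7 4 2 1 1 _ (by norm_num [Nat.factorial])

theorem ex1_poly {k : ℕ} (N : ℕ) (q : ℕ → ℂ) (hq : ∀ i < N, q i ∈ OO p) (f : ZMod p → ℂ)
    (hf : ∀ u, f u = ∑ i ∈ range N, q i * (chi p u - 1) ^ (i + k)) : f ∈ WW p k := by
  have h1 : f = ∑ i ∈ range N, q i • (fun u => chi p u - 1) ^ (i + k) := by
    funext u
    rw [hf u, Finset.sum_apply]
    rfl
  rw [h1]
  refine AddSubgroup.sum_mem _ fun i hi => ?_
  have h2 : (fun u => chi p u - 1) ^ (i + k) ∈ WW p (1 * (i + k)) := WW_pow p (WW_Y p) (i + k)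
  exact WW_smul p (WW_anti p (by omega) h2) (hq i (mem_range.mp hi))

theorem WW_yy (h7 : 7 ≤ p) : yy p ∈ WW p 1 := by
  refine ex1_poly p 6 (fun i => if i = 0 then 2 else if i = 1 then -1 else if i = 2 then 2 / 3
    else if i = 3 then -1 / 2 else if i = 4 then 2 / 5 else -1 / 3) ?_ _ ?_
  · intro i hi
    interval_cases i
    · exact ex1_q p h7 0 0 0 2 _ (by norm_num)
    · exact ex1_q p h7 0 0 0 (-1) _ (by norm_num)
    · exact ex1_q p h7 0 1 0 2 _ (by norm_num)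
    · exact ex1_q p h7 1 0 0 (-1) _ (by norm_num)
    · exact ex1_q p h7 0 0 1 2 _ (by norm_num)
    · exact ex1_q p h7 0 1 0 (-1) _ (by norm_num)
  · intro u
    simp only [sum_range_succ, range_zero, sum_empty, yy]
    norm_num
    ring

theorem yy_zero : yy p 0 = 0 := by
  simp [yy]

theorem hh_eq (h7 : 7 ≤ p) : ∃ w ∈ OO p, hh p = xx p * w := by
  refine ⟨2 - xx p + (2 / 3) * xx p ^ 2, ?_, ?_⟩
  · refine (OO p).add_mem ((OO p).sub_mem ?_ (xx_mem p)) ((OO p).mul_mem ?_ ((OO p).pow_mem (xx_mem p) 2))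
    · exact ex1_q p h7 0 0 0 2 _ (by norm_num)
    · exact ex1_q p h7 0 1 0 2 _ (by norm_num)
  · unfold hh
    ring

theorem hh_mem (h7 : 7 ≤ p) : hh p ∈ OO p := by
  obtain ⟨w, hw, h⟩ := hh_eq p h7
  rw [h]
  exact (OO p).mul_mem (xx_mem p) hw

theorem hh_const (h7 : 7 ≤ p) (m : ℕ) : (fun _ => hh p ^ m) ∈ WW p (2 * m) := by
  obtain ⟨w, hw, h⟩ := hh_eq p h7
  have h1 : (fun _ : ZMod p => hh p ^ m) = fun _ => xx p ^ m * w ^ m := by
    funext u
    rw [h, mul_pow]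
  rw [h1]
  exact WW_const p ((OO p).pow_mem hw m) m

/-- The truncated logarithm. -/
def ex1_L : ZMod p → ℂ := fun u =>
  (chi p u - 1) - (chi p u - 1) ^ 2 / 2 + (chi p u - 1) ^ 3 / 3 - (chi p u - 1) ^ 4 / 4 +
    (chi p u - 1) ^ 5 / 5 - (chi p u - 1) ^ 6 / 6

theorem ex1_yyL (u : ZMod p) : yy p u = 2 * ex1_L p u := rfl

theorem ex1_L_mem (h7 : 7 ≤ p) : ex1_L p ∈ WW p 0 := by
  have h1 : ex1_L p = (1 / 2 : ℂ) • yy p := by
    funext u
    rw [Pi.smul_apply, ex1_yyL, smul_eq_mul]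
    ring
  rw [h1]
  exact WW_smul p (WW_anti p (by omega) (WW_yy p h7)) (ex1_q p h7 1 0 0 1 _ (by norm_num))

theorem ex1_step (h7 : 7 ≤ p) (n : ℕ) (T T' : ZMod p → ℂ)
    (hT : (fun u => ex1_L p u ^ n - T u) ∈ WW p 7) (N : ℕ) (q : ℕ → ℂ) (hq : ∀ i < N, q i ∈ OO p)
    (hqT : ∀ u, ex1_L p u * T u - T' u = ∑ i ∈ range N, q i * (chi p u - 1) ^ (i + 7)) :
    (fun u => ex1_L p u ^ (n + 1) - T' u) ∈ WW p 7 := by
  have h1 : (fun u => ex1_L p u * T u - T' u) ∈ WW p 7 := ex1_poly p N q hq _ hqT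
  have h2 : ex1_L p * (fun u => ex1_L p u ^ n - T u) ∈ WW p (0 + 7) := WW_mul p (ex1_L_mem p h7) hT
  rw [zero_add] at h2
  have h3 : (fun u => ex1_L p u ^ (n + 1) - T' u)
      = ex1_L p * (fun u => ex1_L p u ^ n - T u) + (fun u => ex1_L p u * T u - T' u) := by
    funext u
    simp only [Pi.add_apply, Pi.mul_apply]
    ring
  rw [h3]
  exact (WW p 7).add_mem h2 h1

theorem ex1_T1 : (fun u => ex1_L p u ^ 1 - ex1_L p u) ∈ WW p 7 := by
  have h : (fun u : ZMod p => ex1_L p u ^ 1 - ex1_L p u) = 0 := by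
    funext u
    simp
  rw [h]
  exact (WW p 7).zero_mem

theorem ex1_T2 (h7 : 7 ≤ p) : (fun u => ex1_L p u ^ 2 - ((chi p u - 1) ^ 2 - (chi p u - 1) ^ 3
    + 11 / 12 * (chi p u - 1) ^ 4 - 5 / 6 * (chi p u - 1) ^ 5 + 137 / 180 * (chi p u - 1) ^ 6))
    ∈ WW p 7 := by
  refine ex1_step p h7 1 (ex1_L p) _ (ex1_T1 p) 6 (fun i => if i = 0 then -7 / 10 else
    if i = 1 then 29 / 80 else if i = 2 then -19 / 90
    else if i = 3 then 37 / 300 else if i = 4 then -1 / 15 else 1 / 36) ?_ ?_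
  · intro i hi
    interval_cases i
    · exact ex1_q p h7 1 0 1 (-7) _ (by norm_num)
    · exact ex1_q p h7 4 0 1 29 _ (by norm_num)
    · exact ex1_q p h7 1 2 1 (-19) _ (by norm_num)
    · exact ex1_q p h7 2 1 2 37 _ (by norm_num)
    · exact ex1_q p h7 0 1 1 (-1) _ (by norm_num)
    · exact ex1_q p h7 2 2 0 1 _ (by norm_num)
  · intro u
    simp only [sum_range_succ, range_zero, sum_empty, ex1_L]
    norm_num
    ring

theorem ex1_T3 (h7 : 7 ≤ p) : (fun u => ex1_L p u ^ 3 - ((chi p u - 1) ^ 3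
    - 3 / 2 * (chi p u - 1) ^ 4 + 7 / 4 * (chi p u - 1) ^ 5 - 15 / 8 * (chi p u - 1) ^ 6))
    ∈ WW p 7 := by
  refine ex1_step p h7 2 _ _ (ex1_T2 p h7) 6 (fun i => if i = 0 then 29 / 15 else
    if i = 1 then -301 / 240 else if i = 2 then 877 / 1080
    else if i = 3 then -367 / 720 else if i = 4 then 131 / 450 else -137 / 1080) ?_ ?_
  · intro i hi
    interval_cases i
    · exact ex1_q p h7 0 1 1 29 _ (by norm_num)
    · exact ex1_q p h7 4 1 1 (-301) _ (by norm_num)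
    · exact ex1_q p h7 3 3 1 877 _ (by norm_num)
    · exact ex1_q p h7 4 2 1 (-367) _ (by norm_num)
    · exact ex1_q p h7 1 2 2 131 _ (by norm_num)
    · exact ex1_q p h7 3 3 1 (-137) _ (by norm_num)
  · intro u
    simp only [sum_range_succ, range_zero, sum_empty, ex1_L]
    norm_num
    ring

theorem ex1_T4 (h7 : 7 ≤ p) : (fun u => ex1_L p u ^ 4 - ((chi p u - 1) ^ 4
    - 2 * (chi p u - 1) ^ 5 + 17 / 6 * (chi p u - 1) ^ 6))
    ∈ WW p 7 := by
  refine ex1_step p h7 3 _ _ (ex1_T3 p h7) 6 (fun i => if i = 0 then -7 / 2 else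
    if i = 1 then 503 / 240 else if i = 2 then -367 / 240
    else if i = 3 then 171 / 160 else if i = 4 then -2 / 3 else 5 / 16) ?_ ?_
  · intro i hi
    interval_cases i
    · exact ex1_q p h7 1 0 0 (-7) _ (by norm_num)
    · exact ex1_q p h7 4 1 1 503 _ (by norm_num)
    · exact ex1_q p h7 4 1 1 (-367) _ (by norm_num)
    · exact ex1_q p h7 5 0 1 171 _ (by norm_num)
    · exact ex1_q p h7 0 1 0 (-2) _ (by norm_num)
    · exact ex1_q p h7 4 0 0 5 _ (by norm_num)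
  · intro u
    simp only [sum_range_succ, range_zero, sum_empty, ex1_L]
    norm_num
    ring

theorem ex1_T5 (h7 : 7 ≤ p) : (fun u => ex1_L p u ^ 5 - ((chi p u - 1) ^ 5
    - 5 / 2 * (chi p u - 1) ^ 6))
    ∈ WW p 7 := by
  refine ex1_step p h7 4 _ _ (ex1_T4 p h7) 6 (fun i => if i = 0 then 25 / 6 else
    if i = 1 then -7 / 3 else if i = 2 then 74 / 45
    else if i = 3 then -51 / 40 else if i = 4 then 9 / 10 else -17 / 36) ?_ ?_
  · intro i hi
    interval_cases i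
    · exact ex1_q p h7 1 1 0 25 _ (by norm_num)
    · exact ex1_q p h7 0 1 0 (-7) _ (by norm_num)
    · exact ex1_q p h7 0 2 1 74 _ (by norm_num)
    · exact ex1_q p h7 3 0 1 (-51) _ (by norm_num)
    · exact ex1_q p h7 1 0 1 9 _ (by norm_num)
    · exact ex1_q p h7 2 2 0 (-17) _ (by norm_num)
  · intro u
    simp only [sum_range_succ, range_zero, sum_empty, ex1_L]
    norm_num
    ring

theorem ex1_T6 (h7 : 7 ≤ p) : (fun u => ex1_L p u ^ 6 - (chi p u - 1) ^ 6) ∈ WW p 7 := by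
  refine ex1_step p h7 5 _ _ (ex1_T5 p h7) 6 (fun i => if i = 0 then -3 else
    if i = 1 then 19 / 12 else if i = 2 then -13 / 12
    else if i = 3 then 33 / 40 else if i = 4 then -2 / 3 else 5 / 12) ?_ ?_
  · intro i hi
    interval_cases i
    · exact ex1_q p h7 0 0 0 (-3) _ (by norm_num)
    · exact ex1_q p h7 2 1 0 19 _ (by norm_num)
    · exact ex1_q p h7 2 1 0 (-13) _ (by norm_num)
    · exact ex1_q p h7 3 0 1 33 _ (by norm_num)
    · exact ex1_q p h7 0 1 0 (-2) _ (by norm_num)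
    · exact ex1_q p h7 2 1 0 5 _ (by norm_num)
  · intro u
    simp only [sum_range_succ, range_zero, sum_empty, ex1_L]
    norm_num
    ring

theorem exp_one (h7 : 7 ≤ p) : (fun u => chi p u) - Ef p 1 ∈ WW p 7 := by
  have h2 := WW_smul p (ex1_T2 p h7) (ex1_q p h7 1 0 0 1 (1 / 2 : ℂ) (by norm_num))
  have h3 := WW_smul p (ex1_T3 p h7) (ex1_q p h7 1 1 0 1 (1 / 6 : ℂ) (by norm_num))
  have h4 := WW_smul p (ex1_T4 p h7) (ex1_q p h7 3 1 0 1 (1 / 24 : ℂ) (by norm_num))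
  have h5 := WW_smul p (ex1_T5 p h7) (ex1_q p h7 3 1 1 1 (1 / 120 : ℂ) (by norm_num))
  have h6 := WW_smul p (ex1_T6 p h7) (ex1_q p h7 4 2 1 1 (1 / 720 : ℂ) (by norm_num))
  have h8 := (WW p 7).neg_mem ((WW p 7).add_mem ((WW p 7).add_mem ((WW p 7).add_mem
    ((WW p 7).add_mem h2 h3) h4) h5) h6)
  refine (congrArg (· ∈ WW p 7) ?_).mp h8
  funext u
  simp only [Pi.neg_apply, Pi.add_apply, Pi.smul_apply, Pi.sub_apply, smul_eq_mul, Ef, Finset.sum_apply,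
    sum_range_succ, range_zero, sum_empty, Pi.pow_apply, ex1_yyL, Nat.factorial, Pi.zero_apply]
  generalize hL : ex1_L p u = L
  have hL' : L = (chi p u - 1) - (chi p u - 1) ^ 2 / 2 + (chi p u - 1) ^ 3 / 3 - (chi p u - 1) ^ 4 / 4 +
    (chi p u - 1) ^ 5 / 5 - (chi p u - 1) ^ 6 / 6 := hL.symm
  push_cast
  linear_combination hL'

theorem ex1_Ef_mem (h7 : 7 ≤ p) {a : ℂ} (ha : a ∈ OO p) : Ef p a ∈ WW p 0 := by
  refine AddSubgroup.sum_mem _ fun n hn => ?_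
  have h2 : yy p ^ n ∈ WW p (1 * n) := WW_pow p (WW_yy p h7) n
  refine WW_smul p (WW_anti p (Nat.zero_le _) h2) ?_
  have h3 : a ^ n / (2 ^ n * (n.factorial : ℂ)) = a ^ n * ((2 : ℂ)⁻¹ ^ n * ((n.factorial : ℂ))⁻¹) := by
    rw [inv_pow, ← mul_inv, div_eq_mul_inv]
  rw [h3]
  exact (OO p).mul_mem ((OO p).pow_mem ha n) ((OO p).mul_mem ((OO p).pow_mem (inv_two_mem p h7) n)
    (ex1_fac p h7 n (mem_range.mp hn)))

theorem ex1_Ef_mul (h7 : 7 ≤ p) {a : ℂ} (ha : a ∈ OO p) : Ef p a * Ef p 1 - Ef p (a + 1) ∈ WW p 7 := by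
  have hc : ∀ i j k : ℕ, i < 7 → j < 7 →
      a ^ i * ((2 : ℂ)⁻¹ ^ k * (((i.factorial : ℂ))⁻¹ * ((j.factorial : ℂ))⁻¹)) ∈ OO p := by
    intro i j k hi hj
    exact (OO p).mul_mem ((OO p).pow_mem ha i) ((OO p).mul_mem ((OO p).pow_mem (inv_two_mem p h7) k)
      ((OO p).mul_mem (ex1_fac p h7 i hi) (ex1_fac p h7 j hj)))
  have h1 : Ef p a * Ef p 1 - Ef p (a + 1) = ∑ k ∈ range 6, ∑ i ∈ (range 7).filter (fun i => k + 1 ≤ i),
      (a ^ i * ((2 : ℂ)⁻¹ ^ (k + 7) * (((i.factorial : ℂ))⁻¹ *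
        (((k + 7 - i).factorial : ℂ))⁻¹))) • yy p ^ (k + 7) := by
    have f0 : (range 7).filter (fun i => 0 + 1 ≤ i) = {1, 2, 3, 4, 5, 6} := by decide
    have f1 : (range 7).filter (fun i => 1 + 1 ≤ i) = {2, 3, 4, 5, 6} := by decide
    have f2 : (range 7).filter (fun i => 2 + 1 ≤ i) = {3, 4, 5, 6} := by decide
    have f3 : (range 7).filter (fun i => 3 + 1 ≤ i) = {4, 5, 6} := by decide
    have f4 : (range 7).filter (fun i => 4 + 1 ≤ i) = {5, 6} := by decide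
    have f5 : (range 7).filter (fun i => 5 + 1 ≤ i) = {6} := by decide
    rw [sum_range_succ, sum_range_succ, sum_range_succ, sum_range_succ, sum_range_succ, sum_range_succ,
      range_zero, sum_empty, f0, f1, f2, f3, f4, f5]
    funext u
    simp only [Pi.add_apply, Pi.smul_apply, Pi.sub_apply, Pi.mul_apply, smul_eq_mul, Ef, Finset.sum_apply,
      sum_range_succ, range_zero, sum_empty, Pi.pow_apply, Pi.zero_apply]
    generalize yy p u = y
    repeat rw [Finset.sum_insert (by decide)]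
    simp only [Finset.sum_singleton, Pi.add_apply, Pi.smul_apply, smul_eq_mul, Pi.pow_apply]
    norm_num [Nat.factorial]
    ring
  rw [h1]
  refine AddSubgroup.sum_mem _ fun k _ => AddSubgroup.sum_mem _ fun i hi => ?_
  rw [mem_filter, mem_range] at hi
  have h2 : yy p ^ (k + 7) ∈ WW p (1 * (k + 7)) := WW_pow p (WW_yy p h7) (k + 7)
  exact WW_smul p (WW_anti p (by omega) h2) (hc i (k + 7 - i) (k + 7) hi.1 (by omega))

theorem exp_nat (h7 : 7 ≤ p) (b : ℕ) : (fun u => chi p ((b : ZMod p) * u)) - Ef p b ∈ WW p 7 := by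
  induction b with
  | zero =>
    have h1 : (fun u : ZMod p => chi p (((0 : ℕ) : ZMod p) * u)) - Ef p ((0 : ℕ) : ℂ) = 0 := by
      funext u
      simp [Ef, sum_range_succ]
    rw [h1]
    exact (WW p 7).zero_mem
  | succ b ih =>
    have hb : ((b : ℕ) : ℂ) ∈ OO p := natCast_mem (OO p) b
    have h1 : ((fun u => chi p ((b : ZMod p) * u)) - Ef p b) * (fun u => chi p ((1 : ZMod p) * u))
        ∈ WW p (7 + 0) := WW_mul p ih (WW_chi p 1)
    have h2 : Ef p b * ((fun u => chi p u) - Ef p 1) ∈ WW p (0 + 7) :=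
      WW_mul p (ex1_Ef_mem p h7 hb) (exp_one p h7)
    have h3 := ex1_Ef_mul p h7 hb
    rw [add_zero] at h1
    rw [zero_add] at h2
    have h4 := (WW p 7).add_mem ((WW p 7).add_mem h1 h2) h3
    refine (congrArg (· ∈ WW p 7) ?_).mp h4
    funext u
    simp only [Pi.add_apply, Pi.sub_apply, Pi.mul_apply, one_mul]
    have h5 : chi p (((b + 1 : ℕ) : ZMod p) * u) = chi p ((b : ZMod p) * u) * chi p u := by
      rw [← chi_add]
      congr 1
      push_cast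
      ring
    rw [h5]
    push_cast
    ring

theorem exp_y (h7 : 7 ≤ p) {r : ℚ} {m : ZMod p} (h : Cg p r m) :
    (fun u => chi p (m * u)) - Ef p r ∈ WW p 7 := by
  obtain ⟨w, hw, hr⟩ := Cg_val p h
  have hrm : (r : ℂ) ∈ OO p := Cg_mem p h
  have hvm : ((m.val : ℕ) : ℂ) ∈ OO p := natCast_mem (OO p) _
  have h1 := exp_nat p h7 m.val
  rw [ZMod.natCast_zmod_val] at h1
  have h2 : Ef p (m.val : ℂ) - Ef p r ∈ WW p 7 := by
    have h3 : Ef p (m.val : ℂ) - Ef p r = (p : ℂ) • ∑ n ∈ range 7,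
        (-(w * ∑ i ∈ range n, (r : ℂ) ^ i * (m.val : ℂ) ^ (n - 1 - i)) *
          ((2 : ℂ)⁻¹ ^ n * ((n.factorial : ℂ))⁻¹)) • yy p ^ n := by
      rw [Finset.smul_sum, Ef, Ef, ← Finset.sum_sub_distrib]
      refine Finset.sum_congr rfl fun n _ => ?_
      rw [smul_smul, ← sub_smul]
      congr 1
      have h4 := (Commute.all (r : ℂ) (m.val : ℂ)).mul_geom_sum₂ n
      have h5 : (r : ℂ) - (m.val : ℂ) = p * w := by rw [hr]; ring
      rw [h5] at h4
      rw [inv_pow, ← mul_inv, ← sub_div, div_eq_mul_inv]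
      linear_combination ((2 ^ n * (n.factorial : ℂ))⁻¹) * h4
    rw [h3]
    refine WW_anti p (by norm_num) (WW_p p h7 ?_)
    refine AddSubgroup.sum_mem _ fun n hn => ?_
    have h6 : yy p ^ n ∈ WW p (1 * n) := WW_pow p (WW_yy p h7) n
    refine WW_smul p (WW_anti p (Nat.zero_le _) h6) ?_
    refine (OO p).mul_mem ((OO p).neg_mem ((OO p).mul_mem hw (sum_mem fun i _ =>
      (OO p).mul_mem ((OO p).pow_mem hrm i) ((OO p).pow_mem hvm _))))
      ((OO p).mul_mem ((OO p).pow_mem (inv_two_mem p h7) n) (ex1_fac p h7 n (mem_range.mp hn)))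
  have h7' := (WW p 7).add_mem h1 h2
  refine (congrArg (· ∈ WW p 7) ?_).mp h7'
  funext u
  simp only [Pi.add_apply, Pi.sub_apply]
  ring

end

end Pool.Agent.Lib.MP_f2058c_gt
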