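import Mathlib
import Pool.Agent.Lib.MP_f2058c_gt.Ex1

/-!
# JOB Ex2: expansions of constants, of `DD` and of values of `yy`

`hh p = 2 (xx - xx^2/2 + xx^3/3)`.  Congruences of constants are modulo `xx^4 OO`.

Proofs.
* `exp_h`: as for `exp_y` but with constants: `Eh z = ∑ n < 4, z^n/(2^n n!) hh^n`.
  (i) `Eh 1 - (1 + xx) ∈ xx^4 OO`: with `l = xx - xx^2/2 + xx^3/3`, `Eh 1 = 1 + l + l^2/2 + l^3/6` and the difference is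
  `xx^4` times an explicit polynomial in `xx` (expand with `ring`).
  (ii) `Eh a * Eh 1 - Eh (a+1) ∈ xx^4 OO` for `a ∈ OO` (it is `hh^4` times a polynomial in `a, hh`; `hh = xx w`).
  (iii) induction: `chi (b : ZMod p) = (chi 1)^b ≡ Eh b` for `b : ℕ`.
  (iv) `r = m.val + p w` (`Cg_val`) and `p = xx^(p-1) w'` (`p_eq`, `p - 1 ≥ 4`) give `Eh r ≡ Eh m.val`.
* `DD_y`: `DD u = chi u - chi (-u)`, `exp_y` with `r = 1` and `r = -1` (`Cg_int`):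
  `Ef 1 - Ef (-1) = yy + yy^3/24 + yy^5/1920`.
* `D1_h`: `DD 1 = chi 1 - chi (-1)`, `exp_h` with `r = ±1`: `Eh 1 - Eh (-1) = hh + hh^3/24`.
* `hh_unit`: `v = (1/2) (1 + xx/2 - xx^2/12)`: `hh v = xx (1 + xx^3 w)` (expand:
  `(2 - xx + 2 xx^2/3) (1 + xx/2 - xx^2/12)/2 = 1 + xx^3 w`).
* `yy_at`: let `Z = chi b - 1`; by `exp_h`, `Z = z + z^2/2 + z^3/6 + xx^4 w` with `z = r hh/2 ∈ xx OO`.  So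
  `Z ∈ xx OO` and `Z^4, Z^5, Z^6 ∈ xx^4 OO`, `Z^2 ≡ z^2 + z^3`, `Z^3 ≡ z^3` modulo `xx^4 OO`, so that
  `Z - Z^2/2 + Z^3/3 ≡ z + z^2/2 + z^3/6 - z^2/2 - z^3/2 + z^3/3 = z` and `yy b = 2 (Z - Z^2/2 + ...) ≡ 2 z = r hh`.
-/

set_option autoImplicit false

namespace Pool.Agent.Lib.MP_f2058c_gt

open Finset

noncomputable section

variable (p : ℕ) [Fact p.Prime]

private theorem ex2_I2 (h7 : 7 ≤ p) : ∃ I : OO p, (I : ℂ) = 2⁻¹ := ⟨⟨_, inv_two_mem p h7⟩, rfl⟩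
private theorem ex2_I3 (h7 : 7 ≤ p) : ∃ I : OO p, (I : ℂ) = 3⁻¹ := ⟨⟨_, inv_three_mem p h7⟩, rfl⟩
private theorem ex2_I5 (h7 : 7 ≤ p) : ∃ I : OO p, (I : ℂ) = 5⁻¹ := ⟨⟨_, inv_five_mem p h7⟩, rfl⟩
private theorem ex2_X : ∃ X : OO p, (X : ℂ) = xx p := ⟨⟨_, xx_mem p⟩, rfl⟩
private theorem ex2_lift {z : ℂ} (h : z ∈ OO p) : ∃ X : OO p, (X : ℂ) = z := ⟨⟨_, h⟩, rfl⟩

private theorem ex2_ofNat (n : ℕ) [n.AtLeastTwo] :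
    ((ofNat(n) : OO p) : ℂ) = ofNat(n) := rfl

/-- Truncated exponential of constants. -/
private def ex2_E (z : ℂ) : ℂ := 1 + z / 2 * hh p + z ^ 2 / 8 * hh p ^ 2 + z ^ 3 / 48 * hh p ^ 3

private theorem ex2_E_eq (z : ℂ) :
    ∑ n ∈ range 4, z ^ n / (2 ^ n * (n.factorial : ℂ)) * hh p ^ n = ex2_E p z := by
  simp only [sum_range_succ, range_zero, sum_empty, ex2_E, Nat.factorial]
  push_cast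
  ring

private theorem ex2_E_one (h7 : 7 ≤ p) : ∃ w ∈ OO p, 1 + xx p = ex2_E p 1 + xx p ^ 4 * w := by
  obtain ⟨I2, h2⟩ := ex2_I2 p h7
  obtain ⟨I3, h3⟩ := ex2_I3 p h7
  obtain ⟨X, hX⟩ := ex2_X p
  refine ⟨_, (-(5 * I2 ^ 3 * I3 + X * I2 ^ 3 - 19 * X ^ 2 * I2 ^ 4 * I3 ^ 2
    + 7 * X ^ 3 * I2 ^ 3 * I3 ^ 2 - X ^ 4 * I2 ^ 2 * I3 ^ 2 + X ^ 5 * I2 * I3 ^ 4) : OO p).2, ?_⟩
  push_cast
  simp only [ex2_ofNat]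
  rw [h2, h3, hX, ex2_E, hh]
  ring

private theorem ex2_E_add (h7 : 7 ≤ p) {a : ℂ} (ha : a ∈ OO p) :
    ∃ w ∈ OO p, ex2_E p a * ex2_E p 1 = ex2_E p (a + 1) + xx p ^ 4 * w := by
  obtain ⟨I2, h2⟩ := ex2_I2 p h7
  obtain ⟨I3, h3⟩ := ex2_I3 p h7
  obtain ⟨A, hA⟩ := ex2_lift p ha
  obtain ⟨w0, hw0, h0⟩ := hh_eq p h7
  obtain ⟨V, hV⟩ := ex2_lift p hw0
  obtain ⟨H, hH⟩ := ex2_lift p (hh_mem p h7)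
  refine ⟨_, (V ^ 4 * ((A * I2 ^ 5 * I3 + A ^ 2 * I2 ^ 6 + A ^ 3 * I2 ^ 5 * I3)
    + H * (A ^ 2 * I2 ^ 7 * I3 + A ^ 3 * I2 ^ 7 * I3) + H ^ 2 * (A ^ 3 * I2 ^ 8 * I3 ^ 2)) : OO p).2, ?_⟩
  push_cast
  rw [h2, h3, hA, hV, hH]
  have h4 : xx p ^ 4 * (w0 ^ 4 * ((a * 2⁻¹ ^ 5 * 3⁻¹ + a ^ 2 * 2⁻¹ ^ 6 + a ^ 3 * 2⁻¹ ^ 5 * 3⁻¹)
    + hh p * (a ^ 2 * 2⁻¹ ^ 7 * 3⁻¹ + a ^ 3 * 2⁻¹ ^ 7 * 3⁻¹)
    + hh p ^ 2 * (a ^ 3 * 2⁻¹ ^ 8 * 3⁻¹ ^ 2)))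
    = hh p ^ 4 * ((a * 2⁻¹ ^ 5 * 3⁻¹ + a ^ 2 * 2⁻¹ ^ 6 + a ^ 3 * 2⁻¹ ^ 5 * 3⁻¹)
    + hh p * (a ^ 2 * 2⁻¹ ^ 7 * 3⁻¹ + a ^ 3 * 2⁻¹ ^ 7 * 3⁻¹)
    + hh p ^ 2 * (a ^ 3 * 2⁻¹ ^ 8 * 3⁻¹ ^ 2)) := by
    have h5 : hh p ^ 4 = xx p ^ 4 * w0 ^ 4 := by rw [h0, mul_pow]
    rw [h5]
    ring
  rw [h4, ex2_E, ex2_E, ex2_E]
  ring

private theorem ex2_E_mem (h7 : 7 ≤ p) {a : ℂ} (ha : a ∈ OO p) : ex2_E p a ∈ OO p := by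
  obtain ⟨I2, h2⟩ := ex2_I2 p h7
  obtain ⟨I3, h3⟩ := ex2_I3 p h7
  obtain ⟨A, hA⟩ := ex2_lift p ha
  obtain ⟨H, hH⟩ := ex2_lift p (hh_mem p h7)
  have h4 : ex2_E p a = ((1 + A * I2 * H + A ^ 2 * I2 ^ 3 * H ^ 2 + A ^ 3 * I2 ^ 4 * I3 * H ^ 3 : OO p) : ℂ) := by
    push_cast
    rw [h2, h3, hA, hH, ex2_E]
    ring
  rw [h4]
  exact Subtype.prop _

private theorem ex2_nat (h7 : 7 ≤ p) (b : ℕ) :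
    ∃ w ∈ OO p, chi p (b : ZMod p) = ex2_E p b + xx p ^ 4 * w := by
  induction b with
  | zero =>
    refine ⟨0, (OO p).zero_mem, ?_⟩
    rw [Nat.cast_zero, chi_zero, ex2_E]
    simp
  | succ b ih =>
    obtain ⟨w, hw, h⟩ := ih
    obtain ⟨w1, hw1, h1⟩ := ex2_E_one p h7
    have hb : ((b : ℕ) : ℂ) ∈ OO p := natCast_mem (OO p) b
    obtain ⟨w2, hw2, h2⟩ := ex2_E_add p h7 hb
    obtain ⟨B, hB⟩ := ex2_lift p (ex2_E_mem p h7 hb)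
    obtain ⟨E1, hE1⟩ := ex2_lift p (ex2_E_mem p h7 (OO p).one_mem)
    obtain ⟨W, hW⟩ := ex2_lift p hw
    obtain ⟨W1, hW1⟩ := ex2_lift p hw1
    obtain ⟨W2, hW2⟩ := ex2_lift p hw2
    obtain ⟨X, hX⟩ := ex2_X p
    refine ⟨_, (W2 + B * W1 + W * E1 + X ^ 4 * W * W1 : OO p).2, ?_⟩
    have h3 : chi p ((b + 1 : ℕ) : ZMod p) = chi p (b : ZMod p) * (1 + xx p) := by
      rw [Nat.cast_add, Nat.cast_one, chi_add, xx]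
      ring
    push_cast
    push_cast at h3
    rw [h3, h, h1, hW, hW1, hW2, hB, hE1, hX]
    linear_combination h2

theorem exp_h (h7 : 7 ≤ p) {r : ℚ} {m : ZMod p} (h : Cg p r m) :
    ∃ w ∈ OO p, chi p m = ∑ n ∈ range 4, (r : ℂ) ^ n / (2 ^ n * (n.factorial : ℂ)) * hh p ^ n + xx p ^ 4 * w := by
  rw [ex2_E_eq]
  obtain ⟨w, hw, hr⟩ := Cg_val p h
  obtain ⟨w1, hw1, h1⟩ := ex2_nat p h7 m.val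
  rw [ZMod.natCast_zmod_val] at h1
  obtain ⟨w2, hw2, h2⟩ := p_eq p (by omega)
  obtain ⟨I2, hI2⟩ := ex2_I2 p h7
  obtain ⟨I3, hI3⟩ := ex2_I3 p h7
  obtain ⟨W, hW⟩ := ex2_lift p hw
  obtain ⟨W1, hW1⟩ := ex2_lift p hw1
  obtain ⟨W2, hW2⟩ := ex2_lift p hw2
  obtain ⟨H, hH⟩ := ex2_lift p (hh_mem p h7)
  obtain ⟨X, hX⟩ := ex2_X p
  obtain ⟨V, hV⟩ := ex2_lift p (natCast_mem (OO p) m.val)
  obtain ⟨Q, hQ⟩ := ex2_lift p (natCast_mem (OO p) p)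
  have h3 : (p : ℂ) = xx p ^ 4 * (xx p ^ (p - 5) * w2) := by
    rw [← mul_assoc, ← pow_add, show 4 + (p - 5) = p - 1 by omega]
    exact h2
  refine ⟨_, (W1 - (X ^ (p - 5) * W2) * W * (I2 * H + (2 * V + Q * W) * I2 ^ 3 * H ^ 2
    + (3 * V ^ 2 + 3 * V * Q * W + Q ^ 2 * W ^ 2) * I2 ^ 4 * I3 * H ^ 3) : OO p).2, ?_⟩
  push_cast
  simp only [ex2_ofNat]
  rw [hI2, hI3, hW, hW1, hW2, hH, hX, hV, hQ, h1, ex2_E, ex2_E, hr]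
  have h4 : xx p ^ 4 * (w1 - xx p ^ (p - 5) * w2 * w * (2⁻¹ * hh p
      + (2 * (m.val : ℂ) + (p : ℂ) * w) * 2⁻¹ ^ 3 * hh p ^ 2
      + (3 * (m.val : ℂ) ^ 2 + 3 * (m.val : ℂ) * (p : ℂ) * w + (p : ℂ) ^ 2 * w ^ 2) * 2⁻¹ ^ 4 * 3⁻¹
        * hh p ^ 3))
      = xx p ^ 4 * w1 - (xx p ^ 4 * (xx p ^ (p - 5) * w2)) * w * (2⁻¹ * hh p
      + (2 * (m.val : ℂ) + (p : ℂ) * w) * 2⁻¹ ^ 3 * hh p ^ 2
      + (3 * (m.val : ℂ) ^ 2 + 3 * (m.val : ℂ) * (p : ℂ) * w + (p : ℂ) ^ 2 * w ^ 2) * 2⁻¹ ^ 4 * 3⁻¹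
        * hh p ^ 3) := by
    ring
  rw [h4, ← h3]
  ring

theorem DD_y (h7 : 7 ≤ p) :
    DD p - (yy p + (1 / 24 : ℂ) • yy p ^ 3 + (1 / 1920 : ℂ) • yy p ^ 5) ∈ WW p 7 := by
  have h1 := exp_y p h7 (Cg_int p 1)
  have h2 := exp_y p h7 (Cg_int p (-1))
  have h3 := (WW p 7).sub_mem h1 h2
  have h4 : DD p - (yy p + (1 / 24 : ℂ) • yy p ^ 3 + (1 / 1920 : ℂ) • yy p ^ 5)
      = ((fun u => chi p (((1 : ℤ) : ZMod p) * u)) - Ef p (((1 : ℤ) : ℚ) : ℂ))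
        - ((fun u => chi p (((-1 : ℤ) : ZMod p) * u)) - Ef p (((-1 : ℤ) : ℚ) : ℂ)) := by
    funext u
    simp only [Ef, sum_range_succ, range_zero, sum_empty, Pi.sub_apply, Pi.add_apply,
      Pi.smul_apply, Pi.pow_apply, smul_eq_mul, Nat.factorial, DD, Pi.zero_apply]
    push_cast
    rw [one_mul, neg_one_mul]
    ring
  rw [h4]
  exact h3

theorem D1_h (h7 : 7 ≤ p) : ∃ w ∈ OO p, DD p 1 = hh p * (1 + hh p ^ 2 / 24) + xx p ^ 4 * w := by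
  obtain ⟨w1, hw1, h1⟩ := exp_h p h7 (Cg_int p 1)
  obtain ⟨w2, hw2, h2⟩ := exp_h p h7 (Cg_int p (-1))
  refine ⟨w1 - w2, (OO p).sub_mem hw1 hw2, ?_⟩
  rw [ex2_E_eq, ex2_E] at h1 h2
  push_cast at h1 h2
  rw [DD, h1, h2]
  ring

theorem hh_unit (h7 : 7 ≤ p) : ∃ v ∈ OO p, ∃ w ∈ OO p, hh p * v = xx p * (1 + xx p ^ 3 * w) := by
  obtain ⟨I2, h2⟩ := ex2_I2 p h7
  obtain ⟨I3, h3⟩ := ex2_I3 p h7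
  obtain ⟨X, hX⟩ := ex2_X p
  refine ⟨_, (I2 * (1 + X * I2 - X ^ 2 * I2 ^ 2 * I3) : OO p).2, _,
    (5 * I2 ^ 3 * I3 - X * I2 ^ 2 * I3 ^ 2 : OO p).2, ?_⟩
  push_cast
  simp only [ex2_ofNat]
  rw [h2, h3, hX, hh]
  ring

theorem yy_at (h7 : 7 ≤ p) {r : ℚ} {m : ZMod p} (h : Cg p r m) :
    ∃ w ∈ OO p, yy p m = (r : ℂ) * hh p + xx p ^ 4 * w := by
  obtain ⟨w1, hw1, h1⟩ := exp_h p h7 h
  rw [ex2_E_eq, ex2_E] at h1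
  obtain ⟨w0, hw0, h0⟩ := hh_eq p h7
  obtain ⟨I2, h2⟩ := ex2_I2 p h7
  obtain ⟨I3, h3⟩ := ex2_I3 p h7
  obtain ⟨I5, h5⟩ := ex2_I5 p h7
  obtain ⟨X, hX⟩ := ex2_X p
  obtain ⟨R, hR⟩ := ex2_lift p (Cg_mem p h)
  obtain ⟨W, hW⟩ := ex2_lift p hw1
  obtain ⟨W0, hW0⟩ := ex2_lift p hw0
  obtain ⟨T, hT⟩ : ∃ T : OO p, (T : ℂ) = r * w0 / 2 := by
    refine ⟨R * W0 * I2, ?_⟩
    push_cast
    rw [hR, hW0, h2]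
    ring
  obtain ⟨U, hU⟩ : ∃ U : OO p, (U : ℂ) = (T : ℂ) ^ 2 / 2 + xx p * (T : ℂ) ^ 3 / 6 + xx p ^ 2 * w1 := by
    refine ⟨T ^ 2 * I2 + X * T ^ 3 * I2 * I3 + X ^ 2 * W, ?_⟩
    push_cast
    rw [h2, h3, hX, hW]
    ring
  obtain ⟨S, hS⟩ : ∃ S : OO p, (S : ℂ) = (T : ℂ) + xx p * (U : ℂ) := by
    refine ⟨T + X * U, ?_⟩
    push_cast
    rw [hX]
  have hZ : chi p m - 1 = xx p * (S : ℂ) := by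
    rw [h1, hS, hU, hT, h0]
    ring
  refine ⟨_, (2 * (W - (T ^ 4 * I3 + 2 * X * T * W + U ^ 2) * I2
    + (3 * T ^ 2 * U + 3 * X * T * U ^ 2 + X ^ 2 * U ^ 3) * I3 - S ^ 4 * I2 ^ 2
    + X * S ^ 5 * I5 - X ^ 2 * S ^ 6 * I2 * I3) : OO p).2, ?_⟩
  have hrh : (r : ℂ) * hh p = 2 * (xx p * (T : ℂ)) := by
    rw [h0, hT]
    ring
  rw [yy, hZ, hrh]
  push_cast
  simp only [ex2_ofNat]
  rw [h2, h3, h5, hX, hW]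
  have e1 : xx p * (S : ℂ) - (xx p * (S : ℂ)) ^ 2 / 2 + (xx p * (S : ℂ)) ^ 3 / 3
      = xx p * (T : ℂ) + xx p ^ 4 * (w1 - ((T : ℂ) ^ 4 * 3⁻¹ + 2 * xx p * (T : ℂ) * w1 + (U : ℂ) ^ 2) * 2⁻¹
      + (3 * (T : ℂ) ^ 2 * (U : ℂ) + 3 * xx p * (T : ℂ) * (U : ℂ) ^ 2 + xx p ^ 2 * (U : ℂ) ^ 3) * 3⁻¹) := by
    rw [hS]
    linear_combination (xx p ^ 2 - xx p ^ 3 * (T : ℂ)) * hU
  linear_combination 2 * e1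

end

end Pool.Agent.Lib.MP_f2058c_gt
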