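import Mathlib
import Pool.Agent.Lib.MP_f2058c_gt.Ex2

/-!
# JOB E5L: the truncated exponentials `E5 P`

Weights: `hh` has weight 2 (`hh_eq`, `hh_const`), `yy` has weight 1 (`WW_yy`).  `E5 P` contains the monomials
`1, h, y^2, h^2, h y^2, y^4`.

Proofs.
* `ParOK_add`, `ParOK_PD`, `ParOK_hat`: `OO` is a ring containing `1/24` and `1/2880` (`OO_smooth`, e.g.
  `2880 = 2^6 3^2 5`).
* `E5_mem`: sums of products of constants in `OO` with powers of the constant function `hh` and of `yy`.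
* `E5_mul`: `E5 P * E5 R - E5 (P + R)` is a combination with coefficients in `OO` of the monomials
  `h^3, h^2 y^2, h y^4, y^6, h^4, h^3 y^2, h^2 y^4, h y^6, y^8` (weights 6 and 8): expand and collect; each is in
  `WW 6`.
* `DE5`: `DD - yy * E5 PD ∈ WW 7`: `DD_y` and `E5 PD = 1 + y^2/24 + y^4/1920` exactly
  (`-1/2880 + (1/24)^2/2 = 1/1920`).
* `hat_add`: `PD + Q.hat = Q`, `(P + PD).hat = P` (`Par.ext`; `simp [PD, Par.hat]`).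
* `GK_of_KK`: `G = DD * K`.  `DD ∈ WW 1` (`DD_y` or `DD u = (chi u - 1) - (chi (-u) - 1)`, `WW_chi_sub`).
  `DD K - c y E5(P + PD) = DD (K - c E5 P) + c E5 P (DD - y E5 PD) + c y (E5 P E5 PD - E5 (P + PD))`:
  weights 1+6, 0+7, 1+6.  Odd: `DD_neg` and `K` even.
* `D2K`: the same computation once more: `DD^2 K = DD (DD K)` and
  `DD (DD K) - c y^2 E5(P+PD+PD) = DD (DD K - c y E5(P+PD)) + c y E5(P+PD) (DD - y E5 PD)
     + c y^2 (E5 (P+PD) E5 PD - E5(P+PD+PD))`: weights 8, 8, 8, in particular in `WW 7`.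
* `KK_mul`: `K K' - c c' E5(P+P') = K (K' - c' E5 P') + c' E5 P' (K - c E5 P) + c c' (E5 P E5 P' - E5 (P+P'))`.
* `KK_one`: the constant function `1` with `c = 1`, `P = 0`.
* `divide`: `f - c DD E5(Q.hat) = (f - c y E5 Q) + c (y E5 Q - y E5 PD E5 (Q.hat)) - c (DD - y E5 PD) E5 (Q.hat) ∈ WW 7`
  since `PD + Q.hat = Q`.  Call it `r`; `f 0 = 0` since `f` is odd (`2 f 0 = 0`), `DD 0 = 0`, so `r 0 = 0` and
  `WW_div` (`k = 6`) gives `g ∈ WW 6` with `r = DD g`.  Put `K = c • E5 (Q.hat) + g`.  Then `f = DD K`.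
  `K` is even: at `u = 0` trivial; at `u ≠ 0`, `DD (-u) K (-u) = f (-u) = -f u = -DD u K u` and `DD u ≠ 0`.
-/

set_option autoImplicit false

namespace Pool.Agent.Lib.MP_f2058c_gt

open Finset

noncomputable section

variable (p : ℕ) [Fact p.Prime]

theorem ParOK_add {P R : Par} (hP : ParOK p P) (hR : ParOK p R) : ParOK p (P + R) := by
  obtain ⟨a1, a2, a3, a4, a5⟩ := hP
  obtain ⟨b1, b2, b3, b4, b5⟩ := hR
  refine ⟨?_, ?_, ?_, ?_, ?_⟩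
  · rw [Par.add_A, Rat.cast_add]; exact (OO p).add_mem a1 b1
  · rw [Par.add_B, Rat.cast_add]; exact (OO p).add_mem a2 b2
  · rw [Par.add_C, Rat.cast_add]; exact (OO p).add_mem a3 b3
  · rw [Par.add_D, Rat.cast_add]; exact (OO p).add_mem a4 b4
  · rw [Par.add_E, Rat.cast_add]; exact (OO p).add_mem a5 b5

theorem E5L_c24 (h7 : 7 ≤ p) : ((1 / 24 : ℚ) : ℂ) ∈ OO p := by
  refine OO_smooth p h7 3 1 0 _ ?_
  have : (2 : ℂ) ^ 3 * 3 ^ 1 * 5 ^ 0 * ((1 / 24 : ℚ) : ℂ) = 1 := by push_cast; norm_num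
  rw [this]
  exact (OO p).one_mem

theorem E5L_c2880 (h7 : 7 ≤ p) : ((1 / 2880 : ℚ) : ℂ) ∈ OO p := by
  refine OO_smooth p h7 6 2 1 _ ?_
  have : (2 : ℂ) ^ 6 * 3 ^ 2 * 5 ^ 1 * ((1 / 2880 : ℚ) : ℂ) = 1 := by push_cast; norm_num
  rw [this]
  exact (OO p).one_mem

theorem ParOK_PD (h7 : 7 ≤ p) : ParOK p PD := by
  have h0 : ((0 : ℚ) : ℂ) ∈ OO p := by rw [Rat.cast_zero]; exact (OO p).zero_mem
  refine ⟨h0, E5L_c24 p h7, h0, h0, ?_⟩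
  have h1 : ((-1 / 2880 : ℚ) : ℂ) = -((1 / 2880 : ℚ) : ℂ) := by push_cast; ring
  show ((-1 / 2880 : ℚ) : ℂ) ∈ OO p
  rw [h1]
  exact (OO p).neg_mem (E5L_c2880 p h7)

theorem ParOK_hat (h7 : 7 ≤ p) {P : Par} (hP : ParOK p P) : ParOK p P.hat := by
  obtain ⟨a1, a2, a3, a4, a5⟩ := hP
  refine ⟨a1, ?_, a3, a4, ?_⟩
  · show ((P.B - 1 / 24 : ℚ) : ℂ) ∈ OO p
    rw [Rat.cast_sub]
    exact (OO p).sub_mem a2 (E5L_c24 p h7)
  · show ((P.E + 1 / 2880 : ℚ) : ℂ) ∈ OO p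
    rw [Rat.cast_add]
    exact (OO p).add_mem a5 (E5L_c2880 p h7)

theorem DD_WW : DD p ∈ WW p 1 := by
  have h : DD p = (fun u => chi p (1 * u) - 1) - (fun u => chi p (-1 * u) - 1) := by
    funext u
    simp only [Pi.sub_apply, DD, one_mul, neg_mul]
    ring
  rw [h]
  exact (WW p 1).sub_mem (WW_chi_sub p 1) (WW_chi_sub p (-1))

theorem E5L_mul' {i j : ℕ} (k : ℕ) {f g : ZMod p → ℂ} (hf : f ∈ WW p i) (hg : g ∈ WW p j) (h : k ≤ i + j) :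
    f * g ∈ WW p k := WW_anti p h (WW_mul p hf hg)

/-- Monomials in `hh` and `yy`. -/
def E5L_mon (m n : ℕ) : ZMod p → ℂ := fun u => hh p ^ m * yy p u ^ n

theorem E5L_mon_mem (h7 : 7 ≤ p) (m n : ℕ) : E5L_mon p m n ∈ WW p (2 * m + n) := by
  have h1 := WW_mul p (hh_const p h7 m) (WW_pow p (WW_yy p h7) n)
  rw [one_mul] at h1
  exact h1

theorem E5L_mon_mem' (h7 : 7 ≤ p) {c : ℂ} (hc : c ∈ OO p) (k m n : ℕ) (h : k ≤ 2 * m + n) :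
    c • E5L_mon p m n ∈ WW p k :=
  WW_smul p (WW_anti p h (E5L_mon_mem p h7 m n)) hc

theorem E5L_E5 (P : Par) : E5 p P = (1 : ℂ) • E5L_mon p 0 0 + (P.A : ℂ) • E5L_mon p 1 0 +
    (P.B : ℂ) • E5L_mon p 0 2 + ((P.C : ℂ) + (P.A : ℂ) ^ 2 / 2) • E5L_mon p 2 0 +
    ((P.D : ℂ) + (P.A : ℂ) * (P.B : ℂ)) • E5L_mon p 1 2 +
    ((P.E : ℂ) + (P.B : ℂ) ^ 2 / 2) • E5L_mon p 0 4 := by
  funext u
  simp only [E5, E5L_mon, Pi.add_apply, Pi.smul_apply, smul_eq_mul]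
  ring

/-- The coefficients of `E5 P` are in `OO`. -/
theorem E5L_coef (h7 : 7 ≤ p) {P : Par} (hP : ParOK p P) :
    ((P.C : ℂ) + (P.A : ℂ) ^ 2 / 2) ∈ OO p ∧ ((P.D : ℂ) + (P.A : ℂ) * (P.B : ℂ)) ∈ OO p ∧
      ((P.E : ℂ) + (P.B : ℂ) ^ 2 / 2) ∈ OO p := by
  obtain ⟨a1, a2, a3, a4, a5⟩ := hP
  refine ⟨?_, ?_, ?_⟩
  · rw [div_eq_mul_inv]
    exact (OO p).add_mem a3 ((OO p).mul_mem ((OO p).pow_mem a1 2) (inv_two_mem p h7))
  · exact (OO p).add_mem a4 ((OO p).mul_mem a1 a2)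
  · rw [div_eq_mul_inv]
    exact (OO p).add_mem a5 ((OO p).mul_mem ((OO p).pow_mem a2 2) (inv_two_mem p h7))

theorem E5_mem (h7 : 7 ≤ p) {P : Par} (hP : ParOK p P) : E5 p P ∈ WW p 0 := by
  obtain ⟨c1, c2, c3⟩ := E5L_coef p h7 hP
  rw [E5L_E5]
  refine (WW p 0).add_mem ((WW p 0).add_mem ((WW p 0).add_mem ((WW p 0).add_mem
    ((WW p 0).add_mem ?_ ?_) ?_) ?_) ?_) ?_
  · exact E5L_mon_mem' p h7 (OO p).one_mem _ _ _ (Nat.zero_le _)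
  · exact E5L_mon_mem' p h7 hP.1 _ _ _ (Nat.zero_le _)
  · exact E5L_mon_mem' p h7 hP.2.1 _ _ _ (Nat.zero_le _)
  · exact E5L_mon_mem' p h7 c1 _ _ _ (Nat.zero_le _)
  · exact E5L_mon_mem' p h7 c2 _ _ _ (Nat.zero_le _)
  · exact E5L_mon_mem' p h7 c3 _ _ _ (Nat.zero_le _)

theorem E5L_alg (A₁ B₁ c₁ d₁ e₁ A₂ B₂ c₂ d₂ e₂ h y : ℂ) :
    (1 + A₁ * h + B₁ * y ^ 2 + c₁ * h ^ 2 + d₁ * h * y ^ 2 + e₁ * y ^ 4) *
      (1 + A₂ * h + B₂ * y ^ 2 + c₂ * h ^ 2 + d₂ * h * y ^ 2 + e₂ * y ^ 4) -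
      (1 + (A₁ + A₂) * h + (B₁ + B₂) * y ^ 2 + (c₁ + c₂ + A₁ * A₂) * h ^ 2 +
        (d₁ + d₂ + A₁ * B₂ + A₂ * B₁) * h * y ^ 2 + (e₁ + e₂ + B₁ * B₂) * y ^ 4) =
    (A₁ * c₂ + A₂ * c₁) * (h ^ 3 * y ^ 0) + (A₁ * d₂ + A₂ * d₁ + B₁ * c₂ + B₂ * c₁) * (h ^ 2 * y ^ 2) +
      (A₁ * e₂ + A₂ * e₁ + B₁ * d₂ + B₂ * d₁) * (h ^ 1 * y ^ 4) + (B₁ * e₂ + B₂ * e₁) * (h ^ 0 * y ^ 6) +
      (c₁ * c₂) * (h ^ 4 * y ^ 0) + (c₁ * d₂ + c₂ * d₁) * (h ^ 3 * y ^ 2) +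
      (c₁ * e₂ + c₂ * e₁ + d₁ * d₂) * (h ^ 2 * y ^ 4) + (d₁ * e₂ + d₂ * e₁) * (h ^ 1 * y ^ 6) +
      (e₁ * e₂) * (h ^ 0 * y ^ 8) := by
  ring

theorem E5_mul (h7 : 7 ≤ p) {P R : Par} (hP : ParOK p P) (hR : ParOK p R) :
    E5 p P * E5 p R - E5 p (P + R) ∈ WW p 6 := by
  obtain ⟨hc1, hd1, he1⟩ := E5L_coef p h7 hP
  obtain ⟨hc2, hd2, he2⟩ := E5L_coef p h7 hR
  have hA1 := hP.1
  have hB1 := hP.2.1
  have hA2 := hR.1
  have hB2 := hR.2.1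
  set c₁ : ℂ := (P.C : ℂ) + (P.A : ℂ) ^ 2 / 2 with hc1e
  set d₁ : ℂ := (P.D : ℂ) + (P.A : ℂ) * (P.B : ℂ) with hd1e
  set e₁ : ℂ := (P.E : ℂ) + (P.B : ℂ) ^ 2 / 2 with he1e
  set c₂ : ℂ := (R.C : ℂ) + (R.A : ℂ) ^ 2 / 2 with hc2e
  set d₂ : ℂ := (R.D : ℂ) + (R.A : ℂ) * (R.B : ℂ) with hd2e
  set e₂ : ℂ := (R.E : ℂ) + (R.B : ℂ) ^ 2 / 2 with he2e
  have key : E5 p P * E5 p R - E5 p (P + R) =
      ((P.A : ℂ) * c₂ + (R.A : ℂ) * c₁) • E5L_mon p 3 0 +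
      ((P.A : ℂ) * d₂ + (R.A : ℂ) * d₁ + (P.B : ℂ) * c₂ + (R.B : ℂ) * c₁) • E5L_mon p 2 2 +
      ((P.A : ℂ) * e₂ + (R.A : ℂ) * e₁ + (P.B : ℂ) * d₂ + (R.B : ℂ) * d₁) • E5L_mon p 1 4 +
      ((P.B : ℂ) * e₂ + (R.B : ℂ) * e₁) • E5L_mon p 0 6 +
      (c₁ * c₂) • E5L_mon p 4 0 + (c₁ * d₂ + c₂ * d₁) • E5L_mon p 3 2 +
      (c₁ * e₂ + c₂ * e₁ + d₁ * d₂) • E5L_mon p 2 4 + (d₁ * e₂ + d₂ * e₁) • E5L_mon p 1 6 +
      (e₁ * e₂) • E5L_mon p 0 8 := by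
    funext u
    have h1 := E5L_alg (P.A : ℂ) (P.B : ℂ) c₁ d₁ e₁ (R.A : ℂ) (R.B : ℂ) c₂ d₂ e₂ (hh p) (yy p u)
    simp only [E5L_mon, Pi.add_apply, Pi.sub_apply, Pi.mul_apply, Pi.smul_apply, smul_eq_mul]
    rw [← h1]
    have h2 : E5 p P u = 1 + (P.A : ℂ) * hh p + (P.B : ℂ) * yy p u ^ 2 + c₁ * hh p ^ 2 +
      d₁ * hh p * yy p u ^ 2 + e₁ * yy p u ^ 4 := rfl
    have h3 : E5 p R u = 1 + (R.A : ℂ) * hh p + (R.B : ℂ) * yy p u ^ 2 + c₂ * hh p ^ 2 +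
      d₂ * hh p * yy p u ^ 2 + e₂ * yy p u ^ 4 := rfl
    have h4 : E5 p (P + R) u = 1 + ((P.A : ℂ) + (R.A : ℂ)) * hh p +
        ((P.B : ℂ) + (R.B : ℂ)) * yy p u ^ 2 + (c₁ + c₂ + (P.A : ℂ) * (R.A : ℂ)) * hh p ^ 2 +
        (d₁ + d₂ + (P.A : ℂ) * (R.B : ℂ) + (R.A : ℂ) * (P.B : ℂ)) * hh p * yy p u ^ 2 +
        (e₁ + e₂ + (P.B : ℂ) * (R.B : ℂ)) * yy p u ^ 4 := by
      rw [hc1e, hc2e, hd1e, hd2e, he1e, he2e]
      simp only [E5, Par.add_A, Par.add_B, Par.add_C, Par.add_D, Par.add_E, Rat.cast_add]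
      ring
    rw [h2, h3, h4]
  rw [key]
  refine (WW p 6).add_mem ((WW p 6).add_mem ((WW p 6).add_mem ((WW p 6).add_mem
    ((WW p 6).add_mem ((WW p 6).add_mem ((WW p 6).add_mem ((WW p 6).add_mem ?_ ?_) ?_) ?_) ?_) ?_) ?_) ?_) ?_
  all_goals refine E5L_mon_mem' p h7 ?_ _ _ _ (by norm_num)
  · exact (OO p).add_mem ((OO p).mul_mem hA1 hc2) ((OO p).mul_mem hA2 hc1)
  · exact (OO p).add_mem ((OO p).add_mem ((OO p).add_mem ((OO p).mul_mem hA1 hd2)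
      ((OO p).mul_mem hA2 hd1)) ((OO p).mul_mem hB1 hc2)) ((OO p).mul_mem hB2 hc1)
  · exact (OO p).add_mem ((OO p).add_mem ((OO p).add_mem ((OO p).mul_mem hA1 he2)
      ((OO p).mul_mem hA2 he1)) ((OO p).mul_mem hB1 hd2)) ((OO p).mul_mem hB2 hd1)
  · exact (OO p).add_mem ((OO p).mul_mem hB1 he2) ((OO p).mul_mem hB2 he1)
  · exact (OO p).mul_mem hc1 hc2
  · exact (OO p).add_mem ((OO p).mul_mem hc1 hd2) ((OO p).mul_mem hc2 hd1)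
  · exact (OO p).add_mem ((OO p).add_mem ((OO p).mul_mem hc1 he2) ((OO p).mul_mem hc2 he1))
      ((OO p).mul_mem hd1 hd2)
  · exact (OO p).add_mem ((OO p).mul_mem hd1 he2) ((OO p).mul_mem hd2 he1)
  · exact (OO p).mul_mem he1 he2

theorem DE5 (h7 : 7 ≤ p) : DD p - yy p * E5 p PD ∈ WW p 7 := by
  have h1 : yy p * E5 p PD = yy p + (1 / 24 : ℂ) • yy p ^ 3 + (1 / 1920 : ℂ) • yy p ^ 5 := by
    funext u
    simp only [Pi.mul_apply, Pi.add_apply, Pi.smul_apply, Pi.pow_apply, smul_eq_mul, E5, PD]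
    push_cast
    ring
  rw [h1]
  exact DD_y p h7

omit [Fact p.Prime] p in
theorem PD_add_hat (Q : Par) : PD + Q.hat = Q := by
  ext <;> simp [PD, Par.hat]
  norm_num

theorem GK_of_KK (h7 : 7 ≤ p) {K : ZMod p → ℂ} {c : ℚ} {P : Par} (hK : KK p K c P) :
    GK p (DD p * K) c (P + PD) := by
  refine ⟨?_, ?_, ?_, hK.hc, ParOK_add p hK.hP (ParOK_PD p h7)⟩
  · exact E5L_mul' p 1 (DD_WW p) hK.mem (by norm_num)
  · intro u
    rw [Pi.mul_apply, Pi.mul_apply, DD_neg, hK.even]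
    ring
  · have key : DD p * K - (c : ℂ) • (yy p * E5 p (P + PD)) =
        DD p * (K - (c : ℂ) • E5 p P) + (c : ℂ) • (E5 p P * (DD p - yy p * E5 p PD)) +
          (c : ℂ) • (yy p * (E5 p P * E5 p PD - E5 p (P + PD))) := by
      funext u
      simp only [Pi.mul_apply, Pi.add_apply, Pi.smul_apply, Pi.sub_apply, smul_eq_mul]
      ring
    rw [key]
    refine (WW p 7).add_mem ((WW p 7).add_mem ?_ ?_) ?_
    · exact E5L_mul' p 7 (DD_WW p) hK.congr (by norm_num)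
    · exact WW_smul p (E5L_mul' p 7 (E5_mem p h7 hK.hP) (DE5 p h7) (by norm_num)) hK.hc
    · exact WW_smul p (E5L_mul' p 7 (WW_yy p h7) (E5_mul p h7 hK.hP (ParOK_PD p h7)) (by norm_num)) hK.hc

theorem D2K (h7 : 7 ≤ p) {K : ZMod p → ℂ} {c : ℚ} {P : Par} (hK : KK p K c P) :
    DD p ^ 2 * K - (c : ℂ) • (yy p ^ 2 * E5 p (P + PD + PD)) ∈ WW p 7 := by
  have hG := GK_of_KK p h7 hK
  have key : DD p ^ 2 * K - (c : ℂ) • (yy p ^ 2 * E5 p (P + PD + PD)) =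
      DD p * (DD p * K - (c : ℂ) • (yy p * E5 p (P + PD))) +
        (c : ℂ) • ((yy p * E5 p (P + PD)) * (DD p - yy p * E5 p PD)) +
        (c : ℂ) • (yy p ^ 2 * (E5 p (P + PD) * E5 p PD - E5 p (P + PD + PD))) := by
    funext u
    simp only [Pi.mul_apply, Pi.add_apply, Pi.smul_apply, Pi.sub_apply, Pi.pow_apply, smul_eq_mul]
    ring
  rw [key]
  refine (WW p 7).add_mem ((WW p 7).add_mem ?_ ?_) ?_
  · exact E5L_mul' p 7 (DD_WW p) hG.congr (by norm_num)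
  · exact WW_smul p (E5L_mul' p 7 (WW_mul p (WW_yy p h7) (E5_mem p h7 hG.hP)) (DE5 p h7)
      (by norm_num)) hK.hc
  · exact WW_smul p (E5L_mul' p 7 (WW_pow p (WW_yy p h7) 2) (E5_mul p h7 hG.hP (ParOK_PD p h7))
      (by norm_num)) hK.hc

theorem KK_mul (h7 : 7 ≤ p) {K K' : ZMod p → ℂ} {c c' : ℚ} {P P' : Par} (hK : KK p K c P) (hK' : KK p K' c' P') :
    KK p (K * K') (c * c') (P + P') := by
  refine ⟨?_, ?_, ?_, ?_, ParOK_add p hK.hP hK'.hP⟩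
  · exact E5L_mul' p 0 hK.mem hK'.mem (by norm_num)
  · intro u
    rw [Pi.mul_apply, Pi.mul_apply, hK.even, hK'.even]
  · have key : K * K' - ((c * c' : ℚ) : ℂ) • E5 p (P + P') =
        K * (K' - (c' : ℂ) • E5 p P') + (c' : ℂ) • (E5 p P' * (K - (c : ℂ) • E5 p P)) +
          ((c : ℂ) * (c' : ℂ)) • (E5 p P * E5 p P' - E5 p (P + P')) := by
      funext u
      simp only [Pi.mul_apply, Pi.add_apply, Pi.smul_apply, Pi.sub_apply, smul_eq_mul, Rat.cast_mul]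
      ring
    rw [key]
    refine (WW p 6).add_mem ((WW p 6).add_mem ?_ ?_) ?_
    · exact E5L_mul' p 6 hK.mem hK'.congr (by norm_num)
    · exact WW_smul p (E5L_mul' p 6 (E5_mem p h7 hK'.hP) hK.congr (by norm_num)) hK'.hc
    · exact WW_smul p (E5_mul p h7 hK.hP hK'.hP) ((OO p).mul_mem hK.hc hK'.hc)
  · rw [Rat.cast_mul]
    exact (OO p).mul_mem hK.hc hK'.hc

theorem KK_one (h7 : 7 ≤ p) : KK p 1 1 ⟨0, 0, 0, 0, 0⟩ := by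
  have h0 : ((0 : ℚ) : ℂ) ∈ OO p := by rw [Rat.cast_zero]; exact (OO p).zero_mem
  have hE : E5 p ⟨0, 0, 0, 0, 0⟩ = 1 := by
    funext u
    simp [E5]
  refine ⟨WW_one p, fun u => rfl, ?_, ?_, h0, h0, h0, h0, h0⟩
  · rw [hE, Rat.cast_one, one_smul, sub_self]
    exact (WW p 6).zero_mem
  · rw [Rat.cast_one]
    exact (OO p).one_mem

theorem divide (h7 : 7 ≤ p) {f : ZMod p → ℂ} {c : ℚ} {Q : Par} (hf : GK p f c Q) :
    ∃ K : ZMod p → ℂ, KK p K c Q.hat ∧ ∀ u, f u = DD p u * K u := by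
  have hQ := ParOK_hat p h7 hf.hP
  have h2p : 2 < p := by omega
  have hr : f - (c : ℂ) • (DD p * E5 p Q.hat) ∈ WW p (6 + 1) := by
    have key : f - (c : ℂ) • (DD p * E5 p Q.hat) =
        (f - (c : ℂ) • (yy p * E5 p Q)) -
          (c : ℂ) • (yy p * (E5 p PD * E5 p Q.hat - E5 p (PD + Q.hat))) -
          (c : ℂ) • ((DD p - yy p * E5 p PD) * E5 p Q.hat) := by
      rw [PD_add_hat]
      funext u
      simp only [Pi.mul_apply, Pi.smul_apply, Pi.sub_apply, smul_eq_mul]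
      ring
    rw [key]
    refine (WW p 7).sub_mem ((WW p 7).sub_mem hf.congr ?_) ?_
    · exact WW_smul p (E5L_mul' p 7 (WW_yy p h7) (E5_mul p h7 (ParOK_PD p h7) hQ) (by norm_num)) hf.hc
    · exact WW_smul p (E5L_mul' p 7 (DE5 p h7) (E5_mem p h7 hQ) (by norm_num)) hf.hc
  obtain ⟨g, hg, hgr⟩ := WW_div p h2p hr
  have hf0 : f 0 = 0 := by
    have h1 := hf.odd 0
    rw [neg_zero] at h1
    have h2 : 2 * f 0 = 0 := by linear_combination h1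
    rcases mul_eq_zero.1 h2 with h3 | h3
    · exact absurd h3 two_ne_zero
    · exact h3
  have hfK : ∀ u, f u = DD p u * ((c : ℂ) • E5 p Q.hat + g) u := by
    intro u
    have h1 := hgr u
    simp only [Pi.sub_apply, Pi.smul_apply, Pi.mul_apply, smul_eq_mul, DD_zero, zero_mul,
      mul_zero, sub_zero, hf0, zero_add] at h1
    simp only [Pi.add_apply, Pi.smul_apply, smul_eq_mul]
    linear_combination h1
  refine ⟨(c : ℂ) • E5 p Q.hat + g, ⟨?_, ?_, ?_, hf.hc, hQ⟩, hfK⟩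
  · exact (WW p 0).add_mem (WW_smul p (E5_mem p h7 hQ) hf.hc) (WW_anti p (Nat.zero_le _) hg)
  · intro u
    by_cases hu : u = 0
    · rw [hu, neg_zero]
    · have h1 := hfK (-u)
      rw [hf.odd u, hfK u, DD_neg] at h1
      have h2 := DD_ne_zero p h2p u hu
      have h3 : DD p u * ((c : ℂ) • E5 p Q.hat + g) (-u) = DD p u * ((c : ℂ) • E5 p Q.hat + g) u := by
        linear_combination h1
      exact mul_left_cancel₀ h2 h3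
  · rw [add_sub_cancel_left]
    exact hg

end

end Pool.Agent.Lib.MP_f2058c_gt
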