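import Mathlib
import Pool.Agent.Lib.MP_f2058c_gt.ChiB

/-!
# JOB Gs: Gauss sums

`gg p d = ∑ u, chi (d u^2 / 2)`.

Proofs.  All divisions are in the field `ZMod p`, `2 ≠ 0` by `two_ne`.
* `gg_complete`: `d u^2/2 + u b = d (u + b/d)^2 / 2 - b^2/(2 d)`; `chi_add`, take the factor `chi (-(b^2/(2d)))` out
  and translate the sum by `b/d` (`Equiv.sum_comp (Equiv.addRight (b/d))` or `Fintype.sum_equiv`).
* `gg_mul_neg`: `gg d * gg (-d) = ∑ u, ∑ v, chi (d (u^2 - v^2)/2)`; put `u = v + t`: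
  `d((v+t)^2 - v^2)/2 = d t v + d t^2/2`; exchange the sums: `∑ t, chi (d t^2/2) ∑ v, chi ((d t) v)`, and
  `sum_chi_mul` gives `p` for `t = 0` and `0` for `t ≠ 0`.
* `gg_ne_zero`: from `gg_mul_neg` and `(p : ℂ) ≠ 0`.
* `gg_sign`: if `d = e^2` then `u ↦ e u` gives `gg d = gg 1`.  If `d` is not a square: for every `v ≠ 0` exactly one
  of `v`, `v/d` is a square, so `∑ u, (chi (u^2/2) + chi (d u^2/2)) = ∑ u, chi(u^2 / 2) + ∑ u, chi (d u^2 / 2)
  = 2 + 2 ∑ (v ≠ 0), chi (v/2) = 2 ∑ v, chi (v * (1/2)) = 0`.  (Alternative: `gg d = gg 1 * quadraticChar d` through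
  the Gauss sum of Mathlib; or: the number of `u` with `u^2 = v` is `1 + quadraticChar v`, Mathlib:
  `quadraticChar_card_sqrts`, so that `gg d = ∑ v, (1 + quadraticChar v) chi (d v / 2) = ∑ v, quadraticChar v chi(d v/2)
  = quadraticChar d * gg 1`, using `sum_chi_mul`.)
* `p_eq_gg`: `gg_mul_neg` with `d = 1` and `gg_sign` with `d = -1`.
-/

set_option autoImplicit false

namespace Pool.Agent.Lib.MP_f2058c_gt

open Finset

noncomputable section

variable (p : ℕ) [Fact p.Prime]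

theorem gg_complete (hp : 2 < p) (d : ZMod p) (hd : d ≠ 0) (b : ZMod p) :
    ∑ u, chi p (d * u ^ 2 / 2 + u * b) = gg p d * chi p (-(b ^ 2 / (2 * d))) := by
  have h2 := two_ne p hp
  have h1 : ∀ u : ZMod p, chi p (d * u ^ 2 / 2 + u * b) =
      chi p (d * (u + b / d) ^ 2 / 2) * chi p (-(b ^ 2 / (2 * d))) := by
    intro u
    rw [← chi_add]
    congr 1
    field_simp
    ring
  rw [gg, Finset.sum_congr rfl (fun u _ => h1 u), ← Finset.sum_mul]
  congr 1
  exact Equiv.sum_comp (Equiv.addRight (b / d)) (fun u => chi p (d * u ^ 2 / 2))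

theorem gg_mul_neg (hp : 2 < p) (d : ZMod p) (hd : d ≠ 0) : gg p d * gg p (-d) = p := by
  have h2 := two_ne p hp
  rw [gg, gg, Finset.sum_mul_sum, Finset.sum_comm]
  have h3 : ∀ v : ZMod p, ∑ u, chi p (d * u ^ 2 / 2) * chi p (-d * v ^ 2 / 2) =
      ∑ t, chi p (d * t ^ 2 / 2) * chi p (d * t * v) := by
    intro v
    rw [← Equiv.sum_comp (Equiv.addRight v)
      (fun u => chi p (d * u ^ 2 / 2) * chi p (-d * v ^ 2 / 2))]
    apply Finset.sum_congr rfl
    intro t _
    simp only [Equiv.coe_addRight]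
    rw [← chi_add, ← chi_add]
    congr 1
    field_simp
    ring
  rw [Finset.sum_congr rfl (fun v _ => h3 v), Finset.sum_comm]
  have h4 : ∀ t : ZMod p, ∑ v, chi p (d * t ^ 2 / 2) * chi p (d * t * v) =
      if t = 0 then (p : ℂ) else 0 := by
    intro t
    rw [← Finset.mul_sum, sum_chi_mul p hp]
    by_cases ht : t = 0
    · rw [if_pos ht, if_pos (by rw [ht, mul_zero]), ht]
      simp
    · rw [if_neg ht, if_neg (mul_ne_zero hd ht), mul_zero]
  rw [Finset.sum_congr rfl (fun t _ => h4 t)]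
  simp

theorem gg_ne_zero (hp : 2 < p) (d : ZMod p) (hd : d ≠ 0) : gg p d ≠ 0 := by
  intro h
  have h1 := gg_mul_neg p hp d hd
  rw [h, zero_mul] at h1
  have h2 : (p : ℂ) ≠ 0 := Nat.cast_ne_zero.mpr (by omega)
  exact h2 h1.symm

theorem gs_count (hp : 2 < p) (f : ZMod p → ℂ) :
    ∑ u : ZMod p, f (u ^ 2) = ∑ v : ZMod p, ((quadraticChar (ZMod p) v : ℂ) + 1) * f v := by
  classical
  have hchar : ringChar (ZMod p) ≠ 2 := by
    rw [ZMod.ringChar_zmod_n]
    omega
  rw [← Finset.sum_fiberwise (univ : Finset (ZMod p)) (fun u => u ^ 2) (fun u => f (u ^ 2))]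
  apply Finset.sum_congr rfl
  intro v _
  have h1 : ∀ u ∈ (univ : Finset (ZMod p)).filter (fun u => u ^ 2 = v), f (u ^ 2) = f v := by
    intro u hu
    rw [(Finset.mem_filter.mp hu).2]
  rw [Finset.sum_congr rfl h1, Finset.sum_const, nsmul_eq_mul]
  congr 1
  have h2 := quadraticChar_card_sqrts hchar v
  have h3 : ({x : ZMod p | x ^ 2 = v}.toFinset) = (univ : Finset (ZMod p)).filter (fun u => u ^ 2 = v) := by
    ext x
    simp
  rw [h3] at h2
  have h4 : ((((univ : Finset (ZMod p)).filter (fun u => u ^ 2 = v)).card : ℤ) : ℂ) =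
      ((quadraticChar (ZMod p) v + 1 : ℤ) : ℂ) := by rw [h2]
  push_cast at h4
  exact h4

theorem gs_char (hp : 2 < p) (d : ZMod p) (hd : d ≠ 0) :
    gg p d = (quadraticChar (ZMod p) d : ℂ) *
      ∑ w : ZMod p, (quadraticChar (ZMod p) w : ℂ) * chi p (w / 2) := by
  have h2 := two_ne p hp
  have h1 : gg p d = ∑ v : ZMod p, ((quadraticChar (ZMod p) v : ℂ) + 1) * chi p (d * v / 2) :=
    gs_count p hp (fun v => chi p (d * v / 2))
  rw [h1, ← Equiv.sum_comp (Equiv.mulLeft₀ d⁻¹ (inv_ne_zero hd))]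
  have h3 : ∀ w : ZMod p, ((quadraticChar (ZMod p) ((Equiv.mulLeft₀ d⁻¹ (inv_ne_zero hd)) w) : ℂ) + 1) *
      chi p (d * ((Equiv.mulLeft₀ d⁻¹ (inv_ne_zero hd)) w) / 2) =
      (quadraticChar (ZMod p) d : ℂ) * ((quadraticChar (ZMod p) w : ℂ) * chi p (w / 2)) +
        chi p (1 / 2 * w) := by
    intro w
    have e0 : (Equiv.mulLeft₀ d⁻¹ (inv_ne_zero hd)) w = d⁻¹ * w := rfl
    rw [e0]
    have e1 : d * (d⁻¹ * w) / 2 = w / 2 := by field_simp
    have e2 : (1 : ZMod p) / 2 * w = w / 2 := by ring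
    have e3 : quadraticChar (ZMod p) (d⁻¹ * w) =
        quadraticChar (ZMod p) d * quadraticChar (ZMod p) w := by
      rw [map_mul]
      congr 1
      have h5 : quadraticChar (ZMod p) d * quadraticChar (ZMod p) d⁻¹ = 1 := by
        rw [← map_mul, mul_inv_cancel₀ hd, map_one]
      have h6 := quadraticChar_sq_one hd
      calc quadraticChar (ZMod p) d⁻¹ =
          quadraticChar (ZMod p) d ^ 2 * quadraticChar (ZMod p) d⁻¹ := by rw [h6, one_mul]
        _ = quadraticChar (ZMod p) d * (quadraticChar (ZMod p) d * quadraticChar (ZMod p) d⁻¹) := by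
          ring
        _ = quadraticChar (ZMod p) d := by rw [h5, mul_one]
    rw [e1, e2, e3]
    push_cast
    ring
  rw [Finset.sum_congr rfl (fun w _ => h3 w), Finset.sum_add_distrib, sum_chi_mul p hp,
    if_neg (one_div_ne_zero h2), add_zero, ← Finset.mul_sum]

theorem gg_sign (hp : 2 < p) (d : ZMod p) (hd : d ≠ 0) : gg p d = gg p 1 ∨ gg p d = -gg p 1 := by
  have h1 := gs_char p hp d hd
  have h2 := gs_char p hp 1 one_ne_zero
  rw [map_one, Int.cast_one, one_mul] at h2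
  rw [← h2] at h1
  rcases quadraticChar_dichotomy hd with h3 | h3
  · left
    rw [h1, h3, Int.cast_one, one_mul]
  · right
    rw [h1, h3]
    push_cast
    ring

theorem p_eq_gg (hp : 2 < p) : (p : ℂ) = gg p 1 ^ 2 ∨ (p : ℂ) = -gg p 1 ^ 2 := by
  have h1 := gg_mul_neg p hp 1 one_ne_zero
  rcases gg_sign p hp (-1) (neg_ne_zero.mpr one_ne_zero) with h2 | h2
  · left
    rw [← h1, h2]
    ring
  · right
    rw [← h1, h2]
    ring

end

end Pool.Agent.Lib.MP_f2058c_gt
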