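import Mathlib
import Pool.Agent.Lib.MP_f2058c_gt.E5L
import Pool.Agent.Lib.MP_f2058c_gt.Gs

/-!
# Adding a tree to a forest
-/

set_option autoImplicit false

namespace Pool.Agent.Lib.MP_f2058c_gt

open Finset Forest

noncomputable section

variable (p : ℕ) [Fact p.Prime]

theorem BF_cons (e : ℤ) (c s : Forest) (u : ZMod p) : BF p (.cons e c s) u = treeval p e c u * BF p s u := rfl

theorem comb_sign {ε δ : ℂ} (hε : ε = 1 ∨ ε = -1) (hδ : δ = 1 ∨ δ = -1) : δ * ε = 1 ∨ δ * ε = -1 := by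
  rcases hε with rfl | rfl <;> rcases hδ with rfl | rfl <;> norm_num

/-- Framing factors. -/
theorem comb_chi (e : ℤ) (c s : Forest) : chi p (-(tr (.cons e c s) : ZMod p) / 2) =
    chi p (-((e : ZMod p) + (tr c : ZMod p)) / 2) * chi p (-(tr s : ZMod p) / 2) := by
  rw [← chi_add]
  congr 1
  simp only [Forest.tr]
  push_cast
  ring

/-- Powers of `DD 1`. -/
theorem comb_D (hD : DD p 1 ≠ 0) (e : ℤ) (c s : Forest) :
    DD p 1 ^ (-((Forest.card (.cons e c s) : ℤ) + Forest.len (.cons e c s))) =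
      DD p 1 ^ (-((Forest.card c : ℤ) + 2)) * DD p 1 ^ (-((Forest.card s : ℤ) + Forest.len s)) := by
  rw [← zpow_add₀ hD]
  have h : (-((Forest.card (.cons e c s) : ℤ) + Forest.len (.cons e c s))) =
      -((Forest.card c : ℤ) + 2) + -((Forest.card s : ℤ) + Forest.len s) := by
    simp only [Forest.card, Forest.len]
    push_cast
    ring
  rw [h]

theorem comb_AA (h7 : 7 ≤ p) {e : ℤ} {c s : Forest} {s' κ : ℚ} {P : Par} {a : Dat}
    (hT : TreeReg p e c s' κ P) (hR : RepA p s a) : RepA p (.cons e c s) (addTree a s' κ P) := by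
  have hp2 : 2 < p := by omega
  have hD : DD p 1 ≠ 0 := DD_ne_zero p hp2 1 one_ne_zero
  have hg : gg p 1 ≠ 0 := gg_ne_zero p hp2 1 one_ne_zero
  obtain ⟨K, σ, ε, hε, hσ, hK, hF⟩ := hR
  obtain ⟨K', σ', δ, hδ, hσ', hK', hF'⟩ := hT
  refine ⟨K * K', σ + σ', δ * ε, comb_sign hε hδ, Cg_add p hσ hσ', KK_mul p h7 hK hK', fun u hu => ?_⟩
  rw [BF_cons, hF u hu, hF' u, comb_chi, comb_D p hD]
  have hu' : DD p u ≠ 0 := DD_ne_zero p hp2 u hu
  have e1 : gg p 1 ^ (Forest.card (.cons e c s) : ℤ) =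
      gg p 1 ^ ((Forest.card c : ℤ) + 1) * gg p 1 ^ (Forest.card s : ℤ) := by
    rw [← zpow_add₀ hg]
    have h : (Forest.card (.cons e c s) : ℤ) = (Forest.card c : ℤ) + 1 + (Forest.card s : ℤ) := by
      simp only [Forest.card]; push_cast; ring
    rw [h]
  have e2 : DD p u ^ (Forest.len (.cons e c s) : ℤ) = DD p u * DD p u ^ (Forest.len s : ℤ) := by
    have h : (Forest.len (.cons e c s) : ℤ) = 1 + (Forest.len s : ℤ) := by
      simp only [Forest.len]; push_cast; ring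
    rw [h, zpow_add₀ hu', zpow_one]
  have e3 : chi p ((σ + σ') * u ^ 2 / 2) = chi p (σ' * u ^ 2 / 2) * chi p (σ * u ^ 2 / 2) := by
    rw [← chi_add]; congr 1; ring
  rw [e1, e2, e3, Pi.mul_apply]
  ring

theorem comb_AB (h7 : 7 ≤ p) {e : ℤ} {c s : Forest} {s' κ : ℚ} {P : Par} {w a : Dat}
    (hT : TreeReg p e c s' κ P) (hR : RepB p s w a) : RepB p (.cons e c s) w (addTree a s' κ P) := by
  have hp2 : 2 < p := by omega
  have hD : DD p 1 ≠ 0 := DD_ne_zero p hp2 1 one_ne_zero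
  have hg : gg p 1 ≠ 0 := gg_ne_zero p hp2 1 one_ne_zero
  obtain ⟨K, G, σ, ε, hε, hσ, hK, hG, hF⟩ := hR
  obtain ⟨K', σ', δ, hδ, hσ', hK', hF'⟩ := hT
  refine ⟨K * K', G, σ + σ', δ * ε, comb_sign hε hδ, Cg_add p hσ hσ', KK_mul p h7 hK hK', hG, fun u hu => ?_⟩
  rw [BF_cons, hF u hu, hF' u, comb_chi, comb_D p hD]
  have hu' : DD p u ≠ 0 := DD_ne_zero p hp2 u hu
  have e1 : gg p 1 ^ ((Forest.card (.cons e c s) : ℤ) - 1) =
      gg p 1 ^ ((Forest.card c : ℤ) + 1) * gg p 1 ^ ((Forest.card s : ℤ) - 1) := by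
    rw [← zpow_add₀ hg]
    have h : (Forest.card (.cons e c s) : ℤ) - 1 = (Forest.card c : ℤ) + 1 + ((Forest.card s : ℤ) - 1) := by
      simp only [Forest.card]; push_cast; ring
    rw [h]
  have e2 : DD p u ^ ((Forest.len (.cons e c s) : ℤ) - 1) = DD p u * DD p u ^ ((Forest.len s : ℤ) - 1) := by
    have h : (Forest.len (.cons e c s) : ℤ) - 1 = 1 + ((Forest.len s : ℤ) - 1) := by
      simp only [Forest.len]; push_cast; ring
    rw [h, zpow_add₀ hu', zpow_one]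
  have e3 : chi p ((σ + σ') * u ^ 2 / 2) = chi p (σ' * u ^ 2 / 2) * chi p (σ * u ^ 2 / 2) := by
    rw [← chi_add]; congr 1; ring
  rw [e1, e2, e3, Pi.mul_apply]
  ring

theorem comb_ZA (h7 : 7 ≤ p) {e : ℤ} {c s : Forest} {w a : Dat}
    (hT : TreeZero p e c w) (hR : RepA p s a) : RepB p (.cons e c s) w a := by
  have hp2 : 2 < p := by omega
  have hD : DD p 1 ≠ 0 := DD_ne_zero p hp2 1 one_ne_zero
  have hg : gg p 1 ≠ 0 := gg_ne_zero p hp2 1 one_ne_zero
  obtain ⟨K, σ, ε, hε, hσ, hK, hF⟩ := hR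
  obtain ⟨G, δ, hδ, hG, hF'⟩ := hT
  refine ⟨K, G, σ, δ * ε, comb_sign hε hδ, hσ, hK, hG, fun u hu => ?_⟩
  rw [BF_cons, hF u hu, hF' u, comb_chi, comb_D p hD]
  have e1 : gg p 1 ^ ((Forest.card (.cons e c s) : ℤ) - 1) =
      gg p 1 ^ (Forest.card c : ℤ) * gg p 1 ^ (Forest.card s : ℤ) := by
    rw [← zpow_add₀ hg]
    have h : (Forest.card (.cons e c s) : ℤ) - 1 = (Forest.card c : ℤ) + (Forest.card s : ℤ) := by
      simp only [Forest.card]; push_cast; ring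
    rw [h]
  have e2 : DD p u ^ ((Forest.len (.cons e c s) : ℤ) - 1) = DD p u ^ (Forest.len s : ℤ) := by
    have h : (Forest.len (.cons e c s) : ℤ) - 1 = (Forest.len s : ℤ) := by
      simp only [Forest.len]; push_cast; ring
    rw [h]
  rw [e1, e2]
  ring

end

end Pool.Agent.Lib.MP_f2058c_gt
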