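import Mathlib
import Pool.Agent.Lib.MP_f2058c_gt.ChiB

/-!
# JOB Cv1: colours, quantum integers and framing factors in terms of `ZMod p`

`chi p b = ZMod.stdAddChar (b / 2)`, and `ZMod.stdAddChar_coe (j : ℤ) : stdAddChar (j : ZMod N) = exp (2 π I j / N)`.

Proofs.
* `chi_odd`: for odd `n`, `n + p` is even, `k = (n + p)/2` satisfies `2 k = n` in `ZMod p`, so `n / 2 = k` in `ZMod p` and
  `chi n = exp (2 π I k/p) = exp (π I n/p + π I) = - exp (π I n / p)`.
* `DD_odd`: `chi (-n) = (chi n)⁻¹ = - exp (-π I n/p)`, `DD n = -(exp (iθ) - exp (-iθ)) = -2 i sin θ`, `θ = π n/p`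
  (`Complex.sin`, or `Complex.exp_mul_I`).
* `qint_eq`: `qint p n = sin (π n/p)/sin (π/p)`; both from `DD_odd` (for `n` and for `1`).
* `twist_eq`: `n = 2 k + 1`, `(n^2 - 1)/4 = k (k+1)` is an integer `j`; `twist = exp (2 π I (e j)/p) = stdAddChar (e j)`
  and `e j = (e (n^2 - 1)/2)/2` in `ZMod p` (`2 ≠ 0`).
* `sum_colours`: `∑ u ≠ 0, f u = ∑ n in 1 .. p-1, f n` (bijection `n ↦ (n : ZMod p)`, `ZMod.val`), split the `n` into
  odd and even; for even `n`, `p - n` is odd, `f (p - n) = f (-n) = f n`.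
-/

set_option autoImplicit false

namespace Pool.Agent.Lib.MP_f2058c_gt

open Finset

noncomputable section

variable (p : ℕ) [Fact p.Prime]

theorem chi_odd (hp : 2 < p) (n : ℕ) (hn : Odd n) :
    chi p (n : ZMod p) = -Complex.exp (Real.pi * n / p * Complex.I) := by
  have hpp : p.Prime := Fact.out
  have hodd : Odd p := hpp.odd_of_ne_two (by omega)
  obtain ⟨k, hk⟩ := hn.add_odd hodd
  have h1 : ((n : ZMod p)) = 2 * (k : ZMod p) := by
    have h2 : ((n + p : ℕ) : ZMod p) = ((k + k : ℕ) : ZMod p) := by rw [hk]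
    rw [Nat.cast_add, ZMod.natCast_self, add_zero, Nat.cast_add] at h2
    rw [h2]
    ring
  have h3 : (n : ZMod p) / 2 = ((k : ℤ) : ZMod p) := by
    rw [h1, mul_div_cancel_left₀ _ (two_ne p hp), Int.cast_natCast]
  have hp0 : (p : ℂ) ≠ 0 := by exact_mod_cast hpp.ne_zero
  have h4 : (2 : ℂ) * Real.pi * Complex.I * ((k : ℤ) : ℂ) / p =
      Real.pi * n / p * Complex.I + Real.pi * Complex.I := by
    have h5 : ((n : ℂ) + p) = k + k := by exact_mod_cast hk
    have h6 : (2 : ℂ) * ((k : ℤ) : ℂ) = n + p := by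
      rw [h5]
      push_cast
      ring
    field_simp
    push_cast at h6 ⊢
    linear_combination h6
  rw [chi, h3, ZMod.stdAddChar_coe, h4, Complex.exp_add, Complex.exp_pi_mul_I, mul_neg_one]

theorem DD_odd (hp : 2 < p) (n : ℕ) (hn : Odd n) :
    DD p (n : ZMod p) = -(2 * Complex.I * ((Real.sin (Real.pi * n / p) : ℝ) : ℂ)) := by
  have h1 : (Real.pi * n / p : ℂ) = ((Real.pi * n / p : ℝ) : ℂ) := by push_cast; rfl
  unfold DD
  rw [chi_neg, chi_odd p hp n hn, h1]
  set θ : ℝ := Real.pi * n / p with hθ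
  rw [inv_neg, ← Complex.exp_neg, ← neg_mul, ← Complex.ofReal_neg, Complex.exp_mul_I, Complex.exp_mul_I,
    Complex.ofReal_neg, Complex.cos_neg, Complex.sin_neg, Complex.ofReal_sin]
  ring

theorem qint_eq (hp : 2 < p) (n : ℕ) (hn : Odd n) : qint p n = DD p (n : ZMod p) / DD p 1 := by
  have h1 := DD_odd p hp 1 odd_one
  rw [Nat.cast_one] at h1
  rw [DD_odd p hp n hn, h1, neg_div_neg_eq, mul_div_mul_left _ _ (by simp)]
  unfold qint
  push_cast
  rw [mul_one]

theorem twist_eq (hp : 2 < p) (e : ℤ) (n : ℕ) (hn : Odd n) :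
    twist p e n = chi p ((e : ZMod p) * ((n : ZMod p) ^ 2 - 1) / 2) := by
  obtain ⟨k, hk⟩ := hn
  have h2 := two_ne p hp
  have h1 : (e : ZMod p) * ((n : ZMod p) ^ 2 - 1) / 2 / 2 = ((e * (k * (k + 1)) : ℤ) : ZMod p) := by
    rw [hk]
    push_cast
    rw [div_div, div_eq_iff (mul_ne_zero h2 h2)]
    ring
  rw [chi, h1, ZMod.stdAddChar_coe]
  unfold twist
  congr 1
  rw [hk]
  push_cast
  ring

theorem sum_colours (hp : 2 < p) (f : ZMod p → ℂ) (hf : ∀ u, f (-u) = f u) :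
    ∑ n ∈ colours p, f (n : ZMod p) = 1 / 2 * ∑ u ∈ univ.erase (0 : ZMod p), f u := by
  have hpp : p.Prime := Fact.out
  have hodd : Odd p := hpp.odd_of_ne_two (by omega)
  have hn : NeZero p := ⟨hpp.ne_zero⟩
  have hval : ∀ n ∈ colours p, ((n : ZMod p)).val = n ∧ (n : ZMod p) ≠ 0 ∧ n < p ∧ Odd n := by
    intro n hn
    unfold colours at hn
    obtain ⟨h1, h2⟩ := mem_filter.1 hn
    rw [mem_range] at h1
    have h3 : ((n : ZMod p)).val = n := ZMod.val_cast_of_lt h1
    refine ⟨h3, fun h4 => ?_, h1, h2⟩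
    rw [h4, ZMod.val_zero] at h3
    rw [← h3] at h2
    exact absurd h2 (by decide)
  have hnegval : ∀ u : ZMod p, u ≠ 0 → (-u).val = p - u.val := by
    intro u hu
    rw [ZMod.neg_val, if_neg hu]
  have hA : ∑ u ∈ (univ.erase (0 : ZMod p)).filter (fun u => Odd u.val), f u =
      ∑ n ∈ colours p, f (n : ZMod p) := by
    refine sum_nbij' (fun u => u.val) (fun n => (n : ZMod p)) ?_ ?_ ?_ ?_ ?_
    · intro u hu
      obtain ⟨_, h2⟩ := mem_filter.1 hu
      unfold colours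
      exact mem_filter.2 ⟨mem_range.2 (ZMod.val_lt u), h2⟩
    · intro n hn
      obtain ⟨h1, h2, _, h4⟩ := hval n hn
      exact mem_filter.2 ⟨mem_erase.2 ⟨h2, mem_univ _⟩, by rw [h1]; exact h4⟩
    · intro u _
      exact ZMod.natCast_zmod_val u
    · intro n hn
      exact (hval n hn).1
    · intro u _
      rw [ZMod.natCast_zmod_val]
  have hB : ∑ u ∈ (univ.erase (0 : ZMod p)).filter (fun u => ¬ Odd u.val), f u =
      ∑ n ∈ colours p, f (n : ZMod p) := by
    refine sum_nbij' (fun u => (-u).val) (fun n => -(n : ZMod p)) ?_ ?_ ?_ ?_ ?_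
    · intro u hu
      obtain ⟨h1, h2⟩ := mem_filter.1 hu
      have h3 := (mem_erase.1 h1).1
      unfold colours
      refine mem_filter.2 ⟨mem_range.2 (ZMod.val_lt _), ?_⟩
      rw [hnegval u h3]
      exact Nat.Odd.sub_even (ZMod.val_lt u).le hodd (Nat.not_odd_iff_even.1 h2)
    · intro n hn
      obtain ⟨h1, h2, h3, h4⟩ := hval n hn
      refine mem_filter.2 ⟨mem_erase.2 ⟨neg_ne_zero.2 h2, mem_univ _⟩, ?_⟩
      rw [hnegval _ h2, h1, Nat.not_odd_iff_even]
      exact Nat.Odd.sub_odd hodd h4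
    · intro u _
      rw [ZMod.natCast_zmod_val, neg_neg]
    · intro n hn
      rw [neg_neg]
      exact (hval n hn).1
    · intro u _
      rw [ZMod.natCast_zmod_val, hf]
  rw [← sum_filter_add_sum_filter_not (univ.erase (0 : ZMod p)) (fun u => Odd u.val), hA, hB]
  ring

end

end Pool.Agent.Lib.MP_f2058c_gt
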