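import Mathlib
import Pool.Agent.Lib.MP_f2058c_gt.Cv1
import Pool.Agent.Lib.MP_f2058c_gt.Gs

/-!
# JOB Cv2: the state sums as sums over `ZMod p`

Proofs.  `k = len c`, `D = DD p`, `D1 = DD p 1 ≠ 0` (`DD_ne_zero`), `D (-u) = -D u`.
* `BF_neg`: induction on `F`.  For `cons e c s`: in the sum over `v ≠ 0` of
  `chi (e v^2/2 + v (-u)) D v^(1-k) BF c v` substitute `v ↦ -v`: it becomes
  `∑ chi (e v^2/2 + v u) D (-v)^(1-k) BF c (-v)`, `D(-v)^(1-k) = (-1)^(1-k) D v^(1-k)`, `BF c (-v) = (-1)^k BF c v`, total sign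
  `(-1)^(1-k) (-1)^k = -1`.
* `branches_eq`: induction on `F` (for all odd `a`).  For odd `n` (members of `colours p` are odd) use `twist_eq`,
  `qint_eq` for `n` and for `n * a` (odd), and the induction hypothesis for `c` (colour `n`) and `s` (colour `a`).
  The summand is `f (n : ZMod p)` with
  `f u = chi (e (u^2-1)/2) (D u/D1)^(1-k) BF c u (D (u a)/D1)`, which is even (`(-1)^(1-k) (-1)^k (-1) = 1`), so by
  `sum_colours` the sum is `1/2 ∑ u ≠ 0, f u`.  Write `D (u a) = chi (u a) - chi (-(u a))`; the function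
  `h u = chi (e (u^2-1)/2) (D u/D1)^(1-k) BF c u / D1` is odd, so `∑ h u chi (-(u a)) = - ∑ h u chi (u a)` (substitute
  `u ↦ -u`), the sum is `∑ u ≠ 0, h u chi (u a)`; finally `chi (e (u^2-1)/2) = chi (-e/2) chi (e u^2/2)` and
  `(D u/D1)^(1-k)/D1 = D u^(1-k) D1^(k-2)` (zpow).
* `stateSum_eq`: the summand is `f (n)` with `f u = chi (e (u^2-1)/2) (D u/D1)^(2-k) BF F u`, `k = len F`, even.
* `unknot_one`, `unknot_neg`: with `ε = ±1`: `unknot p ε = 1/2 ∑ u ≠ 0, chi (ε (u^2-1)/2) (D u/D1)^2`; add `u = 0`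
  (`D 0 = 0`); `D u^2 = chi (2 u) + chi (-2 u) - 2`; `gg_complete` (`d = ε`, `b = ±2`, `0`):
  `∑ u, chi (ε u^2/2 + u (±2)) = gg ε chi (-(4/(2 ε))) = gg ε chi (-2 ε)`.  So
  `unknot p ε = chi (-ε/2) D1^(-2) gg ε (chi (-2 ε) - 1)`, and `chi (-2 ε) - 1 = -chi (-ε) D ε`, `D (-1) = -D 1`.
-/

set_option autoImplicit false

namespace Pool.Agent.Lib.MP_f2058c_gt

open Finset Forest

noncomputable section

variable (p : ℕ) [Fact p.Prime]

private theorem Cv2_sum_neg (f : ZMod p → ℂ) :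
    ∑ u ∈ univ.erase (0 : ZMod p), f (-u) = ∑ u ∈ univ.erase (0 : ZMod p), f u := by
  refine Finset.sum_equiv (Equiv.neg (ZMod p)) (fun u => ?_) (fun u _ => rfl)
  simp

private theorem Cv2_sgn (k : ℕ) : ((-1 : ℂ)) ^ (1 - (k : ℤ)) * (-1) ^ k = -1 := by
  rw [zpow_sub₀ (by norm_num), zpow_one, zpow_natCast, div_mul_cancel₀]
  exact pow_ne_zero _ (by norm_num)

private theorem Cv2_sgn2 (k : ℕ) : ((-1 : ℂ)) ^ (2 - (k : ℤ)) * (-1) ^ k = 1 := by
  rw [zpow_sub₀ (by norm_num), zpow_natCast, div_mul_cancel₀]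
  · norm_num
  · exact pow_ne_zero _ (by norm_num)

private theorem Cv2_neg_zpow (z : ℂ) (m : ℤ) : (-z) ^ m = (-1) ^ m * z ^ m := by
  rw [neg_eq_neg_one_mul, mul_zpow]

private theorem Cv2_D1 (hp : 2 < p) : DD p 1 ≠ 0 := DD_ne_zero p hp 1 one_ne_zero

/-- The odd function in the sum of a tree. -/
private def Cv2_h (e : ℤ) (c : Forest) (u : ZMod p) : ℂ :=
  chi p ((e : ZMod p) * u ^ 2 / 2) * DD p u ^ (1 - (len c : ℤ)) * BF p c u

private theorem Cv2_h_neg (e : ℤ) (c : Forest) (hc : ∀ u : ZMod p, BF p c (-u) = (-1) ^ len c * BF p c u)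
    (u : ZMod p) : Cv2_h p e c (-u) = -Cv2_h p e c u := by
  unfold Cv2_h
  have h1 : (e : ZMod p) * (-u) ^ 2 / 2 = (e : ZMod p) * u ^ 2 / 2 := by ring
  rw [h1, DD_neg, Cv2_neg_zpow, hc]
  have h2 := Cv2_sgn (len c)
  calc chi p ((e : ZMod p) * u ^ 2 / 2) * ((-1) ^ (1 - (len c : ℤ)) * DD p u ^ (1 - (len c : ℤ))) *
      ((-1) ^ len c * BF p c u) = ((-1 : ℂ) ^ (1 - (len c : ℤ)) * (-1) ^ len c) *
      (chi p ((e : ZMod p) * u ^ 2 / 2) * DD p u ^ (1 - (len c : ℤ)) * BF p c u) := by ring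
    _ = _ := by rw [h2]; ring

private theorem Cv2_BF_cons (e : ℤ) (c s : Forest) (a : ZMod p) :
    BF p (Forest.cons e c s) a = (chi p (-(e : ZMod p) / 2) * DD p 1 ^ ((len c : ℤ) - 2) *
      ∑ u ∈ univ.erase (0 : ZMod p), Cv2_h p e c u * chi p (u * a)) * BF p s a := by
  rw [BF]
  congr 2
  refine Finset.sum_congr rfl fun u _ => ?_
  unfold Cv2_h
  rw [chi_add]
  ring

private theorem Cv2_tree_neg (h : ZMod p → ℂ) (hh : ∀ u, h (-u) = -h u) (a : ZMod p) :
    ∑ u ∈ univ.erase (0 : ZMod p), h u * chi p (u * (-a)) =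
      -∑ u ∈ univ.erase (0 : ZMod p), h u * chi p (u * a) := by
  rw [← Cv2_sum_neg p (fun u => h u * chi p (u * (-a))), ← Finset.sum_neg_distrib]
  refine Finset.sum_congr rfl fun u _ => ?_
  rw [hh]
  have h1 : -u * -a = u * a := by ring
  rw [h1]
  ring

private theorem Cv2_tree_DD (h : ZMod p → ℂ) (hh : ∀ u, h (-u) = -h u) (a : ZMod p) :
    ∑ u ∈ univ.erase (0 : ZMod p), h u * DD p (u * a) =
      2 * ∑ u ∈ univ.erase (0 : ZMod p), h u * chi p (u * a) := by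
  have h1 : ∀ u, h u * DD p (u * a) = h u * chi p (u * a) - h u * chi p (u * (-a)) := by
    intro u
    have h2 : u * (-a) = -(u * a) := by ring
    rw [h2, DD]
    ring
  rw [Finset.sum_congr rfl (fun u _ => h1 u), Finset.sum_sub_distrib, Cv2_tree_neg p h hh a]
  ring

private theorem Cv2_chi_split (e u : ZMod p) :
    chi p (e * (u ^ 2 - 1) / 2) = chi p (-e / 2) * chi p (e * u ^ 2 / 2) := by
  rw [← chi_add]
  congr 1
  ring

private theorem Cv2_pow1 (hp : 2 < p) (z : ℂ) (k : ℕ) :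
    (z / DD p 1) ^ (1 - (k : ℤ)) * (DD p 1)⁻¹ = z ^ (1 - (k : ℤ)) * DD p 1 ^ ((k : ℤ) - 2) := by
  have h := Cv2_D1 p hp
  rw [div_zpow, div_mul_eq_mul_div, div_eq_mul_inv, mul_assoc, ← zpow_neg, ← zpow_neg_one, ← zpow_add₀ h]
  congr 2
  ring

private theorem Cv2_pow2 (z : ℂ) (k : ℕ) :
    (z / DD p 1) ^ (2 - (k : ℤ)) = z ^ (2 - (k : ℤ)) * DD p 1 ^ ((k : ℤ) - 2) := by
  rw [div_zpow, div_eq_mul_inv, ← zpow_neg]
  congr 2
  ring

omit [Fact p.Prime] in
private theorem Cv2_colours {n : ℕ} (hn : n ∈ colours p) : Odd n := (Finset.mem_filter.1 hn).2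

theorem BF_neg (F : Forest) (u : ZMod p) : BF p F (-u) = (-1) ^ len F * BF p F u := by
  induction F generalizing u with
  | nil => simp [BF, len]
  | cons e c s ihc ihs =>
    rw [Cv2_BF_cons, Cv2_BF_cons, Cv2_tree_neg p (Cv2_h p e c) (Cv2_h_neg p e c ihc) u, ihs u]
    have h1 : len (Forest.cons e c s) = len s + 1 := rfl
    rw [h1, pow_succ]
    ring

theorem branches_eq (hp : 2 < p) (F : Forest) (a : ℕ) (ha : Odd a) : branches p F a = BF p F (a : ZMod p) := by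
  induction F generalizing a with
  | nil => simp [branches, BF]
  | cons e c s ihc ihs =>
    rw [Cv2_BF_cons, branches, ihs a ha]
    congr 1
    set f : ZMod p → ℂ := fun u => chi p ((e : ZMod p) * (u ^ 2 - 1) / 2) *
      (DD p u / DD p 1) ^ (1 - (len c : ℤ)) * BF p c u * (DD p (u * (a : ZMod p)) / DD p 1) with hf
    have h1 : ∀ n ∈ colours p, twist p e n * qint p n ^ (1 - (len c : ℤ)) * branches p c n *
        qint p (n * a) = f (n : ZMod p) := by
      intro n hn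
      have hodd := Cv2_colours p hn
      rw [hf, twist_eq p hp e n hodd, qint_eq p hp n hodd, ihc n hodd, qint_eq p hp (n * a) (hodd.mul ha)]
      simp only
      rw [Nat.cast_mul]
    have h2 : ∀ u, f (-u) = f u := by
      intro u
      rw [hf]
      simp only
      have h3 : (-u) ^ 2 = u ^ 2 := by ring
      have h4 : -u * (a : ZMod p) = -(u * (a : ZMod p)) := by ring
      have h5 : -DD p u / DD p 1 = -(DD p u / DD p 1) := by ring
      rw [h3, h4, DD_neg, DD_neg, h5, Cv2_neg_zpow, BF_neg]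
      have h6 := Cv2_sgn (len c)
      calc chi p ((e : ZMod p) * (u ^ 2 - 1) / 2) * ((-1) ^ (1 - (len c : ℤ)) *
          (DD p u / DD p 1) ^ (1 - (len c : ℤ))) * ((-1) ^ len c * BF p c u) *
          (-DD p (u * (a : ZMod p)) / DD p 1) = -((-1 : ℂ) ^ (1 - (len c : ℤ)) * (-1) ^ len c) *
          (chi p ((e : ZMod p) * (u ^ 2 - 1) / 2) * (DD p u / DD p 1) ^ (1 - (len c : ℤ)) * BF p c u *
          (DD p (u * (a : ZMod p)) / DD p 1)) := by ring
        _ = _ := by rw [h6]; ring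
    rw [Finset.sum_congr rfl h1, sum_colours p hp f h2]
    have h7 : ∀ u, f u = (chi p (-(e : ZMod p) / 2) * DD p 1 ^ ((len c : ℤ) - 2)) *
        (Cv2_h p e c u * DD p (u * (a : ZMod p))) := by
      intro u
      rw [hf]
      simp only
      rw [Cv2_chi_split]
      have h8 := Cv2_pow1 p hp (DD p u) (len c)
      unfold Cv2_h
      calc chi p (-(e : ZMod p) / 2) * chi p ((e : ZMod p) * u ^ 2 / 2) *
          (DD p u / DD p 1) ^ (1 - (len c : ℤ)) * BF p c u * (DD p (u * (a : ZMod p)) / DD p 1) =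
          chi p (-(e : ZMod p) / 2) * chi p ((e : ZMod p) * u ^ 2 / 2) *
          ((DD p u / DD p 1) ^ (1 - (len c : ℤ)) * (DD p 1)⁻¹) * BF p c u * DD p (u * (a : ZMod p)) := by ring
        _ = _ := by rw [h8]; ring
    rw [Finset.sum_congr rfl (fun u _ => h7 u), ← Finset.mul_sum,
      Cv2_tree_DD p (Cv2_h p e c) (Cv2_h_neg p e c (BF_neg p c)) (a : ZMod p)]
    ring

theorem stateSum_eq (hp : 2 < p) (e : ℤ) (F : Forest) :
    stateSum p e F = 1 / 2 * chi p (-(e : ZMod p) / 2) * DD p 1 ^ ((len F : ℤ) - 2) *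
      ∑ u ∈ univ.erase (0 : ZMod p), chi p ((e : ZMod p) * u ^ 2 / 2) * DD p u ^ (2 - (len F : ℤ)) * BF p F u := by
  rw [stateSum]
  set f : ZMod p → ℂ := fun u => chi p ((e : ZMod p) * (u ^ 2 - 1) / 2) *
    (DD p u / DD p 1) ^ (2 - (len F : ℤ)) * BF p F u with hf
  have h1 : ∀ n ∈ colours p, twist p e n * qint p n ^ (2 - (len F : ℤ)) * branches p F n =
      f (n : ZMod p) := by
    intro n hn
    have hodd := Cv2_colours p hn
    rw [hf, twist_eq p hp e n hodd, qint_eq p hp n hodd, branches_eq p hp F n hodd]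
  have h2 : ∀ u, f (-u) = f u := by
    intro u
    rw [hf]
    simp only
    have h3 : (-u) ^ 2 = u ^ 2 := by ring
    have h5 : -DD p u / DD p 1 = -(DD p u / DD p 1) := by ring
    rw [h3, DD_neg, h5, Cv2_neg_zpow, BF_neg]
    have h6 := Cv2_sgn2 (len F)
    calc chi p ((e : ZMod p) * (u ^ 2 - 1) / 2) * ((-1) ^ (2 - (len F : ℤ)) *
        (DD p u / DD p 1) ^ (2 - (len F : ℤ))) * ((-1) ^ len F * BF p F u) =
        ((-1 : ℂ) ^ (2 - (len F : ℤ)) * (-1) ^ len F) *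
        (chi p ((e : ZMod p) * (u ^ 2 - 1) / 2) * (DD p u / DD p 1) ^ (2 - (len F : ℤ)) * BF p F u) := by ring
      _ = _ := by rw [h6]; ring
  rw [Finset.sum_congr rfl h1, sum_colours p hp f h2]
  have h7 : ∀ u, f u = (chi p (-(e : ZMod p) / 2) * DD p 1 ^ ((len F : ℤ) - 2)) *
      (chi p ((e : ZMod p) * u ^ 2 / 2) * DD p u ^ (2 - (len F : ℤ)) * BF p F u) := by
    intro u
    rw [hf]
    simp only
    rw [Cv2_chi_split, Cv2_pow2 p]
    ring
  rw [Finset.sum_congr rfl (fun u _ => h7 u), ← Finset.mul_sum]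
  ring

private theorem Cv2_unknot (hp : 2 < p) (ε : ℤ) (d : ZMod p) (hd : (ε : ZMod p) = d) (hd0 : d ≠ 0) :
    unknot p ε = chi p (-d / 2) * ((DD p 1)⁻¹ * (DD p 1)⁻¹) * (gg p d * (chi p (-(2 / d)) - 1)) := by
  rw [unknot]
  set f : ZMod p → ℂ := fun u => chi p (d * (u ^ 2 - 1) / 2) * (DD p u / DD p 1) ^ 2 with hf
  have h1 : ∀ n ∈ colours p, twist p ε n * qint p n ^ 2 = f (n : ZMod p) := by
    intro n hn
    have hodd := Cv2_colours p hn
    rw [hf, twist_eq p hp ε n hodd, qint_eq p hp n hodd, hd]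
  have h2 : ∀ u, f (-u) = f u := by
    intro u
    rw [hf]
    simp only
    have h3 : (-u) ^ 2 = u ^ 2 := by ring
    rw [h3, DD_neg]
    ring
  rw [Finset.sum_congr rfl h1, sum_colours p hp f h2]
  have h3 : ∑ u ∈ univ.erase (0 : ZMod p), f u = ∑ u, f u := by
    refine Finset.sum_erase _ ?_
    rw [hf]
    simp
  have h4 : ∀ u, f u = (chi p (-d / 2) * ((DD p 1)⁻¹ * (DD p 1)⁻¹)) *
      (chi p (d * u ^ 2 / 2 + u * 2) + chi p (d * u ^ 2 / 2 + u * (-2)) - 2 * chi p (d * u ^ 2 / 2)) := by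
    intro u
    rw [hf]
    simp only
    rw [Cv2_chi_split, chi_add, chi_add, DD]
    have h5 : chi p (u * 2) = chi p u * chi p u := by rw [← chi_add]; congr 1; ring
    have h6 : chi p (u * (-2)) = chi p (-u) * chi p (-u) := by rw [← chi_add]; congr 1; ring
    have h7 := chi_neg_mul p u
    rw [h5, h6]
    linear_combination (-2 * chi p (-d / 2) * chi p (d * u ^ 2 / 2) * ((DD p 1)⁻¹ * (DD p 1)⁻¹)) * h7
  have h5 := gg_complete p hp d hd0 2
  have h6 := gg_complete p hp d hd0 (-2)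
  have h7 : (2 : ZMod p) ^ 2 / (2 * d) = 2 / d := by
    have h8 := two_ne p hp
    field_simp
  have h8 : (-2 : ZMod p) ^ 2 / (2 * d) = 2 / d := by
    rw [← h7]
    ring
  rw [h7] at h5
  rw [h8] at h6
  rw [h3, Finset.sum_congr rfl (fun u _ => h4 u), ← Finset.mul_sum, Finset.sum_sub_distrib,
    Finset.sum_add_distrib, ← Finset.mul_sum, h5, h6]
  have h9 : ∑ u, chi p (d * u ^ 2 / 2) = gg p d := rfl
  rw [h9]
  ring

theorem unknot_one (hp : 2 < p) : unknot p 1 = -(chi p (-3 / 2) * (DD p 1)⁻¹ * gg p 1) := by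
  have hD := Cv2_D1 p hp
  rw [Cv2_unknot p hp 1 1 (by simp) one_ne_zero]
  have h1 : (-(2 / 1) : ZMod p) = -1 + -1 := by ring
  have h2 : (-3 / 2 : ZMod p) = -1 / 2 + -1 := by
    have h3 := two_ne p hp
    field_simp
    ring
  rw [h1, h2, chi_add, chi_add p (-1 / 2)]
  have h4 := chi_neg_mul p 1
  have h5 : chi p (-1) * chi p (-1) - 1 = -(chi p (-1) * DD p 1) := by
    rw [DD]
    linear_combination h4
  rw [h5]
  field_simp

theorem unknot_neg (hp : 2 < p) : unknot p (-1) = chi p (3 / 2) * (DD p 1)⁻¹ * gg p (-1) := by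
  have hD := Cv2_D1 p hp
  rw [Cv2_unknot p hp (-1) (-1) (by simp) (neg_ne_zero.2 one_ne_zero)]
  have h1 : (-(2 / -1) : ZMod p) = 1 + 1 := by
    rw [div_neg, neg_neg]
    ring
  have h2 : (3 / 2 : ZMod p) = - -1 / 2 + 1 := by
    have h3 := two_ne p hp
    field_simp
    ring
  rw [h1, h2, chi_add p 1 1, chi_add p (- -1 / 2) 1]
  have h4 := chi_neg_mul p 1
  have h5 : chi p 1 * chi p 1 - 1 = chi p 1 * DD p 1 := by
    rw [DD]
    linear_combination h4
  rw [h5]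
  field_simp

end

end Pool.Agent.Lib.MP_f2058c_gt
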