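import Mathlib
import Pool.Agent.Lib.MP_f2058c_gt.Base

/-!
# Identities between the parameters
-/

set_option autoImplicit false

namespace Pool.Agent.Lib.MP_f2058c_gt

open Forest

/-- The contribution of a tree with parameters `T` to `Xi`. -/
def XT (T : Par) (z : ℚ) : ℚ :=
  48 * T.C + 288 * T.D * z + ((e1 T) ^ 2 - 2 * e1 T + 2880 * T.E) * z ^ 2

theorem Xi_eq (a : Dat) (z : ℚ) : Xi a z = XT a.P z - 2 * a.e2 * z ^ 2 := by
  simp only [Xi, XT]; ring

theorem e1_add (P R : Par) : e1 (P + R) = e1 P + e1 R := by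
  simp only [e1, Par.add_B]; ring

theorem e1_transA (s : ℚ) (P : Par) : e1 (transA s (P + PD)).hat = 1 + s ^ 2 * (e1 P - 1) := by
  simp only [e1, transA, Par.hat, Par.add_B, PD]; ring

theorem e1_transB (β : ℚ) (P R : Par) : e1 (transB β (P + PD) R).hat = e1 P := by
  simp only [e1, transB, Par.hat, Par.add_B, PD]; ring

theorem XT_transA (s z : ℚ) (P : Par) : XT (transA s (P + PD)).hat z = XT P (s + s ^ 2 * z) := by
  simp only [XT, e1, transA, Par.hat, Par.add_A, Par.add_B, Par.add_C, Par.add_D, Par.add_E, PD]; ring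

theorem XT_transB (β z : ℚ) (P R : Par) :
    XT (transB β (P + PD) R).hat z = XT P (β + z) + 2 * (e1 P - 1) * e1 R + 48 * R.C := by
  simp only [XT, e1, transB, Par.hat, Par.add_A, Par.add_B, Par.add_C, Par.add_D, Par.add_E, PD]; ring

theorem Xi_addTree (r : Dat) (s c z : ℚ) (T : Par) : Xi (addTree r s c T) z = Xi r z + XT T z := by
  simp only [Xi, XT, addTree, e1, Par.add_B, Par.add_C, Par.add_D, Par.add_E]; ring

theorem rtA_c2 (s : ℚ) (a : Dat) :
    48 * (rtA s a).2.2 = 2 * s ^ 2 * (1 - e1 a.P + a.e2) + Xi a s := by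
  simp only [rtA, Xi, e1, Par.add_A, Par.add_B, Par.add_C, Par.add_D, Par.add_E, PD]; ring

theorem rtB_c2 (β : ℚ) (w a : Dat) :
    48 * (rtB β w a).2.2 =
      2 * (1 - e1 a.P) * (1 - e1 w.P) + 2 * β ^ 2 * w.e2 + Xi w β + 48 * a.P.C := by
  simp only [rtB, Xi, e1, Par.add_A, Par.add_B, Par.add_C, Par.add_D, Par.add_E, PD]; ring

end Pool.Agent.Lib.MP_f2058c_gt
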