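import Mathlib
import Pool.Agent.Lib.MP_f2058c_gt.PosId

/-!
# Determinants and the data `fd`
-/

set_option autoImplicit false

namespace Pool.Agent.Lib.MP_f2058c_gt

open Finset Forest

noncomputable section

theorem PQ_cons (e : ℤ) (c s : Forest) : PQ (.cons e c s) =
    ((e * (PQ c).1 - (PQ c).2) * (PQ s).1,
      (PQ c).1 * (PQ s).1 + (e * (PQ c).1 - (PQ c).2) * (PQ s).2) := rfl

theorem Cop_cons {e : ℤ} {c s : Forest} (h : Cop (.cons e c s)) : Cop c ∧ Cop s := by
  unfold Cop at h
  rw [PQ_cons] at h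
  obtain ⟨x, y, hxy⟩ := h
  dsimp only at hxy
  constructor
  · exact ⟨x * e * (PQ s).1 + y * (PQ s).1 + y * e * (PQ s).2, -x * (PQ s).1 - y * (PQ s).2, by
      linear_combination hxy⟩
  · exact ⟨x * (e * (PQ c).1 - (PQ c).2) + y * (PQ c).1, y * (e * (PQ c).1 - (PQ c).2), by
      linear_combination hxy⟩

theorem Cop_of_det {e : ℤ} {F : Forest} (h : |det e F| = 1) : Cop F := by
  rw [abs_eq (by norm_num)] at h
  unfold det at h
  rcases h with h | h
  · exact ⟨e, -1, by linear_combination h⟩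
  · exact ⟨-e, 1, by linear_combination -h⟩

theorem fd_cons_none0 {e : ℤ} {c s : Forest} (hz : (fd c).2 = none) (h0 : (e : ℚ) + (fd c).1.σ = 0) :
    fd (.cons e c s) = ((fd s).1, some (fd c).1) := by
  simp only [fd, hz, if_pos h0]

theorem fd_cons_none {e : ℤ} {c s : Forest} (hz : (fd c).2 = none) (h0 : (e : ℚ) + (fd c).1.σ ≠ 0) :
    fd (.cons e c s) =
      (addTree (fd s).1 (-1 / ((e : ℚ) + (fd c).1.σ)) ((fd c).1.c * (-1 / ((e : ℚ) + (fd c).1.σ)))
        (transA (-1 / ((e : ℚ) + (fd c).1.σ)) ((fd c).1.P + PD)).hat, (fd s).2) := by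
  simp only [fd, hz, if_neg h0]

theorem fd_cons_some {e : ℤ} {c s : Forest} {v : Dat} (hz : (fd c).2 = some v) :
    fd (.cons e c s) =
      (addTree (fd s).1 0 (-(v.c * (fd c).1.c))
        (transB ((e : ℚ) + (fd c).1.σ) (v.P + PD) (fd c).1.P).hat, (fd s).2) := by
  simp only [fd, hz]

theorem fd_both (F : Forest) (h : Cop F) :
    ((fd F).2 = none → (PQ F).1 ≠ 0 ∧ (fd F).1.σ = -((PQ F).2 : ℚ) / ((PQ F).1 : ℚ)) ∧
      (∀ w, (fd F).2 = some w → (PQ F).1 = 0) := by
  induction F with
  | nil =>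
    constructor
    · intro _
      simp [PQ, fd]
    · intro w hw
      exact absurd hw (by simp [fd])
  | cons e c s ihc ihs =>
    obtain ⟨hc, hs⟩ := Cop_cons h
    obtain ⟨hc1, hc2⟩ := ihc hc
    obtain ⟨hs1, hs2⟩ := ihs hs
    cases hz : (fd c).2 with
    | none =>
      obtain ⟨hP, hσ⟩ := hc1 hz
      have hPq : ((PQ c).1 : ℚ) ≠ 0 := by exact_mod_cast hP
      by_cases h0 : (e : ℚ) + (fd c).1.σ = 0
      · rw [fd_cons_none0 hz h0]
        constructor
        · intro hh
          exact absurd hh (by simp)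
        · intro w _
          rw [PQ_cons]
          have h1 : (e * (PQ c).1 - (PQ c).2 : ℤ) = 0 := by
            have h2 : ((e * (PQ c).1 - (PQ c).2 : ℤ) : ℚ) = 0 := by
              rw [hσ] at h0
              field_simp at h0
              push_cast
              linarith
            exact_mod_cast h2
          simp [h1]
      · have hn : (e * (PQ c).1 - (PQ c).2 : ℤ) ≠ 0 := by
          intro h1
          apply h0
          have h2 : ((e * (PQ c).1 - (PQ c).2 : ℤ) : ℚ) = 0 := by rw [h1]; simp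
          push_cast at h2
          rw [hσ]
          field_simp
          linarith
        have hnq : ((e : ℚ) * ((PQ c).1 : ℚ) - ((PQ c).2 : ℚ)) ≠ 0 := by exact_mod_cast hn
        have hd : (e : ℚ) + (fd c).1.σ = ((e : ℚ) * ((PQ c).1 : ℚ) - ((PQ c).2 : ℚ)) / ((PQ c).1 : ℚ) := by
          rw [hσ]; field_simp; ring
        rw [fd_cons_none hz h0]
        constructor
        · intro hh
          obtain ⟨hPs, hσs⟩ := hs1 hh
          have hPsq : ((PQ s).1 : ℚ) ≠ 0 := by exact_mod_cast hPs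
          constructor
          · rw [PQ_cons]
            exact mul_ne_zero hn hPs
          · rw [PQ_cons]
            simp only [addTree]
            rw [hσs, hd]
            push_cast
            field_simp
            ring
        · intro w hw
          rw [PQ_cons]
          dsimp only
          rw [hs2 w hw, mul_zero]
    | some v =>
      have hP0 := hc2 v hz
      have hQ : (PQ c).2 ≠ 0 := by
        intro hQ0
        unfold Cop at hc
        rw [hP0, hQ0] at hc
        obtain ⟨x, y, hxy⟩ := hc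
        simp at hxy
      rw [fd_cons_some hz]
      constructor
      · intro hh
        obtain ⟨hPs, hσs⟩ := hs1 hh
        have hPsq : ((PQ s).1 : ℚ) ≠ 0 := by exact_mod_cast hPs
        have hQq : ((PQ c).2 : ℚ) ≠ 0 := by exact_mod_cast hQ
        constructor
        · rw [PQ_cons]
          dsimp only
          rw [hP0]
          exact mul_ne_zero (by simpa using hQ) hPs
        · rw [PQ_cons]
          simp only [addTree]
          rw [hσs, hP0]
          push_cast
          rw [div_add' _ _ _ hPsq]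
          rw [div_eq_div_iff hPsq (by simpa using ⟨hQ, hPs⟩)]
          ring
      · intro w hw
        rw [PQ_cons]
        dsimp only
        rw [hs2 w hw, mul_zero]

theorem fd_none {F : Forest} (h : Cop F) (h2 : (fd F).2 = none) :
    (PQ F).1 ≠ 0 ∧ (fd F).1.σ = -((PQ F).2 : ℚ) / ((PQ F).1 : ℚ) :=
  (fd_both F h).1 h2

theorem fd_some {F : Forest} (h : Cop F) {w : Dat} (h2 : (fd F).2 = some w) : (PQ F).1 = 0 :=
  (fd_both F h).2 w h2

theorem fdpq_zero_iff {e : ℤ} {c : Forest} (h : Cop c) (h1 : (fd c).2 = none) :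
    (e : ℚ) + (fd c).1.σ = 0 ↔ det e c = 0 := by
  obtain ⟨hP, hσ⟩ := fd_none h h1
  have hPq : ((PQ c).1 : ℚ) ≠ 0 := by exact_mod_cast hP
  constructor
  · intro h0
    have h2 : ((e * (PQ c).1 - (PQ c).2 : ℤ) : ℚ) = 0 := by
      rw [hσ] at h0
      field_simp at h0
      push_cast
      linarith
    have h3 : (e * (PQ c).1 - (PQ c).2 : ℤ) = 0 := by exact_mod_cast h2
    exact h3
  · intro h0
    have h1 : (e * (PQ c).1 - (PQ c).2 : ℤ) = 0 := h0
    have h2 : ((e * (PQ c).1 - (PQ c).2 : ℤ) : ℚ) = 0 := by rw [h1]; simp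
    push_cast at h2
    rw [hσ]
    field_simp
    linarith

theorem fdpq_some_det {e : ℤ} {c : Forest} (h : Cop c) {w : Dat} (h1 : (fd c).2 = some w) : det e c ≠ 0 := by
  have hP0 := fd_some h h1
  intro h0
  have h2 : (PQ c).2 = 0 := by
    have h3 : (e * (PQ c).1 - (PQ c).2 : ℤ) = 0 := h0
    rw [hP0] at h3
    linarith
  unfold Cop at h
  rw [hP0, h2] at h
  obtain ⟨x, y, hxy⟩ := h
  simp at hxy

theorem fd_zero {e : ℤ} {c s : Forest} (h : Cop (.cons e c s)) (h1 : (fd c).2 = none)
    (h2 : (e : ℚ) + (fd c).1.σ = 0) : (fd s).2 = none := by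
  obtain ⟨hc, hs⟩ := Cop_cons h
  have hn : (e * (PQ c).1 - (PQ c).2 : ℤ) = 0 := (fdpq_zero_iff hc h1).mp h2
  cases hz : (fd s).2 with
  | none => rfl
  | some w =>
    exfalso
    have hPs := fd_some hs hz
    unfold Cop at h
    rw [PQ_cons, hn, hPs] at h
    obtain ⟨x, y, hxy⟩ := h
    simp at hxy

/-- Parameters of the tree `(e, c)` when its determinant is not zero. -/
def treeP (e : ℤ) (c : Forest) : Par :=
  match (fd c).2 with
  | none => (transA (-1 / ((e : ℚ) + (fd c).1.σ)) ((fd c).1.P + PD)).hat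
  | some w => (transB ((e : ℚ) + (fd c).1.σ) (w.P + PD) (fd c).1.P).hat

theorem fd_cons_reg {e : ℤ} {c s : Forest} (h : Cop c) (hn : det e c ≠ 0) :
    (fd (.cons e c s)).2 = (fd s).2 ∧
      ∃ s' κ : ℚ, (fd (.cons e c s)).1 = addTree (fd s).1 s' κ (treeP e c) := by
  cases hz : (fd c).2 with
  | none =>
    have h0 : (e : ℚ) + (fd c).1.σ ≠ 0 := fun h0 => hn ((fdpq_zero_iff h hz).mp h0)
    rw [fd_cons_none hz h0]
    refine ⟨rfl, -1 / ((e : ℚ) + (fd c).1.σ), (fd c).1.c * (-1 / ((e : ℚ) + (fd c).1.σ)), ?_⟩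
    simp only [treeP, hz]
  | some w =>
    rw [fd_cons_some hz]
    refine ⟨rfl, 0, -(w.c * (fd c).1.c), ?_⟩
    simp only [treeP, hz]

theorem fd_cons_zero {e : ℤ} {c s : Forest} (h : Cop c) (hn : det e c = 0) :
    (fd c).2 = none ∧ fd (.cons e c s) = ((fd s).1, some (fd c).1) := by
  cases hz : (fd c).2 with
  | none => exact ⟨rfl, fd_cons_none0 hz ((fdpq_zero_iff h hz).mpr hn)⟩
  | some w => exact absurd hn (fdpq_some_det h hz)

end

end Pool.Agent.Lib.MP_f2058c_gt
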