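import Mathlib
import Pool.Agent.Lib.MP_f2058c_gt.Ex1

/-!
# JOB Interp: interpolation

Proofs.
* `interp`: inverse Vandermonde matrix for the nodes `0, ..., 6`: with
  720 * lambda[0] = [720, 0, 0, 0, 0, 0, 0]
  720 * lambda[1] = [-1764, 4320, -5400, 4800, -2700, 864, -120]
  720 * lambda[2] = [1624, -6264, 10530, -10160, 5940, -1944, 274]
  720 * lambda[3] = [-735, 3480, -6915, 7440, -4605, 1560, -225]
  720 * lambda[4] = [175, -930, 2055, -2420, 1605, -570, 85]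
  720 * lambda[5] = [-21, 120, -285, 360, -255, 96, -15]
  720 * lambda[6] = [1, -6, 15, -20, 15, -6, 1]
  one has `∑ b < 7, lambda[n][b] b^m = δ_{n m}` for `m < 7` (with `0^0 = 1`).  So `a n = ∑ b, lambda[n][b] • S b`, where
  `S b = ∑ m < 7, b^m • a m ∈ WW 7`; the constants are in `OO` (`OO_smooth`, `720 = 2^4 3^2 5`).
  For each `n` (`interval_cases n`), prove `720 • a n = ∑ ...` by `funext u; simp [sum_range_succ]; ring`.
* `Phi`: by `exp_nat`, `(fun u => chi (b u)) - Ef b ∈ WW 7`, and `Φ` is linear and maps `WW 7` to `WW 7`, so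
  `Φ (fun u => chi (b u)) - ∑ n, (b^n/(2^n n!)) • Φ (yy^n) ∈ WW 7`.  With the hypothesis
  `∑ n, (b^n/(2^n n!)) • (Φ (yy^n) - F n) ∈ WW 7` for all `b < 7`; `interp` with
  `a n = (1/(2^n n!)) • (Φ (yy^n) - F n)` and then multiply by the integer `2^n n!`.
-/

set_option autoImplicit false

namespace Pool.Agent.Lib.MP_f2058c_gt

open Finset

noncomputable section

variable (p : ℕ) [Fact p.Prime]

private theorem interp_fin (h7 : 7 ≤ p) (v : ZMod p → ℂ) (S : ℕ → (ZMod p → ℂ))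
    (hS : ∀ b : ℕ, b < 7 → S b ∈ WW p 7) (m0 m1 m2 m3 m4 m5 m6 : ℤ)
    (hv : (720 : ℂ) • v = (m0 : ℂ) • S 0 + (m1 : ℂ) • S 1 + (m2 : ℂ) • S 2 + (m3 : ℂ) • S 3 + (m4 : ℂ) • S 4 +
      (m5 : ℂ) • S 5 + (m6 : ℂ) • S 6) : v ∈ WW p 7 := by
  have hz : ∀ m : ℤ, (m : ℂ) ∈ OO p := fun m => intCast_mem (OO p) m
  have h1 : (720 : ℂ) • v ∈ WW p 7 := by
    rw [hv]
    refine add_mem (add_mem (add_mem (add_mem (add_mem (add_mem ?_ ?_) ?_) ?_) ?_) ?_) ?_
    · exact WW_smul p (hS 0 (by norm_num)) (hz m0)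
    · exact WW_smul p (hS 1 (by norm_num)) (hz m1)
    · exact WW_smul p (hS 2 (by norm_num)) (hz m2)
    · exact WW_smul p (hS 3 (by norm_num)) (hz m3)
    · exact WW_smul p (hS 4 (by norm_num)) (hz m4)
    · exact WW_smul p (hS 5 (by norm_num)) (hz m5)
    · exact WW_smul p (hS 6 (by norm_num)) (hz m6)
  have h2 : ((720 : ℂ)⁻¹) ∈ OO p := by
    refine OO_smooth p h7 4 2 1 _ ?_
    have h3 : (2 : ℂ) ^ 4 * 3 ^ 2 * 5 ^ 1 * 720⁻¹ = 1 := by norm_num
    rw [h3]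
    exact one_mem _
  have h4 : v = (720 : ℂ)⁻¹ • ((720 : ℂ) • v) := by
    rw [smul_smul, inv_mul_cancel₀ (by norm_num), one_smul]
  rw [h4]
  exact WW_smul p h1 h2

theorem interp (h7 : 7 ≤ p) (a : ℕ → (ZMod p → ℂ))
    (h : ∀ b : ℕ, b < 7 → ∑ n ∈ range 7, ((b : ℂ) ^ n) • a n ∈ WW p 7) : ∀ n, n < 7 → a n ∈ WW p 7 := by
  intro n hn
  interval_cases n
  · refine interp_fin p h7 (a 0) (fun b : ℕ => ∑ n ∈ range 7, ((b : ℂ) ^ n) • a n) h (720) (0) (0) (0) (0) (0) (0) ?_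
    funext u
    simp only [Pi.add_apply, Pi.smul_apply, sum_range_succ, sum_range_zero, zero_add, smul_eq_mul]
    push_cast
    ring
  · refine interp_fin p h7 (a 1) (fun b : ℕ => ∑ n ∈ range 7, ((b : ℂ) ^ n) • a n) h (-1764) (4320) (-5400) (4800) (-2700) (864) (-120) ?_
    funext u
    simp only [Pi.add_apply, Pi.smul_apply, sum_range_succ, sum_range_zero, zero_add, smul_eq_mul]
    push_cast
    ring
  · refine interp_fin p h7 (a 2) (fun b : ℕ => ∑ n ∈ range 7, ((b : ℂ) ^ n) • a n) h (1624) (-6264) (10530) (-10160) (5940) (-1944) (274) ?_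
    funext u
    simp only [Pi.add_apply, Pi.smul_apply, sum_range_succ, sum_range_zero, zero_add, smul_eq_mul]
    push_cast
    ring
  · refine interp_fin p h7 (a 3) (fun b : ℕ => ∑ n ∈ range 7, ((b : ℂ) ^ n) • a n) h (-735) (3480) (-6915) (7440) (-4605) (1560) (-225) ?_
    funext u
    simp only [Pi.add_apply, Pi.smul_apply, sum_range_succ, sum_range_zero, zero_add, smul_eq_mul]
    push_cast
    ring
  · refine interp_fin p h7 (a 4) (fun b : ℕ => ∑ n ∈ range 7, ((b : ℂ) ^ n) • a n) h (175) (-930) (2055) (-2420) (1605) (-570) (85) ?_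
    funext u
    simp only [Pi.add_apply, Pi.smul_apply, sum_range_succ, sum_range_zero, zero_add, smul_eq_mul]
    push_cast
    ring
  · refine interp_fin p h7 (a 5) (fun b : ℕ => ∑ n ∈ range 7, ((b : ℂ) ^ n) • a n) h (-21) (120) (-285) (360) (-255) (96) (-15) ?_
    funext u
    simp only [Pi.add_apply, Pi.smul_apply, sum_range_succ, sum_range_zero, zero_add, smul_eq_mul]
    push_cast
    ring
  · refine interp_fin p h7 (a 6) (fun b : ℕ => ∑ n ∈ range 7, ((b : ℂ) ^ n) • a n) h (1) (-6) (15) (-20) (15) (-6) (1) ?_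
    funext u
    simp only [Pi.add_apply, Pi.smul_apply, sum_range_succ, sum_range_zero, zero_add, smul_eq_mul]
    push_cast
    ring

theorem Phi (h7 : 7 ≤ p) (Φ : (ZMod p → ℂ) →ₗ[ℂ] (ZMod p → ℂ)) (hΦ : ∀ f ∈ WW p 7, Φ f ∈ WW p 7)
    (F : ℕ → (ZMod p → ℂ))
    (h : ∀ b : ℕ, b < 7 → Φ (fun u => chi p ((b : ZMod p) * u)) -
      ∑ n ∈ range 7, ((b : ℂ) ^ n / (2 ^ n * (n.factorial : ℂ))) • F n ∈ WW p 7) :
    ∀ n, n < 7 → Φ (yy p ^ n) - F n ∈ WW p 7 := by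
  intro n hn
  have h1 := interp p h7 (fun n => ((2 : ℂ) ^ n * (n.factorial : ℂ))⁻¹ • (Φ (yy p ^ n) - F n)) ?_ n hn
  · have hc : ((2 : ℂ) ^ n * (n.factorial : ℂ)) ∈ OO p := by
      have h2 : ((2 : ℂ) ^ n * (n.factorial : ℂ)) = ((2 ^ n * n.factorial : ℕ) : ℂ) := by push_cast; ring
      rw [h2]
      exact natCast_mem (OO p) _
    have h2 := WW_smul p h1 hc
    have h3 : ((2 : ℂ) ^ n * (n.factorial : ℂ)) ≠ 0 :=
      mul_ne_zero (pow_ne_zero _ (by norm_num)) (by exact_mod_cast n.factorial_ne_zero)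
    simp only [smul_smul] at h2
    rw [mul_inv_cancel₀ h3, one_smul] at h2
    exact h2
  · intro b hb
    have h2 := h b hb
    have h3 := hΦ _ (exp_nat p h7 b)
    have h4 := sub_mem h2 h3
    have h5 : ∑ n ∈ range 7, ((b : ℂ) ^ n) • (((2 : ℂ) ^ n * (n.factorial : ℂ))⁻¹ • (Φ (yy p ^ n) - F n)) =
        Φ (fun u => chi p ((b : ZMod p) * u)) -
          ∑ n ∈ range 7, ((b : ℂ) ^ n / (2 ^ n * (n.factorial : ℂ))) • F n -
        Φ ((fun u => chi p ((b : ZMod p) * u)) - Ef p b) := by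
      rw [map_sub]
      have h6 : Φ (Ef p b) = ∑ n ∈ range 7, ((b : ℂ) ^ n / (2 ^ n * (n.factorial : ℂ))) • Φ (yy p ^ n) := by
        rw [Ef, map_sum]
        refine sum_congr rfl fun m _ => ?_
        rw [map_smul]
      rw [h6]
      have h7' : ∑ n ∈ range 7, ((b : ℂ) ^ n) • (((2 : ℂ) ^ n * (n.factorial : ℂ))⁻¹ • (Φ (yy p ^ n) - F n)) =
          ∑ n ∈ range 7, ((b : ℂ) ^ n / (2 ^ n * (n.factorial : ℂ))) • Φ (yy p ^ n) -
          ∑ n ∈ range 7, ((b : ℂ) ^ n / (2 ^ n * (n.factorial : ℂ))) • F n := by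
        rw [← sum_sub_distrib]
        refine sum_congr rfl fun m _ => ?_
        rw [smul_smul, smul_sub, div_eq_mul_inv]
      rw [h7']
      abel
    rw [h5]
    exact h4

end

end Pool.Agent.Lib.MP_f2058c_gt
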