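import Mathlib
import Pool.Agent.Lib.MP_f2058c_gt.W2
import Pool.Agent.Lib.MP_f2058c_gt.Gs

/-!
# JOB WT1: the Gaussian transform `TT p d` preserves the filtration

`TT d f w = (gg d)⁻¹ chi (w^2/(2d)) ∑ u, chi (d u^2/2 + u w) f u` (a linear map; unfold with `show` or
`LinearMap.coe_mk`, `AddHom.coe_mk`; prove first a lemma `TT_apply` by `rfl`).

Proofs.
* `TT_chi`: `∑ u, chi (d u^2/2 + u w) chi (b u) = ∑ u, chi (d u^2/2 + u (w + b)) = gg d chi (-((w+b)^2/(2d)))` by
  `gg_complete`; multiply with `(gg d)⁻¹ chi (w^2/(2d))`: `w^2/(2d) - (w+b)^2/(2d) = -(b^2/(2d)) - (b/d) w`.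
* `TT_mul_chi`: `TT d (fun u => chi u * f u) w = chi (-((2 w + 1)/(2 d))) * TT d f (w + 1)`: the sum is
  `∑ u, chi (d u^2/2 + u (w+1)) f u`, and `w^2/(2d) = (w+1)^2/(2d) - (2w+1)/(2d)`.
* `TT_WW`: closure induction (TT is additive).  For a generator `c xx^m (chi u - 1)^n chi (b u)`: TT is linear, so
  (`WW_smul`, `WW_xsmul`, `WW_anti`) it suffices: for all `n, b`, with `f_n u = (chi u - 1)^n chi (b u)`,
  `TT f_n ∈ WW n`.  Induction on `n`.  `n = 0`: `TT_chi` and `WW_chi`, `WW_smul`.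
  Step: `f_(n+1) = chi · f_n - f_n`, so with `g = TT f_n ∈ WW n`
  `TT f_(n+1) w = chi (-((2w+1)/(2d))) g (w+1) - g w = (chi (-((2w+1)/(2d))) - 1) g (w+1) + (g (w+1) - g w)`.
  `chi (-((2w+1)/(2d))) = chi (-1/(2d)) chi ((-1/d) w)`, and
  `chi (-1/(2d)) chi ((-1/d) w) - 1 = chi (-1/(2d)) (chi ((-1/d) w) - 1) + (chi (-1/(2d)) - 1) ∈ WW 1`
  (`WW_chi_sub`, `WW_smul` with `chi_mem`; `chi (..) - 1 = xx w'` is a constant in `WW 2`, `WW_const`).
  `g (· + 1) ∈ WW n` (`WW_shift`), `g (· + 1) - g ∈ WW (n+1)` (`WW_shift_sub`), and `WW_mul`.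
* `TT_odd`: substitute `u ↦ -u` in the sum (`Equiv.sum_comp (Equiv.neg _)`): `chi (d u^2/2 + u (-w)) f u` becomes
  `chi (d u^2/2 + u w) f (-u)`.
-/

set_option autoImplicit false

namespace Pool.Agent.Lib.MP_f2058c_gt

open Finset

noncomputable section

variable (p : ℕ) [Fact p.Prime]

theorem TT_apply (d : ZMod p) (f : ZMod p → ℂ) (w : ZMod p) :
    TT p d f w = (gg p d)⁻¹ * chi p (w ^ 2 / (2 * d)) * ∑ u, chi p (d * u ^ 2 / 2 + u * w) * f u := rfl

theorem TT_chi (hp : 2 < p) (d : ZMod p) (hd : d ≠ 0) (b : ZMod p) :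
    TT p d (fun u => chi p (b * u)) = fun w => chi p (-(b ^ 2 / (2 * d))) * chi p (-(b / d) * w) := by
  funext w
  rw [TT_apply]
  have h1 : ∀ u : ZMod p, chi p (d * u ^ 2 / 2 + u * w) * chi p (b * u) =
      chi p (d * u ^ 2 / 2 + u * (w + b)) := by
    intro u
    rw [← chi_add]
    congr 1
    ring
  simp only [h1]
  rw [gg_complete p hp d hd]
  have h2 := gg_ne_zero p hp d hd
  have h3 : (gg p d)⁻¹ * chi p (w ^ 2 / (2 * d)) * (gg p d * chi p (-((w + b) ^ 2 / (2 * d)))) =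
      chi p (w ^ 2 / (2 * d)) * chi p (-((w + b) ^ 2 / (2 * d))) := by
    field_simp
  rw [h3, ← chi_add, ← chi_add]
  congr 1
  have h4 := two_ne p hp
  field_simp
  ring

private theorem WT1_mul_chi (hp : 2 < p) (d : ZMod p) (hd : d ≠ 0) (f : ZMod p → ℂ) (w : ZMod p) :
    TT p d (fun u => chi p u * f u) w = chi p (-((2 * w + 1) / (2 * d))) * TT p d f (w + 1) := by
  rw [TT_apply, TT_apply]
  have h1 : ∀ u : ZMod p, chi p (d * u ^ 2 / 2 + u * w) * (chi p u * f u) =
      chi p (d * u ^ 2 / 2 + u * (w + 1)) * f u := by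
    intro u
    rw [← mul_assoc, ← chi_add]
    congr 2
    ring
  simp only [h1]
  have h4 := two_ne p hp
  have h2 : chi p (w ^ 2 / (2 * d)) =
      chi p (-((2 * w + 1) / (2 * d))) * chi p ((w + 1) ^ 2 / (2 * d)) := by
    rw [← chi_add]
    congr 1
    field_simp
    ring
  rw [h2]
  ring

private theorem WT1_main (hp : 2 < p) (d : ZMod p) (hd : d ≠ 0) (n : ℕ) (b : ZMod p) :
    TT p d (fun u => (chi p u - 1) ^ n * chi p (b * u)) ∈ WW p n := by
  induction n with
  | zero =>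
    have h0 : (fun u => (chi p u - 1) ^ 0 * chi p (b * u)) = fun u => chi p (b * u) := by
      funext u
      rw [pow_zero, one_mul]
    rw [h0, TT_chi p hp d hd b]
    exact WW_smul p (WW_chi p (-(b / d))) (chi_mem p (-(b ^ 2 / (2 * d))))
  | succ n ih =>
    have h0 : (fun u => (chi p u - 1) ^ (n + 1) * chi p (b * u)) =
        (fun u => chi p u * ((chi p u - 1) ^ n * chi p (b * u))) -
          fun u => (chi p u - 1) ^ n * chi p (b * u) := by
      funext u
      rw [Pi.sub_apply]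
      ring
    rw [h0, map_sub]
    have h1 : TT p d (fun u => chi p u * ((chi p u - 1) ^ n * chi p (b * u))) -
        TT p d (fun u => (chi p u - 1) ^ n * chi p (b * u)) =
        (chi p (-1 / (2 * d)) • (fun w => chi p (-1 / d * w) - 1) +
            fun _ => xx p ^ 1 * (chi_sub_one_eq p (-1 / (2 * d))).choose) *
          (fun w => TT p d (fun u => (chi p u - 1) ^ n * chi p (b * u)) (w + 1)) +
        fun w => TT p d (fun u => (chi p u - 1) ^ n * chi p (b * u)) (w + 1) -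
          TT p d (fun u => (chi p u - 1) ^ n * chi p (b * u)) w := by
      funext w
      simp only [Pi.sub_apply, Pi.add_apply, Pi.mul_apply, Pi.smul_apply, smul_eq_mul]
      rw [WT1_mul_chi p hp d hd, pow_one, ← (chi_sub_one_eq p (-1 / (2 * d))).choose_spec.2]
      have h2 : chi p (-((2 * w + 1) / (2 * d))) = chi p (-1 / (2 * d)) * chi p (-1 / d * w) := by
        rw [← chi_add]
        congr 1
        have h4 := two_ne p hp
        field_simp
        ring
      rw [h2]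
      ring
    rw [h1]
    refine (WW p (n + 1)).add_mem ?_ (WW_shift_sub p ih 1)
    rw [add_comm n 1]
    refine WW_mul p ((WW p 1).add_mem ?_ ?_) (WW_shift p ih 1)
    · exact WW_smul p (WW_chi_sub p (-1 / d)) (chi_mem p _)
    · exact WW_anti p (show 1 ≤ 2 * 1 by norm_num)
        (WW_const p (chi_sub_one_eq p (-1 / (2 * d))).choose_spec.1 1)

theorem TT_WW (hp : 2 < p) (d : ZMod p) (hd : d ≠ 0) {k : ℕ} {f : ZMod p → ℂ} (hf : f ∈ WW p k) :
    TT p d f ∈ WW p k := by
  refine AddSubgroup.closure_induction (p := fun f _ => TT p d f ∈ WW p k) ?_ ?_ ?_ ?_ hf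
  · rintro f ⟨c, hc, m, n, b, hk, rfl⟩
    have h1 : gen p c m n b = c • (xx p ^ m • fun u => (chi p u - 1) ^ n * chi p (b * u)) := by
      funext u
      simp only [gen, Pi.smul_apply, smul_eq_mul]
      ring
    rw [h1, map_smul, map_smul]
    refine WW_smul p (WW_anti p ?_ (WW_xsmul p (WT1_main p hp d hd n b) m)) hc
    omega
  · rw [map_zero]
    exact (WW p k).zero_mem
  · intro f g _ _ h1 h2
    rw [map_add]
    exact (WW p k).add_mem h1 h2
  · intro f _ h1
    rw [map_neg]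
    exact (WW p k).neg_mem h1

theorem TT_odd (d : ZMod p) {f : ZMod p → ℂ} (hf : ∀ u, f (-u) = -f u) (w : ZMod p) :
    TT p d f (-w) = -TT p d f w := by
  rw [TT_apply, TT_apply]
  have h1 : ∑ u, chi p (d * u ^ 2 / 2 + u * -w) * f u =
      -∑ u, chi p (d * u ^ 2 / 2 + u * w) * f u := by
    rw [← Finset.sum_neg_distrib]
    refine Fintype.sum_equiv (Equiv.neg (ZMod p)) _ _ fun u => ?_
    rw [Equiv.neg_apply, hf u, neg_sq]
    have h2 : u * -w = -u * w := by ring
    rw [h2]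
    ring
  rw [h1, neg_sq]
  ring

end

end Pool.Agent.Lib.MP_f2058c_gt
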