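import Mathlib
import Pool.Agent.Lib.MP_f2058c_gt.Interp
import Pool.Agent.Lib.MP_f2058c_gt.Ex2
import Pool.Agent.Lib.MP_f2058c_gt.WT1

/-!
# JOB TA1: `TT d (y^n)` modulo `WW 7`

`FA s n = ∑ m with 2 m ≤ n, n!/(m! (n-2m)!) s^(n-m) h^m y^(n-2m)`.

Proof.  `Phi` with `Φ = TT p d` (`TT_WW`) and `F n = FA s n`.  For `b < 7`: with `σ = -1/d`, `TT_chi` gives
`TT d (fun u => chi (b u)) w = chi (σ b^2/2) chi ((σ b) w)` (`-(b^2/(2d)) = σ b^2/2`, `-(b/d) = σ b`).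
`Cg p (s b^2/2) (σ b^2/2)` and `Cg p (s b) (σ b)` (`Cg_mul`, `Cg_nat`, `Cg_half`).  By `exp_h`
`chi (σ b^2/2) = ∑ m < 4, (s b^2/2)^m/(2^m m!) h^m + xx^4 w` and by `exp_y`
`chi (σ b w) - ∑ k < 7, (s b)^k/(2^k k!) y^k ∈ WW 7`.  Hence modulo `WW 7` (`xx^4 w` is a constant in `WW 8`) the product
is `∑ m < 4, ∑ k < 7, s^(m+k) b^(2m+k) / (4^m 2^k m! k!) h^m y^k`; the terms with `2 m + k ≥ 7` are in `WW 7`
(`hh_const`, `WW_yy`, coefficients in `OO`), and those with `2 m + k = n < 7` add up to `b^n/(2^n n!) FA s n`.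
-/

set_option autoImplicit false

namespace Pool.Agent.Lib.MP_f2058c_gt

open Finset

noncomputable section

variable (p : ℕ) [Fact p.Prime]

/-- `∑ m, n!/(m! (n-2m)!) s^(n-m) h^m y^(n-2m)`. -/
def FA (s : ℂ) (n : ℕ) : ZMod p → ℂ := fun u =>
  ∑ m ∈ range 4, if 2 * m ≤ n then
    ((n.factorial : ℂ) / ((m.factorial : ℂ) * ((n - 2 * m).factorial : ℂ))) * s ^ (n - m) * hh p ^ m *
      yy p u ^ (n - 2 * m) else 0

theorem TA1_fact (h7 : 7 ≤ p) (k : ℕ) (hk : k < 7) : ((k.factorial : ℂ))⁻¹ ∈ OO p := by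
  refine OO_smooth p h7 4 2 1 _ ?_
  have h : ∃ N : ℕ, 2 ^ 4 * 3 ^ 2 * 5 ^ 1 * ((k.factorial : ℂ))⁻¹ = (N : ℂ) := by
    interval_cases k
    · exact ⟨720, by norm_num [Nat.factorial]⟩
    · exact ⟨720, by norm_num [Nat.factorial]⟩
    · exact ⟨360, by norm_num [Nat.factorial]⟩
    · exact ⟨120, by norm_num [Nat.factorial]⟩
    · exact ⟨30, by norm_num [Nat.factorial]⟩
    · exact ⟨6, by norm_num [Nat.factorial]⟩
    · exact ⟨1, by norm_num [Nat.factorial]⟩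
  obtain ⟨N, hN⟩ := h
  rw [hN]
  exact natCast_mem (OO p) N

theorem TA1_coef (h7 : 7 ≤ p) {s : ℂ} (hs : s ∈ OO p) (b m k : ℕ) (hm : m < 4) (hk : k < 7) :
    s ^ (m + k) * (b : ℂ) ^ (2 * m + k) * ((((2 : ℂ)⁻¹) ^ (2 * m + k)) * ((m.factorial : ℂ))⁻¹ *
      ((k.factorial : ℂ))⁻¹) ∈ OO p := by
  refine mul_mem (mul_mem (pow_mem hs _) (pow_mem (natCast_mem (OO p) b) _)) (mul_mem (mul_mem ?_ ?_) ?_)
  · exact pow_mem (inv_two_mem p h7) _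
  · exact TA1_fact p h7 m (by omega)
  · exact TA1_fact p h7 k hk

/-- The term of index `(m, k)`. -/
def TA1_t (s : ℂ) (b m k : ℕ) : ZMod p → ℂ := fun u =>
  s ^ (m + k) * (b : ℂ) ^ (2 * m + k) * ((((2 : ℂ)⁻¹) ^ (2 * m + k)) * ((m.factorial : ℂ))⁻¹ *
      ((k.factorial : ℂ))⁻¹) * (hh p ^ m * yy p u ^ k)

theorem TA1_term (h7 : 7 ≤ p) {s : ℂ} (hs : s ∈ OO p) (b m k : ℕ) (hm : m < 4) (hk : k < 7)
    (h : 7 ≤ 2 * m + k) : TA1_t p s b m k ∈ WW p 7 := by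
  have h1 : (fun _ => hh p ^ m) * (yy p) ^ k ∈ WW p (2 * m + 1 * k) :=
    WW_mul p (hh_const p h7 m) (WW_pow p (WW_yy p h7) k)
  have h2 := WW_smul p h1 (TA1_coef p h7 hs b m k hm hk)
  have h3 := WW_anti p (k := 7) (l := 2 * m + 1 * k) (by omega) h2
  have e : TA1_t p s b m k = (s ^ (m + k) * (b : ℂ) ^ (2 * m + k) * ((((2 : ℂ)⁻¹) ^ (2 * m + k)) *
      ((m.factorial : ℂ))⁻¹ * ((k.factorial : ℂ))⁻¹)) • ((fun _ => hh p ^ m) * (yy p) ^ k) := by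
    funext u
    simp only [TA1_t, Pi.smul_apply, Pi.mul_apply, Pi.pow_apply, smul_eq_mul]
  rw [e]
  exact h3

theorem TA1_sum (h7 : 7 ≤ p) {s : ℂ} (hs : s ∈ OO p) (b : ℕ) :
    (∑ m ∈ range 4, ∑ k ∈ range 7, if 7 ≤ 2 * m + k then TA1_t p s b m k else 0) ∈ WW p 7 := by
  refine sum_mem (fun m hm => sum_mem (fun k hk => ?_))
  split_ifs with h
  · exact TA1_term p h7 hs b m k (mem_range.1 hm) (mem_range.1 hk) h
  · exact zero_mem _

theorem TA1_id (s : ℂ) (b : ℕ) :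
    (∑ m ∈ range 4, (s * ((b : ℂ) * b) / 2) ^ m / (2 ^ m * (m.factorial : ℂ)) * hh p ^ m) • Ef p (s * b) -
      ∑ n ∈ range 7, ((b : ℂ) ^ n / (2 ^ n * (n.factorial : ℂ))) • FA p s n =
    ∑ m ∈ range 4, ∑ k ∈ range 7, if 7 ≤ 2 * m + k then TA1_t p s b m k else 0 := by
  funext u
  simp only [Ef, FA, TA1_t, sum_range_succ, sum_range_zero, Pi.sub_apply, Pi.add_apply, Pi.smul_apply,
    smul_eq_mul, Pi.pow_apply, zero_add, Nat.factorial, Nat.reduceMul, Nat.reduceAdd,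
    Nat.reduceLeDiff, Nat.reduceSub, if_true, if_false, Nat.succ_eq_add_one, Nat.cast_one, Nat.cast_ofNat]
  ring

theorem TT_y (h7 : 7 ≤ p) {s : ℚ} {d : ZMod p} (hd : d ≠ 0) (hs : Cg p s (-1 / d)) (n : ℕ) (hn : n < 7) :
    TT p d (yy p ^ n) - FA p s n ∈ WW p 7 := by
  have hp2 : 2 < p := by omega
  refine Phi p h7 (TT p d) (fun f hf => TT_WW p hp2 d hd hf) (fun n => FA p s n) ?_ n hn
  intro b _
  have h2 : (2 : ZMod p) ≠ 0 := two_ne p hp2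
  have hsO : (s : ℂ) ∈ OO p := Cg_mem p hs
  have hbb : Cg p ((b : ℚ) * b) ((b : ZMod p) * b) := Cg_mul p (Cg_nat p b) (Cg_nat p b)
  obtain ⟨w, hw, hh1⟩ := exp_h p h7 (Cg_half p hp2 (Cg_mul p hs hbb))
  have hy := exp_y p h7 (Cg_mul p hs (Cg_nat p b))
  have e1 : -((b : ZMod p) ^ 2 / (2 * d)) = -1 / d * ((b : ZMod p) * b) / 2 := by
    field_simp
  have e2 : -((b : ZMod p) / d) = -1 / d * (b : ZMod p) := by
    field_simp
  have hTT : TT p d (fun u => chi p ((b : ZMod p) * u)) =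
      chi p (-1 / d * ((b : ZMod p) * b) / 2) • (fun u => chi p (-1 / d * (b : ZMod p) * u)) := by
    rw [TT_chi p hp2 d hd]
    funext u
    rw [e1, e2]
    rfl
  have hEf : Ef p ((s * b : ℚ) : ℂ) ∈ WW p 0 := by
    have h3 := WW_chi p (-1 / d * (b : ZMod p))
    have h4 := WW_anti p (Nat.zero_le 7) hy
    have h5 := sub_mem h3 h4
    simpa using h5
  have hc : chi p (-1 / d * ((b : ZMod p) * b) / 2) ∈ OO p := chi_mem p _
  have h6 := WW_smul p hy hc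
  have h7' : (xx p ^ 4 * w) • Ef p ((s * b : ℚ) : ℂ) ∈ WW p 7 := by
    have h8 := WW_smul p (WW_xsmul p hEf 4) hw
    have h9 := WW_anti p (k := 7) (l := 0 + 2 * 4) (by norm_num) h8
    rw [smul_smul, mul_comm] at h9
    exact h9
  have h10 := TA1_sum p h7 hsO b
  rw [← TA1_id p (s : ℂ) b] at h10
  have h11 := add_mem (add_mem h6 h7') h10
  have e3 : TT p d (fun u => chi p ((b : ZMod p) * u)) -
      ∑ n ∈ range 7, ((b : ℂ) ^ n / (2 ^ n * (n.factorial : ℂ))) • FA p s n =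
      chi p (-1 / d * ((b : ZMod p) * b) / 2) •
        ((fun u => chi p (-1 / d * (b : ZMod p) * u)) - Ef p ((s * b : ℚ) : ℂ)) +
      (xx p ^ 4 * w) • Ef p ((s * b : ℚ) : ℂ) +
      ((∑ m ∈ range 4, ((s : ℂ) * ((b : ℂ) * b) / 2) ^ m / (2 ^ m * (m.factorial : ℂ)) * hh p ^ m) •
          Ef p ((s : ℂ) * b) -
        ∑ n ∈ range 7, ((b : ℂ) ^ n / (2 ^ n * (n.factorial : ℂ))) • FA p s n) := by
    rw [hTT]
    have e4 : ((s * b : ℚ) : ℂ) = (s : ℂ) * b := by push_cast; rfl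
    rw [e4]
    have e5 : (∑ m ∈ range 4, ((s : ℂ) * ((b : ℂ) * b) / 2) ^ m / (2 ^ m * (m.factorial : ℂ)) * hh p ^ m) =
        chi p (-1 / d * ((b : ZMod p) * b) / 2) - xx p ^ 4 * w := by
      rw [hh1]
      push_cast
      ring
    rw [e5, smul_sub, sub_smul]
    abel
  rw [e3]
  exact h11

end

end Pool.Agent.Lib.MP_f2058c_gt
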