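import Mathlib
import Pool.Agent.Lib.MP_f2058c_gt.TA1
import Pool.Agent.Lib.MP_f2058c_gt.E5L

/-!
# JOB TA2: the step of case A

From `TT_y` (evaluate the sums `FA`), modulo `WW 7`, with `T = TT d`, `y = yy`, `h = hh`:
`T(y) = s y`, `T(y^3) = s^3 y^3 + 6 s^2 h y`, `T(y^5) = s^5 y^5 + 20 s^4 h y^3 + 60 s^3 h^2 y`,
`T(y^2) = s^2 y^2 + 2 s h`, `T(y^4) = s^4 y^4 + 12 s^3 h y^2 + 12 s^2 h^2`,
`T(y^6) = s^6 y^6 + 30 s^5 h y^4 + 180 s^4 h^2 y^2 + 120 s^3 h^3`.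

Proofs.  Put `A, B, C, D, E` = entries of `P` (as complex numbers), `C' = C + A^2/2`, `D' = D + A B`, `E' = E + B^2/2`;
`E5 P = 1 + A h + B y^2 + C' h^2 + D' h y^2 + E' y^4`.
* `TA_step`: `TT d G = TT d (G - c y E5 P) + c TT d (y E5 P)`, the first in `WW 7` (`TT_WW`);
  `y E5 P = (1 + A h + C' h^2) y + (B + D' h) y^3 + E' y^5`, so modulo `WW 7`
  `TT d (y E5 P) = (1 + A h + C' h^2) s y + (B + D' h)(s^3 y^3 + 6 s^2 h y) + E' (s^5 y^5 + 20 s^4 h y^3 + 60 s^3 h^2 y)`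
  and this equals `s y E5 (transA s P)` exactly (`ring` after unfolding `transA`, `E5`; casts `ℚ → ℂ` by `push_cast`).
  Check: coefficient of `h^2 y` divided by `s`: `C' + 6 s D' + 60 s^2 E'` equals `C1 + A1^2/2` with `A1 = A + 6 B s`,
  `C1 = C + 6 s D + 60 s^2 E + 12 B^2 s^2`; of `h y^3`: `s^2 D' + 20 s^3 E' = D1 + A1 B1`, `B1 = B s^2`,
  `D1 = D s^2 + 20 E s^3 + 4 B^2 s^3`; of `y^5`: `s^4 E' = E1 + B1^2/2`.
  Odd: `TT_odd`.  `mem`: `TT_WW`.  `ParOK (transA s P)`: ring operations, `s ∈ OO` by `Cg_mem`.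
* `stepA`: `GK_of_KK`, `TA_step`, `divide`.
* `rootA`: by `D2K`, `DD^2 K = c y^2 E5 (P + PD + PD)` modulo `WW 7`; apply `TT d` and evaluate at `0` (`WW_eval` for
  `k = 7`: the value at 0 of an element of `WW 7` is in `xx^4 OO`; `yy 0 = 0`).  With the entries `A .. E` of
  `P + PD + PD`: `y^2 E5 = (1 + A h + C' h^2) y^2 + (B + D' h) y^4 + E' y^6` and
  `T(y^2)(0) = 2 s h`, `T(y^4)(0) = 12 s^2 h^2`, `T(y^6)(0) = 120 s^3 h^3` modulo `xx^4 OO`, so the value is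
  `2 s c h [1 + (A + 6 s B) h + (C' + 6 s D' + 60 s^2 E') h^2]` modulo `xx^4 OO`, and
  `C' + 6 s D' + 60 s^2 E' = c2 + c1^2/2` with `c1 = A + 6 B s`, `c2 = C + 6 s D + 60 s^2 E + 12 B^2 s^2`.
-/

set_option autoImplicit false

namespace Pool.Agent.Lib.MP_f2058c_gt

open Finset

noncomputable section

variable (p : ℕ) [Fact p.Prime]

private theorem TA2_FA1 (s : ℂ) (u : ZMod p) : FA p s 1 u = s * yy p u := by
  simp [FA, Finset.sum_range_succ]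

private theorem TA2_FA3 (s : ℂ) (u : ZMod p) :
    FA p s 3 u = s ^ 3 * yy p u ^ 3 + 6 * s ^ 2 * hh p * yy p u := by
  simp [FA, Finset.sum_range_succ, Nat.factorial]

private theorem TA2_FA5 (s : ℂ) (u : ZMod p) :
    FA p s 5 u = s ^ 5 * yy p u ^ 5 + 20 * s ^ 4 * hh p * yy p u ^ 3 + 60 * s ^ 3 * hh p ^ 2 * yy p u := by
  simp [FA, Finset.sum_range_succ, Nat.factorial]
  ring

private theorem TA2_FA2 (s : ℂ) : FA p s 2 0 = 2 * s * hh p := by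
  simp [FA, Finset.sum_range_succ, Nat.factorial, yy_zero]

private theorem TA2_FA4 (s : ℂ) : FA p s 4 0 = 12 * s ^ 2 * hh p ^ 2 := by
  simp [FA, Finset.sum_range_succ, Nat.factorial, yy_zero]
  left
  left
  norm_num

private theorem TA2_FA6 (s : ℂ) : FA p s 6 0 = 120 * s ^ 3 * hh p ^ 3 := by
  simp [FA, Finset.sum_range_succ, Nat.factorial, yy_zero]
  left
  left
  norm_num

/-- the coefficients of `E5` -/
private theorem TA2_coef (h7 : 7 ≤ p) {P : Par} (hP : ParOK p P) :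
    (1 + (P.A : ℂ) * hh p + ((P.C : ℂ) + (P.A : ℂ) ^ 2 / 2) * hh p ^ 2) ∈ OO p ∧
      ((P.B : ℂ) + ((P.D : ℂ) + (P.A : ℂ) * (P.B : ℂ)) * hh p) ∈ OO p ∧
      ((P.E : ℂ) + (P.B : ℂ) ^ 2 / 2) ∈ OO p := by
  obtain ⟨hA, hB, hC, hD, hE⟩ := hP
  have hh' := hh_mem p h7
  have h2 := inv_two_mem p h7
  have hsq : ∀ x : ℂ, x ∈ OO p → x ^ 2 / 2 ∈ OO p := fun x hx => by
    rw [div_eq_mul_inv]
    exact (OO p).mul_mem ((OO p).pow_mem hx 2) h2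
  refine ⟨?_, ?_, ?_⟩
  · exact (OO p).add_mem ((OO p).add_mem (OO p).one_mem ((OO p).mul_mem hA hh'))
      ((OO p).mul_mem ((OO p).add_mem hC (hsq _ hA)) ((OO p).pow_mem hh' 2))
  · exact (OO p).add_mem hB ((OO p).mul_mem ((OO p).add_mem hD ((OO p).mul_mem hA hB)) hh')
  · exact (OO p).add_mem hE (hsq _ hB)

private theorem TA2_nat (n : ℕ) : (n : ℂ) ∈ OO p := natCast_mem (OO p) n

private theorem TA2_trans {s : ℚ} (hs : (s : ℂ) ∈ OO p) {P : Par} (hP : ParOK p P) :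
    (((P.A + 6 * P.B * s : ℚ)) : ℂ) ∈ OO p ∧
      (((P.C + 6 * s * P.D + 60 * s ^ 2 * P.E + 12 * P.B ^ 2 * s ^ 2 : ℚ)) : ℂ) ∈ OO p := by
  obtain ⟨hA, hB, hC, hD, hE⟩ := hP
  have n6 : (6 : ℂ) ∈ OO p := by exact_mod_cast TA2_nat p 6
  have n12 : (12 : ℂ) ∈ OO p := by exact_mod_cast TA2_nat p 12
  have n60 : (60 : ℂ) ∈ OO p := by exact_mod_cast TA2_nat p 60
  have s2 := (OO p).pow_mem hs 2
  have b2 := (OO p).pow_mem hB 2
  push_cast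
  refine ⟨?_, ?_⟩
  · exact (OO p).add_mem hA ((OO p).mul_mem ((OO p).mul_mem n6 hB) hs)
  · exact (OO p).add_mem ((OO p).add_mem ((OO p).add_mem hC ((OO p).mul_mem ((OO p).mul_mem n6 hs) hD))
      ((OO p).mul_mem ((OO p).mul_mem n60 s2) hE)) ((OO p).mul_mem ((OO p).mul_mem n12 b2) s2)

private theorem TA2_ParOK {s : ℚ} (hs : (s : ℂ) ∈ OO p) {P : Par} (hP : ParOK p P) : ParOK p (transA s P) := by
  have h1 := TA2_trans p hs hP
  obtain ⟨hA, hB, hC, hD, hE⟩ := hP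
  have n4 : (4 : ℂ) ∈ OO p := by exact_mod_cast TA2_nat p 4
  have n20 : (20 : ℂ) ∈ OO p := by exact_mod_cast TA2_nat p 20
  have s2 := (OO p).pow_mem hs 2
  have s3 := (OO p).pow_mem hs 3
  have s4 := (OO p).pow_mem hs 4
  have b2 := (OO p).pow_mem hB 2
  refine ⟨h1.1, ?_, h1.2, ?_, ?_⟩
  · have e : (((transA s P).B : ℚ) : ℂ) = (P.B : ℂ) * (s : ℂ) ^ 2 := by
      simp only [transA]
      push_cast
      ring
    rw [e]
    exact (OO p).mul_mem hB s2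
  · have e : (((transA s P).D : ℚ) : ℂ) = (P.D : ℂ) * (s : ℂ) ^ 2 + 20 * (P.E : ℂ) * (s : ℂ) ^ 3 +
        4 * (P.B : ℂ) ^ 2 * (s : ℂ) ^ 3 := by
      simp only [transA]
      push_cast
      ring
    rw [e]
    exact (OO p).add_mem ((OO p).add_mem ((OO p).mul_mem hD s2)
      ((OO p).mul_mem ((OO p).mul_mem n20 hE) s3)) ((OO p).mul_mem ((OO p).mul_mem n4 b2) s3)
  · have e : (((transA s P).E : ℚ) : ℂ) = (P.E : ℂ) * (s : ℂ) ^ 4 := by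
      simp only [transA]
      push_cast
      ring
    rw [e]
    exact (OO p).mul_mem hE s4

theorem TA_step (h7 : 7 ≤ p) {s : ℚ} {d : ZMod p} (hd : d ≠ 0) (hs : Cg p s (-1 / d)) {G : ZMod p → ℂ} {c : ℚ}
    {P : Par} (hG : GK p G c P) : GK p (TT p d G) (c * s) (transA s P) := by
  have hp : 2 < p := by omega
  have hsO : (s : ℂ) ∈ OO p := Cg_mem p hs
  obtain ⟨c1, c3, c5⟩ := TA2_coef p h7 hG.hP
  refine ⟨TT_WW p hp d hd hG.mem, fun u => TT_odd p d hG.odd u, ?_, ?_, TA2_ParOK p hsO hG.hP⟩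
  · have e1 : yy p * E5 p P =
        (1 + (P.A : ℂ) * hh p + ((P.C : ℂ) + (P.A : ℂ) ^ 2 / 2) * hh p ^ 2) • yy p ^ 1 +
        ((P.B : ℂ) + ((P.D : ℂ) + (P.A : ℂ) * (P.B : ℂ)) * hh p) • yy p ^ 3 +
        ((P.E : ℂ) + (P.B : ℂ) ^ 2 / 2) • yy p ^ 5 := by
      funext u
      simp only [Pi.mul_apply, Pi.add_apply, Pi.smul_apply, Pi.pow_apply, smul_eq_mul, E5]
      ring
    have t1 := WW_smul p (TT_y p h7 hd hs 1 (by norm_num)) c1
    have t3 := WW_smul p (TT_y p h7 hd hs 3 (by norm_num)) c3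
    have t5 := WW_smul p (TT_y p h7 hd hs 5 (by norm_num)) c5
    have t := WW_smul p ((WW p 7).add_mem ((WW p 7).add_mem t1 t3) t5) hG.hc
    have t0 := (WW p 7).add_mem (TT_WW p hp d hd hG.congr) t
    rw [map_sub, map_smul, e1, map_add, map_add, map_smul, map_smul, map_smul] at t0
    refine (congrArg (fun f => f ∈ WW p 7) ?_).mp t0
    funext u
    simp only [Pi.add_apply, Pi.sub_apply, Pi.smul_apply, Pi.mul_apply, smul_eq_mul, TA2_FA1, TA2_FA3, TA2_FA5,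
      E5, transA]
    push_cast
    ring
  · push_cast
    exact (OO p).mul_mem hG.hc hsO

theorem stepA (h7 : 7 ≤ p) {s : ℚ} {d : ZMod p} (hd : d ≠ 0) (hs : Cg p s (-1 / d)) {K : ZMod p → ℂ} {c : ℚ}
    {P : Par} (hK : KK p K c P) :
    ∃ K' : ZMod p → ℂ, KK p K' (c * s) (transA s (P + PD)).hat ∧ ∀ u, TT p d (DD p * K) u = DD p u * K' u :=
  divide p h7 (TA_step p h7 hd hs (GK_of_KK p h7 hK))

theorem rootA (h7 : 7 ≤ p) {s : ℚ} {d : ZMod p} (hd : d ≠ 0) (hs : Cg p s (-1 / d)) {K : ZMod p → ℂ} {a : Dat}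
    (hK : KK p K a.c a.P) :
    ((rtA s a).1 : ℂ) ∈ OO p ∧ ((rtA s a).2.1 : ℂ) ∈ OO p ∧ ((rtA s a).2.2 : ℂ) ∈ OO p ∧
    ∃ w ∈ OO p, TT p d (DD p ^ 2 * K) 0 = ((rtA s a).1 : ℂ) * hh p *
      (1 + ((rtA s a).2.1 : ℂ) * hh p + (((rtA s a).2.2 : ℂ) + ((rtA s a).2.1 : ℂ) ^ 2 / 2) * hh p ^ 2) +
      xx p ^ 4 * w := by
  have hp : 2 < p := by omega
  have hsO : (s : ℂ) ∈ OO p := Cg_mem p hs
  have hQ : ParOK p (a.P + PD + PD) := ParOK_add p (ParOK_add p hK.hP (ParOK_PD p h7)) (ParOK_PD p h7)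
  have htr := TA2_trans p hsO hQ
  have n2 : (2 : ℂ) ∈ OO p := by exact_mod_cast TA2_nat p 2
  have hD2 := D2K p h7 hK
  simp only [rtA]
  set Q : Par := a.P + PD + PD with hQdef
  obtain ⟨c1, c3, c5⟩ := TA2_coef p h7 hQ
  refine ⟨?_, htr.1, htr.2, ?_⟩
  · push_cast
    exact (OO p).mul_mem ((OO p).mul_mem n2 hsO) hK.hc
  · have e1 : yy p ^ 2 * E5 p Q =
        (1 + (Q.A : ℂ) * hh p + ((Q.C : ℂ) + (Q.A : ℂ) ^ 2 / 2) * hh p ^ 2) • yy p ^ 2 +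
        ((Q.B : ℂ) + ((Q.D : ℂ) + (Q.A : ℂ) * (Q.B : ℂ)) * hh p) • yy p ^ 4 +
        ((Q.E : ℂ) + (Q.B : ℂ) ^ 2 / 2) • yy p ^ 6 := by
      funext u
      simp only [Pi.mul_apply, Pi.add_apply, Pi.smul_apply, Pi.pow_apply, smul_eq_mul, E5]
      ring
    have t1 := WW_smul p (TT_y p h7 hd hs 2 (by norm_num)) c1
    have t3 := WW_smul p (TT_y p h7 hd hs 4 (by norm_num)) c3
    have t5 := WW_smul p (TT_y p h7 hd hs 6 (by norm_num)) c5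
    have t := WW_smul p ((WW p 7).add_mem ((WW p 7).add_mem t1 t3) t5) hK.hc
    have t0 := (WW p 7).add_mem (TT_WW p hp d hd hD2) t
    rw [map_sub, map_smul, e1, map_add, map_add, map_smul, map_smul, map_smul] at t0
    obtain ⟨w, hw, hwe⟩ := WW_eval p t0
    refine ⟨w, hw, ?_⟩
    simp only [Pi.add_apply, Pi.sub_apply, Pi.smul_apply, smul_eq_mul, TA2_FA2, TA2_FA4, TA2_FA6] at hwe
    push_cast
    linear_combination hwe

end

end Pool.Agent.Lib.MP_f2058c_gt
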