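import Mathlib
import Pool.Agent.Lib.MP_f2058c_gt.W2
import Pool.Agent.Lib.MP_f2058c_gt.Gs

/-!
# JOB WT2: the degenerate transform `T2 p β K`

`T2 β K G a = (1/p) ∑ u, ∑ w, chi (w u + β u^2/2 + u a) K u G w` (linear in `G`).

Proofs.
* `T2_chi`: `G w = chi (b w)`: exchange nothing, the inner sum over `w` is
  `chi (β u^2/2 + u a) K u ∑ w, chi ((u + b) w)`, which by `sum_chi_mul` is `p` times the term at `u = -b`:
  `chi (β b^2/2 - b a) K (-b)`.
* `T2_add_right`, `T2_smul_right`: `simp [T2_apply, mul_add, add_mul, sum_add_distrib]` etc.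
* `T2_mul_chi`: `T2 β K (fun w => chi w * G w) a = chi (β/2 - a) * T2 β K' G a` with
  `K' u = chi (-β u) K (u - 1)`: `chi (w u + β u^2/2 + u a) chi w = chi (w (u+1) + β u^2/2 + u a)`; substitute
  `u ↦ u - 1` (`Equiv.subRight 1`): `w u + β (u-1)^2/2 + (u - 1) a = (w u + β u^2/2 + u a) - β u + (β/2 - a)`.
* `T2_WW`: closure induction in `G`; for `G = c xx^m (chi w - 1)^n chi (b w)` it suffices by linearity (`WW_smul`,
  `WW_xsmul`, `WW_anti`) to show: for all `n`, `b`, `j` and all `K ∈ WW j`: `T2 β K (f_n) ∈ WW (n + j)` with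
  `f_n w = (chi w - 1)^n chi (b w)`.  Induction on `n` (for all `K`).
  `n = 0`: `T2_chi`: `a ↦ chi (β b^2/2) K(-b) chi (-b a)` with `K (-b) = xx^((j+1)/2) w'`, `w' ∈ OO p` (`WW_eval'`),
  which is in `WW (2 ((j+1)/2)) ⊆ WW j`.
  Step: `f_(n+1) = chi · f_n - f_n`, so `T2 β K f_(n+1) a = chi (β/2 - a) T2 β K' f_n a - T2 β K f_n a
  = (chi (β/2 - a) - 1) T2 β K' f_n a + T2 β (K' - K) f_n a`.
  `K' ∈ WW j` and `K' - K = (chi (-β u) - 1) K (u-1) + (K (u - 1) - K u) ∈ WW (j+1)` (`WW_chi_sub`, `WW_shift`,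
  `WW_shift_sub` with `a = -1`).  `chi (β/2 - a) - 1 = chi (β/2) (chi ((-1) a) - 1) + (chi (β/2) - 1) ∈ WW 1`.
* `T2_odd`: substitute `u ↦ -u` and `w ↦ -w` in the double sum.
-/

set_option autoImplicit false

namespace Pool.Agent.Lib.MP_f2058c_gt

open Finset

noncomputable section

variable (p : ℕ) [Fact p.Prime]

theorem T2_apply (β : ZMod p) (K G : ZMod p → ℂ) (a : ZMod p) :
    T2 p β K G a = (p : ℂ)⁻¹ * ∑ u, ∑ w, chi p (w * u + β * u ^ 2 / 2 + u * a) * K u * G w := rfl

theorem T2_chi (hp : 2 < p) (β : ZMod p) (K : ZMod p → ℂ) (b : ZMod p) :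
    T2 p β K (fun w => chi p (b * w)) = fun a => chi p (β * b ^ 2 / 2) * chi p (-b * a) * K (-b) := by
  funext a
  rw [T2_apply]
  have hp0 : (p : ℂ) ≠ 0 := by exact_mod_cast (Fact.out : p.Prime).ne_zero
  have h1 : ∀ u : ZMod p, ∑ w, chi p (w * u + β * u ^ 2 / 2 + u * a) * K u * chi p (b * w) =
      if u = -b then (p : ℂ) * (chi p (β * u ^ 2 / 2 + u * a) * K u) else 0 := by
    intro u
    have h2 : ∀ w : ZMod p, chi p (w * u + β * u ^ 2 / 2 + u * a) * K u * chi p (b * w) =
        (chi p (β * u ^ 2 / 2 + u * a) * K u) * chi p ((u + b) * w) := by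
      intro w
      rw [show w * u + β * u ^ 2 / 2 + u * a = (β * u ^ 2 / 2 + u * a) + w * u by ring,
        chi_add p (β * u ^ 2 / 2 + u * a) (w * u),
        show (u + b) * w = w * u + b * w by ring, chi_add p (w * u) (b * w)]
      ring
    simp only [h2]
    rw [← Finset.mul_sum, sum_chi_mul p hp]
    split_ifs with h3 h4 h4
    · ring
    · exact absurd (eq_neg_of_add_eq_zero_left h3) h4
    · exact absurd (by rw [h4]; ring) h3
    · rw [mul_zero]
  simp only [h1]
  rw [Finset.sum_ite_eq' univ (-b) (fun u => (p : ℂ) * (chi p (β * u ^ 2 / 2 + u * a) * K u)),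
    if_pos (Finset.mem_univ _), inv_mul_cancel_left₀ hp0, chi_add, neg_sq]

theorem T2_add_right (β : ZMod p) (K K' G : ZMod p → ℂ) : T2 p β (K + K') G = T2 p β K G + T2 p β K' G := by
  funext a
  simp only [Pi.add_apply, T2_apply]
  rw [← mul_add, ← Finset.sum_add_distrib]
  congr 1
  refine Finset.sum_congr rfl fun u _ => ?_
  rw [← Finset.sum_add_distrib]
  refine Finset.sum_congr rfl fun w _ => ?_
  ring

theorem T2_smul_right (β : ZMod p) (c : ℂ) (K G : ZMod p → ℂ) : T2 p β (c • K) G = c • T2 p β K G := by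
  funext a
  simp only [Pi.smul_apply, smul_eq_mul, T2_apply]
  rw [mul_left_comm c]
  refine congrArg _ ?_
  rw [Finset.mul_sum]
  refine Finset.sum_congr rfl fun u _ => ?_
  rw [Finset.mul_sum]
  refine Finset.sum_congr rfl fun w _ => ?_
  ring

private theorem T2_sub_right (β : ZMod p) (K K' G : ZMod p → ℂ) :
    T2 p β (K - K') G = T2 p β K G - T2 p β K' G := by
  rw [eq_sub_iff_add_eq, ← T2_add_right, sub_add_cancel]

private theorem T2_mul_chi (hp : 2 < p) (β : ZMod p) (K G : ZMod p → ℂ) (a : ZMod p) :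
    T2 p β K (fun w => chi p w * G w) a =
      chi p (β / 2 - a) * T2 p β (fun u => chi p (-β * u) * K (u - 1)) G a := by
  rw [T2_apply, T2_apply, mul_left_comm]
  refine congrArg _ ?_
  rw [Finset.mul_sum]
  refine (Equiv.sum_comp (Equiv.subRight (1 : ZMod p)) _).symm.trans ?_
  refine Finset.sum_congr rfl fun u _ => ?_
  rw [Finset.mul_sum]
  refine Finset.sum_congr rfl fun w _ => ?_
  simp only [Equiv.subRight_apply]
  have h2 := two_ne p hp
  have h3 : w * (u - 1) + β * (u - 1) ^ 2 / 2 + (u - 1) * a + w =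
      (β / 2 - a) + ((w * u + β * u ^ 2 / 2 + u * a) + (-β * u)) := by
    field_simp
    ring
  have h4 : chi p (w * (u - 1) + β * (u - 1) ^ 2 / 2 + (u - 1) * a) * chi p w =
      chi p (β / 2 - a) * (chi p (w * u + β * u ^ 2 / 2 + u * a) * chi p (-β * u)) := by
    rw [← chi_add, h3, chi_add, chi_add]
  calc chi p (w * (u - 1) + β * (u - 1) ^ 2 / 2 + (u - 1) * a) * K (u - 1) * (chi p w * G w)
      = (chi p (w * (u - 1) + β * (u - 1) ^ 2 / 2 + (u - 1) * a) * chi p w) * (K (u - 1) * G w) := by ring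
    _ = _ := by rw [h4]; ring

private theorem T2_WW_core (hp : 2 < p) (β b : ZMod p) (n : ℕ) : ∀ (j : ℕ) (K : ZMod p → ℂ), K ∈ WW p j →
    T2 p β K (fun w => (chi p w - 1) ^ n * chi p (b * w)) ∈ WW p (n + j) := by
  induction n with
  | zero =>
    intro j K hK
    obtain ⟨w, hw, hKw⟩ := WW_eval' p hK (-b)
    have h1 : (fun w => (chi p w - 1) ^ 0 * chi p (b * w)) = fun w => chi p (b * w) := by
      funext w
      rw [pow_zero, one_mul]
    rw [h1, T2_chi p hp, hKw]
    have h2 : (fun a => chi p (β * b ^ 2 / 2) * chi p (-b * a) * (xx p ^ ((j + 1) / 2) * w)) =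
        gen p (chi p (β * b ^ 2 / 2) * w) ((j + 1) / 2) 0 (-b) := by
      funext a
      unfold gen
      rw [pow_zero]
      ring
    rw [h2]
    exact WW_gen p ((OO p).mul_mem (chi_mem p _) hw) (by omega)
  | succ n ih =>
    intro j K hK
    set f : ZMod p → ℂ := fun w => (chi p w - 1) ^ n * chi p (b * w) with hf
    have h1 : (fun w => (chi p w - 1) ^ (n + 1) * chi p (b * w)) = (fun w => chi p w * f w) - f := by
      funext w
      simp only [hf, Pi.sub_apply]
      ring
    set K' : ZMod p → ℂ := fun u => chi p (-β * u) * K (u - 1) with hK'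
    have hKs : (fun u => K (u - 1)) ∈ WW p j := by
      have h := WW_shift p hK (-1)
      simp only [← sub_eq_add_neg] at h
      exact h
    have hKd : (fun u => K (u - 1) - K u) ∈ WW p (j + 1) := by
      have h := WW_shift_sub p hK (-1)
      simp only [← sub_eq_add_neg] at h
      exact h
    have hK1 : K' ∈ WW p j := by
      have h := WW_mul p (WW_chi p (-β)) hKs
      rw [zero_add] at h
      exact h
    have hK2 : K' - K ∈ WW p (j + 1) := by
      have h2 : K' - K = (fun u => chi p (-β * u) - 1) * (fun u => K (u - 1)) + (fun u => K (u - 1) - K u) := by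
        funext u
        simp only [hK', Pi.sub_apply, Pi.add_apply, Pi.mul_apply]
        ring
      rw [h2]
      refine AddSubgroup.add_mem _ ?_ hKd
      rw [add_comm j 1]
      exact WW_mul p (WW_chi_sub p (-β)) hKs
    have hc : (fun a => chi p (β / 2 - a) - 1) ∈ WW p 1 := by
      obtain ⟨w, hw, hw2⟩ := chi_sub_one_eq p (β / 2)
      have h2 : (fun a => chi p (β / 2 - a) - 1) =
          chi p (β / 2) • (fun a => chi p (-1 * a) - 1) + (fun _ => xx p ^ 1 * w) := by
        funext a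
        simp only [Pi.add_apply, Pi.smul_apply, smul_eq_mul]
        rw [pow_one, ← hw2, show β / 2 - a = β / 2 + (-1 * a) by ring, chi_add]
        ring
      rw [h2]
      exact AddSubgroup.add_mem _ (WW_smul p (WW_chi_sub p (-1)) (chi_mem p _))
        (WW_anti p (by norm_num : 1 ≤ 2 * 1) (WW_const p hw 1))
    have h3 : T2 p β K (fun w => (chi p w - 1) ^ (n + 1) * chi p (b * w)) =
        (fun a => chi p (β / 2 - a) - 1) * T2 p β K' f + T2 p β (K' - K) f := by
      rw [h1, map_sub, T2_sub_right]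
      funext a
      simp only [Pi.sub_apply, Pi.add_apply, Pi.mul_apply]
      rw [T2_mul_chi p hp]
      ring
    rw [h3]
    refine AddSubgroup.add_mem _ ?_ ?_
    · have h4 := WW_mul p hc (ih j K' hK1)
      rwa [show 1 + (n + j) = n + 1 + j by ring] at h4
    · have h4 := ih (j + 1) (K' - K) hK2
      rwa [show n + (j + 1) = n + 1 + j by ring] at h4

theorem T2_WW (hp : 2 < p) (β : ZMod p) {i j : ℕ} {G K : ZMod p → ℂ} (hG : G ∈ WW p i) (hK : K ∈ WW p j) :
    T2 p β K G ∈ WW p (i + j) := by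
  unfold WW at hG
  refine AddSubgroup.closure_induction (p := fun G _ => T2 p β K G ∈ WW p (i + j)) ?_ ?_ ?_ ?_ hG
  · rintro _ ⟨c, hc, m, n, b, h, rfl⟩
    have h1 : gen p c m n b = c • (xx p ^ m • (fun w => (chi p w - 1) ^ n * chi p (b * w))) := by
      funext w
      simp only [gen, Pi.smul_apply, smul_eq_mul]
      ring
    rw [h1, map_smul, map_smul]
    exact WW_smul p (WW_anti p (by omega : i + j ≤ n + j + 2 * m)
      (WW_xsmul p (T2_WW_core p hp β b n j K hK) m)) hc
  · rw [map_zero]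
    exact AddSubgroup.zero_mem _
  · intro x y _ _ hx hy
    rw [map_add]
    exact AddSubgroup.add_mem _ hx hy
  · intro x _ hx
    rw [map_neg]
    exact AddSubgroup.neg_mem _ hx

theorem T2_odd (β : ZMod p) {K G : ZMod p → ℂ} (hK : ∀ u, K (-u) = K u) (hG : ∀ u, G (-u) = -G u) (a : ZMod p) :
    T2 p β K G (-a) = -T2 p β K G a := by
  rw [T2_apply, T2_apply, ← mul_neg, ← Finset.sum_neg_distrib]
  congr 1
  refine (Equiv.sum_comp (Equiv.neg (ZMod p)) _).symm.trans ?_
  refine Finset.sum_congr rfl fun u _ => ?_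
  rw [← Finset.sum_neg_distrib]
  refine (Equiv.sum_comp (Equiv.neg (ZMod p)) _).symm.trans ?_
  refine Finset.sum_congr rfl fun w _ => ?_
  simp only [Equiv.neg_apply]
  rw [hK, hG, show -w * -u + β * (-u) ^ 2 / 2 + -u * -a = w * u + β * u ^ 2 / 2 + u * a by ring]
  ring

end

end Pool.Agent.Lib.MP_f2058c_gt
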