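import Mathlib
import Pool.Agent.Lib.MP_f2058c_gt.Interp
import Pool.Agent.Lib.MP_f2058c_gt.Ex2
import Pool.Agent.Lib.MP_f2058c_gt.WT2

/-!
# JOB TB1: `T2 β K0 (y^n)` modulo `WW 7`

`HB β n = ∑ l with 2 l ≤ n, n!/(l! (n-2l)!) β^l h^l (-y)^(n-2l)`.

Let `K0 ∈ WW 0` be a function whose values at `-b` (`b = 0, ..., 6`) are
`K0 (-b) = ∑ j < 4, κ j b^j` modulo `xx^4 OO`, where `κ j ∈ xx^j OO`.  Claim:
`T2 β K0 (y^n) = ∑ j < 4, j ≤ n, κ j 2^j (n!/(n-j)!) HB β (n-j)` modulo `WW 7` for `n < 7`.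

Proof.  `Phi` with `Φ = T2 p β' K0` (`T2_WW` with `i = 7`, `j = 0`).  For `b < 7`, by `T2_chi`,
`T2 β' K0 (fun w => chi (b w)) a = chi (β' b^2/2) chi (-b a) K0 (-b)`.
`exp_h`: `chi (β' b^2/2) = ∑ l < 4, (β b^2/2)^l/(2^l l!) h^l` modulo `xx^4 OO`; `exp_y` (`Cg p (-b) (-b)`):
`chi (-b a) = ∑ k < 7, (-b)^k/(2^k k!) y^k` modulo `WW 7`.  The product is, modulo `WW 7` (constants in `xx^4 OO` are in
`WW 8`): `∑ j < 4, ∑ l < 4, ∑ k < 7, κ j b^(j+2l+k) β^l (-1)^k / (4^l 2^k l! k!) h^l y^k`.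
The terms with `j + 2 l + k ≥ 7` are in `WW (2 j + 2 l + k) ⊆ WW 7`; those with `j + 2 l + k = n < 7` add up to
`b^n/(2^n n!)` times `κ j 2^j (n!/(n-j)!) * ((n-j)!/(l! k!)) β^l h^l (-y)^k` (note `2^n / (4^l 2^k) = 2^j`).
-/

set_option autoImplicit false

namespace Pool.Agent.Lib.MP_f2058c_gt

open Finset

noncomputable section

variable (p : ℕ) [Fact p.Prime]

/-- `∑ l, n!/(l! (n-2l)!) β^l h^l (-y)^(n-2l)`. -/
def HB (β : ℂ) (n : ℕ) : ZMod p → ℂ := fun u =>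
  ∑ l ∈ range 4, if 2 * l ≤ n then
    ((n.factorial : ℂ) / ((l.factorial : ℂ) * ((n - 2 * l).factorial : ℂ))) * β ^ l * hh p ^ l *
      (-yy p u) ^ (n - 2 * l) else 0

omit [Fact p.Prime] p in
theorem TB1_aux1 (m : ℕ) (hm : m ≤ 9) (f : ℕ → ℂ) :
    ∑ k ∈ range 7, f k = (∑ n ∈ range 7, if m ≤ n then f (n - m) else 0) +
      ∑ k ∈ range 7, if 7 ≤ m + k then f k else 0 := by
  interval_cases m <;> simp [Finset.sum_range_succ] <;> ring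

omit [Fact p.Prime] p in
theorem TB1_aux2 (n j l : ℕ) (h : j + 2 * l ≤ n) (b β H y κ : ℂ) :
    b ^ n / (2 ^ n * (n.factorial : ℂ)) * (κ * 2 ^ j * ((n.factorial : ℂ) / ((n - j).factorial : ℂ)) *
      ((((n - j).factorial : ℂ) / ((l.factorial : ℂ) * ((n - j - 2 * l).factorial : ℂ))) * β ^ l * H ^ l *
        (-y) ^ (n - j - 2 * l))) =
    κ * b ^ j * ((β * b ^ 2 / 2) ^ l / (2 ^ l * (l.factorial : ℂ)) * H ^ l) *
      ((-b) ^ (n - (j + 2 * l)) / (2 ^ (n - (j + 2 * l)) * ((n - (j + 2 * l)).factorial : ℂ)) *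
        y ^ (n - (j + 2 * l))) := by
  obtain ⟨k, rfl⟩ := Nat.exists_eq_add_of_le h
  have e1 : j + 2 * l + k - j - 2 * l = k := by omega
  have e2 : j + 2 * l + k - (j + 2 * l) = k := by omega
  rw [e1, e2]
  have h1 : ((j + 2 * l + k).factorial : ℂ) ≠ 0 := by exact_mod_cast Nat.factorial_ne_zero _
  have h2 : ((j + 2 * l + k - j).factorial : ℂ) ≠ 0 := by exact_mod_cast Nat.factorial_ne_zero _
  have h3 : (l.factorial : ℂ) ≠ 0 := by exact_mod_cast Nat.factorial_ne_zero _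
  have h4 : (k.factorial : ℂ) ≠ 0 := by exact_mod_cast Nat.factorial_ne_zero _
  have h5 : ((2 : ℂ) ^ l) ≠ 0 := pow_ne_zero _ two_ne_zero
  have h6 : ((2 : ℂ) ^ k) ≠ 0 := pow_ne_zero _ two_ne_zero
  have h7 : ((2 : ℂ) ^ j) ≠ 0 := pow_ne_zero _ two_ne_zero
  rw [neg_pow y, neg_pow b, div_pow, mul_pow, pow_add b, pow_add b, pow_add 2, pow_add 2, pow_mul b,
    pow_mul 2]
  rw [show ((2 : ℂ) ^ 2) ^ l = 2 ^ l * 2 ^ l by rw [← mul_pow]; norm_num]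
  field_simp

/-- The terms of the triple sum. -/
def TB1_term (κ : ℕ → ℂ) (b β H y : ℂ) (j l k : ℕ) : ℂ :=
  κ j * b ^ j * ((β * b ^ 2 / 2) ^ l / (2 ^ l * (l.factorial : ℂ)) * H ^ l) *
    ((-b) ^ k / (2 ^ k * (k.factorial : ℂ)) * y ^ k)

theorem TB1_aux3 (κ : ℕ → ℂ) (b : ℂ) (β : ℂ) (u : ZMod p) :
    (∑ l ∈ range 4, (β * b ^ 2 / 2) ^ l / (2 ^ l * (l.factorial : ℂ)) * hh p ^ l) *
      (∑ j ∈ range 4, κ j * b ^ j) * (∑ k ∈ range 7, (-b) ^ k / (2 ^ k * (k.factorial : ℂ)) * yy p u ^ k) =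
    (∑ n ∈ range 7, b ^ n / (2 ^ n * (n.factorial : ℂ)) *
      ∑ j ∈ range 4, if j ≤ n then
        κ j * 2 ^ j * ((n.factorial : ℂ) / ((n - j).factorial : ℂ)) * HB p β (n - j) u else 0) +
      ∑ j ∈ range 4, ∑ l ∈ range 4, ∑ k ∈ range 7,
        if 7 ≤ j + 2 * l + k then TB1_term κ b β (hh p) (yy p u) j l k else 0 := by
  have hL : (∑ l ∈ range 4, (β * b ^ 2 / 2) ^ l / (2 ^ l * (l.factorial : ℂ)) * hh p ^ l) *
      (∑ j ∈ range 4, κ j * b ^ j) * (∑ k ∈ range 7, (-b) ^ k / (2 ^ k * (k.factorial : ℂ)) * yy p u ^ k) =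
      ∑ j ∈ range 4, ∑ l ∈ range 4, ∑ k ∈ range 7, TB1_term κ b β (hh p) (yy p u) j l k := by
    rw [mul_comm (∑ l ∈ range 4, _) (∑ j ∈ range 4, κ j * b ^ j), Finset.sum_mul_sum, Finset.sum_mul]
    refine Finset.sum_congr rfl fun j _ => ?_
    rw [Finset.sum_mul]
    refine Finset.sum_congr rfl fun l _ => ?_
    rw [Finset.mul_sum]
    rfl
  have hR : (∑ n ∈ range 7, b ^ n / (2 ^ n * (n.factorial : ℂ)) *
      ∑ j ∈ range 4, if j ≤ n then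
        κ j * 2 ^ j * ((n.factorial : ℂ) / ((n - j).factorial : ℂ)) * HB p β (n - j) u else 0) =
      ∑ j ∈ range 4, ∑ l ∈ range 4, ∑ n ∈ range 7,
        if j + 2 * l ≤ n then TB1_term κ b β (hh p) (yy p u) j l (n - (j + 2 * l)) else 0 := by
    have h1 : ∀ n ∈ range 7, b ^ n / (2 ^ n * (n.factorial : ℂ)) *
      (∑ j ∈ range 4, if j ≤ n then
        κ j * 2 ^ j * ((n.factorial : ℂ) / ((n - j).factorial : ℂ)) * HB p β (n - j) u else 0) =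
        ∑ j ∈ range 4, ∑ l ∈ range 4,
        if j + 2 * l ≤ n then TB1_term κ b β (hh p) (yy p u) j l (n - (j + 2 * l)) else 0 := by
      intro n _
      rw [Finset.mul_sum]
      refine Finset.sum_congr rfl fun j _ => ?_
      by_cases hjn : j ≤ n
      · rw [if_pos hjn, HB, Finset.mul_sum, Finset.mul_sum]
        refine Finset.sum_congr rfl fun l _ => ?_
        by_cases hln : 2 * l ≤ n - j
        · rw [if_pos hln, if_pos (by omega)]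
          exact TB1_aux2 n j l (by omega) b β (hh p) (yy p u) (κ j)
        · rw [if_neg hln, if_neg (by omega), mul_zero, mul_zero]
      · rw [if_neg hjn, mul_zero]
        symm
        refine Finset.sum_eq_zero fun l _ => ?_
        rw [if_neg (by omega)]
    rw [Finset.sum_congr rfl h1, Finset.sum_comm]
    refine Finset.sum_congr rfl fun j _ => ?_
    rw [Finset.sum_comm]
  rw [hL, hR, ← Finset.sum_add_distrib]
  refine Finset.sum_congr rfl fun j hj => ?_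
  rw [← Finset.sum_add_distrib]
  refine Finset.sum_congr rfl fun l hl => ?_
  rw [Finset.mem_range] at hj hl
  exact TB1_aux1 (j + 2 * l) (by omega) _

theorem TB1_fact_inv (h7 : 7 ≤ p) (k : ℕ) (hk : k < 7) : ((k.factorial : ℂ))⁻¹ ∈ OO p := by
  refine OO_smooth p h7 4 2 1 _ ?_
  have : ∃ m : ℕ, (2 : ℂ) ^ 4 * 3 ^ 2 * 5 ^ 1 * ((k.factorial : ℂ))⁻¹ = (m : ℂ) := by
    interval_cases k
    · exact ⟨720, by norm_num [Nat.factorial]⟩
    · exact ⟨720, by norm_num [Nat.factorial]⟩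
    · exact ⟨360, by norm_num [Nat.factorial]⟩
    · exact ⟨120, by norm_num [Nat.factorial]⟩
    · exact ⟨30, by norm_num [Nat.factorial]⟩
    · exact ⟨6, by norm_num [Nat.factorial]⟩
    · exact ⟨1, by norm_num [Nat.factorial]⟩
  obtain ⟨m, hm⟩ := this
  rw [hm]
  exact natCast_mem _ m

theorem TB1_Ef_mem (h7 : 7 ≤ p) {z : ℂ} (hz : z ∈ OO p) : Ef p z ∈ WW p 0 := by
  unfold Ef
  refine AddSubgroup.sum_mem _ fun n hn => ?_
  rw [Finset.mem_range] at hn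
  have h1 : yy p ^ n ∈ WW p 0 := WW_anti p (Nat.zero_le _) (WW_pow p (WW_yy p h7) n)
  refine WW_smul p h1 ?_
  have e : z ^ n / (2 ^ n * (n.factorial : ℂ)) = z ^ n * ((2 : ℂ)⁻¹ ^ n * ((n.factorial : ℂ))⁻¹) := by
    rw [div_eq_mul_inv, mul_inv, inv_pow]
  rw [e]
  exact (OO p).mul_mem ((OO p).pow_mem hz n)
    ((OO p).mul_mem ((OO p).pow_mem (inv_two_mem p h7) n) (TB1_fact_inv p h7 n hn))

theorem TB1_term_mem (h7 : 7 ≤ p) (κ : ℕ → ℂ) (hκ : ∀ j, ∃ w ∈ OO p, κ j = xx p ^ j * w) {b β : ℂ}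
    (hb : b ∈ OO p) (hβ : β ∈ OO p) (j l k : ℕ) (hl : l < 4) (hk : k < 7) (h : 7 ≤ j + 2 * l + k) :
    (fun u => TB1_term κ b β (hh p) (yy p u) j l k) ∈ WW p 7 := by
  obtain ⟨w, hw, hκw⟩ := hκ j
  have h1 : (fun _ : ZMod p => xx p ^ j * w) ∈ WW p (2 * j) := WW_const p hw j
  have h2 : (fun _ : ZMod p => hh p ^ l) ∈ WW p (2 * l) := hh_const p h7 l
  have h3 : yy p ^ k ∈ WW p (1 * k) := WW_pow p (WW_yy p h7) k
  have h4 := WW_mul p (WW_mul p h1 h2) h3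
  have hc : b ^ j * ((β * b ^ 2 * (2 : ℂ)⁻¹) ^ l * ((2 : ℂ)⁻¹ ^ l * ((l.factorial : ℂ))⁻¹)) *
      ((-b) ^ k * ((2 : ℂ)⁻¹ ^ k * ((k.factorial : ℂ))⁻¹)) ∈ OO p := by
    have i2 := inv_two_mem p h7
    refine (OO p).mul_mem ((OO p).mul_mem ((OO p).pow_mem hb j) ((OO p).mul_mem ((OO p).pow_mem
      ((OO p).mul_mem ((OO p).mul_mem hβ ((OO p).pow_mem hb 2)) i2) l)
      ((OO p).mul_mem ((OO p).pow_mem i2 l) (TB1_fact_inv p h7 l (by omega))))) ?_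
    exact (OO p).mul_mem ((OO p).pow_mem ((OO p).neg_mem hb) k)
      ((OO p).mul_mem ((OO p).pow_mem i2 k) (TB1_fact_inv p h7 k hk))
  have h5 := WW_smul p h4 hc
  have h6 := WW_anti p (show 7 ≤ 2 * j + 2 * l + 1 * k by omega) h5
  have e : (fun u => TB1_term κ b β (hh p) (yy p u) j l k) =
      (b ^ j * ((β * b ^ 2 * (2 : ℂ)⁻¹) ^ l * ((2 : ℂ)⁻¹ ^ l * ((l.factorial : ℂ))⁻¹)) *
      ((-b) ^ k * ((2 : ℂ)⁻¹ ^ k * ((k.factorial : ℂ))⁻¹))) •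
        (((fun _ : ZMod p => xx p ^ j * w) * fun _ : ZMod p => hh p ^ l) * yy p ^ k) := by
    funext u
    simp only [TB1_term, Pi.smul_apply, Pi.mul_apply, Pi.pow_apply, smul_eq_mul, hκw]
    rw [div_eq_mul_inv (β * b ^ 2) 2, div_eq_mul_inv _ ((2 : ℂ) ^ l * _), div_eq_mul_inv _ ((2 : ℂ) ^ k * _),
      mul_inv, mul_inv, inv_pow, inv_pow]
    ring
  rw [e]
  exact h6

theorem T2_y (h7 : 7 ≤ p) {β : ℚ} {β' : ZMod p} (hβ : Cg p β β') {K0 : ZMod p → ℂ} (hK0 : K0 ∈ WW p 0)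
    (κ : ℕ → ℂ) (hκ : ∀ j, ∃ w ∈ OO p, κ j = xx p ^ j * w)
    (h : ∀ b : ℕ, b < 7 → ∃ w ∈ OO p, K0 (-(b : ZMod p)) = ∑ j ∈ range 4, κ j * (b : ℂ) ^ j + xx p ^ 4 * w)
    (n : ℕ) (hn : n < 7) :
    T2 p β' K0 (yy p ^ n) - (fun u => ∑ j ∈ range 4, if j ≤ n then
      κ j * 2 ^ j * ((n.factorial : ℂ) / ((n - j).factorial : ℂ)) * HB p β (n - j) u else 0) ∈ WW p 7 := by
  have hp : 2 < p := by omega
  refine Phi p h7 (T2 p β' K0) (fun f hf => ?_) (fun n => (fun u => ∑ j ∈ range 4, if j ≤ n then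
      κ j * 2 ^ j * ((n.factorial : ℂ) / ((n - j).factorial : ℂ)) * HB p β (n - j) u else 0)) ?_ n hn
  · have h1 := T2_WW p hp β' hf hK0
    rw [add_zero] at h1
    exact h1
  intro b hb
  rw [T2_chi p hp]
  obtain ⟨w3, hw3, hw3e⟩ := h b hb
  have hCb : Cg p ((b : ℕ) : ℚ) ((b : ℕ) : ZMod p) := Cg_nat p b
  have hC1 : Cg p (β * (b : ℚ) ^ 2 / 2) (β' * (b : ZMod p) ^ 2 / 2) := by
    have := Cg_half p hp (Cg_mul p hβ (Cg_mul p hCb hCb))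
    rw [pow_two, pow_two]
    exact this
  obtain ⟨w1, hw1, hw1e⟩ := exp_h p h7 hC1
  have hy := exp_y p h7 (Cg_neg p hCb)
  have hbO : ((b : ℕ) : ℂ) ∈ OO p := natCast_mem _ b
  have hβO : (β : ℂ) ∈ OO p := Cg_mem p hβ
  -- the constants
  have hC1O : chi p (β' * (b : ZMod p) ^ 2 / 2) ∈ OO p := chi_mem p _
  have hKO : K0 (-(b : ZMod p)) ∈ OO p := by
    rw [hw3e]
    refine (OO p).add_mem (sum_mem fun j _ => ?_) ((OO p).mul_mem ((OO p).pow_mem (xx_mem p) 4) hw3)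
    obtain ⟨w, hw, hκw⟩ := hκ j
    rw [hκw]
    exact (OO p).mul_mem ((OO p).mul_mem ((OO p).pow_mem (xx_mem p) j) hw) ((OO p).pow_mem hbO j)
  have s1 := WW_smul p hy ((OO p).mul_mem hC1O hKO)
  -- replace the constants by sums
  have hC3O : ∑ j ∈ range 4, κ j * (b : ℂ) ^ j ∈ OO p := by
    refine sum_mem fun j _ => ?_
    obtain ⟨w, hw, hκw⟩ := hκ j
    rw [hκw]
    exact (OO p).mul_mem ((OO p).mul_mem ((OO p).pow_mem (xx_mem p) j) hw) ((OO p).pow_mem hbO j)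
  have hEf : Ef p ((-(b : ℚ) : ℚ) : ℂ) ∈ WW p 0 := by
    refine TB1_Ef_mem p h7 ?_
    push_cast
    exact (OO p).neg_mem hbO
  have hw' : chi p (β' * (b : ZMod p) ^ 2 / 2) * w3 + w1 * ∑ j ∈ range 4, κ j * (b : ℂ) ^ j ∈ OO p :=
    (OO p).add_mem ((OO p).mul_mem hC1O hw3) ((OO p).mul_mem hw1 hC3O)
  have s2 : ((fun _ : ZMod p => xx p ^ 4 *
      (chi p (β' * (b : ZMod p) ^ 2 / 2) * w3 + w1 * ∑ j ∈ range 4, κ j * (b : ℂ) ^ j)) *
      Ef p ((-(b : ℚ) : ℚ) : ℂ)) ∈ WW p 7 :=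
    WW_anti p (show 7 ≤ 2 * 4 + 0 by norm_num) (WW_mul p (WW_const p hw' 4) hEf)
  have s3 : (∑ j ∈ range 4, ∑ l ∈ range 4, ∑ k ∈ range 7,
      if 7 ≤ j + 2 * l + k then (fun u => TB1_term κ (b : ℂ) (β : ℂ) (hh p) (yy p u) j l k) else 0) ∈ WW p 7 := by
    refine sum_mem fun j _ => sum_mem fun l hl => sum_mem fun k hk => ?_
    rw [Finset.mem_range] at hl hk
    split_ifs with hc
    · exact TB1_term_mem p h7 κ hκ hbO hβO j l k hl hk hc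
    · exact (WW p 7).zero_mem
  have s := (WW p 7).add_mem ((WW p 7).add_mem s1 s2) s3
  convert s using 1
  funext u
  have key := TB1_aux3 p κ (b : ℂ) (β : ℂ) u
  have hEfu : Ef p ((-(b : ℚ) : ℚ) : ℂ) u = ∑ k ∈ range 7, (-(b : ℂ)) ^ k / (2 ^ k * (k.factorial : ℂ)) * yy p u ^ k := by
    simp only [Ef, Finset.sum_apply, Pi.smul_apply, Pi.pow_apply, smul_eq_mul]
    push_cast
    rfl
  have hifs : ∀ j l k : ℕ, (if 7 ≤ j + 2 * l + k then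
      (fun u => TB1_term κ (b : ℂ) (β : ℂ) (hh p) (yy p u) j l k) else (0 : ZMod p → ℂ)) u =
      if 7 ≤ j + 2 * l + k then TB1_term κ (b : ℂ) (β : ℂ) (hh p) (yy p u) j l k else 0 := by
    intro j l k
    split_ifs <;> rfl
  simp only [Pi.sub_apply, Pi.add_apply, Pi.mul_apply, Pi.smul_apply, smul_eq_mul, Finset.sum_apply, hEfu, hifs]
  push_cast at hw1e
  set S1 := ∑ l ∈ range 4, ((β : ℂ) * (b : ℂ) ^ 2 / 2) ^ l / (2 ^ l * (l.factorial : ℂ)) * hh p ^ l with hS1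
  set S3 := ∑ j ∈ range 4, κ j * (b : ℂ) ^ j with hS3
  set SE := ∑ k ∈ range 7, (-(b : ℂ)) ^ k / (2 ^ k * (k.factorial : ℂ)) * yy p u ^ k with hSE
  set SF := ∑ n ∈ range 7, (b : ℂ) ^ n / (2 ^ n * (n.factorial : ℂ)) *
      ∑ j ∈ range 4, (if j ≤ n then
        κ j * 2 ^ j * ((n.factorial : ℂ) / ((n - j).factorial : ℂ)) * HB p β (n - j) u else 0) with hSF
  set SL := ∑ j ∈ range 4, ∑ l ∈ range 4, ∑ k ∈ range 7,
        (if 7 ≤ j + 2 * l + k then TB1_term κ (b : ℂ) (β : ℂ) (hh p) (yy p u) j l k else 0) with hSL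
  have hc1 : chi p (β' * (b : ZMod p) ^ 2 / 2) = S1 + xx p ^ 4 * w1 := hw1e
  rw [hw3e, hc1]
  linear_combination key

end

end Pool.Agent.Lib.MP_f2058c_gt
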