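import Mathlib
import Pool.Agent.Lib.MP_f2058c_gt.TB1
import Pool.Agent.Lib.MP_f2058c_gt.E5L

/-!
# JOB TB2: the step of case B and the root of case B

Notation: `y = yy`, `h = hh`; `A, B, C, D, E` entries of `P` and `Aʀ, Bʀ, ...` entries of `R`, as complex numbers;
`C' = C + A^2/2`, `D' = D + A B`, `E' = E + B^2/2` and similarly `Cʀ', Dʀ', Eʀ'`.

1. Values of `K0 = E5 R` at `-b`: by `yy_at` (`Cg p (-b) (-b)`) `y(-b) = -b h` modulo `xx^4 OO`, so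
   `E5 R (-b) = 1 + Aʀ h + Cʀ' h^2 + (Bʀ h^2 + Dʀ' h^3) b^2` modulo `xx^4 OO` (`Eʀ' b^4 h^4 ∈ xx^4 OO`): `κ 0 = 1 + Aʀ h + Cʀ' h^2`,
   `κ 1 = 0`, `κ 2 = Bʀ h^2 + Dʀ' h^3`, `κ 3 = 0`.
   `T2_y` for `n = 1, 3, 5` gives modulo `WW 7` (drop the terms of weight `≥ 7`)
   `T2(E5 R)(y) = -(1 + Aʀ h + Cʀ' h^2) y`,
   `T2(E5 R)(y^3) = -(1 + Aʀ h)(y^3 + 6 β h y) - 24 Bʀ h^2 y`,
   `T2(E5 R)(y^5) = -(y^5 + 20 β h y^3 + 60 β^2 h^2 y)`.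
2. `stepB`: `T2 β K G = T2 β (K - c E5 R) G + c T2 β (E5 R) (G - c0 y E5 P) + c c0 T2 β (E5 R) (y E5 P)`; the first is in
   `WW (1 + 6)`, the second in `WW (7 + 0)` (`T2_WW`, `T2_add_right`, `T2_smul_right`, linearity in `G`), and
   `y E5 P = (1 + A h + C' h^2) y + (B + D' h) y^3 + E' y^5`.  Modulo `WW 7` the third is
   `-c c0 y [1 + (A + Aʀ + 6 β B) h + B y^2 + (C' + Cʀ' + A Aʀ + 6 β D' + 6 β B Aʀ + 60 β^2 E' + 24 B Bʀ) h^2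
     + (D' + B Aʀ + 20 β E') h y^2 + E' y^4] = -c c0 y E5 (transB β P R)`
   (`E5 (transB β P R)` unfolds to exactly this: `ring`; the products dropped have weight `≥ 7`).
   `T2 β K G` is odd (`T2_odd`) and in `WW 1`.  So it is `GK` with constant `-(c0 c)` and parameters `transB β P R`;
   `divide` gives `K'`.
3. `rootB`: with `K1 = DD K`: `GK p K1 c (R + PD)` (`GK_of_KK`), so `K1 - c y E5 R1 ∈ WW 7` where `R1 = R + PD`.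
   Values of `K0 = y E5 R1` at `-b`: `-b h (1 + A1 h + C1' h^2 + B1 b^2 h^2)` modulo `xx^4 OO`: `κ 0 = 0`,
   `κ 1 = -(h + A1 h^2 + C1' h^3)`, `κ 2 = 0`, `κ 3 = -B1 h^3` (`A1, B1, C1'` from `R1`).
   `T2_y` evaluated at `a = 0` (`yy 0 = 0`, `WW_eval` for `k = 7`, `xx^4 OO`), modulo `xx^4 OO`:
   `T2(y E5 R1)(y)(0) = 2 κ 1 = -2 (h + A1 h^2 + C1' h^3)`,
   `T2(y E5 R1)(y^3)(0) = 12 β h κ 1 + 48 κ 3 = -12 β h^2 (1 + A1 h) - 48 B1 h^3`,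
   `T2(y E5 R1)(y^5)(0) = 120 β^2 h^2 κ 1 = -120 β^2 h^3`.
   `T2 β K1 G (0) = c c0 T2 β (y E5 R1) (y E5 P) (0)` modulo `xx^4 OO` (errors in `WW 7` and `WW (7+1)`, evaluate at 0),
   `= -2 c c0 h [1 + (A + A1 + 6 β B) h + (C' + C1' + A A1 + 6 β D' + 6 β B A1 + 60 β^2 E' + 24 B B1) h^2]`,
   which is the formula with `rtB β w a` where `P = w.P + PD`, `R1 = a.P + PD`: `c1 = A + A1 + 6 B β` and
   `C' + C1' + A A1 + 6 β D' + 6 β B A1 + 60 β^2 E' + 24 B B1 = c2 + c1^2/2` (`ring`).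
-/

set_option autoImplicit false

namespace Pool.Agent.Lib.MP_f2058c_gt

open Finset

noncomputable section

variable (p : ℕ) [Fact p.Prime]

private theorem TB2_half (h7 : 7 ≤ p) {z : ℂ} (hz : z ∈ OO p) : z / 2 ∈ OO p := by
  rw [div_eq_mul_inv]
  exact (OO p).mul_mem hz (inv_two_mem p h7)

/-- Monomials of weight at least seven. -/
private theorem TB2_mono (h7 : 7 ≤ p) {c : ℂ} (hc : c ∈ OO p) (a b : ℕ) (hab : 7 ≤ 2 * a + b) :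
    (fun u => c * (hh p ^ a * yy p u ^ b)) ∈ WW p 7 := by
  have h1 := WW_mul p (hh_const p h7 a) (WW_pow p (WW_yy p h7) b)
  have h2 := WW_smul p (WW_anti p (show 7 ≤ 2 * a + 1 * b by omega) h1) hc
  exact h2

/-- The six coefficients of an exponential. -/
private theorem TB2_coef (h7 : 7 ≤ p) {P : Par} (hP : ParOK p P) :
    (P.A : ℂ) ∈ OO p ∧ (P.B : ℂ) ∈ OO p ∧ (P.C : ℂ) + (P.A : ℂ) ^ 2 / 2 ∈ OO p ∧
      (P.D : ℂ) + (P.A : ℂ) * (P.B : ℂ) ∈ OO p ∧ (P.E : ℂ) + (P.B : ℂ) ^ 2 / 2 ∈ OO p := by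
  obtain ⟨hA, hB, hC, hD, hE⟩ := hP
  refine ⟨hA, hB, ?_, ?_, ?_⟩
  · exact (OO p).add_mem hC (TB2_half p h7 ((OO p).pow_mem hA 2))
  · exact (OO p).add_mem hD ((OO p).mul_mem hA hB)
  · exact (OO p).add_mem hE (TB2_half p h7 ((OO p).pow_mem hB 2))

/-- The values of `yy` and of its even powers at `-b`. -/
private theorem TB2_yval (h7 : 7 ≤ p) (b : ℕ) :
    ∃ w0 ∈ OO p, ∃ w1 ∈ OO p, ∃ w2 ∈ OO p, yy p (-(b : ZMod p)) = -(b : ℂ) * hh p + xx p ^ 4 * w0 ∧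
      yy p (-(b : ZMod p)) ^ 2 = (b : ℂ) ^ 2 * hh p ^ 2 + xx p ^ 4 * w1 ∧
      yy p (-(b : ZMod p)) ^ 4 = xx p ^ 4 * w2 := by
  have hb : Cg p (-(b : ℚ)) (-(b : ZMod p)) := Cg_neg p (Cg_nat p b)
  obtain ⟨w0, hw0, h0⟩ := yy_at p h7 hb
  obtain ⟨v, hv, hv'⟩ := hh_eq p h7
  have hbO : (b : ℂ) ∈ OO p := natCast_mem (OO p) b
  have hhO := hh_mem p h7
  have hx := xx_mem p
  have h2O : (2 : ℂ) ∈ OO p := ofNat_mem (OO p) 2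
  have e0 : yy p (-(b : ZMod p)) = -(b : ℂ) * hh p + xx p ^ 4 * w0 := by
    rw [h0]
    push_cast
    ring
  refine ⟨w0, hw0, w0 * (-(2 * (b : ℂ) * hh p) + xx p ^ 4 * w0), ?_,
    (b : ℂ) ^ 4 * v ^ 4 + 2 * (b : ℂ) ^ 2 * hh p ^ 2 * (w0 * (-(2 * (b : ℂ) * hh p) + xx p ^ 4 * w0)) +
      xx p ^ 4 * (w0 * (-(2 * (b : ℂ) * hh p) + xx p ^ 4 * w0)) ^ 2, ?_, e0, ?_, ?_⟩
  · apply_rules [Subring.pow_mem, Subring.neg_mem, Subring.add_mem, Subring.mul_mem]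
  · apply_rules [Subring.pow_mem, Subring.neg_mem, Subring.add_mem, Subring.mul_mem]
  · rw [e0]
    ring
  · have h4 : hh p ^ 4 = xx p ^ 4 * v ^ 4 := by
      rw [hv']
      ring
    rw [e0]
    linear_combination (b : ℂ) ^ 4 * h4

/-- The values of an exponential at `-b`. -/
private theorem TB2_eval (h7 : 7 ≤ p) {R : Par} (hR : ParOK p R) (b : ℕ) :
    ∃ w ∈ OO p, E5 p R (-(b : ZMod p)) =
      (1 + (R.A : ℂ) * hh p + ((R.C : ℂ) + (R.A : ℂ) ^ 2 / 2) * hh p ^ 2) +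
      ((R.B : ℂ) * hh p ^ 2 + ((R.D : ℂ) + (R.A : ℂ) * (R.B : ℂ)) * hh p ^ 3) * (b : ℂ) ^ 2 +
      xx p ^ 4 * w := by
  obtain ⟨hA, hB, hC, hD, hE⟩ := TB2_coef p h7 hR
  obtain ⟨w0, hw0, w1, hw1, w2, hw2, h0, h1, h2⟩ := TB2_yval p h7 b
  have hhO := hh_mem p h7
  refine ⟨(R.B : ℂ) * w1 + ((R.D : ℂ) + (R.A : ℂ) * (R.B : ℂ)) * hh p * w1 +
    ((R.E : ℂ) + (R.B : ℂ) ^ 2 / 2) * w2, ?_, ?_⟩
  · exact (OO p).add_mem ((OO p).add_mem ((OO p).mul_mem hB hw1)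
      ((OO p).mul_mem ((OO p).mul_mem hD hhO) hw1)) ((OO p).mul_mem hE hw2)
  · unfold E5
    rw [h1, h2]
    ring

/-- The coefficients for case B. -/
private def TB2_k (κ0 κ1 κ2 κ3 : ℂ) : ℕ → ℂ
  | 0 => κ0
  | 1 => κ1
  | 2 => κ2
  | 3 => κ3
  | _ + 4 => 0

private theorem TB2_y (h7 : 7 ≤ p) {β : ℚ} {β' : ZMod p} (hβ : Cg p β β') {K0 : ZMod p → ℂ}
    (hK0 : K0 ∈ WW p 0) (κ0 κ1 κ2 κ3 : ℂ) (h0 : κ0 ∈ OO p) (h1 : ∃ w ∈ OO p, κ1 = xx p * w)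
    (h2 : ∃ w ∈ OO p, κ2 = xx p ^ 2 * w) (h3 : ∃ w ∈ OO p, κ3 = xx p ^ 3 * w)
    (h : ∀ b : ℕ, b < 7 → ∃ w ∈ OO p, K0 (-(b : ZMod p)) =
      κ0 + κ1 * b + κ2 * (b : ℂ) ^ 2 + κ3 * (b : ℂ) ^ 3 + xx p ^ 4 * w) :
    (T2 p β' K0 (yy p ^ 1) - (fun u => -(κ0 * yy p u) + 2 * κ1) ∈ WW p 7) ∧
    (T2 p β' K0 (yy p ^ 3) - (fun u => -(κ0 * (yy p u ^ 3 + 6 * β * hh p * yy p u)) +
      6 * κ1 * (yy p u ^ 2 + 2 * β * hh p) - 24 * κ2 * yy p u + 48 * κ3) ∈ WW p 7) ∧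
    (T2 p β' K0 (yy p ^ 5) - (fun u => -(κ0 * (yy p u ^ 5 + 20 * β * hh p * yy p u ^ 3 +
        60 * β ^ 2 * hh p ^ 2 * yy p u)) +
      10 * κ1 * (yy p u ^ 4 + 12 * β * hh p * yy p u ^ 2 + 12 * β ^ 2 * hh p ^ 2) -
      80 * κ2 * (yy p u ^ 3 + 6 * β * hh p * yy p u) +
      480 * κ3 * (yy p u ^ 2 + 2 * β * hh p)) ∈ WW p 7) := by
  have hκ : ∀ j, ∃ w ∈ OO p, TB2_k κ0 κ1 κ2 κ3 j = xx p ^ j * w := by
    intro j
    match j with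
    | 0 => exact ⟨κ0, h0, by simp [TB2_k]⟩
    | 1 =>
      obtain ⟨w, hw, e⟩ := h1
      exact ⟨w, hw, by simp [TB2_k, e]⟩
    | 2 =>
      obtain ⟨w, hw, e⟩ := h2
      exact ⟨w, hw, by simp [TB2_k, e]⟩
    | 3 =>
      obtain ⟨w, hw, e⟩ := h3
      exact ⟨w, hw, by simp [TB2_k, e]⟩
    | n + 4 => exact ⟨0, (OO p).zero_mem, by simp [TB2_k]⟩
  have hv : ∀ b : ℕ, b < 7 → ∃ w ∈ OO p, K0 (-(b : ZMod p)) =
      ∑ j ∈ range 4, TB2_k κ0 κ1 κ2 κ3 j * (b : ℂ) ^ j + xx p ^ 4 * w := by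
    intro b hb
    obtain ⟨w, hw, e⟩ := h b hb
    refine ⟨w, hw, ?_⟩
    rw [e]
    simp [sum_range_succ, TB2_k]
  have key := T2_y p h7 hβ hK0 (TB2_k κ0 κ1 κ2 κ3) hκ hv
  refine ⟨?_, ?_, ?_⟩
  · have k := key 1 (by norm_num)
    convert k using 2
    funext u
    simp [sum_range_succ, TB2_k, HB, Nat.factorial]
    try ring
  · have k := key 3 (by norm_num)
    convert k using 2
    funext u
    simp [sum_range_succ, TB2_k, HB, Nat.factorial]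
    try ring
  · have k := key 5 (by norm_num)
    convert k using 2
    funext u
    simp [sum_range_succ, TB2_k, HB, Nat.factorial]
    try ring

/-- The core of the step. -/
private theorem TB2_core (h7 : 7 ≤ p) {β : ℚ} {β' : ZMod p} (hβ : Cg p β β') {P R : Par} (hP : ParOK p P)
    (hR : ParOK p R) :
    T2 p β' (E5 p R) (yy p * E5 p P) + yy p * E5 p (transB β P R) ∈ WW p 7 := by
  obtain ⟨hA, hB, hC, hD, hE⟩ := TB2_coef p h7 hP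
  obtain ⟨hA', hB', hC', hD', hE'⟩ := TB2_coef p h7 hR
  have hβO : (β : ℂ) ∈ OO p := Cg_mem p hβ
  have hhO := hh_mem p h7
  obtain ⟨v, hv, hv'⟩ := hh_eq p h7
  have hnum : ∀ n : ℕ, (n : ℂ) ∈ OO p := fun n => natCast_mem (OO p) n
  have h6 : (6 : ℂ) ∈ OO p := ofNat_mem (OO p) 6
  have h20 : (20 : ℂ) ∈ OO p := ofNat_mem (OO p) 20
  have h24 : (24 : ℂ) ∈ OO p := ofNat_mem (OO p) 24
  have h60 : (60 : ℂ) ∈ OO p := ofNat_mem (OO p) 60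
  have h80 : (80 : ℂ) ∈ OO p := ofNat_mem (OO p) 80
  have h480 : (480 : ℂ) ∈ OO p := ofNat_mem (OO p) 480
  have hlin : T2 p β' (E5 p R) (yy p * E5 p P) =
      (1 + (P.A : ℂ) * hh p + ((P.C : ℂ) + (P.A : ℂ) ^ 2 / 2) * hh p ^ 2) • T2 p β' (E5 p R) (yy p ^ 1) +
      ((P.B : ℂ) + ((P.D : ℂ) + (P.A : ℂ) * (P.B : ℂ)) * hh p) • T2 p β' (E5 p R) (yy p ^ 3) +
      ((P.E : ℂ) + (P.B : ℂ) ^ 2 / 2) • T2 p β' (E5 p R) (yy p ^ 5) := by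
    rw [← map_smul, ← map_smul, ← map_smul, ← map_add, ← map_add]
    congr 1
    funext u
    simp only [Pi.mul_apply, Pi.add_apply, Pi.smul_apply, Pi.pow_apply, smul_eq_mul, E5]
    ring
  have hexpT : ∀ u, yy p u * E5 p (transB β P R) u = yy p u * (1 + ((P.A : ℂ) + (R.A : ℂ) + 6 * (P.B : ℂ) * β) * hh p +
      (P.B : ℂ) * yy p u ^ 2 + (((P.C : ℂ) + (R.C : ℂ) + 6 * (P.D : ℂ) * β + 60 * (P.E : ℂ) * β ^ 2 +
        12 * (P.B : ℂ) ^ 2 * β ^ 2 + 24 * (R.B : ℂ) * (P.B : ℂ)) +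
        ((P.A : ℂ) + (R.A : ℂ) + 6 * (P.B : ℂ) * β) ^ 2 / 2) * hh p ^ 2 +
      (((P.D : ℂ) + 20 * (P.E : ℂ) * β + 4 * (P.B : ℂ) ^ 2 * β) +
        ((P.A : ℂ) + (R.A : ℂ) + 6 * (P.B : ℂ) * β) * (P.B : ℂ)) * hh p * yy p u ^ 2 +
      ((P.E : ℂ) + (P.B : ℂ) ^ 2 / 2) * yy p u ^ 4) := by
    intro u
    simp only [E5, transB]
    push_cast
    ring
  obtain ⟨w2, hw2, hw2'⟩ : ∃ w ∈ OO p, (R.B : ℂ) * hh p ^ 2 +
      ((R.D : ℂ) + (R.A : ℂ) * (R.B : ℂ)) * hh p ^ 3 = xx p ^ 2 * w := by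
    refine ⟨(R.B : ℂ) * v ^ 2 + ((R.D : ℂ) + (R.A : ℂ) * (R.B : ℂ)) * v ^ 2 * hh p, ?_, ?_⟩
    · exact (OO p).add_mem ((OO p).mul_mem hB' ((OO p).pow_mem hv 2))
        ((OO p).mul_mem ((OO p).mul_mem hD' ((OO p).pow_mem hv 2)) hhO)
    · have e : hh p ^ 2 = xx p ^ 2 * v ^ 2 := by
        rw [hv']
        ring
      linear_combination ((R.B : ℂ) + ((R.D : ℂ) + (R.A : ℂ) * (R.B : ℂ)) * hh p) * e
  obtain ⟨k1, k3, k5⟩ := TB2_y p h7 hβ (E5_mem p h7 hR)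
    (1 + (R.A : ℂ) * hh p + ((R.C : ℂ) + (R.A : ℂ) ^ 2 / 2) * hh p ^ 2) 0
    ((R.B : ℂ) * hh p ^ 2 + ((R.D : ℂ) + (R.A : ℂ) * (R.B : ℂ)) * hh p ^ 3) 0
    ((OO p).add_mem ((OO p).add_mem (OO p).one_mem ((OO p).mul_mem hA' hhO))
      ((OO p).mul_mem hC' ((OO p).pow_mem hhO 2)))
    ⟨0, (OO p).zero_mem, by ring⟩ ⟨w2, hw2, hw2'⟩ ⟨0, (OO p).zero_mem, by ring⟩ (by
      intro b _
      obtain ⟨w, hw, e⟩ := TB2_eval p h7 hR b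
      refine ⟨w, hw, ?_⟩
      rw [e]
      ring)
  have ha1 : 1 + (P.A : ℂ) * hh p + ((P.C : ℂ) + (P.A : ℂ) ^ 2 / 2) * hh p ^ 2 ∈ OO p :=
    (OO p).add_mem ((OO p).add_mem (OO p).one_mem ((OO p).mul_mem hA hhO))
      ((OO p).mul_mem hC ((OO p).pow_mem hhO 2))
  have ha3 : (P.B : ℂ) + ((P.D : ℂ) + (P.A : ℂ) * (P.B : ℂ)) * hh p ∈ OO p :=
    (OO p).add_mem hB ((OO p).mul_mem hD hhO)
  have hsum := (WW p 7).add_mem ((WW p 7).add_mem (WW_smul p k1 ha1) (WW_smul p k3 ha3)) (WW_smul p k5 hE)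
  rw [hlin]
  -- the monomials which are dropped
  generalize hC0 : (P.C : ℂ) + (P.A : ℂ) ^ 2 / 2 = C at *
  generalize hD0 : (P.D : ℂ) + (P.A : ℂ) * (P.B : ℂ) = D at *
  generalize hE0 : (P.E : ℂ) + (P.B : ℂ) ^ 2 / 2 = E at *
  generalize hC1 : (R.C : ℂ) + (R.A : ℂ) ^ 2 / 2 = C₁ at *
  generalize hD1 : (R.D : ℂ) + (R.A : ℂ) * (R.B : ℂ) = D₁ at *
  have m31 := TB2_mono p h7 (c := (P.A : ℂ) * C₁ + C * (R.A : ℂ) + 6 * β * ((P.B : ℂ) * C₁ + D * (R.A : ℂ)) +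
    24 * ((P.B : ℂ) * D₁ + D * (R.B : ℂ)) + 60 * β ^ 2 * E * (R.A : ℂ) + 480 * β * E * (R.B : ℂ))
    (by apply_rules [Subring.pow_mem, Subring.neg_mem, Subring.add_mem, Subring.mul_mem]) 3 1 (by norm_num)
  have m41 := TB2_mono p h7 (c := C * C₁ + 6 * β * (D * C₁) + 24 * (D * D₁) + 60 * β ^ 2 * E * C₁ +
    480 * β * E * D₁)
    (by apply_rules [Subring.pow_mem, Subring.neg_mem, Subring.add_mem, Subring.mul_mem]) 4 1 (by norm_num)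
  have m23 := TB2_mono p h7 (c := (P.B : ℂ) * C₁ + D * (R.A : ℂ) + 20 * β * E * (R.A : ℂ) + 80 * E * (R.B : ℂ))
    (by apply_rules [Subring.pow_mem, Subring.neg_mem, Subring.add_mem, Subring.mul_mem]) 2 3 (by norm_num)
  have m33 := TB2_mono p h7 (c := D * C₁ + 20 * β * E * C₁ + 80 * E * D₁)
    (by apply_rules [Subring.pow_mem, Subring.neg_mem, Subring.add_mem, Subring.mul_mem]) 3 3 (by norm_num)
  have m15 := TB2_mono p h7 (c := E * (R.A : ℂ))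
    (by apply_rules [Subring.pow_mem, Subring.neg_mem, Subring.add_mem, Subring.mul_mem]) 1 5 (by norm_num)
  have m25 := TB2_mono p h7 (c := E * C₁)
    (by apply_rules [Subring.pow_mem, Subring.neg_mem, Subring.add_mem, Subring.mul_mem]) 2 5 (by norm_num)
  have hm := (WW p 7).add_mem ((WW p 7).add_mem ((WW p 7).add_mem ((WW p 7).add_mem
    ((WW p 7).add_mem m31 m41) m23) m33) m15) m25
  have hfin := (WW p 7).sub_mem hsum hm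
  convert hfin using 1
  funext u
  simp only [Pi.add_apply, Pi.sub_apply, Pi.smul_apply, Pi.mul_apply, smul_eq_mul]
  rw [hexpT u, ← hC0, ← hD0, ← hE0, ← hC1, ← hD1]
  ring

private theorem TB2_transB {β : ℚ} {β' : ZMod p} (hβ : Cg p β β') {P R : Par} (hP : ParOK p P)
    (hR : ParOK p R) : ParOK p (transB β P R) := by
  obtain ⟨hA, hB, hC, hD, hE⟩ := hP
  obtain ⟨hA', hB', hC', hD', hE'⟩ := hR
  have hβO : (β : ℂ) ∈ OO p := Cg_mem p hβ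
  have h4 : (4 : ℂ) ∈ OO p := ofNat_mem (OO p) 4
  have h6 : (6 : ℂ) ∈ OO p := ofNat_mem (OO p) 6
  have h12 : (12 : ℂ) ∈ OO p := ofNat_mem (OO p) 12
  have h20 : (20 : ℂ) ∈ OO p := ofNat_mem (OO p) 20
  have h24 : (24 : ℂ) ∈ OO p := ofNat_mem (OO p) 24
  have h60 : (60 : ℂ) ∈ OO p := ofNat_mem (OO p) 60
  refine ⟨?_, ?_, ?_, ?_, ?_⟩
  · simp only [transB]
    push_cast
    apply_rules [Subring.pow_mem, Subring.neg_mem, Subring.add_mem, Subring.mul_mem]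
  · exact hB
  · simp only [transB]
    push_cast
    apply_rules [Subring.pow_mem, Subring.neg_mem, Subring.add_mem, Subring.mul_mem]
  · simp only [transB]
    push_cast
    apply_rules [Subring.pow_mem, Subring.neg_mem, Subring.add_mem, Subring.mul_mem]
  · exact hE

/-- Splitting of the transform. -/
private theorem TB2_split (β' : ZMod p) (K G K1 G1 : ZMod p → ℂ) (c c0 : ℂ) :
    T2 p β' K G = T2 p β' (K - c • K1) G + c • T2 p β' K1 (G - c0 • G1) + (c * c0) • T2 p β' K1 G1 := by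
  have e1 : T2 p β' K G = T2 p β' (K - c • K1) G + c • T2 p β' K1 G := by
    rw [← T2_smul_right, ← T2_add_right, sub_add_cancel]
  have e2 : T2 p β' K1 G = T2 p β' K1 (G - c0 • G1) + c0 • T2 p β' K1 G1 := by
    rw [← map_smul, ← map_add, sub_add_cancel]
  rw [e1, e2, smul_add, smul_smul, add_assoc]

private theorem TB2_lin (β' : ZMod p) (K0 : ZMod p → ℂ) (P : Par) : T2 p β' K0 (yy p * E5 p P) =
    (1 + (P.A : ℂ) * hh p + ((P.C : ℂ) + (P.A : ℂ) ^ 2 / 2) * hh p ^ 2) • T2 p β' K0 (yy p ^ 1) +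
    ((P.B : ℂ) + ((P.D : ℂ) + (P.A : ℂ) * (P.B : ℂ)) * hh p) • T2 p β' K0 (yy p ^ 3) +
    ((P.E : ℂ) + (P.B : ℂ) ^ 2 / 2) • T2 p β' K0 (yy p ^ 5) := by
  rw [← map_smul, ← map_smul, ← map_smul, ← map_add, ← map_add]
  congr 1
  funext u
  simp only [Pi.mul_apply, Pi.add_apply, Pi.smul_apply, Pi.pow_apply, smul_eq_mul, E5]
  ring

/-- The values of `y E5` at `-b`. -/
private theorem TB2_yeval (h7 : 7 ≤ p) {R : Par} (hR : ParOK p R) (b : ℕ) :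
    ∃ w ∈ OO p, (yy p * E5 p R) (-(b : ZMod p)) =
      0 + -(hh p + (R.A : ℂ) * hh p ^ 2 + ((R.C : ℂ) + (R.A : ℂ) ^ 2 / 2) * hh p ^ 3) * (b : ℂ) +
      0 * (b : ℂ) ^ 2 + -((R.B : ℂ) * hh p ^ 3) * (b : ℂ) ^ 3 + xx p ^ 4 * w := by
  obtain ⟨hA, hB, hC, hD, hE⟩ := TB2_coef p h7 hR
  obtain ⟨w0, hw0, w1, hw1, w2, hw2, h0, h1, h2⟩ := TB2_yval p h7 b
  obtain ⟨w, hw, e⟩ := TB2_eval p h7 hR b
  obtain ⟨v, hv, hv'⟩ := hh_eq p h7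
  have hhO := hh_mem p h7
  have hx := xx_mem p
  have hbO : (b : ℂ) ∈ OO p := natCast_mem (OO p) b
  have h4 : hh p ^ 4 = xx p ^ 4 * v ^ 4 := by
    rw [hv']
    ring
  have hone := (OO p).one_mem
  generalize (R.C : ℂ) + (R.A : ℂ) ^ 2 / 2 = C at *
  generalize (R.D : ℂ) + (R.A : ℂ) * (R.B : ℂ) = D at *
  refine ⟨w0 * ((1 + (R.A : ℂ) * hh p + C * hh p ^ 2) +
      ((R.B : ℂ) * hh p ^ 2 + D * hh p ^ 3) * (b : ℂ) ^ 2 + xx p ^ 4 * w) +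
      -((b : ℂ) * hh p * w) + -((b : ℂ) ^ 3 * D * v ^ 4), ?_, ?_⟩
  · apply_rules [Subring.pow_mem, Subring.neg_mem, Subring.add_mem, Subring.mul_mem]
  · rw [Pi.mul_apply, e, h0]
    linear_combination (-((b : ℂ) ^ 3 * D)) * h4

/-- The value at zero in the root of case B. -/
private theorem TB2_root (h7 : 7 ≤ p) {β : ℚ} {β' : ZMod p} (hβ : Cg p β β') {P R : Par} (hP : ParOK p P)
    (hR : ParOK p R) :
    ∃ v ∈ OO p, T2 p β' (yy p * E5 p R) (yy p * E5 p P) 0 =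
      -2 * hh p * (1 + ((P.A : ℂ) + R.A + 6 * P.B * β) * hh p +
        (((P.C : ℂ) + R.C + 6 * P.D * β + 60 * P.E * β ^ 2 + 12 * P.B ^ 2 * β ^ 2 + 24 * P.B * R.B) +
          ((P.A : ℂ) + R.A + 6 * P.B * β) ^ 2 / 2) * hh p ^ 2) + xx p ^ 4 * v := by
  obtain ⟨hA, hB, hC, hD, hE⟩ := TB2_coef p h7 hP
  obtain ⟨hA', hB', hC', hD', hE'⟩ := TB2_coef p h7 hR
  have hβO : (β : ℂ) ∈ OO p := Cg_mem p hβ
  have hhO := hh_mem p h7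
  have hx := xx_mem p
  have hone := (OO p).one_mem
  obtain ⟨t, ht, ht'⟩ := hh_eq p h7
  have h4 : hh p ^ 4 = xx p ^ 4 * t ^ 4 := by
    rw [ht']
    ring
  have hmem : yy p * E5 p R ∈ WW p 0 :=
    WW_anti p (Nat.zero_le _) (WW_mul p (WW_yy p h7) (E5_mem p h7 hR))
  obtain ⟨k1, k3, k5⟩ := TB2_y p h7 hβ hmem 0
    (-(hh p + (R.A : ℂ) * hh p ^ 2 + ((R.C : ℂ) + (R.A : ℂ) ^ 2 / 2) * hh p ^ 3)) 0
    (-((R.B : ℂ) * hh p ^ 3)) (OO p).zero_mem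
    ⟨-(t + (R.A : ℂ) * hh p * t + ((R.C : ℂ) + (R.A : ℂ) ^ 2 / 2) * hh p ^ 2 * t), by
      apply_rules [Subring.pow_mem, Subring.neg_mem, Subring.add_mem, Subring.mul_mem], by
      linear_combination (-(1 + (R.A : ℂ) * hh p + ((R.C : ℂ) + (R.A : ℂ) ^ 2 / 2) * hh p ^ 2)) * ht'⟩
    ⟨0, (OO p).zero_mem, by ring⟩
    ⟨-((R.B : ℂ) * t ^ 3), by
      apply_rules [Subring.pow_mem, Subring.neg_mem, Subring.add_mem, Subring.mul_mem], by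
      rw [ht']
      ring⟩
    (fun b _ => TB2_yeval p h7 hR b)
  obtain ⟨v1, hv1, e1⟩ := WW_eval p k1
  obtain ⟨v3, hv3, e3⟩ := WW_eval p k3
  obtain ⟨v5, hv5, e5⟩ := WW_eval p k5
  have hn : (7 + 1) / 2 = 4 := by norm_num
  rw [hn, Pi.sub_apply, sub_eq_iff_eq_add] at e1 e3 e5
  simp only [yy_zero p] at e1 e3 e5
  rw [TB2_lin, Pi.add_apply, Pi.add_apply, Pi.smul_apply, Pi.smul_apply, Pi.smul_apply, smul_eq_mul,
    smul_eq_mul, smul_eq_mul, e1, e3, e5]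
  have h2O : (2 : ℂ) ∈ OO p := ofNat_mem (OO p) 2
  have h12 : (12 : ℂ) ∈ OO p := ofNat_mem (OO p) 12
  have h48 : (48 : ℂ) ∈ OO p := ofNat_mem (OO p) 48
  have h120 : (120 : ℂ) ∈ OO p := ofNat_mem (OO p) 120
  have h960 : (960 : ℂ) ∈ OO p := ofNat_mem (OO p) 960
  generalize hC0 : (P.C : ℂ) + (P.A : ℂ) ^ 2 / 2 = C at *
  generalize hD0 : (P.D : ℂ) + (P.A : ℂ) * (P.B : ℂ) = D at *
  generalize hE0 : (P.E : ℂ) + (P.B : ℂ) ^ 2 / 2 = E at *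
  generalize hC1 : (R.C : ℂ) + (R.A : ℂ) ^ 2 / 2 = C₁ at *
  generalize hD1 : (R.D : ℂ) + (R.A : ℂ) * (R.B : ℂ) = D₁ at *
  have q1 : (1 + (P.A : ℂ) * hh p + C * hh p ^ 2) * v1 + ((P.B : ℂ) + D * hh p) * v3 + E * v5 ∈ OO p := by
    apply_rules [Subring.pow_mem, Subring.neg_mem, Subring.add_mem, Subring.mul_mem]
  have q2 : (P.A : ℂ) * C₁ + C * (R.A : ℂ) + C * C₁ * hh p ∈ OO p := by
    apply_rules [Subring.pow_mem, Subring.neg_mem, Subring.add_mem, Subring.mul_mem]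
  have q3 : (P.B : ℂ) * C₁ + D * (R.A : ℂ) + D * C₁ * hh p ∈ OO p := by
    apply_rules [Subring.pow_mem, Subring.neg_mem, Subring.add_mem, Subring.mul_mem]
  have q4 : (R.A : ℂ) + C₁ * hh p ∈ OO p := by
    apply_rules [Subring.pow_mem, Subring.neg_mem, Subring.add_mem, Subring.mul_mem]
  have q5 : 2 * ((P.A : ℂ) * C₁ + C * (R.A : ℂ) + C * C₁ * hh p) +
        12 * β * ((P.B : ℂ) * C₁ + D * (R.A : ℂ) + D * C₁ * hh p) + 48 * D * (R.B : ℂ) ∈ OO p :=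
    (OO p).add_mem ((OO p).add_mem ((OO p).mul_mem h2O q2) ((OO p).mul_mem ((OO p).mul_mem h12 hβO) q3))
      ((OO p).mul_mem ((OO p).mul_mem h48 hD) hB')
  have q6 : 120 * (β : ℂ) ^ 2 * E * ((R.A : ℂ) + C₁ * hh p) ∈ OO p :=
    (OO p).mul_mem ((OO p).mul_mem ((OO p).mul_mem h120 ((OO p).pow_mem hβO 2)) hE) q4
  have q7 : 960 * (β : ℂ) * E * (R.B : ℂ) ∈ OO p :=
    (OO p).mul_mem ((OO p).mul_mem ((OO p).mul_mem h960 hβO) hE) hB'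
  refine ⟨(1 + (P.A : ℂ) * hh p + C * hh p ^ 2) * v1 + ((P.B : ℂ) + D * hh p) * v3 + E * v5 +
      -(t ^ 4 * (2 * ((P.A : ℂ) * C₁ + C * (R.A : ℂ) + C * C₁ * hh p) +
        12 * β * ((P.B : ℂ) * C₁ + D * (R.A : ℂ) + D * C₁ * hh p) + 48 * D * (R.B : ℂ) +
        120 * β ^ 2 * E * ((R.A : ℂ) + C₁ * hh p) + 960 * β * E * (R.B : ℂ))), ?_, ?_⟩
  · exact (OO p).add_mem q1 ((OO p).neg_mem ((OO p).mul_mem ((OO p).pow_mem ht 4)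
      ((OO p).add_mem ((OO p).add_mem q5 q6) q7)))
  · rw [← hC0, ← hD0, ← hE0, ← hC1]
    linear_combination (-(2 * ((P.A : ℂ) * ((R.C : ℂ) + (R.A : ℂ) ^ 2 / 2) +
        ((P.C : ℂ) + (P.A : ℂ) ^ 2 / 2) * (R.A : ℂ) +
          ((P.C : ℂ) + (P.A : ℂ) ^ 2 / 2) * ((R.C : ℂ) + (R.A : ℂ) ^ 2 / 2) * hh p) +
        12 * β * ((P.B : ℂ) * ((R.C : ℂ) + (R.A : ℂ) ^ 2 / 2) +
          ((P.D : ℂ) + (P.A : ℂ) * (P.B : ℂ)) * (R.A : ℂ) +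
          ((P.D : ℂ) + (P.A : ℂ) * (P.B : ℂ)) * ((R.C : ℂ) + (R.A : ℂ) ^ 2 / 2) * hh p) +
        48 * ((P.D : ℂ) + (P.A : ℂ) * (P.B : ℂ)) * (R.B : ℂ) +
        120 * β ^ 2 * ((P.E : ℂ) + (P.B : ℂ) ^ 2 / 2) * ((R.A : ℂ) + ((R.C : ℂ) + (R.A : ℂ) ^ 2 / 2) * hh p) +
        960 * β * ((P.E : ℂ) + (P.B : ℂ) ^ 2 / 2) * (R.B : ℂ))) * h4

theorem stepB (h7 : 7 ≤ p) {β : ℚ} {β' : ZMod p} (hβ : Cg p β β') {K G : ZMod p → ℂ} {c0 c : ℚ} {P R : Par}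
    (hG : GK p G c0 P) (hK : KK p K c R) :
    ∃ K' : ZMod p → ℂ, KK p K' (-(c0 * c)) (transB β P R).hat ∧ ∀ a, T2 p β' K G a = DD p a * K' a := by
  have hp2 : 2 < p := by omega
  have hc0 := hG.hc
  have hc := hK.hc
  have hmem := T2_WW p hp2 β' hG.mem hK.mem
  rw [show (1 : ℕ) + 0 = 1 from rfl] at hmem
  have t1 := T2_WW p hp2 β' hG.mem hK.congr
  rw [show (1 : ℕ) + 6 = 7 from rfl] at t1
  have t2 := T2_WW p hp2 β' hG.congr (E5_mem p h7 hK.hP)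
  rw [show (7 : ℕ) + 0 = 7 from rfl] at t2
  have t3 := TB2_core p h7 hβ hG.hP hK.hP
  refine divide p h7 ⟨hmem, T2_odd p β' hK.even hG.odd, ?_, ?_, TB2_transB p hβ hG.hP hK.hP⟩
  · have h := (WW p 7).add_mem ((WW p 7).add_mem t1 (WW_smul p t2 hc)) (WW_smul p t3 ((OO p).mul_mem hc hc0))
    rw [TB2_split p β' K G (E5 p R) (yy p * E5 p P) (c : ℂ) (c0 : ℂ)]
    convert h using 1
    funext u
    simp only [Pi.add_apply, Pi.sub_apply, Pi.smul_apply, Pi.mul_apply, smul_eq_mul]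
    push_cast
    ring
  · push_cast
    exact (OO p).neg_mem ((OO p).mul_mem hc0 hc)

theorem rootB (h7 : 7 ≤ p) {β : ℚ} {β' : ZMod p} (hβ : Cg p β β') {K G : ZMod p → ℂ} {w a : Dat}
    (hG : GK p G w.c (w.P + PD)) (hK : KK p K a.c a.P) :
    ((rtB β w a).1 : ℂ) ∈ OO p ∧ ((rtB β w a).2.1 : ℂ) ∈ OO p ∧ ((rtB β w a).2.2 : ℂ) ∈ OO p ∧
    ∃ v ∈ OO p, T2 p β' (DD p * K) G 0 = ((rtB β w a).1 : ℂ) * hh p *
      (1 + ((rtB β w a).2.1 : ℂ) * hh p + (((rtB β w a).2.2 : ℂ) + ((rtB β w a).2.1 : ℂ) ^ 2 / 2) * hh p ^ 2) +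
      xx p ^ 4 * v := by
  have hp2 : 2 < p := by omega
  have hK1 := GK_of_KK p h7 hK
  have hc0 := hG.hc
  have hc := hK1.hc
  have hE1 := E5_mem p h7 hK1.hP
  have hyE := WW_mul p (WW_yy p h7) hE1
  rw [show (1 : ℕ) + 0 = 1 from rfl] at hyE
  have t1 := T2_WW p hp2 β' hG.mem hK1.congr
  rw [show (1 : ℕ) + 7 = 8 from rfl] at t1
  have t2 := T2_WW p hp2 β' hG.congr hyE
  rw [show (7 : ℕ) + 1 = 8 from rfl] at t2
  obtain ⟨v1, hv1, e1⟩ := WW_eval p t1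
  obtain ⟨v2, hv2, e2⟩ := WW_eval p t2
  obtain ⟨v3, hv3, e3⟩ := TB2_root p h7 hβ hG.hP hK1.hP
  have hn : (8 + 1) / 2 = 4 := by norm_num
  rw [hn] at e1 e2
  obtain ⟨hA, hB, hC, hD, hE⟩ := hG.hP
  obtain ⟨hA', hB', hC', hD', hE'⟩ := hK1.hP
  have hβO : (β : ℂ) ∈ OO p := Cg_mem p hβ
  have h2 : (2 : ℂ) ∈ OO p := ofNat_mem (OO p) 2
  have h6 : (6 : ℂ) ∈ OO p := ofNat_mem (OO p) 6
  have h12 : (12 : ℂ) ∈ OO p := ofNat_mem (OO p) 12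
  have h24 : (24 : ℂ) ∈ OO p := ofNat_mem (OO p) 24
  have h60 : (60 : ℂ) ∈ OO p := ofNat_mem (OO p) 60
  refine ⟨?_, ?_, ?_, ?_⟩
  · simp only [rtB]
    push_cast
    exact (OO p).mul_mem ((OO p).mul_mem ((OO p).neg_mem h2) hc0) hc
  · simp only [rtB]
    push_cast
    apply_rules [Subring.pow_mem, Subring.neg_mem, Subring.add_mem, Subring.mul_mem]
  · simp only [rtB]
    push_cast
    apply_rules [Subring.pow_mem, Subring.neg_mem, Subring.add_mem, Subring.mul_mem]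
  · refine ⟨v1 + (a.c : ℂ) * v2 + (a.c : ℂ) * (w.c : ℂ) * v3, ?_, ?_⟩
    · apply_rules [Subring.pow_mem, Subring.neg_mem, Subring.add_mem, Subring.mul_mem]
    · rw [TB2_split p β' (DD p * K) G (yy p * E5 p (a.P + PD)) (yy p * E5 p (w.P + PD)) (a.c : ℂ) (w.c : ℂ),
        Pi.add_apply, Pi.add_apply, Pi.smul_apply, Pi.smul_apply, smul_eq_mul, smul_eq_mul, e1, e2, e3]
      simp only [rtB]
      push_cast
      ring

end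

end Pool.Agent.Lib.MP_f2058c_gt
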