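import Mathlib
import Pool.Agent.Lib.MP_f2058c_gt.TA2
import Pool.Agent.Lib.MP_f2058c_gt.TB2
import Pool.Agent.Lib.MP_f2058c_gt.Cv2

/-!
# The state sum of a rooted tree
-/

set_option autoImplicit false

namespace Pool.Agent.Lib.MP_f2058c_gt

open Finset Forest

noncomputable section

variable (p : ℕ) [Fact p.Prime]

theorem rootAB_erase (f : ZMod p → ℂ) (h0 : f 0 = 0) : ∑ u ∈ univ.erase (0 : ZMod p), f u = ∑ u, f u := by
  rw [← Finset.add_sum_erase univ f (Finset.mem_univ (0 : ZMod p)), h0, zero_add]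

theorem root_A (h7 : 7 ≤ p) (e : ℤ) (F : Forest) (a : Dat) (hR : RepA p F a)
    (hd : ∀ m : ZMod p, Cg p ((e : ℚ) + a.σ) m → m ≠ 0) :
    RootRep p e F (rtA (-1 / ((e : ℚ) + a.σ)) a) := by
  have hp2 : 2 < p := by omega
  have hD : DD p 1 ≠ 0 := DD_ne_zero p hp2 1 one_ne_zero
  have hg : gg p 1 ≠ 0 := gg_ne_zero p hp2 1 one_ne_zero
  obtain ⟨K, σ, ε, hε, hσ, hK, hF⟩ := hR
  have hCd : Cg p ((e : ℚ) + a.σ) ((e : ZMod p) + σ) := Cg_add p (Cg_int p e) hσ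
  have hdn : (e : ZMod p) + σ ≠ 0 := hd _ hCd
  have hs : Cg p (-1 / ((e : ℚ) + a.σ)) (-1 / ((e : ZMod p) + σ)) := Cg_neg_one_div p hCd hdn
  obtain ⟨h0, h1, h2, w, hw, hI⟩ := rootA p h7 hdn hs hK
  obtain ⟨δ, hδ, hgd⟩ : ∃ δ : ℂ, (δ = 1 ∨ δ = -1) ∧ gg p ((e : ZMod p) + σ) = δ * gg p 1 := by
    rcases gg_sign p hp2 _ hdn with h | h
    · exact ⟨1, Or.inl rfl, by rw [h, one_mul]⟩
    · exact ⟨-1, Or.inr rfl, by rw [h]; ring⟩
  refine ⟨_, ε * δ, w, ?_, hw, h0, h1, h2, ?_, hI⟩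
  · rcases hε with rfl | rfl <;> rcases hδ with rfl | rfl <;> norm_num
  · rw [stateSum_eq p hp2]
    have e1 : ∑ u ∈ univ.erase (0 : ZMod p), chi p ((e : ZMod p) * u ^ 2 / 2) *
        DD p u ^ (2 - (Forest.len F : ℤ)) * BF p F u =
        (ε * chi p (-(tr F : ZMod p) / 2) * DD p 1 ^ (-((Forest.card F : ℤ) + Forest.len F)) *
          gg p 1 ^ (Forest.card F : ℤ)) *
        ∑ u, chi p (((e : ZMod p) + σ) * u ^ 2 / 2 + u * 0) * (DD p ^ 2 * K) u := by
      rw [Finset.mul_sum, ← rootAB_erase]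
      · apply Finset.sum_congr rfl
        intro u hu
        have hu0 : u ≠ 0 := (Finset.mem_erase.mp hu).1
        have hDu : DD p u ≠ 0 := DD_ne_zero p hp2 u hu0
        rw [hF u hu0]
        have e2 : chi p (((e : ZMod p) + σ) * u ^ 2 / 2 + u * 0) =
            chi p ((e : ZMod p) * u ^ 2 / 2) * chi p (σ * u ^ 2 / 2) := by
          rw [← chi_add]; congr 1; ring
        have e3 : DD p u ^ (2 - (Forest.len F : ℤ)) * DD p u ^ (Forest.len F : ℤ) = DD p u ^ 2 := by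
          rw [← zpow_add₀ hDu, sub_add_cancel]
          norm_cast
        rw [e2, Pi.mul_apply, Pi.pow_apply]
        linear_combination (chi p ((e : ZMod p) * u ^ 2 / 2) * (ε * chi p (-(tr F : ZMod p) / 2) *
          DD p 1 ^ (-((Forest.card F : ℤ) + Forest.len F)) *
          gg p 1 ^ (Forest.card F : ℤ)) * chi p (σ * u ^ 2 / 2) * K u) * e3
      · simp [DD_zero]
    have e4 : TT p ((e : ZMod p) + σ) (DD p ^ 2 * K) 0 = (gg p ((e : ZMod p) + σ))⁻¹ *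
        ∑ u, chi p (((e : ZMod p) + σ) * u ^ 2 / 2 + u * 0) * (DD p ^ 2 * K) u := by
      rw [TT_apply]
      simp
    have hgd0 : gg p ((e : ZMod p) + σ) ≠ 0 := gg_ne_zero p hp2 _ hdn
    have e5 : ∑ u, chi p (((e : ZMod p) + σ) * u ^ 2 / 2 + u * 0) * (DD p ^ 2 * K) u =
        δ * gg p 1 * TT p ((e : ZMod p) + σ) (DD p ^ 2 * K) 0 := by
      rw [e4, ← hgd, ← mul_assoc, mul_inv_cancel₀ hgd0, one_mul]
    have e6 : chi p (-((e : ZMod p) + (tr F : ZMod p)) / 2) =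
        chi p (-(e : ZMod p) / 2) * chi p (-(tr F : ZMod p) / 2) := by
      rw [← chi_add]; congr 1; ring
    have e7 : DD p 1 ^ (-((Forest.card F : ℤ) + 2)) =
        DD p 1 ^ ((Forest.len F : ℤ) - 2) * DD p 1 ^ (-((Forest.card F : ℤ) + Forest.len F)) := by
      rw [← zpow_add₀ hD]; congr 1; ring
    rw [e1, e5, e6, e7, zpow_add₀ hg, zpow_one]
    ring

theorem root_B (h7 : 7 ≤ p) (e : ℤ) (F : Forest) (w a : Dat) (hR : RepB p F w a) :
    RootRep p e F (rtB ((e : ℚ) + a.σ) w a) := by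
  have hp2 : 2 < p := by omega
  have hD : DD p 1 ≠ 0 := DD_ne_zero p hp2 1 one_ne_zero
  have hg : gg p 1 ≠ 0 := gg_ne_zero p hp2 1 one_ne_zero
  obtain ⟨K, G, σ, ε, hε, hσ, hK, hG, hF⟩ := hR
  have hCd : Cg p ((e : ℚ) + a.σ) ((e : ZMod p) + σ) := Cg_add p (Cg_int p e) hσ
  obtain ⟨h0, h1, h2, v, hv, hI⟩ := rootB p h7 hCd hG hK
  have hp0 : (p : ℂ) ≠ 0 := by exact_mod_cast (Fact.out : p.Prime).ne_zero
  obtain ⟨δ, hδ, hgd⟩ : ∃ δ : ℂ, (δ = 1 ∨ δ = -1) ∧ (p : ℂ) = δ * gg p 1 ^ 2 := by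
    rcases p_eq_gg p hp2 with h | h
    · exact ⟨1, Or.inl rfl, by rw [one_mul]; exact h⟩
    · exact ⟨-1, Or.inr rfl, by rw [neg_one_mul]; exact h⟩
  refine ⟨_, ε * δ, v, ?_, hv, h0, h1, h2, ?_, hI⟩
  · rcases hε with rfl | rfl <;> rcases hδ with rfl | rfl <;> norm_num
  · rw [stateSum_eq p hp2]
    have e1 : ∑ u ∈ univ.erase (0 : ZMod p), chi p ((e : ZMod p) * u ^ 2 / 2) *
        DD p u ^ (2 - (Forest.len F : ℤ)) * BF p F u =
        (ε * chi p (-(tr F : ZMod p) / 2) * DD p 1 ^ (-((Forest.card F : ℤ) + Forest.len F)) *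
          gg p 1 ^ ((Forest.card F : ℤ) - 1)) *
        ∑ u, ∑ w, chi p (w * u + ((e : ZMod p) + σ) * u ^ 2 / 2 + u * 0) * (DD p * K) u * G w := by
      rw [Finset.mul_sum, ← rootAB_erase]
      · apply Finset.sum_congr rfl
        intro u hu
        have hu0 : u ≠ 0 := (Finset.mem_erase.mp hu).1
        have hDu : DD p u ≠ 0 := DD_ne_zero p hp2 u hu0
        rw [hF u hu0]
        have e2 : ∀ w : ZMod p, chi p (w * u + ((e : ZMod p) + σ) * u ^ 2 / 2 + u * 0) * (DD p * K) u * G w =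
            (chi p ((e : ZMod p) * u ^ 2 / 2) * chi p (σ * u ^ 2 / 2) * (DD p * K) u) *
              (chi p (w * u) * G w) := by
          intro w
          have e2' : chi p (w * u + ((e : ZMod p) + σ) * u ^ 2 / 2 + u * 0) =
            chi p ((e : ZMod p) * u ^ 2 / 2) * chi p (σ * u ^ 2 / 2) * chi p (w * u) := by
            rw [← chi_add, ← chi_add]; congr 1; ring
          rw [e2']; ring
        have e3 : DD p u ^ (2 - (Forest.len F : ℤ)) * DD p u ^ ((Forest.len F : ℤ) - 1) = DD p u := by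
          rw [← zpow_add₀ hDu]
          have : (2 - (Forest.len F : ℤ) + ((Forest.len F : ℤ) - 1)) = 1 := by ring
          rw [this, zpow_one]
        simp only [e2]
        rw [← Finset.mul_sum, Pi.mul_apply]
        linear_combination (chi p ((e : ZMod p) * u ^ 2 / 2) * (ε * chi p (-(tr F : ZMod p) / 2) *
          DD p 1 ^ (-((Forest.card F : ℤ) + Forest.len F)) *
          gg p 1 ^ ((Forest.card F : ℤ) - 1)) * chi p (σ * u ^ 2 / 2) * K u * ∑ w, chi p (w * u) * G w) * e3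
      · simp [DD_zero]
    have e5 : ∑ u, ∑ w, chi p (w * u + ((e : ZMod p) + σ) * u ^ 2 / 2 + u * 0) * (DD p * K) u * G w =
        δ * gg p 1 ^ 2 * T2 p ((e : ZMod p) + σ) (DD p * K) G 0 := by
      rw [T2_apply, ← hgd, ← mul_assoc, mul_inv_cancel₀ hp0, one_mul]
    have e6 : chi p (-((e : ZMod p) + (tr F : ZMod p)) / 2) =
        chi p (-(e : ZMod p) / 2) * chi p (-(tr F : ZMod p) / 2) := by
      rw [← chi_add]; congr 1; ring
    have e7 : DD p 1 ^ (-((Forest.card F : ℤ) + 2)) =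
        DD p 1 ^ ((Forest.len F : ℤ) - 2) * DD p 1 ^ (-((Forest.card F : ℤ) + Forest.len F)) := by
      rw [← zpow_add₀ hD]; congr 1; ring
    have e8 : gg p 1 ^ ((Forest.card F : ℤ) + 1) = gg p 1 ^ ((Forest.card F : ℤ) - 1) * gg p 1 ^ 2 := by
      rw [← zpow_natCast (gg p 1) 2, ← zpow_add₀ hg]; congr 1; push_cast; ring
    rw [e1, e5, e6, e7, e8]
    ring

end

end Pool.Agent.Lib.MP_f2058c_gt
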