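import Mathlib
import Pool.Agent.Lib.MP_f2058c_gt.TA2
import Pool.Agent.Lib.MP_f2058c_gt.Cv2

/-!
# JOB TreeA: one tree, case A, and trees with determinant zero

`k = len c`, `D = DD p`, `D1 = DD p 1`, `g = gg p 1`.  `RepA p c a` gives `K, σ, ε` with, for `u ≠ 0`,
`BF c u = ε chi (-tr/2) D1^(-(card+k)) g^card chi (σ u^2/2) D u^k K u`.  Hence for all `a`
`treeval e c a = ε chi (-(e+tr)/2) D1^(-(card+2)) g^card ∑ u ≠ 0, chi ((e+σ) u^2/2 + u a) D u K u`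
(`D u^(1-k) D u^k = D u` for `u ≠ 0`; `D1^(k-2) D1^(-(card+k)) = D1^(-(card+2))`; `chi_add`), and the term at `u = 0`
may be added since `D 0 = 0`.  (This is `treeval_sum`, used for both theorems.)
* `tree_A`: `d = e + σ` (`Cg_add`, `Cg_int`), `d ≠ 0` by hypothesis.  By definition of `TT` (`TT_apply`)
  `∑ u, chi (d u^2/2 + u a) (D u K u) = gg d * chi (-(a^2/(2 d))) * TT d (DD * K) a` (`gg_ne_zero`, `chi_neg_mul`);
  `-(a^2/(2d)) = (-1/d) a^2/2`; `gg d = gg 1` or `-gg 1` (`gg_sign`); `stepA` gives `TT d (DD*K) a = D a K' a`.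
  The new `σ` is `-1/d`, with `Cg p (-1/(e + a.σ)) (-1/d)` (`Cg_neg_one_div`).
* `tree_Z`: `e + a.σ = 0` so `Cg p 0 (e + σ)` and `e + σ = 0` (`Cg_zero`); the sum is `∑ u, chi (u a) (DD * K) u`;
  `G = DD * K` with `GK_of_KK`.
-/

set_option autoImplicit false

namespace Pool.Agent.Lib.MP_f2058c_gt

open Finset Forest

noncomputable section

variable (p : ℕ) [Fact p.Prime]

theorem treeval_sum (hp : 2 < p) (e : ℤ) (c : Forest) (K : ZMod p → ℂ) (σ : ZMod p) (ε : ℂ)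
    (h : ∀ u : ZMod p, u ≠ 0 → BF p c u = ε * chi p (-(tr c : ZMod p) / 2) *
      DD p 1 ^ (-((card c : ℤ) + len c)) * gg p 1 ^ (card c : ℤ) * chi p (σ * u ^ 2 / 2) *
      DD p u ^ (len c : ℤ) * K u) (a : ZMod p) :
    treeval p e c a = ε * chi p (-((e : ZMod p) + (tr c : ZMod p)) / 2) * DD p 1 ^ (-((card c : ℤ) + 2)) *
      gg p 1 ^ (card c : ℤ) * ∑ u, chi p (((e : ZMod p) + σ) * u ^ 2 / 2 + u * a) * (DD p u * K u) := by
  have hD1 : DD p 1 ≠ 0 := DD_ne_zero p hp 1 one_ne_zero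
  have hsum : ∑ u ∈ univ.erase (0 : ZMod p), chi p ((e : ZMod p) * u ^ 2 / 2 + u * a) *
      DD p u ^ (1 - (len c : ℤ)) * BF p c u =
      (ε * chi p (-(tr c : ZMod p) / 2) * DD p 1 ^ (-((card c : ℤ) + len c)) * gg p 1 ^ (card c : ℤ)) *
        ∑ u, chi p (((e : ZMod p) + σ) * u ^ 2 / 2 + u * a) * (DD p u * K u) := by
    rw [← sum_erase (s := univ) (a := (0 : ZMod p)) (f := fun u =>
      chi p (((e : ZMod p) + σ) * u ^ 2 / 2 + u * a) * (DD p u * K u)) (by simp), mul_sum]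
    refine sum_congr rfl fun u hu => ?_
    have hu0 : u ≠ 0 := (mem_erase.1 hu).1
    have hDu : DD p u ≠ 0 := DD_ne_zero p hp u hu0
    rw [h u hu0]
    have e1 : chi p (((e : ZMod p) + σ) * u ^ 2 / 2 + u * a) =
        chi p ((e : ZMod p) * u ^ 2 / 2 + u * a) * chi p (σ * u ^ 2 / 2) := by
      rw [← chi_add]
      congr 1
      rw [add_mul, add_div]
      abel
    have e2 : DD p u ^ (1 - (len c : ℤ)) * DD p u ^ (len c : ℤ) = DD p u := by
      rw [← zpow_add₀ hDu, sub_add_cancel, zpow_one]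
    rw [e1]
    calc chi p ((e : ZMod p) * u ^ 2 / 2 + u * a) * DD p u ^ (1 - (len c : ℤ)) *
          (ε * chi p (-(tr c : ZMod p) / 2) * DD p 1 ^ (-((card c : ℤ) + len c)) *
            gg p 1 ^ (card c : ℤ) * chi p (σ * u ^ 2 / 2) * DD p u ^ (len c : ℤ) * K u)
        = (ε * chi p (-(tr c : ZMod p) / 2) * DD p 1 ^ (-((card c : ℤ) + len c)) *
            gg p 1 ^ (card c : ℤ)) * (chi p ((e : ZMod p) * u ^ 2 / 2 + u * a) * chi p (σ * u ^ 2 / 2) *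
            ((DD p u ^ (1 - (len c : ℤ)) * DD p u ^ (len c : ℤ)) * K u)) := by ring
      _ = _ := by rw [e2]
  unfold treeval
  rw [hsum]
  have e3 : chi p (-((e : ZMod p) + (tr c : ZMod p)) / 2) =
      chi p (-(e : ZMod p) / 2) * chi p (-(tr c : ZMod p) / 2) := by
    rw [← chi_add]
    congr 1
    rw [← add_div, neg_add]
  have e4 : DD p 1 ^ ((len c : ℤ) - 2) * DD p 1 ^ (-((card c : ℤ) + len c)) =
      DD p 1 ^ (-((card c : ℤ) + 2)) := by
    rw [← zpow_add₀ hD1]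
    congr 1
    ring
  rw [e3, ← e4]
  ring

theorem tree_A (h7 : 7 ≤ p) (e : ℤ) (c : Forest) (a : Dat) (hR : RepA p c a)
    (hd : ∀ m : ZMod p, Cg p ((e : ℚ) + a.σ) m → m ≠ 0) :
    TreeReg p e c (-1 / ((e : ℚ) + a.σ)) (a.c * (-1 / ((e : ℚ) + a.σ)))
      (transA (-1 / ((e : ℚ) + a.σ)) (a.P + PD)).hat := by
  have hp : 2 < p := by omega
  obtain ⟨K, σ, ε, hε, hσ, hK, hBF⟩ := hR
  have hC : Cg p ((e : ℚ) + a.σ) ((e : ZMod p) + σ) := Cg_add p (Cg_int p e) hσ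
  have hd0 : (e : ZMod p) + σ ≠ 0 := hd _ hC
  have hs : Cg p (-1 / ((e : ℚ) + a.σ)) (-1 / ((e : ZMod p) + σ)) := Cg_neg_one_div p hC hd0
  obtain ⟨K', hK', hT⟩ := stepA p h7 hd0 hs hK
  set d : ZMod p := (e : ZMod p) + σ with hdd
  obtain ⟨δ, hδ, hgd⟩ : ∃ δ : ℂ, (δ = 1 ∨ δ = -1) ∧ gg p d = δ * gg p 1 := by
    rcases gg_sign p hp d hd0 with h1 | h1
    · exact ⟨1, Or.inl rfl, by rw [h1, one_mul]⟩
    · exact ⟨-1, Or.inr rfl, by rw [h1, neg_one_mul]⟩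
  have hg1 : gg p 1 ≠ 0 := gg_ne_zero p hp 1 one_ne_zero
  have hgdn : gg p d ≠ 0 := gg_ne_zero p hp d hd0
  refine ⟨K', -1 / d, ε * δ, ?_, hs, hK', fun x => ?_⟩
  · rcases hε with h1 | h1 <;> rcases hδ with h2 | h2 <;> rw [h1, h2] <;> norm_num
  · rw [treeval_sum p hp e c K σ ε hBF x, ← hdd]
    have h1 := TT_apply p d (DD p * K) x
    have h2 : ∑ u, chi p (d * u ^ 2 / 2 + u * x) * (DD p u * K u) =
        gg p d * chi p (-(x ^ 2 / (2 * d))) * TT p d (DD p * K) x := by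
      rw [h1]
      have h3 := chi_neg_mul p (x ^ 2 / (2 * d))
      simp only [Pi.mul_apply]
      calc ∑ u, chi p (d * u ^ 2 / 2 + u * x) * (DD p u * K u)
          = (gg p d * (gg p d)⁻¹) * (chi p (-(x ^ 2 / (2 * d))) * chi p (x ^ 2 / (2 * d))) *
            ∑ u, chi p (d * u ^ 2 / 2 + u * x) * (DD p u * K u) := by
            rw [h3, mul_inv_cancel₀ hgdn, one_mul, one_mul]
        _ = _ := by ring
    have h4 : -1 / d * x ^ 2 / 2 = -(x ^ 2 / (2 * d)) := by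
      rw [neg_div, neg_mul, neg_div, one_div, div_eq_mul_inv, div_eq_mul_inv, mul_inv]
      congr 1
      ring
    have h5 : gg p 1 ^ ((card c : ℤ) + 1) = gg p 1 ^ (card c : ℤ) * gg p 1 := zpow_add_one₀ hg1 _
    rw [h2, hT x, hgd, h4, h5]
    ring

theorem tree_Z (h7 : 7 ≤ p) (e : ℤ) (c : Forest) (a : Dat) (hR : RepA p c a) (h0 : (e : ℚ) + a.σ = 0) :
    TreeZero p e c a := by
  have hp : 2 < p := by omega
  obtain ⟨K, σ, ε, hε, hσ, hK, hBF⟩ := hR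
  have hC : Cg p ((e : ℚ) + a.σ) ((e : ZMod p) + σ) := Cg_add p (Cg_int p e) hσ
  rw [h0] at hC
  have hd0 : (e : ZMod p) + σ = 0 := Cg_zero p hC
  refine ⟨DD p * K, ε, hε, GK_of_KK p h7 hK, fun x => ?_⟩
  rw [treeval_sum p hp e c K σ ε hBF x, hd0]
  simp only [Pi.mul_apply, zero_mul, zero_div, zero_add]

end

end Pool.Agent.Lib.MP_f2058c_gt
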