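import Mathlib
import Pool.Agent.Lib.MP_f2058c_gt.TB2
import Pool.Agent.Lib.MP_f2058c_gt.Cv2

/-!
# JOB TreeB: one tree, case B

`k = len c`, `D = DD p`, `D1 = DD p 1`, `g = gg p 1`.  `RepB p c w a` gives `K, G, σ, ε` with, for `u ≠ 0`,
`BF c u = ε chi (-tr/2) D1^(-(card+k)) g^(card-1) chi (σ u^2/2) D u^(k-1) K u ∑ w, chi (w u) G w`.  Hence
`treeval e c a = ε chi (-(e+tr)/2) D1^(-(card+2)) g^(card-1) ∑ u ≠ 0, chi (β u^2/2 + u a) K u ∑ w, chi (w u) G w`, `β = e + σ`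
(`D u^(1-k) D u^(k-1) = 1` for `u ≠ 0`).  The term at `u = 0` may be added: `∑ w, chi 0 G w = ∑ w, G w = 0` since `G` is odd.
The double sum is `p T2 β K G a` (`T2_apply`, `(p : ℂ) ≠ 0`), and `p = ± g^2` (`p_eq_gg`), so
`g^(card-1) p = ± g^(card+1)` (`gg_ne_zero`, zpow).  `stepB` (with `Cg p (e + a.σ) β` from `Cg_add`, `Cg_int`) gives
`T2 β K G a = D a K' a`.  The new `σ` is `0`: `Cg_zero_zero`, `chi (0 * a^2/2) = 1`.
-/

set_option autoImplicit false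

namespace Pool.Agent.Lib.MP_f2058c_gt

open Finset Forest

noncomputable section

variable (p : ℕ) [Fact p.Prime]

theorem tree_B (h7 : 7 ≤ p) (e : ℤ) (c : Forest) (w a : Dat) (hR : RepB p c w a) :
    TreeReg p e c 0 (-(w.c * a.c)) (transB ((e : ℚ) + a.σ) (w.P + PD) a.P).hat := by
  obtain ⟨K, G, σ, ε, hε, hσ, hK, hG, hBF⟩ := hR
  have hp : 2 < p := by omega
  have hβ : Cg p ((e : ℚ) + a.σ) ((e : ZMod p) + σ) := Cg_add p (Cg_int p e) hσ
  obtain ⟨K', hK', hT⟩ := stepB p h7 hβ hG hK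
  obtain ⟨η, hη, hpη⟩ : ∃ η : ℂ, (η = 1 ∨ η = -1) ∧ (p : ℂ) = η * gg p 1 ^ 2 := by
    rcases p_eq_gg p hp with h | h
    · exact ⟨1, Or.inl rfl, by rw [one_mul]; exact h⟩
    · exact ⟨-1, Or.inr rfl, by rw [h]; ring⟩
  refine ⟨K', 0, ε * η, ?_, Cg_zero_zero p, hK', ?_⟩
  · rcases hε with rfl | rfl <;> rcases hη with rfl | rfl <;> simp
  intro x
  have hD1 : DD p 1 ≠ 0 := DD_ne_zero p hp 1 one_ne_zero
  have hg : gg p 1 ≠ 0 := gg_ne_zero p hp 1 one_ne_zero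
  have hp0 : (p : ℂ) ≠ 0 := Nat.cast_ne_zero.mpr (by omega)
  have hG0 : ∑ w, G w = 0 := by
    have h1 : ∑ w, G (-w) = ∑ w, G w := Fintype.sum_equiv (Equiv.neg _) _ _ (fun _ => rfl)
    have h2 : ∑ w, G (-w) = -∑ w, G w := by
      simp only [hG.odd, Finset.sum_neg_distrib]
    exact self_eq_neg.mp (h1.symm.trans h2)
  set S : ZMod p → ℂ := fun u =>
    ∑ w, chi p (w * u + ((e : ZMod p) + σ) * u ^ 2 / 2 + u * x) * K u * G w with hS
  have hS0 : S 0 = 0 := by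
    have h1 : ∀ w : ZMod p, chi p (w * 0 + ((e : ZMod p) + σ) * 0 ^ 2 / 2 + 0 * x) * K 0 * G w =
        K 0 * G w := by
      intro w
      have h2 : w * 0 + ((e : ZMod p) + σ) * 0 ^ 2 / 2 + 0 * x = 0 := by ring
      rw [h2, chi_zero, one_mul]
    rw [hS]
    simp only [h1]
    rw [← Finset.mul_sum, hG0, mul_zero]
  have hsum : ∑ u, S u = p * (DD p x * K' x) := by
    rw [← hT x, T2_apply, mul_inv_cancel_left₀ hp0]
  set Cc : ℂ := ε * chi p (-(tr c : ZMod p) / 2) * DD p 1 ^ (-((card c : ℤ) + len c)) *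
    gg p 1 ^ ((card c : ℤ) - 1) with hCc
  have hterm : ∀ u ∈ univ.erase (0 : ZMod p), chi p ((e : ZMod p) * u ^ 2 / 2 + u * x) *
      DD p u ^ (1 - (len c : ℤ)) * BF p c u = Cc * S u := by
    intro u hu
    have hu0 : u ≠ 0 := (Finset.mem_erase.mp hu).1
    have hDu : DD p u ≠ 0 := DD_ne_zero p hp u hu0
    rw [hBF u hu0, hCc, hS]
    have h1 : DD p u ^ (1 - (len c : ℤ)) * DD p u ^ ((len c : ℤ) - 1) = 1 := by
      rw [← zpow_add₀ hDu]
      have h2 : 1 - (len c : ℤ) + ((len c : ℤ) - 1) = 0 := by ring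
      rw [h2, zpow_zero]
    have h3 : ∀ w : ZMod p, chi p (w * u + ((e : ZMod p) + σ) * u ^ 2 / 2 + u * x) * K u * G w =
        chi p ((e : ZMod p) * u ^ 2 / 2 + u * x) * chi p (σ * u ^ 2 / 2) * K u *
          (chi p (w * u) * G w) := by
      intro w
      have h4 : w * u + ((e : ZMod p) + σ) * u ^ 2 / 2 + u * x =
          ((e : ZMod p) * u ^ 2 / 2 + u * x) + σ * u ^ 2 / 2 + w * u := by ring
      rw [h4, chi_add, chi_add]
      ring
    simp only [h3]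
    rw [← Finset.mul_sum]
    linear_combination (chi p ((e : ZMod p) * u ^ 2 / 2 + u * x) * (ε * chi p (-(tr c : ZMod p) / 2) *
      DD p 1 ^ (-((card c : ℤ) + len c)) * gg p 1 ^ ((card c : ℤ) - 1) * chi p (σ * u ^ 2 / 2) *
      K u * ∑ w, chi p (w * u) * G w)) * h1
  unfold treeval
  rw [Finset.sum_congr rfl hterm, ← Finset.mul_sum, Finset.sum_erase _ hS0, hsum]
  have hchi : chi p (-((e : ZMod p) + (tr c : ZMod p)) / 2) =
      chi p (-(e : ZMod p) / 2) * chi p (-(tr c : ZMod p) / 2) := by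
    rw [← chi_add]
    congr 1
    ring
  have hDD : DD p 1 ^ (-((card c : ℤ) + 2)) =
      DD p 1 ^ ((len c : ℤ) - 2) * DD p 1 ^ (-((card c : ℤ) + len c)) := by
    rw [← zpow_add₀ hD1]
    congr 1
    ring
  have hgg : gg p 1 ^ ((card c : ℤ) + 1) = gg p 1 ^ ((card c : ℤ) - 1) * gg p 1 ^ 2 := by
    rw [← zpow_natCast (gg p 1) 2, ← zpow_add₀ hg]
    congr 1
    push_cast
    ring
  have h0 : (0 : ZMod p) * x ^ 2 / 2 = 0 := by
    rw [zero_mul, zero_div]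
  rw [h0, chi_zero, hchi, hDD, hgg, hCc, hpη]
  ring

end

end Pool.Agent.Lib.MP_f2058c_gt
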