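import Mathlib
import Pool.Agent.Lib.MP_f2058c_gt.TreeA
import Pool.Agent.Lib.MP_f2058c_gt.TreeB
import Pool.Agent.Lib.MP_f2058c_gt.Comb
import Pool.Agent.Lib.MP_f2058c_gt.RootAB
import Pool.Agent.Lib.MP_f2058c_gt.FdPQ

/-!
# The induction over forests
-/

set_option autoImplicit false

namespace Pool.Agent.Lib.MP_f2058c_gt

open Finset Forest

noncomputable section

/-- The representation given by the data. -/
def RepF (p : ℕ) [Fact p.Prime] (F : Forest) : Prop :=
  match (fd F).2 with
  | none => RepA p F (fd F).1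
  | some w => RepB p F w (fd F).1

theorem repF_none {p : ℕ} [Fact p.Prime] {F : Forest} (h : (fd F).2 = none) (hR : RepF p F) :
    RepA p F (fd F).1 := by
  unfold RepF at hR
  rw [h] at hR
  exact hR

theorem repF_some {p : ℕ} [Fact p.Prime] {F : Forest} {w : Dat} (h : (fd F).2 = some w) (hR : RepF p F) :
    RepB p F w (fd F).1 := by
  unfold RepF at hR
  rw [h] at hR
  exact hR

theorem repF_of {p : ℕ} [Fact p.Prime] {F : Forest} {a : Dat} {z : Option Dat} (h : fd F = (a, z))
    (hA : z = none → RepA p F a) (hB : ∀ w, z = some w → RepB p F w a) : RepF p F := by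
  unfold RepF
  rw [h]
  cases z with
  | none => exact hA rfl
  | some w => exact hB w rfl

theorem rep_nil (p : ℕ) [Fact p.Prime] (h7 : 7 ≤ p) : RepF p Forest.nil := by
  refine repF_of (a := ⟨0, 1, ⟨0, 0, 0, 0, 0⟩, 0⟩) (z := none) rfl ?_ ?_
  · intro _
    refine ⟨1, 0, 1, Or.inl rfl, Cg_zero_zero p, KK_one p h7, ?_⟩
    intro u hu
    simp [BF, Forest.tr, Forest.card, Forest.len]
  · intro w hw
    exact absurd hw (by simp)

theorem rep_all (F : Forest) (h : Cop F) : ∃ N : ℕ, ∀ (p : ℕ) [Fact p.Prime], N ≤ p → RepF p F := by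
  induction F with
  | nil => exact ⟨7, fun p _ hp => rep_nil p hp⟩
  | cons e c s ihc ihs =>
    obtain ⟨hc, hs⟩ := Cop_cons h
    obtain ⟨N1, h1⟩ := ihc hc
    obtain ⟨N2, h2⟩ := ihs hs
    cases hz : (fd c).2 with
    | none =>
      by_cases h0 : (e : ℚ) + (fd c).1.σ = 0
      · have hsn := fd_zero h hz h0
        refine ⟨max 7 (max N1 N2), fun p _ hp => ?_⟩
        have h7 : 7 ≤ p := le_trans (le_max_left _ _) hp
        have hN1 : N1 ≤ p := le_trans (le_trans (le_max_left _ _) (le_max_right _ _)) hp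
        have hN2 : N2 ≤ p := le_trans (le_trans (le_max_right _ _) (le_max_right _ _)) hp
        have hfd : fd (Forest.cons e c s) = ((fd s).1, some (fd c).1) := by
          simp only [fd, hz, if_pos h0]
        refine repF_of hfd (fun hh => absurd hh (by simp)) ?_
        intro w hw
        have hw' : (fd c).1 = w := by simpa using hw
        rw [← hw']
        exact comb_ZA p h7 (tree_Z p h7 e c _ (repF_none hz (h1 p hN1)) h0) (repF_none hsn (h2 p hN2))
      · obtain ⟨N3, h3⟩ := Cg_ne _ h0
        refine ⟨max (max 7 N3) (max N1 N2), fun p _ hp => ?_⟩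
        have h7 : 7 ≤ p := le_trans (le_trans (le_max_left _ _) (le_max_left _ _)) hp
        have hN3 : N3 ≤ p := le_trans (le_trans (le_max_right _ _) (le_max_left _ _)) hp
        have hN1 : N1 ≤ p := le_trans (le_trans (le_max_left _ _) (le_max_right _ _)) hp
        have hN2 : N2 ≤ p := le_trans (le_trans (le_max_right _ _) (le_max_right _ _)) hp
        have hT := tree_A p h7 e c _ (repF_none hz (h1 p hN1)) (h3 p hN3)
        have hfd : fd (Forest.cons e c s) =
            (addTree (fd s).1 (-1 / ((e : ℚ) + (fd c).1.σ)) ((fd c).1.c * (-1 / ((e : ℚ) + (fd c).1.σ)))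
              (transA (-1 / ((e : ℚ) + (fd c).1.σ)) ((fd c).1.P + PD)).hat, (fd s).2) := by
          simp only [fd, hz, if_neg h0]
        refine repF_of hfd (fun hh => ?_) (fun w hw => ?_)
        · exact comb_AA p h7 hT (repF_none hh (h2 p hN2))
        · exact comb_AB p h7 hT (repF_some hw (h2 p hN2))
    | some v =>
      refine ⟨max 7 (max N1 N2), fun p _ hp => ?_⟩
      have h7 : 7 ≤ p := le_trans (le_max_left _ _) hp
      have hN1 : N1 ≤ p := le_trans (le_trans (le_max_left _ _) (le_max_right _ _)) hp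
      have hN2 : N2 ≤ p := le_trans (le_trans (le_max_right _ _) (le_max_right _ _)) hp
      have hT := tree_B p h7 e c v _ (repF_some hz (h1 p hN1))
      have hfd : fd (Forest.cons e c s) =
          (addTree (fd s).1 0 (-(v.c * (fd c).1.c))
            (transB ((e : ℚ) + (fd c).1.σ) (v.P + PD) (fd c).1.P).hat, (fd s).2) := by
        simp only [fd, hz]
      refine repF_of hfd (fun hh => ?_) (fun w hw => ?_)
      · exact comb_AA p h7 hT (repF_none hh (h2 p hN2))
      · exact comb_AB p h7 hT (repF_some hw (h2 p hN2))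

theorem root_all (e : ℤ) (F : Forest) (h : |det e F| = 1) :
    ∃ N : ℕ, ∀ (p : ℕ) [Fact p.Prime], N ≤ p → RootRep p e F (rt e F) := by
  have hC := Cop_of_det h
  obtain ⟨N1, h1⟩ := rep_all F hC
  cases hz : (fd F).2 with
  | none =>
    obtain ⟨hP, hσ⟩ := fd_none hC hz
    have hPq : ((PQ F).1 : ℚ) ≠ 0 := by exact_mod_cast hP
    have h0 : (e : ℚ) + (fd F).1.σ ≠ 0 := by
      rw [hσ]
      intro h0
      have h2 : ((e * (PQ F).1 - (PQ F).2 : ℤ) : ℚ) = 0 := by
        push_cast
        field_simp at h0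
        linarith
      have h3 : det e F = 0 := by
        have : e * (PQ F).1 - (PQ F).2 = 0 := by exact_mod_cast h2
        exact this
      rw [h3] at h
      simp at h
    obtain ⟨N3, h3⟩ := Cg_ne _ h0
    refine ⟨max (max 7 N3) N1, fun p _ hp => ?_⟩
    have h7 : 7 ≤ p := le_trans (le_trans (le_max_left _ _) (le_max_left _ _)) hp
    have hN3 : N3 ≤ p := le_trans (le_trans (le_max_right _ _) (le_max_left _ _)) hp
    have hN1 : N1 ≤ p := le_trans (le_max_right _ _) hp
    have hrt : rt e F = rtA (-1 / ((e : ℚ) + (fd F).1.σ)) (fd F).1 := by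
      simp only [rt, hz]
    rw [hrt]
    exact root_A p h7 e F _ (repF_none hz (h1 p hN1)) (h3 p hN3)
  | some w =>
    refine ⟨max 7 N1, fun p _ hp => ?_⟩
    have h7 : 7 ≤ p := le_trans (le_max_left _ _) hp
    have hN1 : N1 ≤ p := le_trans (le_max_right _ _) hp
    have hrt : rt e F = rtB ((e : ℚ) + (fd F).1.σ) w (fd F).1 := by
      simp only [rt, hz]
    rw [hrt]
    exact root_B p h7 e F w _ (repF_some hz (h1 p hN1))

end

end Pool.Agent.Lib.MP_f2058c_gt
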