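import Mathlib
import Pool.Agent.Lib.MP_f2058c_gt.MainInd

/-!
# Products over a list of trees
-/

set_option autoImplicit false

namespace Pool.Agent.Lib.MP_f2058c_gt

open Finset Forest

noncomputable section

/-- Number of vertices of all the trees. -/
def cardL (L : List (ℤ × Forest)) : ℕ := (L.map fun T => Forest.card T.2 + 1).sum

/-- Sum of all weights. -/
def trL (L : List (ℤ × Forest)) : ℤ := (L.map fun T => T.1 + tr T.2).sum

def C0L (L : List (ℤ × Forest)) : ℚ := (L.map fun T => (rt T.1 T.2).1).prod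

def C1L (L : List (ℤ × Forest)) : ℚ := (L.map fun T => (rt T.1 T.2).2.1).sum

def C2L (L : List (ℤ × Forest)) : ℚ := (L.map fun T => (rt T.1 T.2).2.2).sum

/-- The product of two expansions. -/
theorem fin1_mul {p : ℕ} [Fact p.Prime] (h7 : 7 ≤ p) {a c1 c2 C0 C1 C2 w w' : ℂ} {n : ℕ} (ha : a ∈ OO p)
    (hc1 : c1 ∈ OO p) (hc2 : c2 ∈ OO p) (hC0 : C0 ∈ OO p) (hC1 : C1 ∈ OO p) (hC2 : C2 ∈ OO p)
    (hw : w ∈ OO p) (hw' : w' ∈ OO p) :
    ∃ w'' ∈ OO p, (a * hh p * (1 + c1 * hh p + (c2 + c1 ^ 2 / 2) * hh p ^ 2) + xx p ^ 4 * w) *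
      (C0 * hh p ^ n * (1 + C1 * hh p + (C2 + C1 ^ 2 / 2) * hh p ^ 2) + xx p ^ (n + 3) * w') =
      a * C0 * hh p ^ (n + 1) * (1 + (c1 + C1) * hh p + ((c2 + C2) + (c1 + C1) ^ 2 / 2) * hh p ^ 2) +
        xx p ^ (n + 1 + 3) * w'' := by
  obtain ⟨v, hv, hhv⟩ := hh_eq p h7
  have hh2 : (2 : ℂ)⁻¹ ∈ OO p := inv_two_mem p h7
  have hx : xx p ∈ OO p := xx_mem p
  have hhm : hh p ∈ OO p := hh_mem p h7
  have hA : c2 + c1 ^ 2 / 2 ∈ OO p := by
    rw [div_eq_mul_inv]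
    exact (OO p).add_mem hc2 ((OO p).mul_mem ((OO p).pow_mem hc1 2) hh2)
  have hB : C2 + C1 ^ 2 / 2 ∈ OO p := by
    rw [div_eq_mul_inv]
    exact (OO p).add_mem hC2 ((OO p).mul_mem ((OO p).pow_mem hC1 2) hh2)
  have hA' : 1 + c1 * hh p + (c2 + c1 ^ 2 / 2) * hh p ^ 2 ∈ OO p :=
    (OO p).add_mem ((OO p).add_mem (OO p).one_mem ((OO p).mul_mem hc1 hhm))
      ((OO p).mul_mem hA ((OO p).pow_mem hhm 2))
  have hB' : 1 + C1 * hh p + (C2 + C1 ^ 2 / 2) * hh p ^ 2 ∈ OO p :=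
    (OO p).add_mem ((OO p).add_mem (OO p).one_mem ((OO p).mul_mem hC1 hhm))
      ((OO p).mul_mem hB ((OO p).pow_mem hhm 2))
  refine ⟨a * C0 * v ^ (n + 1) * v ^ 3 *
      (c1 * (C2 + C1 ^ 2 / 2) + C1 * (c2 + c1 ^ 2 / 2) + (c2 + c1 ^ 2 / 2) * (C2 + C1 ^ 2 / 2) * hh p) +
      a * v * (1 + c1 * hh p + (c2 + c1 ^ 2 / 2) * hh p ^ 2) * w' +
      w * (C0 * v ^ n * (1 + C1 * hh p + (C2 + C1 ^ 2 / 2) * hh p ^ 2) + xx p ^ 3 * w'), ?_, ?_⟩
  · refine (OO p).add_mem ((OO p).add_mem ?_ ?_) ?_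
    · refine (OO p).mul_mem ((OO p).mul_mem ((OO p).mul_mem ((OO p).mul_mem ha hC0) ((OO p).pow_mem hv _))
        ((OO p).pow_mem hv _)) ?_
      exact (OO p).add_mem ((OO p).add_mem ((OO p).mul_mem hc1 hB) ((OO p).mul_mem hC1 hA))
        ((OO p).mul_mem ((OO p).mul_mem hA hB) hhm)
    · exact (OO p).mul_mem ((OO p).mul_mem ((OO p).mul_mem ha hv) hA') hw'
    · refine (OO p).mul_mem hw ((OO p).add_mem ?_ ((OO p).mul_mem ((OO p).pow_mem hx 3) hw'))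
      exact (OO p).mul_mem ((OO p).mul_mem hC0 ((OO p).pow_mem hv n)) hB'
  · have e1 : xx p ^ (n + 1 + 3) * (a * C0 * v ^ (n + 1) * v ^ 3 *
      (c1 * (C2 + C1 ^ 2 / 2) + C1 * (c2 + c1 ^ 2 / 2) + (c2 + c1 ^ 2 / 2) * (C2 + C1 ^ 2 / 2) * hh p)) =
      a * C0 * hh p ^ (n + 1) * hh p ^ 3 *
      (c1 * (C2 + C1 ^ 2 / 2) + C1 * (c2 + c1 ^ 2 / 2) + (c2 + c1 ^ 2 / 2) * (C2 + C1 ^ 2 / 2) * hh p) := by
      have e2 : hh p ^ (n + 1) * hh p ^ 3 = xx p ^ (n + 1 + 3) * (v ^ (n + 1) * v ^ 3) := by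
        rw [← pow_add, ← pow_add, ← mul_pow, ← hhv]
      linear_combination -(a * C0 * (c1 * (C2 + C1 ^ 2 / 2) + C1 * (c2 + c1 ^ 2 / 2) +
        (c2 + c1 ^ 2 / 2) * (C2 + C1 ^ 2 / 2) * hh p)) * e2
    have e3 : xx p ^ (n + 1 + 3) * (a * v * (1 + c1 * hh p + (c2 + c1 ^ 2 / 2) * hh p ^ 2) * w') =
        a * hh p * (1 + c1 * hh p + (c2 + c1 ^ 2 / 2) * hh p ^ 2) * (xx p ^ (n + 3) * w') := by
      have e4 : xx p ^ (n + 1 + 3) * v = hh p * xx p ^ (n + 3) := by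
        rw [hhv]; ring
      linear_combination (a * (1 + c1 * hh p + (c2 + c1 ^ 2 / 2) * hh p ^ 2) * w') * e4
    have e5 : xx p ^ (n + 1 + 3) * (w * (C0 * v ^ n * (1 + C1 * hh p + (C2 + C1 ^ 2 / 2) * hh p ^ 2) +
        xx p ^ 3 * w')) = xx p ^ 4 * w * (C0 * hh p ^ n * (1 + C1 * hh p + (C2 + C1 ^ 2 / 2) * hh p ^ 2) +
          xx p ^ (n + 3) * w') := by
      have e6 : xx p ^ n * v ^ n = hh p ^ n := by rw [← mul_pow, ← hhv]
      linear_combination (xx p ^ 4 * w * C0 * (1 + C1 * hh p + (C2 + C1 ^ 2 / 2) * hh p ^ 2)) * e6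
    linear_combination -e1 - e3 - e5

theorem list_rep (L : List (ℤ × Forest)) (h : ∀ T ∈ L, |det T.1 T.2| = 1) :
    ∃ N : ℕ, ∀ (p : ℕ) [Fact p.Prime], N ≤ p → ∃ (J ε w : ℂ), (ε = 1 ∨ ε = -1) ∧ w ∈ OO p ∧
      (C0L L : ℂ) ∈ OO p ∧ (C1L L : ℂ) ∈ OO p ∧ (C2L L : ℂ) ∈ OO p ∧
      (L.map fun T => stateSum p T.1 T.2).prod = ε * (1 / 2) ^ L.length * chi p (-(trL L : ZMod p) / 2) *
        DD p 1 ^ (-((cardL L : ℤ) + L.length)) * gg p 1 ^ (cardL L : ℤ) * J ∧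
      J = (C0L L : ℂ) * hh p ^ L.length * (1 + (C1L L : ℂ) * hh p +
        ((C2L L : ℂ) + (C1L L : ℂ) ^ 2 / 2) * hh p ^ 2) + xx p ^ (L.length + 3) * w := by
  induction L with
  | nil =>
    refine ⟨7, fun p _ hp => ⟨1, 1, 0, Or.inl rfl, (OO p).zero_mem, ?_, ?_, ?_, ?_, ?_⟩⟩
    · simp [C0L]
    · simp [C1L]
    · simp [C2L]
    · simp [trL, cardL]
    · simp [C0L, C1L, C2L]
  | cons T L ih =>
    obtain ⟨N1, h1⟩ := ih (fun T' hT' => h T' (List.mem_cons_of_mem _ hT'))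
    obtain ⟨N2, h2⟩ := root_all T.1 T.2 (h T (by simp))
    refine ⟨max 7 (max N1 N2), fun p _ hp => ?_⟩
    have h7 : 7 ≤ p := le_trans (le_max_left _ _) hp
    have hN1 : N1 ≤ p := le_trans (le_trans (le_max_left _ _) (le_max_right _ _)) hp
    have hN2 : N2 ≤ p := le_trans (le_trans (le_max_right _ _) (le_max_right _ _)) hp
    have hp2 : 2 < p := by omega
    have hD : DD p 1 ≠ 0 := DD_ne_zero p hp2 1 one_ne_zero
    have hg : gg p 1 ≠ 0 := gg_ne_zero p hp2 1 one_ne_zero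
    obtain ⟨J, ε, w, hε, hw, hC0, hC1, hC2, hprod, hJ⟩ := h1 p hN1
    obtain ⟨I, δ, u, hδ, hu, hc0, hc1, hc2, hss, hI⟩ := h2 p hN2
    obtain ⟨w'', hw'', hmul⟩ := fin1_mul (n := L.length) h7 hc0 hc1 hc2 hC0 hC1 hC2 hu hw
    have g0 : (C0L (T :: L) : ℂ) = ((rt T.1 T.2).1 : ℂ) * (C0L L : ℂ) := by simp [C0L]
    have g1 : (C1L (T :: L) : ℂ) = ((rt T.1 T.2).2.1 : ℂ) + (C1L L : ℂ) := by simp [C1L]
    have g2 : (C2L (T :: L) : ℂ) = ((rt T.1 T.2).2.2 : ℂ) + (C2L L : ℂ) := by simp [C2L]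
    refine ⟨I * J, δ * ε, w'', ?_, hw'', ?_, ?_, ?_, ?_, ?_⟩
    · rcases hε with rfl | rfl <;> rcases hδ with rfl | rfl <;> norm_num
    · rw [g0]; exact (OO p).mul_mem hc0 hC0
    · rw [g1]; exact (OO p).add_mem hc1 hC1
    · rw [g2]; exact (OO p).add_mem hc2 hC2
    · rw [List.map_cons, List.prod_cons, hprod, hss, List.length_cons]
      have e1 : chi p (-(trL (T :: L) : ZMod p) / 2) =
          chi p (-((T.1 : ZMod p) + (tr T.2 : ZMod p)) / 2) * chi p (-(trL L : ZMod p) / 2) := by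
        rw [← chi_add]
        congr 1
        simp only [trL, List.map_cons, List.sum_cons]
        push_cast
        ring
      have e2 : DD p 1 ^ (-((cardL (T :: L) : ℤ) + ((L.length + 1 : ℕ) : ℤ))) =
          DD p 1 ^ (-((Forest.card T.2 : ℤ) + 2)) * DD p 1 ^ (-((cardL L : ℤ) + L.length)) := by
        rw [← zpow_add₀ hD]
        congr 1
        simp only [cardL, List.map_cons, List.sum_cons]
        push_cast
        ring
      have e4 : (cardL (T :: L) : ℤ) = ((Forest.card T.2 : ℤ) + 1) + (cardL L : ℤ) := by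
        simp only [cardL, List.map_cons, List.sum_cons]
        push_cast
        ring
      have e3 : gg p 1 ^ (cardL (T :: L) : ℤ) =
          gg p 1 ^ ((Forest.card T.2 : ℤ) + 1) * gg p 1 ^ (cardL L : ℤ) := by
        rw [← zpow_add₀ hg, e4]
      rw [e1, e2, e3]
      ring
    · rw [g0, g1, g2, List.length_cons, hI, hJ]
      exact hmul

end

end Pool.Agent.Lib.MP_f2058c_gt
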