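import Mathlib
import Pool.Agent.Lib.MP_f2058c_gt.Ex2

/-!
# JOB Fin2: comparison of coefficients

`h = hh p`, `x = xx p`.  Proof.
1. `D1^n = h^n (1 + n h^2/24) + x^(n+3) w1` with `w1 ∈ OO` (induction on `n` from `D1_h`, `h = x v` by `hh_eq`).
2. `chi (m/2) = 1 + m h/4 + m^2 h^2/32 + x^3 w2` (`exp_h` with `r = m/2`: `Cg_int`, `Cg_half`; the `h^3` and `x^4` terms go to
   `x^3 w2`).
3. Put `κ = ε 2^n` (a rational number, `κ = ± 2^n`; `κ⁻¹ ∈ OO` by `OO_smooth`) and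
   `z = C0 (1 + C1 h + (C2 + C1^2/2) h^2) - κ (1 + n h^2/24)(1 + m h/4 + m^2 h^2/32)`.  The hypothesis gives
   `h^n z = x^(n+3) w3`, `w3 ∈ OO`.  Multiply by `v^n` (`hh_unit`: `h v = x (1 + x^3 u)`): `x^n (1 + x^3 u)^n z = x^(n+3) w3 v^n`,
   cancel `x^n` (`xx_ne_zero`), `(1 + x^3 u)^n = 1 + x^3 u'`, so `z = x^3 w4`.
4. So `α + β h + γ h^2 = x^3 w5` with the rational numbers `α = C0 - κ`, `β = C0 C1 - κ m/4`,
   `γ = C0 (C2 + C1^2/2) - κ (m^2/32 + n/24)`.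
   (a) `α = x (...)`, so `p ∣ α.num` (`rat_xx`), and `α ∈ OO`, so `α = p w = x^3 w'` (`p_eq`, `p - 1 ≥ 3`).
       [`α` is `p`-integral: if `p` divided `α.den` it would not divide `α.num`; so `α.num = p k` and
       `α = p (k/α.den)`, `k/α.den ∈ OO` by `OO_of_mul_int`.]
   (b) `β h + γ h^2 = x^3 w6`; multiply by `v`, use `h v = x (1 + x^3 u)` and cancel `x`:
       `(β + γ h)(1 + x^3 u) = x^2 w7`, so `β + γ h = x^2 w8`, so `β = x (...)`, `p ∣ β.num`, `β = x^3 w9`.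
   (c) `γ h = x^2 w10`, multiply by `v` and cancel `x`: `γ = x w11`.
5. In the ideal `x OO`: `κ (C1 - m/4) = β - α C1`, so `δ = C1 - m/4 ∈ x OO`;
   `κ (C2 + C1^2/2 - m^2/32 - n/24) = γ - α (C2 + C1^2/2)`, so `C2 - n/24 ∈ x OO - δ (C1 + m/4)/2 = x OO`.
   `rat_xx` for the rational number `C2 - n/24`.
-/

set_option autoImplicit false

namespace Pool.Agent.Lib.MP_f2058c_gt

open Finset

noncomputable section

variable (p : ℕ) [Fact p.Prime]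

/-- Membership in `xx^k OO`. -/
def Fin2M (k : ℕ) (z : ℂ) : Prop := ∃ w ∈ OO p, z = xx p ^ k * w

variable {p}

theorem Fin2M.mem {k : ℕ} {z : ℂ} (h : Fin2M p k z) : z ∈ OO p := by
  obtain ⟨w, hw, rfl⟩ := h
  exact mul_mem (pow_mem (xx_mem p) _) hw

theorem Fin2M_zero {z : ℂ} (h : z ∈ OO p) : Fin2M p 0 z := ⟨z, h, by simp⟩

theorem Fin2M.add {k : ℕ} {y z : ℂ} (hy : Fin2M p k y) (hz : Fin2M p k z) : Fin2M p k (y + z) := by
  obtain ⟨u, hu, rfl⟩ := hy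
  obtain ⟨w, hw, rfl⟩ := hz
  exact ⟨u + w, add_mem hu hw, by ring⟩

theorem Fin2M.neg {k : ℕ} {z : ℂ} (hz : Fin2M p k z) : Fin2M p k (-z) := by
  obtain ⟨w, hw, rfl⟩ := hz
  exact ⟨-w, neg_mem hw, by ring⟩

theorem Fin2M.sub {k : ℕ} {y z : ℂ} (hy : Fin2M p k y) (hz : Fin2M p k z) : Fin2M p k (y - z) := by
  rw [sub_eq_add_neg]; exact hy.add hz.neg

theorem Fin2M.mul {k l : ℕ} {y z : ℂ} (hy : Fin2M p k y) (hz : Fin2M p l z) : Fin2M p (k + l) (y * z) := by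
  obtain ⟨u, hu, rfl⟩ := hy
  obtain ⟨w, hw, rfl⟩ := hz
  exact ⟨u * w, mul_mem hu hw, by ring⟩

theorem Fin2M.mul_left {k : ℕ} {y z : ℂ} (hy : y ∈ OO p) (hz : Fin2M p k z) : Fin2M p k (y * z) := by
  simpa using (Fin2M_zero hy).mul hz

theorem Fin2M.mul_right {k : ℕ} {y z : ℂ} (hy : Fin2M p k y) (hz : z ∈ OO p) : Fin2M p k (y * z) := by
  simpa using hy.mul (Fin2M_zero hz)

theorem Fin2M.mono {k l : ℕ} {z : ℂ} (hz : Fin2M p l z) (h : k ≤ l) : Fin2M p k z := by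
  obtain ⟨w, hw, rfl⟩ := hz
  exact ⟨xx p ^ (l - k) * w, mul_mem (pow_mem (xx_mem p) _) hw, by
    rw [← mul_assoc, ← pow_add, Nat.add_sub_cancel' h]⟩

theorem Fin2M.pow {k : ℕ} {z : ℂ} (hz : Fin2M p k z) (n : ℕ) : Fin2M p (k * n) (z ^ n) := by
  obtain ⟨w, hw, rfl⟩ := hz
  exact ⟨w ^ n, pow_mem hw _, by rw [mul_pow, pow_mul]⟩

theorem Fin2M_h (h7 : 7 ≤ p) : Fin2M p 1 (hh p) := by
  obtain ⟨w, hw, h⟩ := hh_eq p h7
  exact ⟨w, hw, by rw [h, pow_one]⟩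

theorem Fin2M_hpow (h7 : 7 ≤ p) (n : ℕ) : Fin2M p n (hh p ^ n) := by
  simpa using (Fin2M_h h7).pow n

theorem Fin2_div (h7 : 7 ≤ p) (a b : ℕ) {z : ℂ} (hz : z ∈ OO p) : z / (2 ^ a * 3 ^ b) ∈ OO p := by
  apply OO_smooth p h7 a b 0
  have e : (2 : ℂ) ^ a * 3 ^ b * 5 ^ 0 * (z / (2 ^ a * 3 ^ b)) = z := by
    field_simp
    try ring
  rw [e]; exact hz

/-- Cancel one `hh`. -/
theorem Fin2M_cancel (h7 : 7 ≤ p) {k : ℕ} {z : ℂ} (hz : z ∈ OO p) (h : Fin2M p (k + 1) (hh p * z)) :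
    Fin2M p k z := by
  obtain ⟨v, hv, u, hu, e⟩ := hh_unit p h7
  obtain ⟨w, hw, e'⟩ := h
  have hx : xx p ≠ 0 := xx_ne_zero p (by omega)
  have e2 : z = xx p ^ k * (w * v) - xx p ^ 3 * (u * z) := by
    have h3 : xx p * z = xx p * (xx p ^ k * (w * v) - xx p ^ 3 * (u * z)) := by
      have h4 : hh p * v * z = xx p ^ (k + 1) * w * v := by
        rw [← e']; ring
      rw [e] at h4
      linear_combination h4
    exact mul_left_cancel₀ hx h3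
  have key : ∀ j, j ≤ k → Fin2M p j z := by
    intro j
    induction j with
    | zero => intro _; exact Fin2M_zero hz
    | succ j ih =>
      intro hj
      have h1 : Fin2M p j z := ih (by omega)
      have h2 : Fin2M p (3 + j) (xx p ^ 3 * (u * z)) :=
        Fin2M.mul ⟨1, one_mem _, by ring⟩ (h1.mul_left hu)
      have h3 : Fin2M p k (xx p ^ k * (w * v)) := ⟨w * v, mul_mem hw hv, rfl⟩
      rw [e2]
      exact (h3.mono hj).sub (h2.mono (by omega))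
  exact key k le_rfl

theorem Fin2M_cancel_pow (h7 : 7 ≤ p) {k : ℕ} {z : ℂ} (hz : z ∈ OO p) (n : ℕ)
    (h : Fin2M p (n + k) (hh p ^ n * z)) : Fin2M p k z := by
  induction n with
  | zero => simpa using h
  | succ n ih =>
    apply ih
    apply Fin2M_cancel h7 (mul_mem (pow_mem (hh_mem p h7) _) hz)
    have e : hh p * (hh p ^ n * z) = hh p ^ (n + 1) * z := by ring
    rw [e]
    exact h.mono (by omega)

/-- A rational number in `xx OO` is in `xx^3 OO`. -/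
theorem Fin2M_rat (h7 : 7 ≤ p) (r : ℚ) (h : Fin2M p 1 (r : ℂ)) : Fin2M p 3 (r : ℂ) := by
  obtain ⟨w, hw, e⟩ := h
  rw [pow_one] at e
  have hp : (p : ℤ) ∣ r.num := rat_xx p (by omega) r w hw e
  obtain ⟨k, hk⟩ := hp
  have hden : ¬ (p : ℤ) ∣ (r.den : ℤ) := by
    intro hd
    have hc := r.reduced
    have h1 : p ∣ r.num.natAbs := Int.natCast_dvd.mp ⟨k, hk⟩
    have h2 : p ∣ r.den := Int.natCast_dvd_natCast.mp hd
    have h3 : p ∣ Nat.gcd r.num.natAbs r.den := Nat.dvd_gcd h1 h2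
    rw [hc] at h3
    have := Nat.le_of_dvd one_pos h3
    omega
  have hd0 : (r.den : ℂ) ≠ 0 := by exact_mod_cast r.den_ne_zero
  have hkd : (k : ℂ) / (r.den : ℂ) ∈ OO p := by
    apply OO_of_mul_int p _ (r.den : ℤ) hden
    have e3 : (k : ℂ) / (r.den : ℂ) * ((r.den : ℤ) : ℂ) = (k : ℂ) := by
      push_cast
      field_simp
    rw [e3]
    exact intCast_mem _ _
  have hr : (r : ℂ) = (p : ℂ) * ((k : ℂ) / (r.den : ℂ)) := by
    have h1 : (r : ℂ) = (r.num : ℂ) / (r.den : ℂ) := by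
      exact Rat.cast_def r
    rw [h1, hk]
    push_cast
    ring
  obtain ⟨u, hu, eu⟩ := p_eq p (by omega)
  have hp1 : Fin2M p (p - 1) (p : ℂ) := ⟨u, hu, eu⟩
  rw [hr]
  exact (hp1.mono (by omega)).mul_right hkd

/-- Powers of `DD 1`. -/
theorem Fin2_D1_pow (h7 : 7 ≤ p) (n : ℕ) :
    Fin2M p (n + 3) (DD p 1 ^ n - hh p ^ n * (1 + (n : ℂ) * hh p ^ 2 / 24)) := by
  obtain ⟨w, hw, e⟩ := D1_h p h7
  have hD : Fin2M p 4 (DD p 1 - hh p * (1 + hh p ^ 2 / 24)) := ⟨w, hw, by rw [e]; ring⟩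
  have h24 : ∀ z : ℂ, z ∈ OO p → z / 24 ∈ OO p := by
    intro z hz
    have := Fin2_div h7 3 1 hz
    norm_num at this
    exact this
  have hh' := hh_mem p h7
  induction n with
  | zero =>
    have e0 : DD p 1 ^ 0 - hh p ^ 0 * (1 + ((0 : ℕ) : ℂ) * hh p ^ 2 / 24) = 0 := by simp
    rw [e0]
    exact ⟨0, zero_mem _, by simp⟩
  | succ n ih =>
    have e1 : DD p 1 ^ (n + 1) - hh p ^ (n + 1) * (1 + ((n + 1 : ℕ) : ℂ) * hh p ^ 2 / 24) =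
        (DD p 1 ^ n - hh p ^ n * (1 + (n : ℂ) * hh p ^ 2 / 24)) * DD p 1 +
        hh p ^ n * ((1 + (n : ℂ) * hh p ^ 2 / 24) * (DD p 1 - hh p * (1 + hh p ^ 2 / 24))) +
        hh p ^ (n + 5) * (((n : ℂ) / 24) / 24) := by
      push_cast
      ring
    rw [e1]
    have hn : (n : ℂ) ∈ OO p := natCast_mem _ _
    have hD1 : Fin2M p 1 (DD p 1) := by
      have := (hD.mono (show 1 ≤ 4 by norm_num)).add
        ((Fin2M_h h7).mul_right (add_mem (one_mem _) (h24 _ (pow_mem hh' 2))))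
      simpa using this
    have h1 : (1 + (n : ℂ) * hh p ^ 2 / 24) ∈ OO p :=
      add_mem (one_mem _) (h24 _ (mul_mem hn (pow_mem hh' 2)))
    refine ((((ih.mul hD1)).mono (by omega)).add ?_).add ?_
    · exact ((Fin2M_hpow h7 n).mul (hD.mul_left h1)).mono (by omega)
    · exact ((Fin2M_hpow h7 (n + 5)).mul_right (h24 _ (h24 _ hn))).mono (by omega)

/-- The value `chi (m/2)` modulo `xx^3`. -/
theorem Fin2_chi (h7 : 7 ≤ p) (m : ℤ) :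
    Fin2M p 3 (chi p ((m : ZMod p) / 2) - (1 + (m : ℂ) / 4 * hh p + (m : ℂ) ^ 2 / 32 * hh p ^ 2)) := by
  have hc : Cg p ((m : ℚ) / 2) ((m : ZMod p) / 2) := Cg_half p (by omega) (Cg_int p m)
  obtain ⟨w, hw, e⟩ := exp_h p h7 hc
  have hm : (m : ℂ) ∈ OO p := intCast_mem _ _
  have e1 : chi p ((m : ZMod p) / 2) - (1 + (m : ℂ) / 4 * hh p + (m : ℂ) ^ 2 / 32 * hh p ^ 2) =
      hh p ^ 3 * ((m : ℂ) ^ 3 / (2 ^ 7 * 3 ^ 1)) + xx p ^ 4 * w := by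
    rw [e]
    simp only [Finset.sum_range_succ, Finset.sum_range_zero, Nat.factorial]
    push_cast
    ring
  rw [e1]
  have h4 : Fin2M p 4 (xx p ^ 4 * w) := ⟨w, hw, rfl⟩
  exact ((Fin2M_hpow h7 3).mul_right (Fin2_div h7 7 1 (pow_mem hm 3))).add (h4.mono (by norm_num))

variable (p)

theorem extract (h7 : 7 ≤ p) (n : ℕ) (C0 C1 C2 : ℚ) (m : ℤ) (ε w : ℂ) (hε : ε = 1 ∨ ε = -1) (hw : w ∈ OO p)
    (h0 : (C0 : ℂ) ∈ OO p) (h1 : (C1 : ℂ) ∈ OO p) (h2 : (C2 : ℂ) ∈ OO p)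
    (h : (C0 : ℂ) * hh p ^ n * (1 + (C1 : ℂ) * hh p + ((C2 : ℂ) + (C1 : ℂ) ^ 2 / 2) * hh p ^ 2) +
      xx p ^ (n + 3) * w = ε * 2 ^ n * DD p 1 ^ n * chi p ((m : ZMod p) / 2)) :
    (p : ℤ) ∣ (C2 - (n : ℚ) / 24).num := by
  -- the rational number `κ`
  obtain ⟨e, he, hee⟩ : ∃ e : ℚ, ε = (e : ℂ) ∧ e * e = 1 := by
    rcases hε with h | h
    · exact ⟨1, by simp [h], by norm_num⟩
    · exact ⟨-1, by simp [h], by norm_num⟩
  have hm : (m : ℂ) ∈ OO p := intCast_mem _ _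
  have hn : (n : ℂ) ∈ OO p := natCast_mem _ _
  have hhm := hh_mem p h7
  have h24 : ∀ z : ℂ, z ∈ OO p → z / 24 ∈ OO p := by
    intro z hz
    have := Fin2_div h7 3 1 hz
    norm_num at this
    exact this
  have h2' : ∀ z : ℂ, z ∈ OO p → z / 2 ∈ OO p := by
    intro z hz
    have := Fin2_div h7 1 0 hz
    norm_num at this
    exact this
  have h4' : ∀ z : ℂ, z ∈ OO p → z / 4 ∈ OO p := by
    intro z hz
    have := Fin2_div h7 2 0 hz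
    norm_num at this
    exact this
  have h32 : ∀ z : ℂ, z ∈ OO p → z / 32 ∈ OO p := by
    intro z hz
    have := Fin2_div h7 5 0 hz
    norm_num at this
    exact this
  have heO : (e : ℂ) ∈ OO p := by
    rw [← he]
    rcases hε with h | h
    · rw [h]; exact one_mem _
    · rw [h]; exact neg_mem (one_mem _)
  set κ : ℚ := e * 2 ^ n with hκ
  have hκC : (κ : ℂ) = ε * 2 ^ n := by rw [hκ, he]; push_cast; ring
  have hκO : (κ : ℂ) ∈ OO p := by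
    rw [hκ]; push_cast
    exact mul_mem heO (pow_mem (ofNat_mem _ 2) _)
  obtain ⟨μ, hμO, hμ⟩ : ∃ μ ∈ OO p, μ * (κ : ℂ) = 1 := by
    refine ⟨(e : ℂ) / (2 ^ n * 3 ^ 0), Fin2_div h7 n 0 heO, ?_⟩
    rw [hκ]; push_cast
    have : (e : ℂ) * (e : ℂ) = 1 := by exact_mod_cast hee
    field_simp
    linear_combination this
  -- the polynomials
  set A : ℂ := 1 + (C1 : ℂ) * hh p + ((C2 : ℂ) + (C1 : ℂ) ^ 2 / 2) * hh p ^ 2 with hA
  set B : ℂ := 1 + (n : ℂ) * hh p ^ 2 / 24 with hB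
  set C : ℂ := 1 + (m : ℂ) / 4 * hh p + (m : ℂ) ^ 2 / 32 * hh p ^ 2 with hC
  have hC2O : (C2 : ℂ) + (C1 : ℂ) ^ 2 / 2 ∈ OO p := add_mem h2 (h2' _ (pow_mem h1 2))
  have hAO : A ∈ OO p := add_mem (add_mem (one_mem _) (mul_mem h1 hhm)) (mul_mem hC2O (pow_mem hhm 2))
  have hBO : B ∈ OO p := add_mem (one_mem _) (h24 _ (mul_mem hn (pow_mem hhm 2)))
  have hCO : C ∈ OO p := add_mem (add_mem (one_mem _) (mul_mem (h4' _ hm) hhm))
    (mul_mem (h32 _ (pow_mem hm 2)) (pow_mem hhm 2))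
  have hD := Fin2_D1_pow h7 n
  have hX := Fin2_chi h7 m
  rw [← hB] at hD
  rw [← hC] at hX
  have hz : Fin2M p (n + 3) (hh p ^ n * ((C0 : ℂ) * A - (κ : ℂ) * (B * C))) := by
    have e1 : hh p ^ n * ((C0 : ℂ) * A - (κ : ℂ) * (B * C)) =
        (κ : ℂ) * ((DD p 1 ^ n - hh p ^ n * B) * chi p ((m : ZMod p) / 2)) +
        (κ : ℂ) * (B * (hh p ^ n * (chi p ((m : ZMod p) / 2) - C))) - xx p ^ (n + 3) * w := by
      rw [hκC]
      linear_combination h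
    rw [e1]
    refine ((?_ : Fin2M p (n + 3) _).add ?_).sub ⟨w, hw, rfl⟩
    · exact (hD.mul_right (chi_mem p _)).mul_left hκO
    · exact (((Fin2M_hpow h7 n).mul hX).mul_left hBO).mul_left hκO
  have hzO : (C0 : ℂ) * A - (κ : ℂ) * (B * C) ∈ OO p :=
    sub_mem (mul_mem h0 hAO) (mul_mem hκO (mul_mem hBO hCO))
  have hz3 := Fin2M_cancel_pow h7 hzO n hz
  -- the coefficients
  set α : ℚ := C0 - κ with hα
  set β : ℚ := C0 * C1 - κ * (m / 4) with hβ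
  set γ : ℚ := C0 * (C2 + C1 ^ 2 / 2) - κ * (m ^ 2 / 32 + n / 24) with hγ
  have hαC : (α : ℂ) = (C0 : ℂ) - (κ : ℂ) := by rw [hα]; push_cast; ring
  have hβC : (β : ℂ) = (C0 : ℂ) * C1 - (κ : ℂ) * ((m : ℂ) / 4) := by rw [hβ]; push_cast; ring
  have hγC : (γ : ℂ) = (C0 : ℂ) * (C2 + (C1 : ℂ) ^ 2 / 2) - (κ : ℂ) * ((m : ℂ) ^ 2 / 32 + (n : ℂ) / 24) := by
    rw [hγ]; push_cast; ring
  have hβO : (β : ℂ) ∈ OO p := by
    rw [hβC]; exact sub_mem (mul_mem h0 h1) (mul_mem hκO (h4' _ hm))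
  have hγO : (γ : ℂ) ∈ OO p := by
    rw [hγC]
    exact sub_mem (mul_mem h0 hC2O) (mul_mem hκO (add_mem (h32 _ (pow_mem hm 2)) (h24 _ hn)))
  have hall : Fin2M p 3 ((α : ℂ) + (β : ℂ) * hh p + (γ : ℂ) * hh p ^ 2) := by
    have e1 : (α : ℂ) + (β : ℂ) * hh p + (γ : ℂ) * hh p ^ 2 =
        ((C0 : ℂ) * A - (κ : ℂ) * (B * C)) +
        hh p ^ 3 * ((κ : ℂ) * ((n : ℂ) / 24 * ((m : ℂ) / 4 + (m : ℂ) ^ 2 / 32 * hh p))) := by
      rw [hαC, hβC, hγC, hA, hB, hC]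
      ring
    rw [e1]
    refine hz3.add ((Fin2M_hpow h7 3).mul_right ?_)
    exact mul_mem hκO (mul_mem (h24 _ hn) (add_mem (h4' _ hm) (mul_mem (h32 _ (pow_mem hm 2)) hhm)))
  have hα1 : Fin2M p 1 (α : ℂ) := by
    have e1 : (α : ℂ) = ((α : ℂ) + (β : ℂ) * hh p + (γ : ℂ) * hh p ^ 2) -
        hh p * ((β : ℂ) + (γ : ℂ) * hh p) := by ring
    rw [e1]
    exact (hall.mono (by norm_num)).sub
      ((Fin2M_h h7).mul_right (add_mem hβO (mul_mem hγO hhm)))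
  have hα3 := Fin2M_rat h7 α hα1
  have hβγ : Fin2M p 2 ((β : ℂ) + (γ : ℂ) * hh p) := by
    apply Fin2M_cancel h7 (add_mem hβO (mul_mem hγO hhm))
    have e1 : hh p * ((β : ℂ) + (γ : ℂ) * hh p) =
        ((α : ℂ) + (β : ℂ) * hh p + (γ : ℂ) * hh p ^ 2) - (α : ℂ) := by ring
    rw [e1]
    exact hall.sub hα3
  have hβ1 : Fin2M p 1 (β : ℂ) := by
    have e1 : (β : ℂ) = ((β : ℂ) + (γ : ℂ) * hh p) - hh p * (γ : ℂ) := by ring
    rw [e1]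
    exact (hβγ.mono (by norm_num)).sub ((Fin2M_h h7).mul_right hγO)
  have hβ3 := Fin2M_rat h7 β hβ1
  have hγ1 : Fin2M p 1 (γ : ℂ) := by
    apply Fin2M_cancel h7 hγO
    have e1 : hh p * (γ : ℂ) = ((β : ℂ) + (γ : ℂ) * hh p) - (β : ℂ) := by ring
    rw [e1]
    exact hβγ.sub (hβ3.mono (by norm_num))
  -- the conclusion
  have hδ : Fin2M p 1 ((C1 : ℂ) - (m : ℂ) / 4) := by
    have e1 : (C1 : ℂ) - (m : ℂ) / 4 = μ * ((β : ℂ) - (α : ℂ) * (C1 : ℂ)) := by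
      rw [hαC, hβC]
      linear_combination (-(C1 : ℂ) + (m : ℂ) / 4) * hμ
    rw [e1]
    exact (hβ1.sub (hα1.mul_right h1)).mul_left hμO
  have hfin : Fin2M p 1 (((C2 - (n : ℚ) / 24 : ℚ) : ℂ)) := by
    have e1 : ((C2 - (n : ℚ) / 24 : ℚ) : ℂ) =
        μ * ((γ : ℂ) - (α : ℂ) * ((C2 : ℂ) + (C1 : ℂ) ^ 2 / 2)) -
        ((C1 : ℂ) - (m : ℂ) / 4) * (((C1 : ℂ) + (m : ℂ) / 4) / 2) := by
      rw [hαC, hγC]
      push_cast
      linear_combination (-((C2 : ℂ) + (C1 : ℂ) ^ 2 / 2) + ((m : ℂ) ^ 2 / 32 + (n : ℂ) / 24)) * hμ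
    rw [e1]
    exact ((hγ1.sub (hα1.mul_right hC2O)).mul_left hμO).sub (hδ.mul_right (h2' _ (add_mem h1 (h4' _ hm))))
  obtain ⟨u, hu, eu⟩ := hfin
  rw [pow_one] at eu
  exact rat_xx p (by omega) _ u hu eu

end

end Pool.Agent.Lib.MP_f2058c_gt
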