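import Mathlib
import Pool.Agent.Lib.MP_f2058c_gt.FdPQ

/-!
# JOB PosT: positivity, definitions and one tree

For a forest `F` with `fd F = (a, z)`, `P = (PQ F).1`: `Vv F = P^2 (e1 a.P - 1)`, `Uu F = P^2 (1 - e1 a.P + a.e2)`.
`good F` means: if `F` has at least 2 trees then `LeavesOK F`.

`PosN F` (used if `z = none`) and `PosS F w` (used if `z = some w`) collect the inequalities.

`tree_pos`: Let `n = det e c ≠ 0`, `g = e1 (treeP e c)`, `R = n^2 (1 - g)`.  Claim: `R = 1` if `c` is a chain, `R ≤ -1` if not;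
and `0 ≤ XT (treeP e c) z` for all `z`.
* `(fd c).2 = none` (`a = (fd c).1`): `g = 1 + s^2 (e1 a.P - 1)` with `s = -1/(e + σ_c) = -P_c/n` (`e1_transA`, `fd_none`),
  so `R = -n^2 s^2 (e1 a.P - 1) = -P_c^2 (e1 a.P - 1) = -Vv c`, and `PosN` gives `Vv c = -1` for a chain and `Vv c ≥ 1`
  otherwise (`good c`).  `XT (treeP e c) z = XT a.P l` with `l = s + s^2 z` (`XT_transA`)
  `= Xi a l + 2 a.e2 l^2 ≥ 0` (`Xi_eq`, `a.e2 ≥ 0` as `good c`).
* `(fd c).2 = some w`: `P_c = 0` (`fd_some`), `n = -Q_c`; `g = e1 w.P` (`e1_transB`);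
  `R = Q_c^2 (1 - e1 w.P) = -N m^2 (e1 w.P - 1)` with `Q_c^2 = m^2 N` from `PosS`; chain: `= 1`; not chain: `≤ -N ≤ -1`.
  `XT (treeP e c) z = XT w.P (β + z) + 2 (e1 w.P - 1) e1 a.P + 48 a.P.C` (`XT_transB`), `XT w.P (β+z) = Xi w (β+z) + 2 w.e2 (β+z)^2 ≥ 0`,
  `48 a.P.C = Xi a 0 ≥ 0`, and `(e1 w.P - 1) e1 a.P ≥ 0`: if `len c ≤ 1` then `e1 a.P = 0` (`PosS`); if `len c ≥ 2` then
  `LeavesOK c`, `c` is not a chain (`IsChain` forests have at most one tree), so `m^2 (e1 w.P - 1) ≥ 1` and `0 ≤ e1 a.P`.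
-/

set_option autoImplicit false

namespace Pool.Agent.Lib.MP_f2058c_gt

open Finset Forest

noncomputable section


/-- `P^2 (e1 - 1)`. -/
def Vv (F : Forest) : ℚ := ((PQ F).1 : ℚ) ^ 2 * (e1 (fd F).1.P - 1)

/-- `P^2 (1 - e1 + e2)`. -/
def Uu (F : Forest) : ℚ := ((PQ F).1 : ℚ) ^ 2 * (1 - e1 (fd F).1.P + (fd F).1.e2)

/-- If the forest has at least two trees then the chains have determinant different from `0, ±1`. -/
def good (F : Forest) : Prop := 2 ≤ len F → LeavesOK F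

structure PosN (F : Forest) : Prop where
  chain : IsChain F → Vv F = -1
  nchain : good F → ¬ IsChain F → 1 ≤ Vv F
  one : ((PQ F).1 : ℚ) ^ 2 = 1 → LeavesOK F → 2 * (len F : ℚ) ≤ e1 (fd F).1.P
  single : len F = 1 → LeavesOK F → IsChain F → 4 ≤ ((PQ F).1 : ℚ) ^ 2
  uv1 : LeavesOK F → len F = 1 → Uu F = -Vv F ∧ 2 ≤ ((PQ F).1 : ℚ) ^ 2 + Vv F
  uv2 : LeavesOK F → len F = 2 → 4 ≤ Uu F + Vv F ∧ |Uu F| ≤ Uu F + Vv F - 3
  u3 : LeavesOK F → 3 ≤ len F → 1 < Uu F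

structure PosS (F : Forest) (w : Dat) : Prop where
  ex : ∃ m N : ℤ, m ≠ 0 ∧ 1 ≤ N ∧ (PQ F).2 ^ 2 = m ^ 2 * N ∧
    (IsChain F → (m : ℚ) ^ 2 * (e1 w.P - 1) = -1 ∧ N = 1) ∧
    (good F → ¬ IsChain F → 1 ≤ (m : ℚ) ^ 2 * (e1 w.P - 1)) ∧
    (N = 1 → LeavesOK F → 2 * ((len F : ℚ) - 1) ≤ e1 (fd F).1.P)
  xi : ∀ z : ℚ, 0 ≤ Xi w z
  e2 : 0 ≤ w.e2
  single : len F ≤ 1 → e1 (fd F).1.P = 0

structure PosF (F : Forest) : Prop where
  xi : ∀ z : ℚ, 0 ≤ Xi (fd F).1 z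
  e2 : good F → 0 ≤ (fd F).1.e2
  e1 : LeavesOK F → 0 ≤ e1 (fd F).1.P
  n : (fd F).2 = none → PosN F
  s : ∀ w, (fd F).2 = some w → PosS F w

theorem chain_len {F : Forest} (h : IsChain F) : len F ≤ 1 := by
  match F, h with
  | .nil, _ => simp [len]
  | .cons e c .nil, _ => simp [len]
  | .cons e c (.cons e' c' s'), h => exact absurd h (by simp [Forest.IsChain])

theorem tree_pos {e : ℤ} {c : Forest} (hC : Cop c) (hg : good c) (hP : PosF c) (hn : det e c ≠ 0) :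
    (IsChain c → ((det e c : ℤ) : ℚ) ^ 2 * (1 - e1 (treeP e c)) = 1) ∧
    (¬ IsChain c → ((det e c : ℤ) : ℚ) ^ 2 * (1 - e1 (treeP e c)) ≤ -1) ∧
    ∀ z : ℚ, 0 ≤ XT (treeP e c) z := by
  have hnQ : ((det e c : ℤ) : ℚ) ≠ 0 := by exact_mod_cast hn
  have hdet : ((det e c : ℤ) : ℚ) = e * ((PQ c).1 : ℚ) - ((PQ c).2 : ℚ) := by
    rw [det]; push_cast; ring
  have hxt : ∀ (a : Dat) (l : ℚ), XT a.P l = Xi a l + 2 * a.e2 * l ^ 2 := by
    intro a l
    rw [Xi_eq]; ring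
  cases h : (fd c).2 with
  | none =>
    obtain ⟨hP0, hσ⟩ := fd_none hC h
    have hPQ : (((PQ c).1 : ℤ) : ℚ) ≠ 0 := by exact_mod_cast hP0
    have hT : treeP e c =
        (transA (-1 / ((e : ℚ) + (fd c).1.σ)) ((fd c).1.P + PD)).hat := by
      rw [treeP, h]
    have hs : (e : ℚ) + (fd c).1.σ = ((det e c : ℤ) : ℚ) / ((PQ c).1 : ℚ) := by
      rw [hσ, hdet]
      field_simp
      ring
    have hR : ((det e c : ℤ) : ℚ) ^ 2 * (1 - e1 (treeP e c)) = -Vv c := by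
      rw [hT, e1_transA, hs, Vv]
      field_simp
      ring
    have hN := hP.n h
    refine ⟨fun hc => ?_, fun hc => ?_, fun z => ?_⟩
    · rw [hR, hN.chain hc]; norm_num
    · rw [hR]
      have := hN.nchain hg hc
      linarith
    · rw [hT, XT_transA, hxt]
      have h1 := hP.xi (-1 / ((e : ℚ) + (fd c).1.σ) + (-1 / ((e : ℚ) + (fd c).1.σ)) ^ 2 * z)
      have h2 := hP.e2 hg
      positivity
  | some w =>
    have hP0 := fd_some hC h
    have hS := hP.s w h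
    have hT : treeP e c =
        (transB ((e : ℚ) + (fd c).1.σ) (w.P + PD) (fd c).1.P).hat := by
      rw [treeP, h]
    obtain ⟨m, N, hm, hN, hQ, hch, hnch, -⟩ := hS.ex
    have hQQ : ((PQ c).2 : ℚ) ^ 2 = (m : ℚ) ^ 2 * (N : ℚ) := by exact_mod_cast hQ
    have hR : ((det e c : ℤ) : ℚ) ^ 2 * (1 - e1 (treeP e c)) =
        -((N : ℚ) * ((m : ℚ) ^ 2 * (e1 w.P - 1))) := by
      rw [hT, e1_transB, hdet, hP0]
      push_cast
      linear_combination (1 - e1 w.P) * hQQ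
    have hNQ : (1 : ℚ) ≤ N := by exact_mod_cast hN
    have hm2 : (0 : ℚ) < (m : ℚ) ^ 2 := by positivity
    refine ⟨fun hc => ?_, fun hc => ?_, fun z => ?_⟩
    · obtain ⟨h1, h2⟩ := hch hc
      rw [hR, h1, h2]; norm_num
    · have h1 := hnch hg hc
      rw [hR]
      nlinarith
    · rw [hT, XT_transB, hxt w]
      have h1 := hS.xi ((e : ℚ) + (fd c).1.σ + z)
      have h2 := hS.e2
      have h3 : 0 ≤ 48 * (fd c).1.P.C := by
        have := hP.xi 0
        simp only [Xi] at this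
        linarith
      have h4 : 0 ≤ 2 * (e1 w.P - 1) * e1 (fd c).1.P := by
        by_cases hl : len c ≤ 1
        · rw [hS.single hl, mul_zero]
        · have hl2 : 2 ≤ len c := by omega
          have hL := hg hl2
          have h5 := hnch hg (fun hc => hl (chain_len hc))
          have h6 := hP.e1 hL
          have h7 : 0 ≤ e1 w.P - 1 := by
            by_contra hcon
            push Not at hcon
            nlinarith
          positivity
      have h8 : 0 ≤ 2 * w.e2 * ((e : ℚ) + (fd c).1.σ + z) ^ 2 := by positivity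
      linarith

end

end Pool.Agent.Lib.MP_f2058c_gt
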