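import Mathlib
import Pool.Agent.Lib.MP_f2058c_gt.PosT

/-!
# JOB PosI: positivity, the induction and the root

`pos_all`: induction on `F`.  `nil`: `fd nil = (⟨0,1,0,0⟩, none)`, `PQ nil = (1, 0)`, `Vv nil = -1`, `Xi = 0`; `nil` is a chain,
`len nil = 0`.
`cons e c s` with `n = det e c`; `PQ F = (n P_s, P_c P_s + n Q_s)`; `Red F` gives `good c`, `Red c`, `Red s`; `Cop_cons`.

(I) `n ≠ 0`.  `fd_cons_reg`: `(fd F).2 = (fd s).2`, `(fd F).1 = addTree (fd s).1 _ _ T`, `T = treeP e c`.  `g = e1 T`,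
   `R = n^2 (1 - g)`, `w = n^2 g = n^2 - R`; `tree_pos`: `R = 1` (chain) or `R ≤ -1`.
   If `LeavesOK F`: a chain has `n^2 ≥ 4`, so `w = n^2 - 1 ≥ 3`; not a chain: `n^2 ≥ 1`, `w ≥ n^2 + 1 ≥ 2`.  So always
   (TW) `2 ≤ w`, `|R| ≤ w - 1`, `g > 0`.
   * `xi`: `Xi_addTree`.  `e2 F = e2 s + g e1 s`: if `len F ≤ 1` then `s = nil` and it is `0`; else `LeavesOK F` and
     `0 ≤ e2 s` (`good s` since `LeavesOK s`), `0 ≤ e1 s`, `g > 0`.   `e1 F = e1 s + g`.
   * `z = none`.  `Vv F = n^2 Vv s + w P_s^2`, `Uu F = n^2 Uu s + w Vv s` (`e1_add`, definitions, `ring`).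
     - `s = nil`: `Vv F = n^2 (g - 1) = -R`, `Uu F = n^2 (1 - g) = R`, `P_F^2 = n^2`; `F` is a chain iff `c` is.
       `P_F^2 + Vv F = n^2 - R = w ≥ 2`.
     - `s ≠ nil`: `F` is not a chain, `good F` gives `LeavesOK F`, `LeavesOK s`.
       `len s = 1`: `Uu s = -Vv s`, `w_s := P_s^2 + Vv s ≥ 2`, `R_s := -Vv s = Uu s`, and `|R_s| ≤ w_s - 1` (if `s` is a chain
       `Vv s = -1`, `P_s^2 ≥ 4`; if not `Vv s ≥ 1`, `P_s^2 ≥ 1` and `w_s - 1 = P_s^2 + Vv s - 1 ≥ Vv s`), `P_s^2 = w_s + R_s`.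
       `Vv F = -n^2 R_s + w (w_s + R_s) = w w_s - R R_s` (as `n^2 = w + R`), `Uu F = n^2 R_s - w R_s = R R_s`.
       So `Uu + Vv = w w_s ≥ 4`, `|Uu| = |R| |R_s| ≤ (w-1)(w_s-1) = w w_s - w - w_s + 1 ≤ w w_s - 3`, and
       `Vv = w w_s - R R_s ≥ 3 ≥ 1`.
       `len s = 2`: `M = Uu s + Vv s ≥ 4`, `|Uu s| ≤ M - 3`, `Vv s ≥ 1` (`nchain`).
       `Uu F = n^2 Uu s + w Vv s = R Uu s + w M ≥ w M - (w - 1)(M - 3) = M + 3 (w - 1) ≥ 7 > 1`.
       `Vv F = n^2 Vv s + w P_s^2 ≥ 1`.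
       `len s ≥ 3`: `Uu F = n^2 Uu s + w Vv s > 1` since `n^2 ≥ 1`, `Uu s > 1`, `w, Vv s > 0`; `Vv F ≥ 1`.
     - `one`: `P_F^2 = n^2 P_s^2 = 1` with integers, so `n^2 = P_s^2 = 1`; then `c` is not a chain (`LeavesOK`), `g = 1 - R ≥ 2`,
       `e1 F = e1 s + g ≥ 2 len s + 2`.   `single`: `len F = 1`, `P_F^2 = n^2 ≥ 4`.
   * `z = some w`: `PosS s w` gives `m, N`; `P_s = 0` (`fd_some`), `Q_F = n Q_s`, `Q_F^2 = m^2 (n^2 N)`.  `s ≠ nil` (as
     `(fd nil).2 = none`), so `F` is not a chain; take `N_F = n^2 N ≥ 1`.  If `good F` then `LeavesOK F`, `LeavesOK s`; `s` is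
     not a chain: if `IsChain s` then `s = cons e' c' nil` with `det = P_s = 0` (`PQ (cons e' c' nil) = (n', P_c')`), but
     `LeavesOK s` says `2 ≤ |det|`; so `1 ≤ m^2 (e1 w.P - 1)`.  `N_F = 1` gives `n^2 = 1`, `N = 1`, `g ≥ 2`.
(II) `n = 0`.  `fd_cons_zero`: `(fd c).2 = none`, `fd F = ((fd s).1, some (fd c).1)`; and `(fd s).2 = none` (`fd_zero`, or:
   `P_F = 0` so `Q_F = P_c P_s` is a unit, `P_s ≠ 0`, `fd_some`).  `PosS F w` with `w = (fd c).1`: `m = P_c ≠ 0` (`fd_none`),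
   `N = P_s^2`, `Q_F^2 = P_c^2 P_s^2`.  `m^2 (e1 w.P - 1) = Vv c`.
   If `IsChain F` then `s = nil`, `N = 1`, `IsChain c`, `Vv c = -1`.  If `good F` and `F` is not a chain: `c` is not a chain
   (if `s = nil` since `F` is not; if `s ≠ nil`, `LeavesOK F` says chains have `|det| ≥ 2` but `n = 0`), so `Vv c ≥ 1` (`good c`).
   `xi`, `e2` of `w` from `PosF c`.  `N = 1`, `LeavesOK F`: `P_s^2 = 1`, `2 len s ≤ e1 (fd s).1.P` (`PosN.one`).
   `single`: `len F = 1`: `s = nil`, `e1 0 = 0`.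

`pos_main`: `hP = pos_all F`, `n_0 = det e F = ± 1`.
(a) `(fd F).2 = none`: `rt e F = rtA s a`, `s = -1/(e + σ) = -P_F/n_0`, `s^2 = P_F^2`;
    `48 c2 = 2 s^2 (1 - e1 + e2) + Xi a s = 2 Uu F + Xi ≥ 2 Uu F > 2` (`rtA_c2`).
(b) `(fd F).2 = some w`: `P_F = 0`, `n_0 = -Q_F`, `Q_F^2 = 1 = m^2 N`, so `m^2 = N = 1`.  `F` has at least 3 trees so it is not a
    chain: `1 ≤ e1 w.P - 1`; `e1 a.P ≥ 2 (3 - 1) = 4`.  `rtB_c2`:
    `48 c2 = 2 (1 - e1 a.P)(1 - e1 w.P) + 2 β^2 w.e2 + Xi w β + 48 a.P.C ≥ 2 * 3 * 1 > 2` (`48 a.P.C = Xi a 0 ≥ 0`).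
-/

set_option autoImplicit false

namespace Pool.Agent.Lib.MP_f2058c_gt

open Finset Forest

noncomputable section


/-! ### Arithmetic -/

theorem PosI_tw {n g : ℚ} (hn1 : 1 ≤ n ^ 2) (h : n ^ 2 * (1 - g) = 1 ∧ 4 ≤ n ^ 2 ∨ n ^ 2 * (1 - g) ≤ -1) :
    2 ≤ n ^ 2 * g ∧ |n ^ 2 * (1 - g)| ≤ n ^ 2 * g - 1 ∧ 0 < g := by
  have hw : 2 ≤ n ^ 2 * g := by
    rcases h with ⟨h1, h2⟩ | h1 <;> nlinarith
  refine ⟨hw, ?_, ?_⟩
  · rw [abs_le]
    rcases h with ⟨h1, h2⟩ | h1 <;> constructor <;> nlinarith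
  · by_contra hg
    have hg' : g ≤ 0 := not_lt.mp hg
    have : n ^ 2 * g ≤ 0 := mul_nonpos_of_nonneg_of_nonpos (by positivity) hg'
    linarith

/-- product bound -/
theorem PosI_prod {w v a b : ℚ} (hw : 2 ≤ w) (hv : 2 ≤ v) (ha : |a| ≤ w - 1) (hb : |b| ≤ v - 1) :
    |a * b| ≤ w * v - 3 := by
  rw [abs_mul]
  have h1 : |a| * |b| ≤ (w - 1) * (v - 1) := mul_le_mul ha hb (abs_nonneg _) (by linarith)
  have h2 : (w - 1) * (v - 1) = w * v - w - v + 1 := by ring
  rw [h2] at h1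
  linarith

theorem PosI_intsq {n : ℤ} (hn : n ≠ 0) : 1 ≤ (n : ℚ) ^ 2 := by
  have h : 0 < n ^ 2 := by positivity
  have h1 : 1 ≤ n ^ 2 := by omega
  exact_mod_cast h1

theorem PosI_four {n : ℤ} (hn : 2 ≤ |n|) : 4 ≤ (n : ℚ) ^ 2 := by
  have h1 : 4 ≤ n ^ 2 := by
    rw [← sq_abs]
    nlinarith
  exact_mod_cast h1

theorem PosI_mul_one {a b : ℤ} (ha : 1 ≤ a) (hb : 1 ≤ b) (h : a * b = 1) : a = 1 ∧ b = 1 := by
  constructor <;> nlinarith

theorem PosI_len_nil {s : Forest} (h : len s = 0) : s = nil := by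
  cases s with
  | nil => rfl
  | cons e c s => simp [len] at h

theorem PosI_nil : PosF nil where
  xi := by intro z; simp [Xi, fd, e1]
  e2 := by intro _; simp [fd]
  e1 := by intro _; simp [fd, Pool.Agent.Lib.MP_f2058c_gt.e1]
  n := by
    intro _
    refine ⟨?_, ?_, ?_, ?_, ?_, ?_, ?_⟩
    · intro _; simp [Vv, PQ, fd, Pool.Agent.Lib.MP_f2058c_gt.e1]
    · intro _ h; exact absurd (by simp [Forest.IsChain]) h
    · intro _ _; simp [len, fd, Pool.Agent.Lib.MP_f2058c_gt.e1]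
    · intro h; simp [len] at h
    · intro _ h; simp [len] at h
    · intro _ h; simp [len] at h
    · intro _ h; simp [len] at h
  s := by intro w h; simp [fd] at h

theorem PosI_det_PQ (e : ℤ) (c s : Forest) :
    (PQ (cons e c s)).1 = det e c * (PQ s).1 ∧
      (PQ (cons e c s)).2 = (PQ c).1 * (PQ s).1 + det e c * (PQ s).2 := ⟨rfl, rfl⟩

theorem PosI_chain_cons {e : ℤ} {c s : Forest} (h : IsChain (cons e c s)) : s = nil ∧ IsChain c := by
  cases s with
  | nil => exact ⟨rfl, h⟩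
  | cons e' c' s' => exact absurd h (by simp [Forest.IsChain])

/-- a chain whose determinants are not `0, ±1` has a nonzero `P`. -/
theorem PosI_chain_P {s : Forest} (h : IsChain s) (hL : LeavesOK s) : (PQ s).1 ≠ 0 := by
  cases s with
  | nil => simp [PQ]
  | cons e c s =>
    obtain ⟨rfl, hc⟩ := PosI_chain_cons h
    have h2 := hL.1 hc
    rw [(PosI_det_PQ e c nil).1]
    simp only [PQ, mul_one]
    intro h0
    rw [h0] at h2
    simp at h2

/-- The case of a tree with determinant different from zero, `z = none`. -/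
theorem PosI_N {e : ℤ} {c s : Forest} {n g P : ℚ} (hnd : n = ((det e c : ℤ) : ℚ))
    (hn0 : det e c ≠ 0)
    (hP0 : P = ((PQ s).1 : ℚ)) (hPs : (PQ s).1 ≠ 0)
    (hE : e1 (fd (cons e c s)).1.P = e1 (fd s).1.P + g)
    (hE2 : (fd (cons e c s)).1.e2 = (fd s).1.e2 + g * e1 (fd s).1.P)
    (hch : IsChain c → n ^ 2 * (1 - g) = 1) (hnch : ¬ IsChain c → n ^ 2 * (1 - g) ≤ -1)
    (hs : PosN s) (hse : LeavesOK s → 0 ≤ e1 (fd s).1.P) : PosN (cons e c s) := by
  have hn1 : 1 ≤ n ^ 2 := by rw [hnd]; exact PosI_intsq hn0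
  have hP1 : 1 ≤ P ^ 2 := by rw [hP0]; exact PosI_intsq hPs
  have hPF : (((PQ (cons e c s)).1 : ℤ) : ℚ) = n * P := by
    rw [(PosI_det_PQ e c s).1, hnd, hP0]; push_cast; ring
  have hV : Vv (cons e c s) = n ^ 2 * Vv s + n ^ 2 * g * P ^ 2 := by
    unfold Vv
    rw [hPF, hE, ← hP0]
    ring
  have hU : Uu (cons e c s) = n ^ 2 * Uu s + n ^ 2 * g * Vv s := by
    unfold Uu Vv
    rw [hPF, hE, hE2, ← hP0]
    ring
  have hTW : LeavesOK (cons e c s) → 2 ≤ n ^ 2 * g ∧ |n ^ 2 * (1 - g)| ≤ n ^ 2 * g - 1 ∧ 0 < g := by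
    intro hL
    apply PosI_tw hn1
    by_cases hc : IsChain c
    · left
      refine ⟨hch hc, ?_⟩
      rw [hnd]; exact PosI_four (hL.1 hc)
    · right; exact hnch hc
  -- the data of `s` with one tree
  have h1s : LeavesOK s → len s = 1 → 2 ≤ P ^ 2 + Vv s ∧ |-Vv s| ≤ P ^ 2 + Vv s - 1 := by
    intro hLs hl
    obtain ⟨-, hw⟩ := hs.uv1 hLs hl
    rw [← hP0] at hw
    refine ⟨hw, ?_⟩
    by_cases hc : IsChain s
    · have h4 := hs.single hl hLs hc
      rw [← hP0] at h4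
      rw [hs.chain hc]
      rw [abs_le]; constructor <;> linarith
    · have h4 := hs.nchain (fun _ => hLs) hc
      rw [abs_le]; constructor <;> linarith
  have hnils : s = nil → Vv s = -1 ∧ Uu s = 1 ∧ P ^ 2 = 1 := by
    rintro rfl
    refine ⟨?_, ?_, ?_⟩
    · simp [Vv, PQ, fd, Pool.Agent.Lib.MP_f2058c_gt.e1]
    · simp [Uu, PQ, fd, Pool.Agent.Lib.MP_f2058c_gt.e1]
    · rw [hP0]; simp [PQ]
  have hlenF : len (cons e c s) = len s + 1 := rfl
  refine ⟨?_, ?_, ?_, ?_, ?_, ?_, ?_⟩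
  · -- chain
    intro h
    obtain ⟨hsn, hc⟩ := PosI_chain_cons h
    obtain ⟨h1, h2, h3⟩ := hnils hsn
    rw [hV, h1, h3]
    have := hch hc
    linarith
  · -- nchain
    intro hgood hnc
    by_cases hsn : s = nil
    · obtain ⟨h1, h2, h3⟩ := hnils hsn
      have hc : ¬ IsChain c := by
        intro hc
        apply hnc
        subst hsn
        exact hc
      rw [hV, h1, h3]
      have := hnch hc
      linarith
    · have hl1 : 1 ≤ len s := by
        rcases Nat.eq_zero_or_pos (len s) with h | h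
        · exact absurd (PosI_len_nil h) hsn
        · exact h
      have hL : LeavesOK (cons e c s) := hgood (by rw [hlenF]; omega)
      obtain ⟨hw2, hR, hg0⟩ := hTW hL
      have hLs : LeavesOK s := hL.2
      by_cases hl : len s = 1
      · obtain ⟨hws, hRs⟩ := h1s hLs hl
        have hp := PosI_prod hw2 hws hR hRs
        have h5 := (abs_le.mp hp).2
        rw [hV]
        nlinarith
      · have hnch' : ¬ IsChain s := fun h => by have := chain_len h; omega
        have h4 := hs.nchain (fun _ => hLs) hnch'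
        rw [hV]
        have h6 : 1 ≤ n ^ 2 * Vv s := by nlinarith
        have h7 : 0 ≤ n ^ 2 * g * P ^ 2 := by positivity
        linarith
  · -- one
    intro h1 hL
    rw [hPF] at h1
    have hi : (det e c) ^ 2 * (PQ s).1 ^ 2 = 1 := by
      have : (((det e c) ^ 2 * (PQ s).1 ^ 2 : ℤ) : ℚ) = 1 := by
        push_cast; rw [← hnd, ← hP0]; linarith
      exact_mod_cast this
    have ha : 1 ≤ (det e c) ^ 2 := by
      have : 0 < (det e c) ^ 2 := by positivity
      omega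
    have hb : 1 ≤ (PQ s).1 ^ 2 := by
      have : 0 < (PQ s).1 ^ 2 := by positivity
      omega
    obtain ⟨ha1, hb1⟩ := PosI_mul_one ha hb hi
    have hn2 : n ^ 2 = 1 := by rw [hnd]; exact_mod_cast ha1
    have hPs1 : ((PQ s).1 : ℚ) ^ 2 = 1 := by exact_mod_cast hb1
    have hc : ¬ IsChain c := by
      intro hc
      have := PosI_four (hL.1 hc)
      rw [← hnd, hn2] at this
      norm_num at this
    have h5 := hnch hc
    rw [hn2] at h5
    have h6 := hs.one hPs1 hL.2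
    rw [hE, hlenF]
    push_cast
    linarith
  · -- single
    intro hl hL hc
    obtain ⟨hsn, hc'⟩ := PosI_chain_cons hc
    obtain ⟨h1, h2, h3⟩ := hnils hsn
    rw [hPF, mul_pow, h3, mul_one, hnd]
    exact PosI_four (hL.1 hc')
  · -- uv1
    intro hL hl
    have hsn : s = nil := PosI_len_nil (by rw [hlenF] at hl; omega)
    obtain ⟨h1, h2, h3⟩ := hnils hsn
    obtain ⟨hw2, hR, hg0⟩ := hTW hL
    rw [hU, hV, h1, h2, h3, hPF, mul_pow, h3]
    constructor
    · ring
    · linarith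
  · -- uv2
    intro hL hl
    have hl1 : len s = 1 := by rw [hlenF] at hl; omega
    obtain ⟨hw2, hR, hg0⟩ := hTW hL
    obtain ⟨hws, hRs⟩ := h1s hL.2 hl1
    have hp := PosI_prod hw2 hws hR hRs
    have hUs := (hs.uv1 hL.2 hl1).1
    have hUF : Uu (cons e c s) = n ^ 2 * (1 - g) * (-Vv s) := by rw [hU, hUs]; ring
    have hsum : Uu (cons e c s) + Vv (cons e c s) = n ^ 2 * g * (P ^ 2 + Vv s) := by
      rw [hU, hV, hUs]; ring
    rw [hsum]
    constructor
    · nlinarith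
    · rw [hUF]; exact hp
  · -- u3
    intro hL hl
    obtain ⟨hw2, hR, hg0⟩ := hTW hL
    have hl2 : 2 ≤ len s := by rw [hlenF] at hl; omega
    have hnch' : ¬ IsChain s := fun h => by have := chain_len h; omega
    have hVs := hs.nchain (fun _ => hL.2) hnch'
    by_cases hl3 : len s = 2
    · obtain ⟨hM, hUM⟩ := hs.uv2 hL.2 hl3
      have hp := PosI_prod (w := n ^ 2 * g) (v := Uu s + Vv s - 2) hw2 (by linarith) hR (by linarith)
      have h5 := (abs_le.mp hp).1
      rw [hU]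
      nlinarith
    · have hU3 := hs.u3 hL.2 (by omega)
      rw [hU]
      nlinarith

theorem PosI_S {e : ℤ} {c s : Forest} {n g : ℚ} {w : Dat} (hnd : n = ((det e c : ℤ) : ℚ))
    (hn0 : det e c ≠ 0) (hPs : (PQ s).1 = 0) (hsn : s ≠ nil)
    (hE : e1 (fd (cons e c s)).1.P = e1 (fd s).1.P + g)
    (hnch : ¬ IsChain c → n ^ 2 * (1 - g) ≤ -1)
    (hs : PosS s w) : PosS (cons e c s) w := by
  have hlenF : len (cons e c s) = len s + 1 := rfl
  have hl1 : 1 ≤ len s := by
    rcases Nat.eq_zero_or_pos (len s) with h | h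
    · exact absurd (PosI_len_nil h) hsn
    · exact h
  have hncF : ¬ IsChain (cons e c s) := fun h => hsn (PosI_chain_cons h).1
  obtain ⟨m, N, hm, hN, hQ, h1, h2, h3⟩ := hs.ex
  refine ⟨⟨m, (det e c) ^ 2 * N, hm, ?_, ?_, ?_, ?_, ?_⟩, hs.xi, hs.e2, ?_⟩
  · have : 0 < (det e c) ^ 2 := by positivity
    nlinarith
  · rw [(PosI_det_PQ e c s).2, hPs]
    calc ((PQ c).1 * 0 + det e c * (PQ s).2) ^ 2 = (det e c) ^ 2 * (PQ s).2 ^ 2 := by ring
      _ = _ := by rw [hQ]; ring
  · intro h; exact absurd h hncF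
  · intro hg _
    have hL : LeavesOK (cons e c s) := hg (by rw [hlenF]; omega)
    have hnc : ¬ IsChain s := fun h => PosI_chain_P h hL.2 hPs
    exact h2 (fun _ => hL.2) hnc
  · intro hN1 hL
    have ha : 1 ≤ (det e c) ^ 2 := by
      have : 0 < (det e c) ^ 2 := by positivity
      omega
    obtain ⟨ha1, hb1⟩ := PosI_mul_one ha hN hN1
    have hn2 : n ^ 2 = 1 := by rw [hnd]; exact_mod_cast ha1
    have hc : ¬ IsChain c := by
      intro hc
      have := PosI_four (hL.1 hc)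
      rw [← hnd, hn2] at this
      norm_num at this
    have h5 := hnch hc
    rw [hn2] at h5
    have h6 := h3 hb1 hL.2
    rw [hE, hlenF]
    push_cast
    linarith
  · intro h; rw [hlenF] at h; omega

theorem pos_all (F : Forest) (hC : Cop F) (hR : Red F) : PosF F := by
  induction F with
  | nil => exact PosI_nil
  | cons e c s ihc ihs =>
    obtain ⟨hCc, hCs⟩ := Cop_cons hC
    obtain ⟨hgc, hRc, hRs⟩ := hR
    have hPc := ihc hCc hRc
    have hPs := ihs hCs hRs
    have hgoodc : good c := hgc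
    have hlenF : len (cons e c s) = len s + 1 := rfl
    have hgoods : good (cons e c s) → good s := by
      intro h hl
      exact (h (by rw [hlenF]; omega)).2
    by_cases hn : det e c = 0
    · -- determinant zero
      obtain ⟨hcn, hF⟩ := fd_cons_zero (s := s) hCc hn
      have hPQ1 : (PQ (cons e c s)).1 = 0 := by rw [(PosI_det_PQ e c s).1, hn, zero_mul]
      have hPQ2 : (PQ (cons e c s)).2 = (PQ c).1 * (PQ s).1 := by
        rw [(PosI_det_PQ e c s).2, hn, zero_mul, add_zero]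
      have hPs0 : (PQ s).1 ≠ 0 := by
        intro h0
        have hC' : IsCoprime (PQ (cons e c s)).1 (PQ (cons e c s)).2 := hC
        rw [hPQ1, hPQ2, h0, mul_zero] at hC'
        exact not_isCoprime_zero_zero hC'
      have hsn : (fd s).2 = none := by
        rcases hh : (fd s).2 with _ | w
        · rfl
        · exact absurd (fd_some hCs hh) hPs0
      have hPc0 := (fd_none hCc hcn).1
      have hNc := hPc.n hcn
      have hNs := hPs.n hsn
      have hF1 : (fd (cons e c s)).1 = (fd s).1 := by rw [hF]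
      have hF2 : (fd (cons e c s)).2 = some (fd c).1 := by rw [hF]
      refine ⟨?_, ?_, ?_, ?_, ?_⟩
      · intro z; rw [hF1]; exact hPs.xi z
      · intro hg; rw [hF1]; exact hPs.e2 (hgoods hg)
      · intro hL; rw [hF1]; exact hPs.e1 hL.2
      · intro h; rw [hF2] at h; exact absurd h (by simp)
      · intro w hw
        rw [hF2] at hw
        obtain rfl : (fd c).1 = w := Option.some.inj hw
        refine ⟨⟨(PQ c).1, (PQ s).1 ^ 2, hPc0, ?_, ?_, ?_, ?_, ?_⟩, hPc.xi, hPc.e2 hgoodc, ?_⟩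
        · have : 0 < (PQ s).1 ^ 2 := by positivity
          omega
        · rw [hPQ2]; ring
        · intro h
          obtain ⟨hs0, hc⟩ := PosI_chain_cons h
          refine ⟨hNc.chain hc, ?_⟩
          rw [hs0]; simp [PQ]
        · intro hg hnc
          have hc : ¬ IsChain c := by
            intro hc
            by_cases hs0 : s = nil
            · apply hnc; subst hs0; exact hc
            · have hl1 : 1 ≤ len s := by
                rcases Nat.eq_zero_or_pos (len s) with h | h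
                · exact absurd (PosI_len_nil h) hs0
                · exact h
              have hL : LeavesOK (cons e c s) := hg (by rw [hlenF]; omega)
              have := hL.1 hc
              rw [hn] at this
              simp at this
          exact hNc.nchain hgoodc hc
        · intro hN1 hL
          have h6 := hNs.one (by exact_mod_cast hN1) hL.2
          rw [hF1, hlenF]
          push_cast
          linarith
        · intro hl
          have hs0 : s = nil := PosI_len_nil (by rw [hlenF] at hl; omega)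
          rw [hF1, hs0]
          simp [fd, e1]
    · -- determinant not zero
      obtain ⟨hF2, s', κ, hF1⟩ := fd_cons_reg (s := s) hCc hn
      obtain ⟨hch, hnch, hXT⟩ := tree_pos hCc hgoodc hPc hn
      have hE : e1 (fd (cons e c s)).1.P = e1 (fd s).1.P + e1 (treeP e c) := by
        rw [hF1]; simp only [addTree]; rw [e1_add]
      have hE2 : (fd (cons e c s)).1.e2 = (fd s).1.e2 + e1 (treeP e c) * e1 (fd s).1.P := by
        rw [hF1]; rfl
      have hg0 : LeavesOK (cons e c s) → 0 < e1 (treeP e c) := by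
        intro hL
        refine (PosI_tw (n := ((det e c : ℤ) : ℚ)) (PosI_intsq hn) ?_).2.2
        by_cases hc : IsChain c
        · left; exact ⟨hch hc, PosI_four (hL.1 hc)⟩
        · right; exact hnch hc
      refine ⟨?_, ?_, ?_, ?_, ?_⟩
      · intro z
        rw [hF1, Xi_addTree]
        exact add_nonneg (hPs.xi z) (hXT z)
      · intro hg
        rw [hE2]
        by_cases hl : len s = 0
        · have hs0 := PosI_len_nil hl
          rw [hs0]; simp [fd, e1]
        · have hL : LeavesOK (cons e c s) := hg (by rw [hlenF]; omega)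
          have h1 := hPs.e2 (fun _ => hL.2)
          have h2 := hPs.e1 hL.2
          have h3 := hg0 hL
          positivity
      · intro hL
        rw [hE]
        exact add_nonneg (hPs.e1 hL.2) (hg0 hL).le
      · intro hnone
        rw [hF2] at hnone
        exact PosI_N rfl hn rfl (fd_none hCs hnone).1 hE hE2 hch hnch (hPs.n hnone) hPs.e1
      · intro w hw
        rw [hF2] at hw
        have hs0 : s ≠ nil := by
          rintro rfl
          simp [fd] at hw
        exact PosI_S rfl hn (fd_some hCs hw) hs0 hE hnch (hPs.s w hw)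

theorem pos_main (e : ℤ) (F : Forest) (h3 : 3 ≤ len F) (hL : LeavesOK F) (hR : Red F) (hd : |det e F| = 1) :
    2 < 48 * (rt e F).2.2 := by
  have hC := Cop_of_det hd
  have hP := pos_all F hC hR
  have hdet : det e F = e * (PQ F).1 - (PQ F).2 := rfl
  have hd2 : (det e F) ^ 2 = 1 := by rw [← sq_abs, hd]; norm_num
  have hd0 : det e F ≠ 0 := by intro h; rw [h] at hd2; norm_num at hd2
  rcases hh : (fd F).2 with _ | w
  · have hrt : rt e F = rtA (-1 / ((e : ℚ) + (fd F).1.σ)) (fd F).1 := by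
      unfold rt; rw [hh]
    obtain ⟨hP0, hσ⟩ := fd_none hC hh
    have hP0' : ((PQ F).1 : ℚ) ≠ 0 := by exact_mod_cast hP0
    have hd0' : ((det e F : ℤ) : ℚ) ≠ 0 := by exact_mod_cast hd0
    have hdq : ((det e F : ℤ) : ℚ) ^ 2 = 1 := by exact_mod_cast hd2
    have hs : -1 / ((e : ℚ) + (fd F).1.σ) = -((PQ F).1 : ℚ) / ((det e F : ℤ) : ℚ) := by
      have : (e : ℚ) + (fd F).1.σ = ((det e F : ℤ) : ℚ) / ((PQ F).1 : ℚ) := by
        rw [hσ, hdet]; push_cast; field_simp; ring
      rw [this]; field_simp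
    have hs2 : (-1 / ((e : ℚ) + (fd F).1.σ)) ^ 2 = ((PQ F).1 : ℚ) ^ 2 := by
      rw [hs, div_pow, hdq]; ring
    rw [hrt, rtA_c2, hs2]
    have hU := (hP.n hh).u3 hL h3
    have hX := hP.xi (-1 / ((e : ℚ) + (fd F).1.σ))
    have : ((PQ F).1 : ℚ) ^ 2 * (1 - e1 (fd F).1.P + (fd F).1.e2) = Uu F := rfl
    nlinarith
  · have hrt : rt e F = rtB ((e : ℚ) + (fd F).1.σ) w (fd F).1 := by
      unfold rt; rw [hh]
    have hS := hP.s w hh
    obtain ⟨m, N, hm, hN, hQ, h1, h2, h3'⟩ := hS.ex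
    have hP0 := fd_some hC hh
    have hQ1 : (PQ F).2 ^ 2 = 1 := by
      have : (det e F) ^ 2 = (PQ F).2 ^ 2 := by rw [hdet, hP0]; ring
      rw [← this, hd2]
    have hm2 : 1 ≤ m ^ 2 := by
      have : 0 < m ^ 2 := by positivity
      omega
    obtain ⟨hm1, hN1⟩ := PosI_mul_one hm2 hN (by rw [← hQ, hQ1])
    have hnc : ¬ IsChain F := fun h => by have := chain_len h; omega
    have h5 := h2 (fun _ => hL) hnc
    have hm1' : (m : ℚ) ^ 2 = 1 := by exact_mod_cast hm1
    rw [hm1', one_mul] at h5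
    have h6 := h3' hN1 hL
    have h3q : (3 : ℚ) ≤ (len F : ℚ) := by exact_mod_cast h3
    have h7 : 4 ≤ e1 (fd F).1.P := by linarith
    rw [hrt, rtB_c2]
    have hX := hS.xi ((e : ℚ) + (fd F).1.σ)
    have hC0 : 0 ≤ 48 * (fd F).1.P.C := by
      have := hP.xi 0
      simpa [Xi] using this
    have hE2 := hS.e2
    have h8 : 0 ≤ 2 * ((e : ℚ) + (fd F).1.σ) ^ 2 * w.e2 := by positivity
    have h9 : 3 ≤ (1 - e1 (fd F).1.P) * (1 - e1 w.P) := by nlinarith
    nlinarith

end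

end Pool.Agent.Lib.MP_f2058c_gt
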