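import Mathlib
import Pool.Agent.Lib.MP_f2058c_gt.Fin1
import Pool.Agent.Lib.MP_f2058c_gt.Fin2
import Pool.Agent.Lib.MP_f2058c_gt.PosI

/-!
# The final assembly
-/

set_option autoImplicit false

namespace Pool.Agent.Lib.MP_f2058c_gt

open Finset Forest

noncomputable section

theorem two_lt_C2 (L : List (ℤ × Forest)) (hL : L ≠ [])
    (h : ∀ T ∈ L, 3 ≤ len T.2 ∧ LeavesOK T.2 ∧ Red T.2 ∧ |det T.1 T.2| = 1) :
    2 * (L.length : ℚ) < 48 * C2L L := by
  induction L with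
  | nil => exact absurd rfl hL
  | cons T L ih =>
    obtain ⟨h3, h4, h5, h6⟩ := h T (by simp)
    have hT := pos_main T.1 T.2 h3 h4 h5 h6
    have hC : C2L (T :: L) = (rt T.1 T.2).2.2 + C2L L := by simp [C2L]
    rw [hC, List.length_cons]
    push_cast
    by_cases hL' : L = []
    · subst hL'
      simp only [List.length_nil, C2L, List.map_nil, List.sum_nil]
      push_cast
      linarith
    · have := ih hL' (fun T' hT' => h T' (List.mem_cons_of_mem _ hT'))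
      linarith

/-- The product of the unknots. -/
theorem unknot_prod (p : ℕ) [Fact p.Prime] (hp : 2 < p) (bp bm : ℕ) :
    ∃ ε : ℂ, (ε = 1 ∨ ε = -1) ∧
      unknot p 1 ^ bp * unknot p (-1) ^ bm =
        ε * chi p (-(3 * ((bp : ZMod p) - (bm : ZMod p))) / 2) * DD p 1 ^ (-((bp + bm : ℕ) : ℤ)) *
          gg p 1 ^ ((bp + bm : ℕ) : ℤ) := by
  have hm1 : (-1 : ZMod p) ≠ 0 := neg_ne_zero.mpr one_ne_zero
  have hD : DD p 1 ≠ 0 := DD_ne_zero p hp 1 one_ne_zero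
  obtain ⟨δ, hδ, hg⟩ : ∃ δ : ℂ, (δ = 1 ∨ δ = -1) ∧ gg p (-1) = δ * gg p 1 := by
    rcases gg_sign p hp (-1) hm1 with h | h
    · exact ⟨1, Or.inl rfl, by rw [h, one_mul]⟩
    · exact ⟨-1, Or.inr rfl, by rw [h]; ring⟩
  rw [unknot_one p hp, unknot_neg p hp, hg]
  refine ⟨(-1) ^ bp * δ ^ bm, ?_, ?_⟩
  · rcases hδ with rfl | rfl
    · rw [one_pow, mul_one]
      exact neg_one_pow_eq_or ℂ bp
    · rw [← pow_add]
      exact neg_one_pow_eq_or ℂ (bp + bm)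
  · have e1 : chi p (-(3 * ((bp : ZMod p) - (bm : ZMod p))) / 2) = chi p (-3 / 2) ^ bp * chi p (3 / 2) ^ bm := by
      rw [← chi_nat_mul, ← chi_nat_mul, ← chi_add]
      congr 1
      ring
    have e2 : DD p 1 ^ (-((bp + bm : ℕ) : ℤ)) = (DD p 1)⁻¹ ^ bp * (DD p 1)⁻¹ ^ bm := by
      rw [← pow_add, zpow_neg, zpow_natCast, inv_pow]
    have e3 : gg p 1 ^ ((bp + bm : ℕ) : ℤ) = gg p 1 ^ bp * gg p 1 ^ bm := by
      rw [← pow_add, zpow_natCast]
    rw [e1, e2, e3, neg_pow, mul_pow, mul_pow, mul_pow, mul_pow, mul_pow]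
    ring

theorem final (L : List (ℤ × Forest)) (hL : L ≠ [])
    (h : ∀ T ∈ L, 3 ≤ len T.2 ∧ LeavesOK T.2 ∧ Red T.2 ∧ |det T.1 T.2| = 1) :
    ∃ p₀ : ℕ, ∀ p : ℕ, p.Prime → p₀ ≤ p → ∀ bp bm : ℕ, bp + bm = cardL L → tau p L bp bm ≠ 1 := by
  obtain ⟨N, hN⟩ := list_rep L (fun T hT => (h T hT).2.2.2)
  have hC := two_lt_C2 L hL h
  have hM : (C2L L - (L.length : ℚ) / 24).num ≠ 0 := by
    intro h0
    have h1 := Rat.num_eq_zero.mp h0
    linarith
  refine ⟨max (max N 7) ((C2L L - (L.length : ℚ) / 24).num.natAbs + 1), ?_⟩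
  intro p hp hpp bp bm hb htau
  have hf : Fact p.Prime := ⟨hp⟩
  have h7 : 7 ≤ p := le_trans (le_trans (le_max_right _ _) (le_max_left _ _)) hpp
  have hNp : N ≤ p := le_trans (le_trans (le_max_left _ _) (le_max_left _ _)) hpp
  have hMp : (C2L L - (L.length : ℚ) / 24).num.natAbs + 1 ≤ p := le_trans (le_max_right _ _) hpp
  have hp2 : 2 < p := by omega
  have hD : DD p 1 ≠ 0 := DD_ne_zero p hp2 1 one_ne_zero
  have hg : gg p 1 ≠ 0 := gg_ne_zero p hp2 1 one_ne_zero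
  obtain ⟨J, ε, w, hε, hw, h0, h1, h2, hprod, hJ⟩ := hN p hNp
  obtain ⟨ε', hε', hun⟩ := unknot_prod p hp2 bp bm
  have hden : unknot p 1 ^ bp * unknot p (-1) ^ bm ≠ 0 := by
    intro hz
    rw [tau, hz, div_zero] at htau
    exact zero_ne_one htau
  rw [tau, div_eq_one_iff_eq hden, hprod, hun, hb] at htau
  have hεi : ε * ε = 1 := by rcases hε with rfl | rfl <;> norm_num
  have hz1 : DD p 1 ^ (-((cardL L : ℤ) + L.length)) = DD p 1 ^ (-(cardL L : ℤ)) * (DD p 1 ^ L.length)⁻¹ := by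
    rw [neg_add, zpow_add₀ hD, zpow_neg (DD p 1) (L.length : ℤ), zpow_natCast]
  rw [hz1] at htau
  have hDn : DD p 1 ^ L.length ≠ 0 := pow_ne_zero _ hD
  have hDc : DD p 1 ^ (-(cardL L : ℤ)) ≠ 0 := zpow_ne_zero _ hD
  have hgc : gg p 1 ^ (cardL L : ℤ) ≠ 0 := zpow_ne_zero _ hg
  have hchi : chi p (-(trL L : ZMod p) / 2) * chi p ((trL L : ZMod p) / 2) = 1 := by
    rw [← chi_add, neg_div, neg_add_cancel, chi_zero]
  have hhalf : ((1 : ℂ) / 2) ^ L.length * 2 ^ L.length = 1 := by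
    rw [← mul_pow]; norm_num
  have hJ2 : J = (ε * ε') * 2 ^ L.length * DD p 1 ^ L.length *
      chi p (((trL L - 3 * ((bp : ℤ) - (bm : ℤ)) : ℤ) : ZMod p) / 2) := by
    have e4 : chi p (((trL L - 3 * ((bp : ℤ) - (bm : ℤ)) : ℤ) : ZMod p) / 2) =
        chi p ((trL L : ZMod p) / 2) * chi p (-(3 * ((bp : ZMod p) - (bm : ZMod p))) / 2) := by
      rw [← chi_add]
      congr 1
      push_cast
      ring
    rw [e4]
    have key : ε * (1 / 2) ^ L.length * chi p (-(trL L : ZMod p) / 2) * (DD p 1 ^ L.length)⁻¹ * J =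
        ε' * chi p (-(3 * ((bp : ZMod p) - (bm : ZMod p))) / 2) := by
      have hne : DD p 1 ^ (-(cardL L : ℤ)) * gg p 1 ^ (cardL L : ℤ) ≠ 0 := mul_ne_zero hDc hgc
      apply mul_right_cancel₀ hne
      linear_combination htau
    calc J = (ε * ε) * ((1 / 2) ^ L.length * 2 ^ L.length) *
          (chi p (-(trL L : ZMod p) / 2) * chi p ((trL L : ZMod p) / 2)) *
          ((DD p 1 ^ L.length)⁻¹ * DD p 1 ^ L.length) * J := by
          rw [hεi, hhalf, hchi, inv_mul_cancel₀ hDn]; ring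
      _ = ε * 2 ^ L.length * chi p ((trL L : ZMod p) / 2) * DD p 1 ^ L.length *
          (ε * (1 / 2) ^ L.length * chi p (-(trL L : ZMod p) / 2) * (DD p 1 ^ L.length)⁻¹ * J) := by ring
      _ = _ := by rw [key]; ring
  have hεε : ε * ε' = 1 ∨ ε * ε' = -1 := by
    rcases hε with rfl | rfl <;> rcases hε' with rfl | rfl <;> norm_num
  have hdvd := extract p h7 L.length (C0L L) (C1L L) (C2L L) (trL L - 3 * ((bp : ℤ) - (bm : ℤ))) (ε * ε') w hεε hw
    h0 h1 h2 (by rw [← hJ, hJ2])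
  have h3 : p ≤ (C2L L - (L.length : ℚ) / 24).num.natAbs := by
    have h4 := Int.natAbs_dvd_natAbs.mpr hdvd
    rw [Int.natAbs_natCast] at h4
    exact Nat.le_of_dvd (Int.natAbs_pos.mpr hM) h4
  omega

end

end Pool.Agent.Lib.MP_f2058c_gt
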