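import Mathlib
import Pool.Agent.Lib.MP_f2058c_gt.Defs

/-!
# The function `Forest.det` is the determinant of the linking matrix

`V F`: vertices of the forest, `link F`: linking matrix of the forest (weights on the diagonal, `1` for every edge),
`linkT e F`: linking matrix of the plumbing tree `(e, F)`.
-/

set_option autoImplicit false

namespace Pool.Agent.Lib.MP_f2058c_gt

open Matrix

namespace Forest

/-- Vertices of a forest: the root of the first tree, the vertices below it, the vertices of the other trees. -/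
def V : Forest → Type
  | nil => Empty
  | cons _ c s => (Unit ⊕ V c) ⊕ V s

instance decV : (F : Forest) → DecidableEq (V F)
  | nil => inferInstanceAs (DecidableEq Empty)
  | cons _ c s => by
    have := decV c
    have := decV s
    exact inferInstanceAs (DecidableEq ((Unit ⊕ V c) ⊕ V s))

instance finV : (F : Forest) → Fintype (V F)
  | nil => inferInstanceAs (Fintype Empty)
  | cons _ c s => by
    have := finV c
    have := finV s
    exact inferInstanceAs (Fintype ((Unit ⊕ V c) ⊕ V s))

/-- Indicator function of the roots. -/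
def root : (F : Forest) → V F → ℤ
  | nil => fun v => v.elim
  | cons _ _ s => Sum.elim (Sum.elim (fun _ => 1) (fun _ => 0)) (root s)

/-- Add a vertex of weight `e` joined to the vertices with `r = 1`. -/
def border {α : Type} (e : ℤ) (r : α → ℤ) (A : Matrix α α ℤ) : Matrix (Unit ⊕ α) (Unit ⊕ α) ℤ :=
  fromBlocks (of fun _ _ => e) (of fun _ v => r v) (of fun v _ => r v) A

/-- Linking matrix of a forest. -/
def link : (F : Forest) → Matrix (V F) (V F) ℤ
  | nil => of fun v => v.elim
  | cons e c s => fromBlocks (border e (root c) (link c)) 0 0 (link s)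

/-- Linking matrix of the plumbing tree `(e, F)`. -/
def linkT (e : ℤ) (F : Forest) : Matrix (Unit ⊕ V F) (Unit ⊕ V F) ℤ := border e (root F) (link F)

theorem det_border_add {α : Type} [Fintype α] [DecidableEq α] (e : ℤ) (r : α → ℤ) (A : Matrix α α ℤ) :
    (border e r A).det = e * A.det + (border 0 r A).det := by
  have h : border e r A = updateRow (border 0 r A) (Sum.inl ())
      ((Sum.elim (fun _ => e) (fun _ => 0)) + (Sum.elim (fun _ => 0) r)) := by
    ext i j
    rcases i with ⟨⟩ | i
    · rw [updateRow_self]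
      rcases j with ⟨⟩ | j <;> simp [border]
    · rw [updateRow_ne (by simp)]
      rcases j with ⟨⟩ | j <;> simp [border]
  rw [h, det_updateRow_add]
  congr 1
  · have h2 : updateRow (border 0 r A) (Sum.inl ()) (Sum.elim (fun _ => e) (fun _ => 0)) =
        fromBlocks (of fun _ _ => e) 0 (of fun v _ => r v) A := by
      ext i j
      rcases i with ⟨⟩ | i
      · rw [updateRow_self]
        rcases j with ⟨⟩ | j <;> simp
      · rw [updateRow_ne (by simp)]
        rcases j with ⟨⟩ | j <;> simp [border]
    rw [h2, det_fromBlocks_zero₁₂]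
    simp
  · congr 1
    ext i j
    rcases i with ⟨⟩ | i
    · rw [updateRow_self]
      rcases j with ⟨⟩ | j <;> simp [border]
    · rw [updateRow_ne (by simp)]

/-- Matrix with a border (row `r`, column `c`) around `A`. -/
def bord2 {α : Type} (r c : α → ℤ) (A : Matrix α α ℤ) : Matrix (Unit ⊕ α) (Unit ⊕ α) ℤ :=
  fromBlocks 0 (of fun _ v => r v) (of fun v _ => c v) A

theorem bord2_row {α : Type} [Fintype α] [DecidableEq α] (r r' c : α → ℤ) (A : Matrix α α ℤ) :
    (bord2 (r + r') c A).det = (bord2 r c A).det + (bord2 r' c A).det := by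
  have h : ∀ r0 : α → ℤ, bord2 r0 c A = updateRow (bord2 0 c A) (Sum.inl ()) (Sum.elim (fun _ => 0) r0) := by
    intro r0
    ext i j
    rcases i with ⟨⟩ | i
    · rw [updateRow_self]
      rcases j with ⟨⟩ | j <;> simp [bord2]
    · rw [updateRow_ne (by simp)]
      rcases j with ⟨⟩ | j <;> simp [bord2]
  have h2 : (Sum.elim (fun _ => 0) (r + r') : Unit ⊕ α → ℤ) = Sum.elim (fun _ => 0) r + Sum.elim (fun _ => 0) r' := by
    ext j
    rcases j with ⟨⟩ | j <;> simp
  rw [h (r + r'), h2, det_updateRow_add, ← h r, ← h r']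

theorem bord2_transpose {α : Type} (r c : α → ℤ) (A : Matrix α α ℤ) :
    (bord2 r c A)ᵀ = bord2 c r Aᵀ := by
  ext i j
  rcases i with ⟨⟩ | i <;> rcases j with ⟨⟩ | j <;> simp [bord2]

theorem bord2_col {α : Type} [Fintype α] [DecidableEq α] (r c c' : α → ℤ) (A : Matrix α α ℤ) :
    (bord2 r (c + c') A).det = (bord2 r c A).det + (bord2 r c' A).det := by
  rw [← det_transpose, bord2_transpose, bord2_row, ← bord2_transpose, ← bord2_transpose, det_transpose,
    det_transpose]

theorem bord2_left {α β : Type} [Fintype α] [DecidableEq α] [Fintype β] [DecidableEq β]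
    (r c : α → ℤ) (A : Matrix α α ℤ) (c' : β → ℤ) (B : Matrix β β ℤ) :
    (bord2 (Sum.elim r 0) (Sum.elim c c') (fromBlocks A 0 0 B)).det = (bord2 r c A).det * B.det := by
  rw [← det_submatrix_equiv_self (Equiv.sumAssoc Unit α β)]
  have h : (bord2 (Sum.elim r 0) (Sum.elim c c') (fromBlocks A 0 0 B)).submatrix (Equiv.sumAssoc Unit α β)
      (Equiv.sumAssoc Unit α β) =
      fromBlocks (bord2 r c A) 0 (of fun v w => Sum.elim (fun _ => c' v) (fun _ => 0) w) B := by
    ext i j
    rcases i with (⟨⟩ | i) | i <;> rcases j with (⟨⟩ | j) | j <;> simp [bord2]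
  rw [h, det_fromBlocks_zero₁₂]

theorem bord2_mixed {α β : Type} [Fintype α] [DecidableEq α] [Fintype β] [DecidableEq β]
    (c : α → ℤ) (A : Matrix α α ℤ) (r' : β → ℤ) (B : Matrix β β ℤ) :
    (bord2 (Sum.elim 0 r') (Sum.elim c 0) (fromBlocks A 0 0 B)).det = 0 := by
  rw [← det_submatrix_equiv_self (Equiv.sumAssoc Unit α β)]
  have h : (bord2 (Sum.elim 0 r') (Sum.elim c 0) (fromBlocks A 0 0 B)).submatrix (Equiv.sumAssoc Unit α β)
      (Equiv.sumAssoc Unit α β) =
      fromBlocks (bord2 0 c A) (of fun w v => Sum.elim (fun _ => r' v) (fun _ => 0) w) 0 B := by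
    ext i j
    rcases i with (⟨⟩ | i) | i <;> rcases j with (⟨⟩ | j) | j <;> simp [bord2]
  rw [h, det_fromBlocks_zero₂₁]
  have h0 : (bord2 0 c A).det = 0 := by
    apply det_eq_zero_of_row_eq_zero (Sum.inl ())
    intro j
    rcases j with ⟨⟩ | j <;> simp [bord2]
  rw [h0, zero_mul]

theorem bord2_swap {α β : Type} [Fintype α] [DecidableEq α] [Fintype β] [DecidableEq β]
    (r c : α ⊕ β → ℤ) (A : Matrix α α ℤ) (B : Matrix β β ℤ) :
    (bord2 r c (fromBlocks A 0 0 B)).det =
      (bord2 (r ∘ Sum.swap) (c ∘ Sum.swap) (fromBlocks B 0 0 A)).det := by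
  rw [← det_submatrix_equiv_self (Equiv.sumCongr (Equiv.refl Unit) (Equiv.sumComm β α))]
  congr 1
  ext i j
  rcases i with ⟨⟩ | (i | i) <;> rcases j with ⟨⟩ | (j | j) <;> simp [bord2]

theorem border_eq_bord2 {α : Type} (r : α → ℤ) (A : Matrix α α ℤ) : border 0 r A = bord2 r r A := by
  ext i j
  rcases i with ⟨⟩ | i <;> rcases j with ⟨⟩ | j <;> simp [bord2, border]

theorem det_border_block {α β : Type} [Fintype α] [DecidableEq α] [Fintype β] [DecidableEq β]
    (r : α → ℤ) (A : Matrix α α ℤ) (r' : β → ℤ) (B : Matrix β β ℤ) :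
    (border 0 (Sum.elim r r') (fromBlocks A 0 0 B)).det =
      (border 0 r A).det * B.det + A.det * (border 0 r' B).det := by
  rw [border_eq_bord2, border_eq_bord2, border_eq_bord2]
  have hs : (Sum.elim r r' : α ⊕ β → ℤ) = Sum.elim r (0 : β → ℤ) + Sum.elim (0 : α → ℤ) r' := by
    ext j
    rcases j with j | j <;> simp
  have h1 : (bord2 (Sum.elim r r') (Sum.elim r r') (fromBlocks A 0 0 B)).det =
      (bord2 (Sum.elim r 0) (Sum.elim r r') (fromBlocks A 0 0 B)).det +
      (bord2 (Sum.elim 0 r') (Sum.elim r r') (fromBlocks A 0 0 B)).det := by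
    rw [← bord2_row, ← hs]
  have h2 : (bord2 (Sum.elim 0 r') (Sum.elim r r') (fromBlocks A 0 0 B)).det =
      (bord2 (Sum.elim 0 r') (Sum.elim r 0) (fromBlocks A 0 0 B)).det +
      (bord2 (Sum.elim 0 r') (Sum.elim 0 r') (fromBlocks A 0 0 B)).det := by
    rw [← bord2_col, ← hs]
  have h3 : (bord2 (Sum.elim 0 r') (Sum.elim 0 r') (fromBlocks A 0 0 B)).det =
      (bord2 r' r' B).det * A.det := by
    rw [bord2_swap]
    have e : (Sum.elim 0 r' : α ⊕ β → ℤ) ∘ Sum.swap = Sum.elim r' (0 : α → ℤ) := by
      ext j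
      rcases j with j | j <;> simp
    rw [e, bord2_left]
  rw [h1, h2, h3, bord2_left, bord2_mixed]
  ring

theorem det_border_border {α : Type} [Fintype α] [DecidableEq α] (e : ℤ) (r : α → ℤ) (A : Matrix α α ℤ) :
    (border 0 (Sum.elim (fun _ => 1) (fun _ => 0)) (border e r A)).det = -A.det := by
  have h1 := det_permute (Equiv.swap (Sum.inl () : Unit ⊕ (Unit ⊕ α)) (Sum.inr (Sum.inl ())))
    (border 0 (Sum.elim (fun _ => 1) (fun _ => 0)) (border e r A))
  have h2 : (border 0 (Sum.elim (fun _ => 1) (fun _ => 0)) (border e r A)).submatrix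
      (Equiv.swap (Sum.inl () : Unit ⊕ (Unit ⊕ α)) (Sum.inr (Sum.inl ()))) id =
      fromBlocks (of fun _ _ => 1) (of fun _ v => Sum.elim (fun _ => e) r v) 0
        (fromBlocks (of fun _ _ => 1) 0 (of fun v _ => r v) A) := by
    ext i j
    rcases i with ⟨⟩ | (⟨⟩ | i)
    · rcases j with ⟨⟩ | (⟨⟩ | j) <;> simp [border]
    · rcases j with ⟨⟩ | (⟨⟩ | j) <;> simp [border]
    · have : Equiv.swap (Sum.inl () : Unit ⊕ (Unit ⊕ α)) (Sum.inr (Sum.inl ())) (Sum.inr (Sum.inr i)) =
          Sum.inr (Sum.inr i) := Equiv.swap_apply_of_ne_of_ne (by simp) (by simp)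
      rcases j with ⟨⟩ | (⟨⟩ | j) <;> simp [border, this]
  rw [h2, det_fromBlocks_zero₂₁, det_fromBlocks_zero₁₂, Equiv.Perm.sign_swap (by simp)] at h1
  simp at h1
  linarith

theorem link_det (F : Forest) : (link F).det = (PQ F).1 ∧ (border 0 (root F) (link F)).det = -(PQ F).2 := by
  induction F with
  | nil =>
    constructor
    · have : IsEmpty (V nil) := inferInstanceAs (IsEmpty Empty)
      rw [det_isEmpty]
      rfl
    · have : IsEmpty (V nil) := inferInstanceAs (IsEmpty Empty)
      have h : border 0 (root nil) (link nil) = 0 := by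
        ext i j
        rcases i with ⟨⟩ | i
        · rcases j with ⟨⟩ | j
          · simp [border]
          · exact this.elim j
        · exact this.elim i
      rw [h, det_zero]
      rfl
  | cons e c s ihc ihs =>
    obtain ⟨hc1, hc2⟩ := ihc
    obtain ⟨hs1, hs2⟩ := ihs
    have hT : (border e (root c) (link c)).det = e * (PQ c).1 - (PQ c).2 := by
      rw [det_border_add, hc1, hc2]; ring
    constructor
    · have h : (link (cons e c s)).det = (border e (root c) (link c)).det * (link s).det := by
        exact det_fromBlocks_zero₁₂ _ _ _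
      rw [h, hT, hs1]
      rfl
    · have h : (border 0 (root (cons e c s)) (link (cons e c s))).det =
          (border 0 (Sum.elim (fun _ => 1) (fun _ => 0)) (border e (root c) (link c))).det * (link s).det +
            (border e (root c) (link c)).det * (border 0 (root s) (link s)).det :=
        det_border_block _ _ _ _
      have h4 : (border 0 (Sum.elim (fun _ => 1) (fun _ => 0)) (border e (root c) (link c))).det =
          -(link c).det := by
        exact det_border_border e (root c) (link c)
      rw [h, h4, hT, hs1, hs2, hc1]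
      simp only [PQ]
      ring

/-- `Forest.det e F` is the determinant of the linking matrix of the plumbing tree `(e, F)`. -/
theorem det_eq_linkT (e : ℤ) (F : Forest) : (linkT e F).det = det e F := by
  rw [linkT, det_border_add, (link_det F).1, (link_det F).2, det]
  ring

end Forest

end Pool.Agent.Lib.MP_f2058c_gt
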